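import Pool.Agent.H763.HenDefs

set_option autoImplicit false

namespace Pool.Agent.H763.Hen

theorem mp_form (S : Subring ℂ) (z : ℕ → ℂ) (hz : ∀ k, z k ∈ S) (n : ℕ) :
    ∃ α ∈ S, ∃ β ∈ S, ∃ γ ∈ S, ∃ δ ∈ S, ∃ g ∈ S, ∃ b ∈ S, ∃ e ∈ S,
      mp z (2 * n) = !![1 + 4 * α, 2 * β; 2 * γ, 1 + 4 * δ] ∧
      γ = (∑ i ∈ Finset.range n, z (2 * i + 2)) + 4 * g ∧
      β = (∑ i ∈ Finset.range n, z (2 * i + 1)) + 4 * b ∧
      α + δ = (∑ i ∈ Finset.range n, z (2 * i + 1)) * (∑ i ∈ Finset.range n, z (2 * i + 2)) +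
        4 * e := by
  have h4 : (4 : ℂ) ∈ S := ofNat_mem S 4
  induction n with
  | zero =>
    refine ⟨0, S.zero_mem, 0, S.zero_mem, 0, S.zero_mem, 0, S.zero_mem, 0, S.zero_mem, 0,
      S.zero_mem, 0, S.zero_mem, ?_, ?_, ?_, ?_⟩
    · simp [mp, Matrix.one_fin_two]
    · simp
    · simp
    · simp
  | succ n ih =>
    obtain ⟨α, hα, β, hβ, γ, hγ, δ, hδ, g, hg, b, hb, e, he, hM, h1, h2, h3⟩ := ih
    set x := z (2 * n + 1) with hx
    set y := z (2 * n + 2) with hy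
    have hxS : x ∈ S := hz _
    have hyS : y ∈ S := hz _
    have m3 : ∀ {u v w : ℂ}, u ∈ S → v ∈ S → w ∈ S → u * v * w ∈ S := fun hu hv hw =>
      S.mul_mem (S.mul_mem hu hv) hw
    refine ⟨α + x * γ, S.add_mem hα (S.mul_mem hxS hγ),
      β + x + 4 * (x * δ), S.add_mem (S.add_mem hβ hxS) (S.mul_mem h4 (S.mul_mem hxS hδ)),
      γ + y + 4 * (y * α) + 4 * (x * y * γ),
      S.add_mem (S.add_mem (S.add_mem hγ hyS) (S.mul_mem h4 (S.mul_mem hyS hα)))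
        (S.mul_mem h4 (m3 hxS hyS hγ)),
      δ + y * β + x * y + 4 * (x * y * δ),
      S.add_mem (S.add_mem (S.add_mem hδ (S.mul_mem hyS hβ)) (S.mul_mem hxS hyS))
        (S.mul_mem h4 (m3 hxS hyS hδ)),
      g + y * α + x * y * γ, S.add_mem (S.add_mem hg (S.mul_mem hyS hα)) (m3 hxS hyS hγ),
      b + x * δ, S.add_mem hb (S.mul_mem hxS hδ),
      e + x * g + y * b + x * y * δ,
      S.add_mem (S.add_mem (S.add_mem he (S.mul_mem hxS hg)) (S.mul_mem hyS hb))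
        (m3 hxS hyS hδ), ?_, ?_, ?_, ?_⟩
    · have e0 : 2 * (n + 1) = 2 * n + 1 + 1 := by ring
      rw [e0]
      simp only [mp]
      rw [hM]
      simp only [stp, ← hx]
      have hy' : z (2 * n + 1 + 1) = y := rfl
      rw [hy']
      ext i j
      fin_cases i <;> fin_cases j <;>
        simp [Matrix.mul_apply, Fin.sum_univ_two] <;> ring
    · rw [Finset.sum_range_succ, h1]; ring
    · rw [Finset.sum_range_succ, h2]; ring
    · rw [Finset.sum_range_succ, Finset.sum_range_succ, ← hx, ← hy]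
      linear_combination h3 + x * h1 + y * h2

/-- TARGET. -/
theorem trace_exp (S : Subring ℂ) (z : ℕ → ℂ) (hz : ∀ k, z k ∈ S) (n : ℕ) :
    ∃ c ∈ S, (mp z (2 * n)).trace = 2 + 4 * (∑ i ∈ Finset.range n, z (2 * i + 1)) *
      (∑ i ∈ Finset.range n, z (2 * i + 2)) + 16 * c := by
  obtain ⟨α, hα, β, hβ, γ, hγ, δ, hδ, g, hg, b, hb, e, he, hM, h1, h2, h3⟩ :=
    mp_form S z hz n
  refine ⟨e, he, ?_⟩
  rw [hM, Matrix.trace_fin_two]
  simp only [Matrix.cons_val', Matrix.cons_val_zero, Matrix.cons_val_one, Matrix.of_apply,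
    Matrix.cons_val_fin_one]
  linear_combination 4 * h3


end Pool.Agent.H763.Hen
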