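import Mathlib

set_option autoImplicit false

namespace Pool.Agent.H763.Hen


/-- TARGET 1. -/
theorem exists_val : ∃ V : ValuationSubring ℂ, V.valuation 2 < 1 := by
  have h := Ideal.image_subset_nonunits_valuationSubring (K := ℂ)
    (A := (Int.castRingHom ℂ).range)
    (Ideal.span {(⟨(2 : ℂ), ⟨2, by simp⟩⟩ : (Int.castRingHom ℂ).range)})
    (by
      rw [Ne, Ideal.span_singleton_eq_top, isUnit_iff_exists_inv]
      rintro ⟨⟨b, ⟨n, hn⟩⟩, hb⟩
      have hb' : (2 : ℂ) * b = 1 := congrArg Subtype.val hb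
      have hn' : (n : ℂ) = b := by simpa using hn
      rw [← hn'] at hb'
      have h3 : (2 * n : ℤ) = 1 := by exact_mod_cast hb'
      omega)
  obtain ⟨B, _, hB⟩ := h
  refine ⟨B, ?_⟩
  rw [← ValuationSubring.mem_nonunits_iff]
  apply hB
  exact ⟨⟨(2 : ℂ), ⟨2, by simp⟩⟩, Ideal.subset_span rfl, rfl⟩

theorem exists_max_val (V : ValuationSubring ℂ) (z : ℕ → ℂ) (P : ℕ) (hP : 0 < P)
    (hper : ∀ k, z (k + P) = z k) :
    ∃ m, ∀ k, V.valuation (z k) ≤ V.valuation (z (m + 1)) := by
  obtain ⟨k0, hk0, hmax⟩ := Finset.exists_max_image (Finset.range P)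
    (fun k => V.valuation (z k)) ⟨0, Finset.mem_range.2 hP⟩
  have hperM : ∀ q k, z (k + P * q) = z k := by
    intro q
    induction q with
    | zero => intro k; simp
    | succ q ih =>
      intro k
      rw [Nat.mul_succ, ← Nat.add_assoc, hper, ih]
  refine ⟨k0 + P - 1, fun k => ?_⟩
  have e1 : k0 + P - 1 + 1 = k0 + P := by omega
  rw [e1, hper]
  have e2 : z k = z (k % P) := by
    conv_lhs => rw [← Nat.mod_add_div k P]
    exact hperM _ _
  rw [e2]
  exact hmax _ (Finset.mem_range.2 (Nat.mod_lt _ hP))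

/-- TARGET 2. Periodic points are integral. -/
theorem val_le_one (V : ValuationSubring ℂ) (z : ℕ → ℂ) (P : ℕ) (hP : 0 < P)
    (hz : ∀ k, z (k + 2) = z k + z (k + 1) ^ 2) (hper : ∀ k, z (k + P) = z k) :
    ∀ k, V.valuation (z k) ≤ 1 := by
  obtain ⟨m, hm⟩ := exists_max_val V z P hP hper
  intro k
  refine (hm k).trans ?_
  by_contra hlt
  push Not at hlt
  have h1 : V.valuation (z (m + 1)) ^ 2 ≤ V.valuation (z (m + 1)) := by
    rw [← map_pow]
    have : z (m + 1) ^ 2 = z (m + 2) - z m := by rw [hz]; ring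
    rw [this]
    exact V.valuation.map_sub_le (hm _) (hm _)
  have h2 : V.valuation (z (m + 1)) ^ 1 < V.valuation (z (m + 1)) ^ 2 :=
    pow_lt_pow_right₀ hlt (by norm_num)
  rw [pow_one] at h2
  exact absurd h1 (not_le.2 h2)

/-- TARGET 3. The only periodic point of period `2 N`, `N` odd, reducing to zero is zero. -/
theorem val_lt_one (V : ValuationSubring ℂ) (h2 : V.valuation 2 < 1) (z : ℕ → ℂ) (N : ℕ)
    (hN : Odd N) (hz : ∀ k, z (k + 2) = z k + z (k + 1) ^ 2)
    (hper : ∀ k, z (k + 2 * N) = z k) (hlt : ∀ k, V.valuation (z k) < 1) :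
    ∀ k, z k = 0 := by
  have hN0 : 0 < N := hN.pos
  obtain ⟨m, hm⟩ := exists_max_val V z (2 * N) (by omega) hper
  set M := V.valuation (z (m + 1)) with hM
  have hM1 : M < 1 := hlt _
  suffices hM0 : M = 0 by
    intro k
    have := hm k
    rw [hM0] at this
    exact V.valuation.zero_iff.1 (le_antisymm this zero_le)
  by_contra hne
  have hMpos : 0 < M := zero_lt_iff.2 hne
  -- natural numbers have valuation at most one
  have hnat : ∀ n : ℕ, V.valuation (n : ℂ) ≤ 1 := by
    intro n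
    rw [ValuationSubring.valuation_le_one_iff]
    exact natCast_mem V n
  have hNv : V.valuation (N : ℂ) = 1 := by
    obtain ⟨t, ht⟩ := hN
    have e : (N : ℂ) = 1 + 2 * (t : ℂ) := by rw [ht]; push_cast; ring
    have hl : V.valuation (2 * (t : ℂ)) < V.valuation 1 := by
      rw [map_mul, map_one]
      calc V.valuation 2 * V.valuation (t : ℂ) ≤ V.valuation 2 * 1 :=
            mul_le_mul_right (hnat t) _
        _ < 1 := by rw [mul_one]; exact h2
    rw [e, Valuation.map_add_eq_of_lt_left _ hl, map_one]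
  -- deviations
  have he : ∀ i, V.valuation (z (m + 1 + 2 * i) - z (m + 1)) ≤ M ^ 2 := by
    intro i
    induction i with
    | zero => simp
    | succ i ih =>
      have e : z (m + 1 + 2 * (i + 1)) - z (m + 1) =
          (z (m + 1 + 2 * i) - z (m + 1)) + z (m + 1 + 2 * i + 1) ^ 2 := by
        have : m + 1 + 2 * (i + 1) = m + 1 + 2 * i + 2 := by ring
        rw [this, hz]; ring
      rw [e]
      refine V.valuation.map_add_le ih ?_
      rw [map_pow]
      exact pow_le_pow_left₀ zero_le (hm _) 2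
  -- telescoping
  have htel : ∑ i ∈ Finset.range N, z (m + 1 + 2 * i) ^ 2 = 0 := by
    have h : ∀ i, z (m + 1 + 2 * i) ^ 2 = z (m + 2 * (i + 1)) - z (m + 2 * i) := by
      intro i
      have e1 : m + 2 * (i + 1) = m + 2 * i + 2 := by ring
      have e2 : m + 1 + 2 * i = m + 2 * i + 1 := by ring
      rw [e1, e2, hz]; ring
    simp_rw [h]
    rw [Finset.sum_range_sub (fun i => z (m + 2 * i)), hper]
    simp
  have hsum : (N : ℂ) * z (m + 1) ^ 2 =
      -∑ i ∈ Finset.range N, (2 * z (m + 1) * (z (m + 1 + 2 * i) - z (m + 1)) +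
        (z (m + 1 + 2 * i) - z (m + 1)) ^ 2) := by
    have h : ∀ i ∈ Finset.range N, (2 * z (m + 1) * (z (m + 1 + 2 * i) - z (m + 1)) +
        (z (m + 1 + 2 * i) - z (m + 1)) ^ 2) = z (m + 1 + 2 * i) ^ 2 - z (m + 1) ^ 2 := by
      intro i _; ring
    rw [Finset.sum_congr rfl h, Finset.sum_sub_distrib, htel]
    simp
  have hle : V.valuation ((N : ℂ) * z (m + 1) ^ 2) ≤ M ^ 3 := by
    rw [hsum, Valuation.map_neg]
    refine V.valuation.map_sum_le fun i _ => ?_
    refine V.valuation.map_add_le ?_ ?_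
    · rw [map_mul, map_mul]
      calc V.valuation 2 * V.valuation (z (m + 1)) * V.valuation (z (m + 1 + 2 * i) - z (m + 1))
          ≤ 1 * M * M ^ 2 := by
            refine mul_le_mul' (mul_le_mul' h2.le le_rfl) (he i)
        _ = M ^ 3 := by rw [one_mul, pow_succ' M 2]
    · rw [map_pow]
      calc V.valuation (z (m + 1 + 2 * i) - z (m + 1)) ^ 2 ≤ (M ^ 2) ^ 2 :=
            pow_le_pow_left₀ zero_le (he i) 2
        _ = M ^ 4 := by rw [← pow_mul]
        _ ≤ M ^ 3 := pow_le_pow_right_of_le_one' hM1.le (by norm_num)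
  rw [map_mul, map_pow, hNv, one_mul] at hle
  have : M ^ 3 < M ^ 2 := pow_lt_pow_right_of_lt_one₀ hMpos hM1 (by norm_num)
  exact absurd hle (not_le.2 this)


end Pool.Agent.H763.Hen
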