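import Pool.Agent.H763.HenKey
import Pool.Agent.H763.HenTr
import Pool.Agent.H763.HenVal

set_option autoImplicit false

namespace Pool.Agent.H763.Hen

lemma sq_sum_eq {R : Type*} [CommRing R] (c : ℕ → R) (n : ℕ) :
    (∑ i ∈ Finset.range n, c i) ^ 2 = ∑ i ∈ Finset.range n, c i ^ 2
      + 2 * ∑ k ∈ Finset.range n, c k * ∑ i ∈ Finset.range k, c i := by
  induction n with
  | zero => simp
  | succ n ih =>
    rw [Finset.sum_range_succ, Finset.sum_range_succ, Finset.sum_range_succ, add_sq, ih]
    ring

theorem arith (j : ℕ) (hj : 1 ≤ j) (z : ℕ → ℂ) (hz : ∀ k, z (k + 2) = z k + z (k + 1) ^ 2)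
    (hper : ∀ k, z (k + 2 * (4 ^ j + 1)) = z k) (hne : ¬ (∀ k, z k = 0)) :
    (mp z (2 * (4 ^ j + 1))).trace ≠ 2 := by
  intro htr
  obtain ⟨V, h2⟩ := exists_val
  obtain ⟨N, hN⟩ : ∃ N : ℕ, N = 4 ^ j + 1 := ⟨_, rfl⟩
  have hNodd : Odd N := by
    rw [hN]
    exact (Even.pow_of_ne_zero (by decide) (by omega)).add_one
  have hle := val_le_one V z (2 * (4 ^ j + 1)) (by positivity) hz hper
  have hmem : ∀ k, z k ∈ V := fun k => (V.valuation_le_one_iff _).mp (hle k)
  obtain ⟨c, hc, hctr⟩ := trace_exp V.toSubring z hmem (4 ^ j + 1)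
  rw [htr] at hctr
  rw [← hN] at hper hctr
  set A := ∑ i ∈ Finset.range N, z (2 * i + 1) with hA
  set B := ∑ i ∈ Finset.range N, z (2 * i + 2) with hB
  set eA := ∑ k ∈ Finset.range N, z (2 * k + 1) * ∑ i ∈ Finset.range k, z (2 * i + 1) with heA
  set eB := ∑ k ∈ Finset.range N, z (2 * k + 2) * ∑ i ∈ Finset.range k, z (2 * i + 2) with heB
  have hA2 : A ^ 2 = 2 * eA := by
    rw [hA, sq_sum_eq (fun i => z (2 * i + 1))]
    have : ∑ i ∈ Finset.range N, z (2 * i + 1) ^ 2 = 0 := by
      have h1 : ∀ i, z (2 * i + 1) ^ 2 = z (2 * (i + 1)) - z (2 * i) := by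
        intro i
        have := hz (2 * i)
        have e : 2 * (i + 1) = 2 * i + 2 := by ring
        rw [e, this]; ring
      simp only [h1]
      rw [Finset.sum_range_sub (fun i => z (2 * i))]
      have := hper 0
      rw [zero_add] at this
      simp [this]
    rw [this, zero_add]
  have hB2 : B ^ 2 = 2 * eB := by
    rw [hB, sq_sum_eq (fun i => z (2 * i + 2))]
    have : ∑ i ∈ Finset.range N, z (2 * i + 2) ^ 2 = 0 := by
      have h1 : ∀ i, z (2 * i + 2) ^ 2 = z (2 * (i + 1) + 1) - z (2 * i + 1) := by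
        intro i
        have := hz (2 * i + 1)
        have e : 2 * (i + 1) + 1 = 2 * i + 1 + 2 := by ring
        rw [e, this]; ring
      simp only [h1]
      rw [Finset.sum_range_sub (fun i => z (2 * i + 1))]
      have := hper 1
      rw [add_comm] at this
      simp [this]
    rw [this, zero_add]
  have hAB : A * B = -4 * c := by linear_combination (-1 / 4 : ℂ) * hctr
  have hee : eA * eB = 4 * c ^ 2 := by
    have h1 : A ^ 2 * B ^ 2 = 16 * c ^ 2 := by
      have : A ^ 2 * B ^ 2 = (A * B) ^ 2 := by ring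
      rw [this, hAB]; ring
    rw [hA2, hB2] at h1
    linear_combination (1 / 4 : ℂ) * h1
  have heAV : eA ∈ V := by
    apply sum_mem; intro k _
    exact mul_mem (hmem _) (sum_mem fun i _ => hmem _)
  have heBV : eB ∈ V := by
    apply sum_mem; intro k _
    exact mul_mem (hmem _) (sum_mem fun i _ => hmem _)
  -- residue field
  let κ := IsLocalRing.ResidueField V
  have hres : ∀ x : V, V.valuation (x : ℂ) < 1 ↔ IsLocalRing.residue V x = 0 := by
    intro x
    rw [IsLocalRing.residue_eq_zero_iff]
    exact (V.valuation_lt_one_iff x).symm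
  have h2mem : (2 : ℂ) ∈ V := by
    have : (2 : ℂ) = ((2 : V) : ℂ) := rfl
    rw [this]; exact Subtype.mem _
  have h2κ : (2 : κ) = 0 := by
    have h3 : IsLocalRing.residue V (2 : V) = 0 := by
      rw [← hres]; exact h2
    rw [map_ofNat] at h3; exact h3
  have : CharP κ 2 := by
    rw [CharP.charP_iff_prime_eq_zero Nat.prime_two]
    exact_mod_cast h2κ
  let zz : ℕ → V := fun k => ⟨z k, hmem k⟩
  let w : ℕ → κ := fun k => IsLocalRing.residue V (zz k)
  have hzz : ∀ k, zz (k + 2) = zz k + zz (k + 1) ^ 2 := by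
    intro k; apply Subtype.ext; simp only [zz]; push_cast; exact hz k
  have hw : ∀ k, w (k + 2) = w k + w (k + 1) ^ 2 := by
    intro k; simp only [w]; rw [hzz, map_add, map_pow]
  have hwper : ∀ k, w (k + 2 * N) = w k := by
    intro k; simp only [w, zz]; congr 1; apply Subtype.ext; exact hper k
  have hadd : ∀ x : κ, x + x = 0 := fun x => by rw [← two_mul, h2κ, zero_mul]
  have hw2 : ∀ k, w (k + 1) ^ 2 = w (k + 2) + w k := by
    intro k; rw [hw]; linear_combination - hadd (w k)
  have hfin : (∀ k, w (k + 1) = 0) → False := by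
    intro h
    apply hne
    apply val_lt_one V h2 z N hNodd hz hper
    intro k
    have h1 : w k = 0 := by
      rw [← hwper k]
      obtain ⟨m, hm⟩ : ∃ m, k + 2 * N = m + 1 := ⟨k + 2 * N - 1, by have := hNodd.pos; omega⟩
      rw [hm]; exact h m
    exact (hres (zz k)).mpr h1
  have hor : V.valuation eA < 1 ∨ V.valuation eB < 1 := by
    by_contra hcon
    push Not at hcon
    have h1 : 1 ≤ V.valuation (eA * eB) := by
      rw [map_mul]
      exact one_le_mul hcon.1 hcon.2
    rw [hee, map_mul] at h1
    have h4 : V.valuation (4 : ℂ) < 1 := by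
      have : (4 : ℂ) = 2 * 2 := by norm_num
      rw [this, map_mul]
      exact mul_lt_one' h2 h2
    have h5 : V.valuation (c ^ 2) ≤ 1 := by
      rw [map_pow]
      exact pow_le_one' ((V.valuation_le_one_iff _).mpr hc) 2
    have h6 : V.valuation (4 : ℂ) * V.valuation (c ^ 2) < 1 :=
      lt_of_le_of_lt (mul_le_of_le_one_right' h5) h4
    exact absurd h1 (not_le.mpr h6)
  have e2N : ∀ i, 2 * (i + N) = 2 * i + 2 * N := fun i => by ring
  rcases hor with hlt | hlt
  · have h0 : IsLocalRing.residue V (⟨eA, heAV⟩ : V) = 0 := (hres _).mp hlt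
    have hk := key2 κ j hj (fun i => w (2 * i + 1)) (fun i => w (2 * i + 2))
      (by
        intro i; rw [← hN, e2N]
        have e : 2 * i + 2 * N + 1 = (2 * i + 1) + 2 * N := by ring
        rw [e, hwper])
      (by
        intro i; rw [← hN, e2N]
        have e : 2 * i + 2 * N + 2 = (2 * i + 2) + 2 * N := by ring
        rw [e, hwper])
      (by
        intro i
        have := hw2 (2 * i + 2)
        have e1 : 2 * (i + 1) + 1 = 2 * i + 2 + 1 := by ring
        have e2 : 2 * (i + 1) + 2 = 2 * i + 2 + 2 := by ring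
        simp only [e1, e2]; exact this)
      (by
        intro i
        have := hw2 (2 * i + 1)
        have e1 : 2 * (i + 1) + 1 = 2 * i + 1 + 2 := by ring
        have e2 : 2 * i + 2 = 2 * i + 1 + 1 := by ring
        simp only [e1]; rw [e2]; exact this)
      (by
        rw [← h0]
        have : (⟨eA, heAV⟩ : V) = ∑ k ∈ Finset.range N, zz (2 * k + 1) *
            ∑ i ∈ Finset.range k, zz (2 * i + 1) := by
          apply Subtype.ext
          push_cast
          rfl
        rw [this, map_sum, ← hN]
        apply Finset.sum_congr rfl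
        intro k _
        rw [map_mul, map_sum])
    apply hfin
    intro k
    rcases Nat.even_or_odd' k with ⟨i, rfl | rfl⟩
    · exact (hk i).1
    · exact (hk i).2
  · have h0 : IsLocalRing.residue V (⟨eB, heBV⟩ : V) = 0 := (hres _).mp hlt
    have hk := key2 κ j hj (fun i => w (2 * i + 2)) (fun i => w (2 * i + 3))
      (by
        intro i; rw [← hN, e2N]
        have e : 2 * i + 2 * N + 2 = (2 * i + 2) + 2 * N := by ring
        rw [e, hwper])
      (by
        intro i; rw [← hN, e2N]
        have e : 2 * i + 2 * N + 3 = (2 * i + 3) + 2 * N := by ring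
        rw [e, hwper])
      (by
        intro i
        have := hw2 (2 * i + 3)
        have e1 : 2 * (i + 1) + 2 = 2 * i + 3 + 1 := by ring
        have e2 : 2 * (i + 1) + 3 = 2 * i + 3 + 2 := by ring
        simp only [e1, e2]; exact this)
      (by
        intro i
        have := hw2 (2 * i + 2)
        have e1 : 2 * (i + 1) + 2 = 2 * i + 2 + 2 := by ring
        have e2 : 2 * i + 3 = 2 * i + 2 + 1 := by ring
        simp only [e1]; rw [e2]; exact this)
      (by
        rw [← h0]
        have : (⟨eB, heBV⟩ : V) = ∑ k ∈ Finset.range N, zz (2 * k + 2) *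
            ∑ i ∈ Finset.range k, zz (2 * i + 2) := by
          apply Subtype.ext
          push_cast
          rfl
        rw [this, map_sum, ← hN]
        apply Finset.sum_congr rfl
        intro k _
        rw [map_mul, map_sum])
    apply hfin
    intro k
    rcases Nat.even_or_odd' k with ⟨i, rfl | rfl⟩
    · -- w (2 i + 1): from periodicity, 2 i + 1 + 2 N = 2 (i + N - 1) + 3
      have := hNodd.pos
      rw [← hwper]
      have e : 2 * i + 1 + 2 * N = 2 * (i + N - 1) + 3 := by omega
      rw [e]; exact (hk _).2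
    · exact (hk i).1

end Pool.Agent.H763.Hen
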