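import Pool.Agent.H763.HenFest

set_option autoImplicit false

namespace Pool.Agent.H763.Hen

open Filter Topology Complex






















/-- Properties of the box of size `ε`. -/
def Box (D : OdeData) (h : ℝ) (n : ℕ) (ε : ℝ) : Prop :=
  (∀ (s ρ : ℝ) (σ : ℂ), |ρ| ≤ ε → ‖σ‖ ≤ ε → F1 D h n s ρ σ = 0 → (F2 D h n s ρ σ).im = 0 →
    |ρ| < ε ∧ ‖σ‖ < ε) ∧
  (∃ (s ρ : ℝ) (σ : ℂ), |ρ| ≤ ε ∧ ‖σ‖ ≤ ε ∧ F1 D h n s ρ σ = 0 ∧ (F2 D h n s ρ σ).im = 0) ∧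
  (∀ (s ρ : ℝ) (σ : ℂ), |ρ| ≤ ε → ‖σ‖ ≤ ε → ∀ (ρ' : ℝ) (σ' : ℂ),
    (starRingEnd ℂ) (JA h (D.ξ s + ρ * nu D s) (D.η s + σ) n 0 0 * (ρ' * nu D s)
      + JA h (D.ξ s + ρ * nu D s) (D.η s + σ) n 0 1 * σ') - ρ' * nu D s = 0 →
    (((starRingEnd ℂ) (JA h (D.ξ s + ρ * nu D s) (D.η s + σ) n 1 0 * (ρ' * nu D s)
      + JA h (D.ξ s + ρ * nu D s) (D.η s + σ) n 1 1 * σ') - σ') * nu D s).im = 0 →
    ρ' = 0 ∧ σ' = 0)


theorem ys_cont (h : ℝ) (k : ℕ) : Continuous (fun p : ℂ × ℂ => ys h p.1 p.2 k) := by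
  have key : ∀ k, Continuous (fun p : ℂ × ℂ => ys h p.1 p.2 k) ∧
      Continuous (fun p : ℂ × ℂ => ys h p.1 p.2 (k + 1)) := by
    intro k
    induction k with
    | zero => exact ⟨continuous_fst, continuous_snd⟩
    | succ k ih =>
      refine ⟨ih.2, ?_⟩
      show Continuous (fun p : ℂ × ℂ => ys h p.1 p.2 k + h * ys h p.1 p.2 (k + 1) ^ 2)
      exact ih.1.add (continuous_const.mul (ih.2.pow 2))
  exact (key k).1

theorem F1_cont (D : OdeData) (h : ℝ) (n : ℕ) (s : ℝ) :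
    Continuous (fun p : ℝ × ℂ => F1 D h n s p.1 p.2) := by
  unfold F1
  have h1 : Continuous (fun p : ℝ × ℂ => ((D.ξ s + p.1 * nu D s, D.η s + p.2) : ℂ × ℂ)) := by
    fun_prop
  have h2 := (ys_cont h n).comp h1
  exact (Complex.continuous_conj.comp h2).sub (by fun_prop)

theorem F2_cont (D : OdeData) (h : ℝ) (n : ℕ) (s : ℝ) :
    Continuous (fun p : ℝ × ℂ => F2 D h n s p.1 p.2) := by
  unfold F2
  have h1 : Continuous (fun p : ℝ × ℂ => ((D.ξ s + p.1 * nu D s, D.η s + p.2) : ℂ × ℂ)) := by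
    fun_prop
  have h2 := (ys_cont h (n + 1)).comp h1
  exact ((Complex.continuous_conj.comp h2).sub (by fun_prop)).mul continuous_const

theorem F_deriv (D : OdeData) (h : ℝ) (n : ℕ) (s ρ : ℝ) (σ : ℂ) (ρ' : ℝ) (σ' : ℂ) :
    HasDerivAt (fun t : ℝ => F1 D h n s (ρ + t * ρ') (σ + t * σ'))
      ((starRingEnd ℂ) (JA h (D.ξ s + ρ * nu D s) (D.η s + σ) n 0 0 * (ρ' * nu D s)
        + JA h (D.ξ s + ρ * nu D s) (D.η s + σ) n 0 1 * σ') - ρ' * nu D s) 0 ∧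
    HasDerivAt (fun t : ℝ => F2 D h n s (ρ + t * ρ') (σ + t * σ'))
      (((starRingEnd ℂ) (JA h (D.ξ s + ρ * nu D s) (D.η s + σ) n 1 0 * (ρ' * nu D s)
        + JA h (D.ξ s + ρ * nu D s) (D.η s + σ) n 1 1 * σ') - σ') * nu D s) 0 := by
  have h0 : HasDerivAt (fun t : ℝ => ρ + t * ρ') ρ' 0 := by
    have := ((hasDerivAt_id (0 : ℝ)).mul_const ρ').const_add ρ
    simpa using this
  have h1 : HasDerivAt (fun t : ℝ => ((ρ + t * ρ' : ℝ) : ℂ)) (ρ' : ℂ) 0 := h0.ofReal_comp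
  have ha : HasDerivAt (fun t : ℝ => D.ξ s + ((ρ + t * ρ' : ℝ) : ℂ) * nu D s) (ρ' * nu D s) 0 :=
    (h1.mul_const (nu D s)).const_add (D.ξ s)
  have h2 : HasDerivAt (fun t : ℝ => (t : ℂ)) (1 : ℂ) 0 := by
    have := (hasDerivAt_id (0 : ℝ)).ofReal_comp
    simpa using this
  have hb0 : HasDerivAt (fun t : ℝ => σ + (t : ℂ) * σ') σ' 0 := by
    have := (h2.mul_const σ').const_add σ
    simpa using this
  have hb : HasDerivAt (fun t : ℝ => D.η s + (σ + (t : ℂ) * σ')) σ' 0 := hb0.const_add (D.η s)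
  have e0 : D.ξ s + ((ρ + 0 * ρ' : ℝ) : ℂ) * nu D s = D.ξ s + ρ * nu D s := by simp
  have e1 : D.η s + (σ + ((0 : ℝ) : ℂ) * σ') = D.η s + σ := by simp
  have k1 := hasDerivAt_ys (h := h) ha hb n
  have k2 := hasDerivAt_ys (h := h) ha hb (n + 1)
  rw [e0, e1] at k1 k2
  rw [(ds_eq h _ _ _ _ n).1] at k1
  rw [(ds_eq h _ _ _ _ n).2] at k2
  constructor
  · exact k1.star.sub ha
  · exact (k2.star.sub hb).mul_const (nu D s)

/-- real linear map of directions -/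
noncomputable def LL (A : Matrix (Fin 2) (Fin 2) ℂ) (ν : ℂ) : (ℝ × ℂ) →ₗ[ℝ] (ℂ × ℝ) where
  toFun p := ((starRingEnd ℂ) (A 0 0 * (p.1 * ν) + A 0 1 * p.2) - p.1 * ν,
    (((starRingEnd ℂ) (A 1 0 * (p.1 * ν) + A 1 1 * p.2) - p.2) * ν).im)
  map_add' p q := by
    refine Prod.ext ?_ ?_
    · simp only [Prod.fst_add, Prod.snd_add, Complex.ofReal_add, map_add, map_mul, Complex.conj_ofReal]
      ring
    · show (((starRingEnd ℂ) (A 1 0 * (((p.1 + q.1 : ℝ) : ℂ) * ν) + A 1 1 * (p.2 + q.2)) - (p.2 + q.2)) * ν).im =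
        (((starRingEnd ℂ) (A 1 0 * (p.1 * ν) + A 1 1 * p.2) - p.2) * ν).im +
        (((starRingEnd ℂ) (A 1 0 * (q.1 * ν) + A 1 1 * q.2) - q.2) * ν).im
      rw [← Complex.add_im]
      congr 1
      simp only [Complex.ofReal_add, map_add, map_mul, Complex.conj_ofReal]
      ring
  map_smul' r p := by
    refine Prod.ext ?_ ?_
    · show (starRingEnd ℂ) (A 0 0 * (((r * p.1 : ℝ) : ℂ) * ν) + A 0 1 * (r • p.2)) - ((r * p.1 : ℝ) : ℂ) * ν =
        r • ((starRingEnd ℂ) (A 0 0 * (p.1 * ν) + A 0 1 * p.2) - p.1 * ν)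
      rw [Complex.real_smul, Complex.real_smul]
      simp only [Complex.ofReal_mul, map_add, map_mul, Complex.conj_ofReal]
      ring
    · show (((starRingEnd ℂ) (A 1 0 * (((r * p.1 : ℝ) : ℂ) * ν) + A 1 1 * (r • p.2)) - (r • p.2)) * ν).im =
        r * (((starRingEnd ℂ) (A 1 0 * (p.1 * ν) + A 1 1 * p.2) - p.2) * ν).im
      rw [← Complex.im_ofReal_mul]
      congr 1
      rw [Complex.real_smul]
      simp only [Complex.ofReal_mul, map_add, map_mul, Complex.conj_ofReal]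
      ring

theorem LL_surj (A : Matrix (Fin 2) (Fin 2) ℂ) (ν : ℂ)
    (h : ∀ (ρ' : ℝ) (σ' : ℂ), (starRingEnd ℂ) (A 0 0 * (ρ' * ν) + A 0 1 * σ') - ρ' * ν = 0 →
      (((starRingEnd ℂ) (A 1 0 * (ρ' * ν) + A 1 1 * σ') - σ') * ν).im = 0 → ρ' = 0 ∧ σ' = 0) :
    Function.Surjective (LL A ν) := by
  have hfin : Module.finrank ℝ (ℝ × ℂ) = Module.finrank ℝ (ℂ × ℝ) := by
    rw [Module.finrank_prod, Module.finrank_prod, add_comm]
  rw [← LinearMap.injective_iff_surjective_of_finrank_eq_finrank hfin,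
    injective_iff_map_eq_zero (LL A ν)]
  rintro ⟨ρ', σ'⟩ hz
  have h1 : (starRingEnd ℂ) (A 0 0 * (ρ' * ν) + A 0 1 * σ') - ρ' * ν = 0 := congrArg Prod.fst hz
  have h2 : (((starRingEnd ℂ) (A 1 0 * (ρ' * ν) + A 1 1 * σ') - σ') * ν).im = 0 := congrArg Prod.snd hz
  obtain ⟨h3, h4⟩ := h ρ' σ' h1 h2
  rw [h3, h4]
  rfl

/-- sum of squares -/
noncomputable def QQ (D : OdeData) (h : ℝ) (n : ℕ) (s ρ : ℝ) (σ : ℂ) : ℝ :=
  (F1 D h n s ρ σ).re ^ 2 + (F1 D h n s ρ σ).im ^ 2 + (F2 D h n s ρ σ).im ^ 2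

/-- interior minimum gives a zero -/
theorem zero_of_min (D : OdeData) (h : ℝ) (n : ℕ) (s ρ : ℝ) (σ : ℂ) (ε : ℝ)
    (hρ : |ρ| < ε) (hσ : ‖σ‖ < ε)
    (hmin : ∀ (r : ℝ) (z : ℂ), |r| ≤ ε → ‖z‖ ≤ ε → QQ D h n s ρ σ ≤ QQ D h n s r z)
    (hsurj : Function.Surjective (LL (JA h (D.ξ s + ρ * nu D s) (D.η s + σ) n) (nu D s))) :
    F1 D h n s ρ σ = 0 ∧ (F2 D h n s ρ σ).im = 0 := by
  obtain ⟨⟨ρ', σ'⟩, hL⟩ := hsurj (F1 D h n s ρ σ, (F2 D h n s ρ σ).im)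
  have hL1 : (starRingEnd ℂ) (JA h (D.ξ s + ρ * nu D s) (D.η s + σ) n 0 0 * (ρ' * nu D s)
        + JA h (D.ξ s + ρ * nu D s) (D.η s + σ) n 0 1 * σ') - ρ' * nu D s = F1 D h n s ρ σ :=
    congrArg Prod.fst hL
  have hL2 : (((starRingEnd ℂ) (JA h (D.ξ s + ρ * nu D s) (D.η s + σ) n 1 0 * (ρ' * nu D s)
        + JA h (D.ξ s + ρ * nu D s) (D.η s + σ) n 1 1 * σ') - σ') * nu D s).im =
      (F2 D h n s ρ σ).im := congrArg Prod.snd hL
  obtain ⟨d1, d2⟩ := F_deriv D h n s ρ σ ρ' σ'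
  set φ : ℝ → ℝ := fun t => QQ D h n s (ρ + t * ρ') (σ + t * σ') with hφ
  have r1 : HasDerivAt (fun t : ℝ => (F1 D h n s (ρ + t * ρ') (σ + t * σ')).re)
      (F1 D h n s ρ σ).re 0 := by
    have := Complex.reCLM.hasFDerivAt.comp_hasDerivAt (0 : ℝ) d1
    rw [hL1] at this
    exact this
  have r2 : HasDerivAt (fun t : ℝ => (F1 D h n s (ρ + t * ρ') (σ + t * σ')).im)
      (F1 D h n s ρ σ).im 0 := by
    have := Complex.imCLM.hasFDerivAt.comp_hasDerivAt (0 : ℝ) d1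
    rw [hL1] at this
    exact this
  have r3 : HasDerivAt (fun t : ℝ => (F2 D h n s (ρ + t * ρ') (σ + t * σ')).im)
      (F2 D h n s ρ σ).im 0 := by
    have := Complex.imCLM.hasFDerivAt.comp_hasDerivAt (0 : ℝ) d2
    have h3 : Complex.imCLM (((starRingEnd ℂ) (JA h (D.ξ s + ρ * nu D s) (D.η s + σ) n 1 0 * (ρ' * nu D s)
        + JA h (D.ξ s + ρ * nu D s) (D.η s + σ) n 1 1 * σ') - σ') * nu D s) =
      (F2 D h n s ρ σ).im := hL2
    rw [h3] at this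
    exact this
  have dφ := ((r1.pow 2).add (r2.pow 2)).add (r3.pow 2)
  have hz : ((0 : ℝ) : ℂ) * σ' = 0 := by simp
  have hz' : (0 : ℝ) * ρ' = 0 := by simp
  simp only [hz, hz', add_zero] at dφ
  have hloc : IsLocalMin φ 0 := by
    have c1 : ∀ᶠ t : ℝ in 𝓝 0, |ρ + t * ρ'| < ε := by
      have hc : Continuous (fun t : ℝ => |ρ + t * ρ'|) := by fun_prop
      apply hc.continuousAt.eventually_lt continuousAt_const
      simpa using hρ
    have c2 : ∀ᶠ t : ℝ in 𝓝 0, ‖σ + t * σ'‖ < ε := by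
      have hc : Continuous (fun t : ℝ => ‖σ + (t : ℂ) * σ'‖) := by fun_prop
      apply hc.continuousAt.eventually_lt continuousAt_const
      simpa using hσ
    filter_upwards [c1, c2] with t ht1 ht2
    have h4 : φ 0 = QQ D h n s ρ σ := by
      rw [hφ]
      simp
    rw [h4]
    exact hmin _ _ ht1.le ht2.le
  have h5 := hloc.hasDerivAt_eq_zero (f := φ) dφ
  have h6 : (F1 D h n s ρ σ).re ^ 2 + (F1 D h n s ρ σ).im ^ 2 + (F2 D h n s ρ σ).im ^ 2 = 0 := by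
    norm_num at h5
    nlinarith
  have h7 : (F1 D h n s ρ σ).re = 0 := by
    have a1 := sq_nonneg (F1 D h n s ρ σ).re
    have a2 := sq_nonneg (F1 D h n s ρ σ).im
    have a3 := sq_nonneg (F2 D h n s ρ σ).im
    exact pow_eq_zero_iff (two_ne_zero) |>.1 (by linarith)
  have h8 : (F1 D h n s ρ σ).im = 0 := by
    have a1 := sq_nonneg (F1 D h n s ρ σ).re
    have a2 := sq_nonneg (F1 D h n s ρ σ).im
    have a3 := sq_nonneg (F2 D h n s ρ σ).im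
    exact pow_eq_zero_iff (two_ne_zero) |>.1 (by linarith)
  have h9 : (F2 D h n s ρ σ).im = 0 := by
    have a1 := sq_nonneg (F1 D h n s ρ σ).re
    have a2 := sq_nonneg (F1 D h n s ρ σ).im
    have a3 := sq_nonneg (F2 D h n s ρ σ).im
    exact pow_eq_zero_iff (two_ne_zero) |>.1 (by linarith)
  exact ⟨Complex.ext h7 h8, h9⟩

set_option maxHeartbeats 1000000 in
theorem exists_box (D : OdeData) : ∃ ε0 : ℝ, 0 < ε0 ∧ ∀ ε : ℝ, 0 < ε → ε ≤ ε0 →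
    ∃ M0 : ℕ, ∀ (M : ℕ) (h : ℝ), M0 ≤ M → h = 2 * D.T / (2 * M + 1) →
      Box D h (2 * M + 1) ε := by
  obtain ⟨B, m, hB1, hm, hBm⟩ := ode_bounds D
  obtain ⟨c, hc, hlow⟩ := lam_lower D
  obtain ⟨C, e0, hC, he0, hF⟩ := F_est D
  obtain ⟨Cc, hCc, hcomp⟩ := comparison D B (fun t => ⟨(hBm t).1, (hBm t).2.1⟩)
  obtain ⟨Cn, hCn, hnear⟩ := near_lam D
  have hnu : ∀ s, ‖nu D s‖ ≤ B ^ 2 := by
    intro s
    unfold nu
    rw [norm_mul, Complex.norm_I, one_mul, norm_pow]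
    exact pow_le_pow_left₀ (norm_nonneg _) (hBm s).2.1 2
  have hB2 : 0 < B ^ 2 + 2 := by positivity
  have hCc0 : 0 < Cc := by linarith
  set ε0 : ℝ := min (min e0 (c / (12 * C))) (min (1 / (Cc * (B ^ 2 + 2)))
    (c / (4 * Cn * (Cc * (B ^ 2 + 2))))) with hε0
  have hε0pos : 0 < ε0 := by
    rw [hε0]
    refine lt_min (lt_min he0 (by positivity)) (lt_min (by positivity) (by positivity))
  have b1 : ε0 ≤ e0 := (min_le_left _ _).trans (min_le_left _ _)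
  have b2 : ε0 ≤ c / (12 * C) := (min_le_left _ _).trans (min_le_right _ _)
  have b3 : ε0 ≤ 1 / (Cc * (B ^ 2 + 2)) := (min_le_right _ _).trans (min_le_left _ _)
  have b4 : ε0 ≤ c / (4 * Cn * (Cc * (B ^ 2 + 2))) := (min_le_right _ _).trans (min_le_right _ _)
  rw [le_div_iff₀ (by positivity)] at b2 b3 b4
  refine ⟨ε0, hε0pos, fun ε hε hεε0 => ?_⟩
  set h0 : ℝ := min ε (c * ε / (16 * C)) with hh0
  have hh0pos : 0 < h0 := lt_min hε (by positivity)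
  refine ⟨⌈D.T / h0⌉₊ + 1, fun M h hM hh => ?_⟩
  have hTpos := D.hT
  have hM1 : 1 ≤ M := by omega
  have hMpos : (0 : ℝ) < 2 * M + 1 := by positivity
  have hhpos : 0 < h := by rw [hh]; positivity
  have hhh0 : h ≤ h0 := by
    have h1 : D.T / h0 ≤ M := by
      have h2 : ⌈D.T / h0⌉₊ ≤ M := by omega
      exact (Nat.le_ceil _).trans (by exact_mod_cast h2)
    rw [div_le_iff₀ hh0pos] at h1
    rw [hh, div_le_iff₀ hMpos]
    nlinarith
  have hhε : h ≤ ε := hhh0.trans (min_le_left _ _)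
  have hhc : h * (16 * C) ≤ c * ε := by
    have := hhh0.trans (min_le_right _ _)
    rwa [le_div_iff₀ (by positivity)] at this
  -- lower bound
  have low : ∀ (s ρ : ℝ) (σ : ℂ), |ρ| ≤ ε → ‖σ‖ ≤ ε →
      (c / 2) * (|ρ| + ‖σ‖) - 2 * C * h ≤
        ‖F1 D h (2 * M + 1) s ρ σ‖ + |(F2 D h (2 * M + 1) s ρ σ).im| := by
    intro s ρ σ hρ hσ
    obtain ⟨f1, f2, f3, f4⟩ := hF M h hM1 hh (hhε.trans (hεε0.trans b1)) s ρ σ
      (hρ.trans (hεε0.trans b1)) (hσ.trans (hεε0.trans b1))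
    have hl := hlow s ρ σ
    generalize F1 D h (2 * M + 1) s ρ σ = X1 at *
    generalize F2 D h (2 * M + 1) s ρ σ = X2 at *
    generalize F1 D h (2 * M + 1) s 0 0 = Y1 at *
    generalize F2 D h (2 * M + 1) s 0 0 = Y2 at *
    generalize Lam1 D s ρ σ = Z1 at *
    generalize Lam2 D s ρ σ = Z2 at *
    have t1 : ‖Z1‖ ≤ ‖X1‖ + ‖Y1‖ + ‖X1 - Y1 - Z1‖ := by
      calc ‖Z1‖ = ‖X1 - Y1 - (X1 - Y1 - Z1)‖ := by congr 1; ring
        _ ≤ ‖X1 - Y1‖ + ‖X1 - Y1 - Z1‖ := norm_sub_le _ _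
        _ ≤ _ := by
          have := norm_sub_le X1 Y1
          linarith
    have t2 : |Z2.im| ≤ |X2.im| + ‖Y2‖ + ‖X2 - Y2 - Z2‖ := by
      have e1 : Z2.im = X2.im - Y2.im - (X2 - Y2 - Z2).im := by
        simp only [Complex.sub_im]
        ring
      have e2 := Complex.abs_im_le_norm Y2
      have e3 := Complex.abs_im_le_norm (X2 - Y2 - Z2)
      rw [e1]
      calc |X2.im - Y2.im - (X2 - Y2 - Z2).im| ≤ |X2.im - Y2.im| + |(X2 - Y2 - Z2).im| := abs_sub _ _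
        _ ≤ |X2.im| + |Y2.im| + |(X2 - Y2 - Z2).im| := by
          have := abs_sub X2.im Y2.im
          linarith
        _ ≤ _ := by linarith
    set S := |ρ| + ‖σ‖ with hS
    have hS0 : 0 ≤ S := by positivity
    have t3 : C * (h + |ρ| + ‖σ‖) * S ≤ (c / 4) * S := by
      apply mul_le_mul_of_nonneg_right _ hS0
      have : h + |ρ| + ‖σ‖ ≤ 3 * ε0 := by linarith
      nlinarith
    linarith
  -- closeness
  have hJ : ∀ (s ρ : ℝ) (σ : ℂ), |ρ| ≤ ε → ‖σ‖ ≤ ε → ∀ (ρ' : ℝ) (σ' : ℂ),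
    (starRingEnd ℂ) (JA h (D.ξ s + ρ * nu D s) (D.η s + σ) (2 * M + 1) 0 0 * (ρ' * nu D s)
      + JA h (D.ξ s + ρ * nu D s) (D.η s + σ) (2 * M + 1) 0 1 * σ') - ρ' * nu D s = 0 →
    (((starRingEnd ℂ) (JA h (D.ξ s + ρ * nu D s) (D.η s + σ) (2 * M + 1) 1 0 * (ρ' * nu D s)
      + JA h (D.ξ s + ρ * nu D s) (D.η s + σ) (2 * M + 1) 1 1 * σ') - σ') * nu D s).im = 0 →
    ρ' = 0 ∧ σ' = 0 := by
    intro s ρ σ hρ hσ ρ' σ' e1 e2
    have hκ0 : h + ‖(ρ : ℂ) * nu D s‖ + ‖σ‖ ≤ (B ^ 2 + 2) * ε := by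
      rw [norm_mul, Complex.norm_real, Real.norm_eq_abs]
      have h1 : |ρ| * ‖nu D s‖ ≤ ε * B ^ 2 :=
        mul_le_mul hρ (hnu s) (norm_nonneg _) hε.le
      linarith
    set κ := Cc * (h + ‖(ρ : ℂ) * nu D s‖ + ‖σ‖) with hκ
    have hκ1 : κ ≤ Cc * (B ^ 2 + 2) * ε0 := by
      rw [hκ, mul_assoc]
      apply mul_le_mul_of_nonneg_left _ hCc0.le
      exact hκ0.trans (mul_le_mul_of_nonneg_left hεε0 hB2.le)
    obtain ⟨_, _, _, hN⟩ := hcomp M s ((ρ : ℂ) * nu D s) σ h hM1 hh (by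
      calc Cc * (h + ‖(ρ : ℂ) * nu D s‖ + ‖σ‖) ≤ Cc * (B ^ 2 + 2) * ε0 := hκ1
        _ ≤ 1 := by linarith)
    obtain ⟨n1, n2⟩ := hnear s κ _ hN ρ' σ'
    rw [e1, zero_sub, norm_neg] at n1
    have hl := hlow s ρ' σ'
    have n3 : |(Lam2 D s ρ' σ').im| ≤ Cn * κ * (|ρ'| + ‖σ'‖) := by
      refine le_trans ?_ n2
      refine le_trans ?_ (Complex.abs_im_le_norm _)
      rw [Complex.sub_im, e2, zero_sub, abs_neg]
    have hS0 : 0 ≤ |ρ'| + ‖σ'‖ := by positivity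
    have n4 : Cn * κ ≤ c / 4 := by
      have : Cn * κ ≤ Cn * (Cc * (B ^ 2 + 2) * ε0) := mul_le_mul_of_nonneg_left hκ1 hCn.le
      linarith
    have n5 : Cn * κ * (|ρ'| + ‖σ'‖) ≤ (c / 4) * (|ρ'| + ‖σ'‖) := mul_le_mul_of_nonneg_right n4 hS0
    have n6 : (c / 2) * (|ρ'| + ‖σ'‖) ≤ 0 := by linarith
    have n7 : |ρ'| + ‖σ'‖ ≤ 0 := by
      by_contra hcon
      push Not at hcon
      have := mul_pos (half_pos hc) hcon
      linarith
    have a1 := abs_nonneg ρ'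
    have a2 := norm_nonneg σ'
    exact ⟨abs_eq_zero.1 (by linarith), norm_eq_zero.1 (by linarith)⟩
  refine ⟨?_, ?_, hJ⟩
  · intro s ρ σ hρ hσ z1 z2
    have hl := low s ρ σ hρ hσ
    rw [z1, z2, norm_zero, abs_zero] at hl
    have a1 := abs_nonneg ρ
    have a2 := norm_nonneg σ
    have : |ρ| + ‖σ‖ < ε := by
      by_contra hcon
      push Not at hcon
      have h3 : (c / 2) * ε ≤ (c / 2) * (|ρ| + ‖σ‖) :=
        mul_le_mul_of_nonneg_left hcon (half_pos hc).le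
      have h4 : 0 < c * ε := mul_pos hc hε
      nlinarith
    constructor <;> linarith
  · -- existence
    have hcompact : IsCompact (Set.Icc (-ε) ε ×ˢ Metric.closedBall (0 : ℂ) ε) :=
      isCompact_Icc.prod (isCompact_closedBall _ _)
    have hmemK : ∀ (r : ℝ) (z : ℂ), (r, z) ∈ (Set.Icc (-ε) ε ×ˢ Metric.closedBall (0 : ℂ) ε) ↔
        |r| ≤ ε ∧ ‖z‖ ≤ ε := by
      intro r z
      rw [Set.mem_prod, Set.mem_Icc, mem_closedBall_zero_iff, abs_le]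
    have hcont : Continuous (fun p : ℝ × ℂ => QQ D h (2 * M + 1) 0 p.1 p.2) := by
      unfold QQ
      have c1 := F1_cont D h (2 * M + 1) 0
      have c2 := F2_cont D h (2 * M + 1) 0
      exact (((Complex.continuous_re.comp c1).pow 2).add ((Complex.continuous_im.comp c1).pow 2)).add
        ((Complex.continuous_im.comp c2).pow 2)
    obtain ⟨⟨ρ, σ⟩, hmem, hmin⟩ := hcompact.exists_isMinOn
      ⟨((0 : ℝ), (0 : ℂ)), (hmemK 0 0).2 ⟨by simpa using hε.le, by simpa using hε.le⟩⟩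
      hcont.continuousOn
    rw [hmemK] at hmem
    have hmin' : ∀ (r : ℝ) (z : ℂ), |r| ≤ ε → ‖z‖ ≤ ε →
        QQ D h (2 * M + 1) 0 ρ σ ≤ QQ D h (2 * M + 1) 0 r z := by
      intro r z hr hz
      have h7 := isMinOn_iff.1 hmin (r, z) ((hmemK r z).2 ⟨hr, hz⟩)
      exact h7
    have hQ0 : QQ D h (2 * M + 1) 0 0 0 ≤ 2 * (C * h) ^ 2 := by
      obtain ⟨_, _, f3, f4⟩ := hF M h hM1 hh (hhε.trans (hεε0.trans b1)) 0 0 0
        (by simpa using he0.le) (by simpa using he0.le)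
      have g1 : (F1 D h (2 * M + 1) 0 0 0).re ^ 2 + (F1 D h (2 * M + 1) 0 0 0).im ^ 2 =
          ‖F1 D h (2 * M + 1) 0 0 0‖ ^ 2 := by
        rw [← Complex.normSq_eq_norm_sq, Complex.normSq_apply]
        ring
      have g2 : (F2 D h (2 * M + 1) 0 0 0).im ^ 2 ≤ ‖F2 D h (2 * M + 1) 0 0 0‖ ^ 2 := by
        rw [← sq_abs]
        exact pow_le_pow_left₀ (abs_nonneg _) (Complex.abs_im_le_norm _) 2
      have g3 := pow_le_pow_left₀ (norm_nonneg _) f3 2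
      have g4 := pow_le_pow_left₀ (norm_nonneg _) f4 2
      unfold QQ
      rw [g1]
      linarith
    have hint : |ρ| + ‖σ‖ < ε := by
      by_contra hcon
      push Not at hcon
      have hl := low 0 ρ σ hmem.1 hmem.2
      have g1 : (F1 D h (2 * M + 1) 0 ρ σ).re ^ 2 + (F1 D h (2 * M + 1) 0 ρ σ).im ^ 2 =
          ‖F1 D h (2 * M + 1) 0 ρ σ‖ ^ 2 := by
        rw [← Complex.normSq_eq_norm_sq, Complex.normSq_apply]
        ring
      have g2 : QQ D h (2 * M + 1) 0 ρ σ = ‖F1 D h (2 * M + 1) 0 ρ σ‖ ^ 2 +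
          |(F2 D h (2 * M + 1) 0 ρ σ).im| ^ 2 := by
        unfold QQ
        rw [g1, sq_abs]
      have g3 := hmin' 0 0 (by simpa using hε.le) (by simpa using hε.le)
      rw [g2] at g3
      generalize ‖F1 D h (2 * M + 1) 0 ρ σ‖ = X at *
      generalize |(F2 D h (2 * M + 1) 0 ρ σ).im| = Y at *
      have g4 : (c / 2) * ε ≤ (c / 2) * (|ρ| + ‖σ‖) :=
        mul_le_mul_of_nonneg_left hcon (half_pos hc).le
      have g5 : 8 * (C * h) ≤ (c / 2) * ε := by linarith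
      have g6 : 0 < C * h := mul_pos hC hhpos
      have g7 : 6 * (C * h) ≤ X + Y := by linarith
      have g8 : (6 * (C * h)) ^ 2 ≤ (X + Y) ^ 2 := pow_le_pow_left₀ (by linarith) g7 2
      have g9 : (X + Y) ^ 2 ≤ 2 * (X ^ 2 + Y ^ 2) := by
        have := sq_nonneg (X - Y)
        linarith [this, show (X - Y) ^ 2 = 2 * (X ^ 2 + Y ^ 2) - (X + Y) ^ 2 by ring]
      have g10 : 0 < (C * h) ^ 2 := pow_pos g6 2
      have g11 : (6 * (C * h)) ^ 2 = 36 * (C * h) ^ 2 := by ring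
      rw [g11] at g8
      linarith
    have a1 := abs_nonneg ρ
    have a2 := norm_nonneg σ
    obtain ⟨z1, z2⟩ := zero_of_min D h (2 * M + 1) 0 ρ σ ε (by linarith) (by linarith) hmin'
      (LL_surj _ _ (fun ρ' σ' => hJ 0 ρ σ hmem.1 hmem.2 ρ' σ'))
    exact ⟨0, ρ, σ, hmem.1, hmem.2, z1, z2⟩


end Pool.Agent.H763.Hen
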