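import Pool.Agent.H763.HenMats

set_option autoImplicit false

namespace Pool.Agent.H763.Hen

open Filter Topology Complex







noncomputable def cm_seq (P Q : ℝ → ℂ) (s h : ℝ) (k : ℕ) : ℂ :=
  if Even k then P (s + ((k / 2 : ℕ) : ℝ) * h) else Q (s + ((k / 2 : ℕ) : ℝ) * h)

theorem cm_lip {F G : ℝ → ℂ} {a b L : ℝ} (hF : ∀ t, HasDerivAt F (G t) t)
    (hG : ∀ t ∈ Set.Icc a b, ‖G t‖ ≤ L) :
    ∀ t ∈ Set.Icc a b, ∀ t' ∈ Set.Icc a b, ‖F t - F t'‖ ≤ L * |t - t'| := by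
  intro t ht t' ht'
  have := Convex.norm_image_sub_le_of_norm_hasDerivWithin_le (f := F) (f' := G)
    (s := Set.Icc a b) (fun x _ => (hF x).hasDerivWithinAt) hG (convex_Icc a b) ht' ht
  rwa [Real.norm_eq_abs] at this

theorem cm_dsq {F : ℝ → ℂ} {G : ℂ} {t : ℝ} (h : HasDerivAt F G t) :
    HasDerivAt (fun t => F t ^ 2) (2 * F t * G) t := by
  have h2 := h.fun_pow 2
  simpa using h2

theorem cm_incr {F G : ℝ → ℂ} {a b L : ℝ} (hF : ∀ t, HasDerivAt F (G t) t)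
    (hG : ∀ t ∈ Set.Icc a b, ∀ t' ∈ Set.Icc a b, ‖G t - G t'‖ ≤ L * |t - t'|) (hL : 0 ≤ L)
    {t h τ : ℝ} (hh : 0 ≤ h) (ht : a ≤ t) (hth : t + h ≤ b) (hτ : τ ∈ Set.Icc t (t + h)) :
    ‖F (t + h) - F t - h * G τ‖ ≤ L * h ^ 2 := by
  have h1 : ∀ x : ℝ, HasDerivAt (fun x : ℝ => F x - (x : ℂ) * G τ) (G x - G τ) x := by
    intro x
    have h2 := ((hasDerivAt_id x).ofReal_comp).mul_const (G τ)
    have h3 := (hF x).fun_sub h2
    simpa using h3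
  have h4 := Convex.norm_image_sub_le_of_norm_hasDerivWithin_le
    (f := fun x : ℝ => F x - (x : ℂ) * G τ) (f' := fun x => G x - G τ) (C := L * h)
    (s := Set.Icc t (t + h)) (fun x _ => (h1 x).hasDerivWithinAt) (by
      intro x hx
      refine (hG x ⟨ht.trans hx.1, hx.2.trans hth⟩ τ ⟨ht.trans hτ.1, hτ.2.trans hth⟩).trans ?_
      apply mul_le_mul_of_nonneg_left _ hL
      rw [abs_le]
      constructor <;> linarith [hx.1, hx.2, hτ.1, hτ.2]) (convex_Icc t (t + h))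
    (Set.left_mem_Icc.2 (by linarith)) (Set.right_mem_Icc.2 (by linarith))
  have e1 : F (t + h) - F t - h * G τ
      = F (t + h) - ((t + h : ℝ) : ℂ) * G τ - (F t - (t : ℂ) * G τ) := by
    push_cast; ring
  rw [e1]
  refine h4.trans (le_of_eq ?_)
  rw [Real.norm_eq_abs, add_sub_cancel_left, abs_of_nonneg hh]
  ring

theorem cm_seq_incr {P Q GP GQ : ℝ → ℂ} {s S h L : ℝ} (hP : ∀ t, HasDerivAt P (GP t) t)
    (hQ : ∀ t, HasDerivAt Q (GQ t) t) (hL : 0 ≤ L)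
    (lP : ∀ t ∈ Set.Icc s S, ∀ t' ∈ Set.Icc s S, ‖GP t - GP t'‖ ≤ L * |t - t'|)
    (lQ : ∀ t ∈ Set.Icc s S, ∀ t' ∈ Set.Icc s S, ‖GQ t - GQ t'‖ ≤ L * |t - t'|)
    (hh : 0 ≤ h) (k : ℕ) (hk : s + (((k / 2 : ℕ) : ℝ) + 1) * h ≤ S) :
    ‖cm_seq P Q s h (k + 2) - cm_seq P Q s h k - h * cm_seq GQ GP s h (k + 1)‖ ≤ L * h ^ 2 := by
  have e2 : (k + 2) / 2 = k / 2 + 1 := by omega
  have hj : 0 ≤ ((k / 2 : ℕ) : ℝ) * h := by positivity
  have e3 : s + ((k / 2 + 1 : ℕ) : ℝ) * h = s + ((k / 2 : ℕ) : ℝ) * h + h := by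
    push_cast; ring
  have hk' : s + ((k / 2 : ℕ) : ℝ) * h + h ≤ S := by linarith
  rcases Nat.even_or_odd k with he | ho
  · have h1 : Even (k + 2) := by rw [Nat.even_add]; simp [he]
    have h2 : ¬ Even (k + 1) := by rw [Nat.even_add_one]; simp [he]
    have h3 : (k + 1) / 2 = k / 2 := by
      obtain ⟨j, rfl⟩ := he
      omega
    unfold cm_seq
    rw [if_pos h1, if_pos he, if_neg h2, e2, h3, e3]
    exact cm_incr hP lP hL hh (by linarith) hk' ⟨le_rfl, by linarith⟩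
  · have h0 : ¬ Even k := by rw [Nat.not_even_iff_odd]; exact ho
    have h1 : ¬ Even (k + 2) := by rw [Nat.even_add]; simp [h0]
    have h2 : Even (k + 1) := by rw [Nat.even_add_one]; exact h0
    have h3 : (k + 1) / 2 = k / 2 + 1 := by
      obtain ⟨j, rfl⟩ := ho
      omega
    unfold cm_seq
    rw [if_neg h1, if_neg h0, if_pos h2, e2, h3, e3]
    exact cm_incr hQ lQ hL hh (by linarith) hk' ⟨by linarith, le_rfl⟩

theorem cm_gron {E : ℕ → ℝ} {E0 a τ : ℝ} {n : ℕ} (ha : 0 ≤ a) (hτ : 0 ≤ τ) (hE0 : 0 ≤ E0)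
    (h0 : E 0 ≤ E0) (h1 : E 1 ≤ E0)
    (hs : ∀ k, k + 2 ≤ n → (∀ j ≤ k + 1, E j ≤ (E0 + j * τ) * (1 + a) ^ j) →
      E (k + 2) ≤ E k + a * E (k + 1) + τ) :
    ∀ k ≤ n, E k ≤ (E0 + k * τ) * (1 + a) ^ k := by
  have key : ∀ k, k ≤ n → ∀ j ≤ k, E j ≤ (E0 + j * τ) * (1 + a) ^ j := by
    intro k
    induction k with
    | zero =>
      intro _ j hj
      obtain rfl : j = 0 := by omega
      simpa using h0
    | succ k ih =>
      intro hk j hj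
      rcases Nat.lt_or_ge j (k + 1) with hjk | hjk
      · exact ih (by omega) j (by omega)
      · obtain rfl : j = k + 1 := by omega
        rcases Nat.eq_zero_or_pos k with rfl | hkpos
        · have : E0 ≤ (E0 + ((0 + 1 : ℕ) : ℝ) * τ) * (1 + a) ^ (0 + 1) := by
            push_cast
            rw [pow_one, one_mul]
            nlinarith [mul_nonneg hE0 ha, mul_nonneg hτ ha]
          exact h1.trans this
        · obtain ⟨m, rfl⟩ : ∃ m, k = m + 1 := ⟨k - 1, by omega⟩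
          have ih' := ih (by omega)
          have h2 := hs m (by omega) ih'
          have h3 := ih' m (by omega)
          have h4 := ih' (m + 1) le_rfl
          have p1 : 0 ≤ (1 + a) ^ m := by positivity
          have p2 : (1 + a) ^ m ≤ (1 + a) ^ (m + 1) :=
            pow_le_pow_right₀ (by linarith) (by omega)
          have p3 : 1 ≤ (1 + a) ^ (m + 2) := one_le_pow₀ (by linarith)
          have q1 : 0 ≤ E0 + (m : ℝ) * τ := by positivity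
          push_cast at h4 ⊢
          have q2 : (E0 + (m : ℝ) * τ) * (1 + a) ^ m ≤ (E0 + ((m : ℝ) + 1) * τ) * (1 + a) ^ (m + 1) := by
            apply mul_le_mul _ p2 p1 (by positivity)
            nlinarith
          have q3 : a * E (m + 1) ≤ a * ((E0 + ((m : ℝ) + 1) * τ) * (1 + a) ^ (m + 1)) :=
            mul_le_mul_of_nonneg_left h4 ha
          calc E (m + 1 + 1) ≤ E m + a * E (m + 1) + τ := h2
            _ ≤ (E0 + ((m : ℝ) + 1) * τ) * (1 + a) ^ (m + 1)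
                + a * ((E0 + ((m : ℝ) + 1) * τ) * (1 + a) ^ (m + 1)) + τ * (1 + a) ^ (m + 2) := by
                  have : τ ≤ τ * (1 + a) ^ (m + 2) := le_mul_of_one_le_right hτ p3
                  linarith
            _ = (E0 + ((m : ℝ) + 1 + 1) * τ) * (1 + a) ^ (m + 1 + 1) := by ring
  intro k hk
  exact key k hk k le_rfl

theorem cm_exp {a : ℝ} (ha : 0 ≤ a) (k : ℕ) {c : ℝ} (hc : k * a ≤ c) : (1 + a) ^ k ≤ Real.exp c := by
  calc (1 + a) ^ k ≤ (Real.exp a) ^ k := by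
        apply pow_le_pow_left₀ (by linarith)
        rw [add_comm]
        exact Real.add_one_le_exp a
    _ = Real.exp (k * a) := by rw [← Real.exp_nat_mul]
    _ ≤ Real.exp c := Real.exp_le_exp.2 hc

theorem cm_B (D : OdeData) {B : ℝ} (hB : ∀ t, ‖D.ξ t‖ ≤ B ∧ ‖D.η t‖ ≤ B) : 0 ≤ B :=
  (norm_nonneg _).trans (hB 0).1

theorem cm_h (D : OdeData) {M : ℕ} (hM : 1 ≤ M) {h : ℝ} (hh : h = 2 * D.T / (2 * M + 1)) :
    0 < h ∧ (M : ℝ) * h = D.T - h / 2 ∧ 3 * h ≤ 2 * D.T ∧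
      ∀ k : ℕ, k ≤ 2 * M + 2 → (k : ℝ) * h ≤ 3 * D.T := by
  have hT := D.hT
  have hM' : (1 : ℝ) ≤ M := by exact_mod_cast hM
  have h1 : (2 * (M : ℝ) + 1) * h = 2 * D.T := by
    rw [hh]; field_simp
  have h0 : 0 < h := by rw [hh]; positivity
  have h3 : 3 * h ≤ 2 * D.T := by rw [← h1]; nlinarith
  refine ⟨h0, by linarith, h3, ?_⟩
  intro k hk
  have hk' : (k : ℝ) ≤ 2 * M + 2 := by exact_mod_cast hk
  have h4 : (k : ℝ) * h ≤ (2 * M + 2) * h := mul_le_mul_of_nonneg_right hk' h0.le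
  linarith

theorem cm_pos (D : OdeData) {M : ℕ} (hM : 1 ≤ M) {h : ℝ} (hh : h = 2 * D.T / (2 * M + 1)) (s : ℝ)
    {k : ℕ} (hk : k + 2 ≤ 2 * M + 2) : s + (((k / 2 : ℕ) : ℝ) + 1) * h ≤ s + 3 * D.T := by
  obtain ⟨h0, h1, h2, h3⟩ := cm_h D hM hh
  have h4 := h3 (k / 2 + 1) (by omega)
  push_cast at h4
  linarith

theorem cm_seq_sq (P Q : ℝ → ℂ) (s h : ℝ) (k : ℕ) :
    cm_seq (fun t => P t ^ 2) (fun t => Q t ^ 2) s h k = cm_seq P Q s h k ^ 2 := by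
  unfold cm_seq
  split_ifs <;> rfl

theorem cm_seq_mul (P Q X Y : ℝ → ℂ) (s h : ℝ) (k : ℕ) :
    cm_seq (fun t => 2 * P t * X t) (fun t => 2 * Q t * Y t) s h k
      = 2 * cm_seq P Q s h k * cm_seq X Y s h k := by
  unfold cm_seq
  split_ifs <;> rfl

theorem cm_seq_bd {P Q : ℝ → ℂ} {s S h K : ℝ} {k : ℕ} (hh : 0 ≤ h)
    (hP : ∀ t ∈ Set.Icc s S, ‖P t‖ ≤ K) (hQ : ∀ t ∈ Set.Icc s S, ‖Q t‖ ≤ K)
    (hk : s + (k : ℝ) * h ≤ S) : ‖cm_seq P Q s h k‖ ≤ K := by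
  have h1 : ((k / 2 : ℕ) : ℝ) ≤ k := by exact_mod_cast Nat.div_le_self k 2
  have h2 : ((k / 2 : ℕ) : ℝ) * h ≤ (k : ℝ) * h := mul_le_mul_of_nonneg_right h1 hh
  have h3 : 0 ≤ ((k / 2 : ℕ) : ℝ) * h := by positivity
  have h4 : s + ((k / 2 : ℕ) : ℝ) * h ∈ Set.Icc s S := ⟨by linarith, by linarith⟩
  unfold cm_seq
  split_ifs
  · exact hP _ h4
  · exact hQ _ h4

/-- the constant for the orbit -/
noncomputable def cmC1 (D : OdeData) (B : ℝ) : ℝ :=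
  (1 + 3 * D.T * (2 * B ^ 3)) * Real.exp (3 * D.T * (2 * B + 1))

theorem cm_w (D : OdeData) {B : ℝ} (hB : ∀ t, ‖D.ξ t‖ ≤ B ∧ ‖D.η t‖ ≤ B) {M : ℕ} (hM : 1 ≤ M)
    {h : ℝ} (hh : h = 2 * D.T / (2 * M + 1)) (s : ℝ) (δ0 δ1 : ℂ)
    (hC : cmC1 D B * (h + ‖δ0‖ + ‖δ1‖) ≤ 1) :
    ∀ k ≤ 2 * M + 2, ‖ys h (D.ξ s + δ0) (D.η s + δ1) k - cm_seq D.ξ D.η s h k‖
      ≤ cmC1 D B * (h + ‖δ0‖ + ‖δ1‖) := by
  have hB0 := cm_B D hB
  have hT := D.hT
  obtain ⟨h0, h1, h2, h3⟩ := cm_h D hM hh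
  set E : ℕ → ℝ := fun k => ‖ys h (D.ξ s + δ0) (D.η s + δ1) k - cm_seq D.ξ D.η s h k‖ with hE
  have n0 := norm_nonneg δ0
  have n1 := norm_nonneg δ1
  -- final bound
  have hfin : ∀ k ≤ 2 * M + 2, ((‖δ0‖ + ‖δ1‖) + (k : ℝ) * (2 * B ^ 3 * h ^ 2))
      * (1 + h * (2 * B + 1)) ^ k ≤ cmC1 D B * (h + ‖δ0‖ + ‖δ1‖) := by
    intro k hk
    have hk3 := h3 k hk
    have e1 : (1 + h * (2 * B + 1)) ^ k ≤ Real.exp (3 * D.T * (2 * B + 1)) := by
      apply cm_exp (by positivity)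
      calc (k : ℝ) * (h * (2 * B + 1)) = (k : ℝ) * h * (2 * B + 1) := by ring
        _ ≤ 3 * D.T * (2 * B + 1) := mul_le_mul_of_nonneg_right hk3 (by positivity)
    have e2 : (k : ℝ) * (2 * B ^ 3 * h ^ 2) ≤ 3 * D.T * (2 * B ^ 3) * h := by
      calc (k : ℝ) * (2 * B ^ 3 * h ^ 2) = ((k : ℝ) * h) * (2 * B ^ 3 * h) := by ring
        _ ≤ (3 * D.T) * (2 * B ^ 3 * h) := mul_le_mul_of_nonneg_right hk3 (by positivity)
        _ = 3 * D.T * (2 * B ^ 3) * h := by ring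
    have e3 : (‖δ0‖ + ‖δ1‖) + (k : ℝ) * (2 * B ^ 3 * h ^ 2)
        ≤ (1 + 3 * D.T * (2 * B ^ 3)) * (h + ‖δ0‖ + ‖δ1‖) := by
      have : 0 ≤ 3 * D.T * (2 * B ^ 3) := by positivity
      nlinarith [mul_nonneg this n0, mul_nonneg this n1]
    calc ((‖δ0‖ + ‖δ1‖) + (k : ℝ) * (2 * B ^ 3 * h ^ 2)) * (1 + h * (2 * B + 1)) ^ k
        ≤ ((1 + 3 * D.T * (2 * B ^ 3)) * (h + ‖δ0‖ + ‖δ1‖))
          * Real.exp (3 * D.T * (2 * B + 1)) := by
            apply mul_le_mul e3 e1 (by positivity) (by positivity)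
      _ = cmC1 D B * (h + ‖δ0‖ + ‖δ1‖) := by unfold cmC1; ring
  have hlipξ : ∀ t ∈ Set.Icc s (s + 3 * D.T), ∀ t' ∈ Set.Icc s (s + 3 * D.T),
      ‖D.ξ t ^ 2 - D.ξ t' ^ 2‖ ≤ (2 * B ^ 3) * |t - t'| := by
    apply cm_lip (F := fun t => D.ξ t ^ 2) (G := fun t => 2 * D.ξ t * D.η t ^ 2)
    · intro t
      exact cm_dsq (D.hξ t)
    · intro t _
      rw [norm_mul, norm_mul, norm_pow]
      have := (hB t).1
      have := (hB t).2
      calc ‖(2 : ℂ)‖ * ‖D.ξ t‖ * ‖D.η t‖ ^ 2 ≤ 2 * B * B ^ 2 := by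
            have : ‖(2 : ℂ)‖ = 2 := by simp
            rw [this]
            gcongr
        _ = 2 * B ^ 3 := by ring
  have hlipη : ∀ t ∈ Set.Icc s (s + 3 * D.T), ∀ t' ∈ Set.Icc s (s + 3 * D.T),
      ‖D.η t ^ 2 - D.η t' ^ 2‖ ≤ (2 * B ^ 3) * |t - t'| := by
    apply cm_lip (F := fun t => D.η t ^ 2) (G := fun t => 2 * D.η t * D.ξ t ^ 2)
    · intro t
      exact cm_dsq (D.hη t)
    · intro t _
      rw [norm_mul, norm_mul, norm_pow]
      have := (hB t).1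
      have := (hB t).2
      calc ‖(2 : ℂ)‖ * ‖D.η t‖ * ‖D.ξ t‖ ^ 2 ≤ 2 * B * B ^ 2 := by
            have : ‖(2 : ℂ)‖ = 2 := by simp
            rw [this]
            gcongr
        _ = 2 * B ^ 3 := by ring
  have hgr := cm_gron (E := E) (E0 := ‖δ0‖ + ‖δ1‖) (a := h * (2 * B + 1)) (τ := 2 * B ^ 3 * h ^ 2)
    (n := 2 * M + 2) (by positivity) (by positivity) (by positivity)
    (by
      have : E 0 = ‖δ0‖ := by simp [hE, ys, cm_seq]
      rw [this]; linarith)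
    (by
      have : E 1 = ‖δ1‖ := by simp [hE, ys, cm_seq]
      rw [this]; linarith)
    (by
      intro k hk hj
      have hE1 : E (k + 1) ≤ 1 := ((hj (k + 1) le_rfl).trans (hfin (k + 1) (by omega))).trans hC
      have hin := cm_seq_incr (P := D.ξ) (Q := D.η) (GP := fun t => D.η t ^ 2)
        (GQ := fun t => D.ξ t ^ 2) (s := s) (S := s + 3 * D.T) (h := h) (L := 2 * B ^ 3)
        D.hξ D.hη (by positivity) hlipη hlipξ h0.le k (cm_pos D hM hh s hk)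
      rw [cm_seq_sq] at hin
      have hy : ys h (D.ξ s + δ0) (D.η s + δ1) (k + 2) = ys h (D.ξ s + δ0) (D.η s + δ1) k
        + h * ys h (D.ξ s + δ0) (D.η s + δ1) (k + 1) ^ 2 := rfl
      have hw : ‖cm_seq D.ξ D.η s h (k + 1)‖ ≤ B :=
        cm_seq_bd (S := s + 3 * D.T) h0.le (fun t _ => (hB t).1) (fun t _ => (hB t).2)
          (by have := h3 (k + 1) (by omega); linarith)
      set y1 := ys h (D.ξ s + δ0) (D.η s + δ1) (k + 1) with hy1
      set w1 := cm_seq D.ξ D.η s h (k + 1) with hw1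
      have hE1' : ‖y1 - w1‖ ≤ 1 := hE1
      have e1 : E (k + 2) = ‖(ys h (D.ξ s + δ0) (D.η s + δ1) k - cm_seq D.ξ D.η s h k)
          + h * ((y1 - w1) * (y1 + w1))
          - (cm_seq D.ξ D.η s h (k + 2) - cm_seq D.ξ D.η s h k - h * w1 ^ 2)‖ := by
        change ‖ys h (D.ξ s + δ0) (D.η s + δ1) (k + 2) - cm_seq D.ξ D.η s h (k + 2)‖ = _
        rw [hy]
        congr 1
        ring
      rw [e1]
      have e2 : ‖y1 + w1‖ ≤ 2 * B + 1 := by
        have : y1 + w1 = (y1 - w1) + (2 : ℂ) * w1 := by ring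
        rw [this]
        refine (norm_add_le _ _).trans ?_
        rw [norm_mul]
        have : ‖(2 : ℂ)‖ = 2 := by simp
        rw [this]
        linarith
      have e3 : ‖(h : ℂ) * ((y1 - w1) * (y1 + w1))‖ ≤ h * (2 * B + 1) * E (k + 1) := by
        rw [norm_mul, norm_mul, Complex.norm_real, Real.norm_eq_abs, abs_of_pos h0]
        change h * (‖y1 - w1‖ * ‖y1 + w1‖) ≤ h * (2 * B + 1) * ‖y1 - w1‖
        have : ‖y1 - w1‖ * ‖y1 + w1‖ ≤ ‖y1 - w1‖ * (2 * B + 1) :=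
          mul_le_mul_of_nonneg_left e2 (norm_nonneg _)
        nlinarith
      refine (norm_sub_le _ _).trans ?_
      have e4 := norm_add_le (ys h (D.ξ s + δ0) (D.η s + δ1) k - cm_seq D.ξ D.η s h k)
        ((h : ℂ) * ((y1 - w1) * (y1 + w1)))
      have e5 : E k = ‖ys h (D.ξ s + δ0) (D.η s + δ1) k - cm_seq D.ξ D.η s h k‖ := rfl
      rw [e5]
      linarith)
  intro k hk
  exact (hgr k hk).trans (hfin k hk)

/-- the constant for the tangent orbit -/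
noncomputable def cmC2 (D : OdeData) (B K : ℝ) : ℝ :=
  3 * D.T * (2 * K * cmC1 D B + 6 * B ^ 2 * K) * Real.exp (3 * D.T * (2 * (B + 1)))

theorem cm_C1_one (D : OdeData) {B : ℝ} (hB : 0 ≤ B) : 1 ≤ cmC1 D B := by
  have hT := D.hT
  unfold cmC1
  have h1 : 1 ≤ 1 + 3 * D.T * (2 * B ^ 3) := le_add_of_nonneg_right (by positivity)
  have h2 : 1 ≤ Real.exp (3 * D.T * (2 * B + 1)) := Real.one_le_exp (by positivity)
  nlinarith

theorem cm_d (D : OdeData) {B : ℝ} (hB : ∀ t, ‖D.ξ t‖ ≤ B ∧ ‖D.η t‖ ≤ B) {M : ℕ} (hM : 1 ≤ M)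
    {h : ℝ} (hh : h = 2 * D.T / (2 * M + 1)) (s : ℝ) (δ0 δ1 : ℂ)
    (hC : cmC1 D B * (h + ‖δ0‖ + ‖δ1‖) ≤ 1) {X Y : ℝ → ℂ} {K : ℝ} (hK : 0 ≤ K)
    (hX : ∀ t, HasDerivAt X (2 * D.η t * Y t) t) (hY : ∀ t, HasDerivAt Y (2 * D.ξ t * X t) t)
    (bX : ∀ t ∈ Set.Icc s (s + 3 * D.T), ‖X t‖ ≤ K)
    (bY : ∀ t ∈ Set.Icc s (s + 3 * D.T), ‖Y t‖ ≤ K) :
    ∀ k ≤ 2 * M + 2, ‖ds h (D.ξ s + δ0) (D.η s + δ1) (X s) (Y s) k - cm_seq X Y s h k‖
      ≤ cmC2 D B K * (h + ‖δ0‖ + ‖δ1‖) := by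
  have hB0 := cm_B D hB
  have hT := D.hT
  obtain ⟨h0, h1, h2, h3⟩ := cm_h D hM hh
  have hcw := cm_w D hB hM hh s δ0 δ1 hC
  have hC1 := cm_C1_one D hB0
  set C1 := cmC1 D B with hC1d
  set ε := h + ‖δ0‖ + ‖δ1‖ with hε
  have hhε : h ≤ ε := by
    rw [hε]; linarith [norm_nonneg δ0, norm_nonneg δ1]
  have hε0 : 0 ≤ ε := h0.le.trans hhε
  set E : ℕ → ℝ := fun k => ‖ds h (D.ξ s + δ0) (D.η s + δ1) (X s) (Y s) k - cm_seq X Y s h k‖
    with hE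
  have n2 : ‖(2 : ℂ)‖ = 2 := by simp
  have lX : ∀ t ∈ Set.Icc s (s + 3 * D.T), ∀ t' ∈ Set.Icc s (s + 3 * D.T),
      ‖2 * D.η t * Y t - 2 * D.η t' * Y t'‖ ≤ (6 * B ^ 2 * K) * |t - t'| := by
    apply cm_lip (F := fun t => 2 * D.η t * Y t)
      (G := fun t => 2 * D.ξ t ^ 2 * Y t + 2 * D.η t * (2 * D.ξ t * X t))
    · intro t
      exact ((D.hη t).const_mul 2).mul (hY t)
    · intro t ht
      have b1 := (hB t).1
      have b2 := (hB t).2
      have b3 := bX t ht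
      have b4 := bY t ht
      refine (norm_add_le _ _).trans ?_
      rw [norm_mul, norm_mul, norm_pow, norm_mul, norm_mul, norm_mul, norm_mul, n2]
      calc 2 * ‖D.ξ t‖ ^ 2 * ‖Y t‖ + 2 * ‖D.η t‖ * (2 * ‖D.ξ t‖ * ‖X t‖)
          ≤ 2 * B ^ 2 * K + 2 * B * (2 * B * K) := by gcongr
        _ = 6 * B ^ 2 * K := by ring
  have lY : ∀ t ∈ Set.Icc s (s + 3 * D.T), ∀ t' ∈ Set.Icc s (s + 3 * D.T),
      ‖2 * D.ξ t * X t - 2 * D.ξ t' * X t'‖ ≤ (6 * B ^ 2 * K) * |t - t'| := by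
    apply cm_lip (F := fun t => 2 * D.ξ t * X t)
      (G := fun t => 2 * D.η t ^ 2 * X t + 2 * D.ξ t * (2 * D.η t * Y t))
    · intro t
      exact ((D.hξ t).const_mul 2).mul (hX t)
    · intro t ht
      have b1 := (hB t).1
      have b2 := (hB t).2
      have b3 := bX t ht
      have b4 := bY t ht
      refine (norm_add_le _ _).trans ?_
      rw [norm_mul, norm_mul, norm_pow, norm_mul, norm_mul, norm_mul, norm_mul, n2]
      calc 2 * ‖D.η t‖ ^ 2 * ‖X t‖ + 2 * ‖D.ξ t‖ * (2 * ‖D.η t‖ * ‖Y t‖)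
          ≤ 2 * B ^ 2 * K + 2 * B * (2 * B * K) := by gcongr
        _ = 6 * B ^ 2 * K := by ring
  have hfin : ∀ k ≤ 2 * M + 2, (0 + (k : ℝ) * (h * ((2 * K * C1 + 6 * B ^ 2 * K) * ε)))
      * (1 + h * (2 * (B + 1))) ^ k ≤ cmC2 D B K * ε := by
    intro k hk
    have hk3 := h3 k hk
    have e1 : (1 + h * (2 * (B + 1))) ^ k ≤ Real.exp (3 * D.T * (2 * (B + 1))) := by
      apply cm_exp (by positivity)
      calc (k : ℝ) * (h * (2 * (B + 1))) = (k : ℝ) * h * (2 * (B + 1)) := by ring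
        _ ≤ 3 * D.T * (2 * (B + 1)) := mul_le_mul_of_nonneg_right hk3 (by positivity)
    have e2 : 0 + (k : ℝ) * (h * ((2 * K * C1 + 6 * B ^ 2 * K) * ε))
        ≤ 3 * D.T * ((2 * K * C1 + 6 * B ^ 2 * K) * ε) := by
      calc 0 + (k : ℝ) * (h * ((2 * K * C1 + 6 * B ^ 2 * K) * ε))
          = ((k : ℝ) * h) * ((2 * K * C1 + 6 * B ^ 2 * K) * ε) := by ring
        _ ≤ (3 * D.T) * ((2 * K * C1 + 6 * B ^ 2 * K) * ε) :=
          mul_le_mul_of_nonneg_right hk3 (by positivity)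
    calc _ ≤ (3 * D.T * ((2 * K * C1 + 6 * B ^ 2 * K) * ε)) * Real.exp (3 * D.T * (2 * (B + 1))) :=
          mul_le_mul e2 e1 (by positivity) (by positivity)
      _ = cmC2 D B K * ε := by unfold cmC2; rw [← hC1d]; ring
  have hgr := cm_gron (E := E) (E0 := 0) (a := h * (2 * (B + 1)))
    (τ := h * ((2 * K * C1 + 6 * B ^ 2 * K) * ε))
    (n := 2 * M + 2) (by positivity) (by positivity) le_rfl
    (by
      have : E 0 = 0 := by simp [hE, ds, cm_seq]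
      rw [this])
    (by
      have : E 1 = 0 := by simp [hE, ds, cm_seq]
      rw [this])
    (by
      intro k hk _
      have hin := cm_seq_incr (P := X) (Q := Y) (GP := fun t => 2 * D.η t * Y t)
        (GQ := fun t => 2 * D.ξ t * X t) (s := s) (S := s + 3 * D.T) (h := h)
        (L := 6 * B ^ 2 * K) hX hY (by positivity) lX lY h0.le k (cm_pos D hM hh s hk)
      rw [cm_seq_mul] at hin
      have hd : ds h (D.ξ s + δ0) (D.η s + δ1) (X s) (Y s) (k + 2)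
        = ds h (D.ξ s + δ0) (D.η s + δ1) (X s) (Y s) k
        + 2 * h * ys h (D.ξ s + δ0) (D.η s + δ1) (k + 1)
          * ds h (D.ξ s + δ0) (D.η s + δ1) (X s) (Y s) (k + 1) := rfl
      have hk1 : s + ((k + 1 : ℕ) : ℝ) * h ≤ s + 3 * D.T := by
        have := h3 (k + 1) (by omega); linarith
      have hw : ‖cm_seq D.ξ D.η s h (k + 1)‖ ≤ B :=
        cm_seq_bd (S := s + 3 * D.T) h0.le (fun t _ => (hB t).1) (fun t _ => (hB t).2) hk1
      have hDk : ‖cm_seq X Y s h (k + 1)‖ ≤ K :=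
        cm_seq_bd (S := s + 3 * D.T) h0.le bX bY hk1
      have hyw := hcw (k + 1) (by omega)
      set y1 := ys h (D.ξ s + δ0) (D.η s + δ1) (k + 1) with hy1
      set w1 := cm_seq D.ξ D.η s h (k + 1) with hw1
      set d1 := ds h (D.ξ s + δ0) (D.η s + δ1) (X s) (Y s) (k + 1) with hd1
      set D1 := cm_seq X Y s h (k + 1) with hD1
      have hy1b : ‖y1‖ ≤ B + 1 := by
        have : y1 = (y1 - w1) + w1 := by ring
        rw [this]
        refine (norm_add_le _ _).trans ?_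
        linarith
      have e1 : E (k + 2) = ‖(ds h (D.ξ s + δ0) (D.η s + δ1) (X s) (Y s) k - cm_seq X Y s h k)
          + h * (2 * (y1 * (d1 - D1) + (y1 - w1) * D1))
          - (cm_seq X Y s h (k + 2) - cm_seq X Y s h k - h * (2 * w1 * D1))‖ := by
        change ‖ds h (D.ξ s + δ0) (D.η s + δ1) (X s) (Y s) (k + 2) - cm_seq X Y s h (k + 2)‖ = _
        rw [hd]
        congr 1
        ring
      rw [e1]
      have e3 : ‖(h : ℂ) * (2 * (y1 * (d1 - D1) + (y1 - w1) * D1))‖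
          ≤ h * (2 * (B + 1)) * E (k + 1) + h * (2 * K * C1 * ε) := by
        rw [norm_mul, norm_mul, Complex.norm_real, Real.norm_eq_abs, abs_of_pos h0, n2]
        have e4 : ‖y1 * (d1 - D1) + (y1 - w1) * D1‖ ≤ (B + 1) * E (k + 1) + (C1 * ε) * K := by
          refine (norm_add_le _ _).trans ?_
          rw [norm_mul, norm_mul]
          have e5 : ‖y1‖ * ‖d1 - D1‖ ≤ (B + 1) * E (k + 1) :=
            mul_le_mul_of_nonneg_right hy1b (norm_nonneg _)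
          have e6 : ‖y1 - w1‖ * ‖D1‖ ≤ (C1 * ε) * K :=
            mul_le_mul hyw hDk (norm_nonneg _) (by positivity)
          linarith
        calc h * (2 * ‖y1 * (d1 - D1) + (y1 - w1) * D1‖)
            ≤ h * (2 * ((B + 1) * E (k + 1) + (C1 * ε) * K)) := by gcongr
          _ = _ := by ring
      refine (norm_sub_le _ _).trans ?_
      have e4 := norm_add_le (ds h (D.ξ s + δ0) (D.η s + δ1) (X s) (Y s) k - cm_seq X Y s h k)
        ((h : ℂ) * (2 * (y1 * (d1 - D1) + (y1 - w1) * D1)))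
      have e5 : E k = ‖ds h (D.ξ s + δ0) (D.η s + δ1) (X s) (Y s) k - cm_seq X Y s h k‖ := rfl
      have e6 : (6 * B ^ 2 * K) * h ^ 2 ≤ h * (6 * B ^ 2 * K * ε) := by
        calc (6 * B ^ 2 * K) * h ^ 2 = h * (6 * B ^ 2 * K * h) := by ring
          _ ≤ h * (6 * B ^ 2 * K * ε) := by gcongr
      rw [e5]
      have e7 : h * ((2 * K * C1 + 6 * B ^ 2 * K) * ε) = h * (2 * K * C1 * ε)
        + h * (6 * B ^ 2 * K * ε) := by ring
      rw [e7]
      linarith)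
  intro k hk
  exact (hgr k hk).trans (hfin k hk)

/-- values at the end of the orbit -/
theorem cm_end (D : OdeData) {M : ℕ} (hM : 1 ≤ M)
    {h : ℝ} (hh : h = 2 * D.T / (2 * M + 1)) (s : ℝ) {X Y GX GY : ℝ → ℂ} {L : ℝ}
    (hX : ∀ t, HasDerivAt X (GX t) t) (hY : ∀ t, HasDerivAt Y (GY t) t)
    (bX : ∀ t ∈ Set.Icc s (s + 3 * D.T), ‖GX t‖ ≤ L)
    (bY : ∀ t ∈ Set.Icc s (s + 3 * D.T), ‖GY t‖ ≤ L) :
    ‖cm_seq X Y s h (2 * M + 1) - Y (s + D.T)‖ ≤ L * h ∧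
      ‖cm_seq X Y s h (2 * M + 2) - X (s + D.T)‖ ≤ L * h := by
  have hT := D.hT
  obtain ⟨h0, h1, h2, h3⟩ := cm_h D hM hh
  have hL : 0 ≤ L := (norm_nonneg _).trans (bX s ⟨le_rfl, by linarith⟩)
  have hMn : (0 : ℝ) ≤ M := Nat.cast_nonneg M
  have q1 : (2 * M + 1) / 2 = M := by omega
  have q2 : (2 * M + 2) / 2 = M + 1 := by omega
  have o1 : ¬ Even (2 * M + 1) := by
    rw [Nat.not_even_iff_odd]; exact ⟨M, rfl⟩
  have o2 : Even (2 * M + 2) := ⟨M + 1, by ring⟩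
  unfold cm_seq
  rw [if_neg o1, if_pos o2, q1, q2]
  push_cast
  constructor
  · have := cm_lip hY bY (s + (M : ℝ) * h) ⟨by nlinarith, by linarith⟩ (s + D.T)
      ⟨by linarith, by linarith⟩
    refine this.trans ?_
    apply mul_le_mul_of_nonneg_left _ hL
    rw [h1, abs_le]
    constructor <;> linarith
  · have := cm_lip hX bX (s + ((M : ℝ) + 1) * h) ⟨by nlinarith, by nlinarith⟩ (s + D.T)
      ⟨by linarith, by linarith⟩
    refine this.trans ?_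
    apply mul_le_mul_of_nonneg_left _ hL
    have : ((M : ℝ) + 1) * h = D.T + h / 2 := by rw [add_mul, h1]; ring
    rw [this, abs_le]
    constructor <;> linarith

theorem cm_conj (a b : ℂ) : ‖(starRingEnd ℂ) a - b‖ = ‖a - (starRingEnd ℂ) b‖ := by
  rw [← Complex.norm_conj (a - (starRingEnd ℂ) b), map_sub, Complex.conj_conj]

theorem comparison (D : OdeData) (B : ℝ) (hB : ∀ t, ‖D.ξ t‖ ≤ B ∧ ‖D.η t‖ ≤ B) :
    ∃ C : ℝ, 1 ≤ C ∧ ∀ (M : ℕ) (s : ℝ) (δ0 δ1 : ℂ) (h : ℝ), 1 ≤ M →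
      h = 2 * D.T / (2 * M + 1) → C * (h + ‖δ0‖ + ‖δ1‖) ≤ 1 →
      (∀ k ≤ 2 * M + 2, ‖ys h (D.ξ s + δ0) (D.η s + δ1) k‖ ≤ B + 1) ∧
      ‖(starRingEnd ℂ) (ys h (D.ξ s + δ0) (D.η s + δ1) (2 * M + 1)) - D.ξ s‖ ≤ C * (h + ‖δ0‖ + ‖δ1‖) ∧
      ‖(starRingEnd ℂ) (ys h (D.ξ s + δ0) (D.η s + δ1) (2 * M + 2)) - D.η s‖ ≤ C * (h + ‖δ0‖ + ‖δ1‖) ∧
      Near D s (C * (h + ‖δ0‖ + ‖δ1‖)) (JA h (D.ξ s + δ0) (D.η s + δ1) (2 * M + 1)) := by
  have hB0 := cm_B D hB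
  have hT := D.hT
  have hC1 := cm_C1_one D hB0
  set C1 := cmC1 D B with hC1d
  set K : ℝ := B + B ^ 2 + 3 * D.T * B ^ 2 with hK
  have hK0 : 0 ≤ K := by positivity
  set C2 := cmC2 D B K with hC2
  have hC20 : 0 ≤ C2 := by
    rw [hC2]; unfold cmC2; rw [← hC1d]; positivity
  set C : ℝ := C1 + C2 + B ^ 2 + 2 * B * K with hC
  have hCC1 : C1 ≤ C := by
    have : 0 ≤ C2 + B ^ 2 + 2 * B * K := by positivity
    rw [hC]; linarith
  refine ⟨C, by linarith, ?_⟩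
  intro M s δ0 δ1 h hM hh hCe
  obtain ⟨h0, h1, h2, h3⟩ := cm_h D hM hh
  set ε := h + ‖δ0‖ + ‖δ1‖ with hε
  have hhε : h ≤ ε := by
    rw [hε]; linarith [norm_nonneg δ0, norm_nonneg δ1]
  have hε0 : 0 ≤ ε := h0.le.trans hhε
  have hC1e : C1 * ε ≤ 1 := (mul_le_mul_of_nonneg_right hCC1 hε0).trans hCe
  have hcw := cm_w D hB hM hh s δ0 δ1 hC1e
  have n2 : ‖(2 : ℂ)‖ = 2 := by simp
  -- end values of the orbit
  have hend := cm_end D hM hh s (X := D.ξ) (Y := D.η) (L := B ^ 2) D.hξ D.hη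
    (fun t _ => by rw [norm_pow]; exact pow_le_pow_left₀ (norm_nonneg _) (hB t).2 2)
    (fun t _ => by rw [norm_pow]; exact pow_le_pow_left₀ (norm_nonneg _) (hB t).1 2)
  rw [D.hc1, D.hc2] at hend
  have hsum : ∀ a b c : ℂ, ‖a - c‖ ≤ ‖a - b‖ + ‖b - c‖ := fun a b c => norm_sub_le_norm_sub_add_norm_sub a b c
  have hBh : B ^ 2 * h ≤ B ^ 2 * ε := by gcongr
  have hKh : 2 * B * K * h ≤ 2 * B * K * ε := by gcongr
  have hCe1 : C1 * ε + B ^ 2 * ε ≤ C * ε := by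
    have : 0 ≤ (C2 + 2 * B * K) * ε := by positivity
    rw [hC]; nlinarith
  have hCe2 : C2 * ε + 2 * B * K * ε ≤ C * ε := by
    have : 0 ≤ (C1 + B ^ 2) * ε := by positivity
    rw [hC]; nlinarith
  -- tangent orbits
  have hf := cm_d D hB hM hh s δ0 δ1 hC1e hK0 (X := fun t => D.η t ^ 2) (Y := fun t => D.ξ t ^ 2)
    (fun t => cm_dsq (D.hη t))
    (fun t => cm_dsq (D.hξ t))
    (by
      intro t _
      rw [norm_pow]
      have : ‖D.η t‖ ^ 2 ≤ B ^ 2 := pow_le_pow_left₀ (norm_nonneg _) (hB t).2 2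
      have : 0 ≤ 3 * D.T * B ^ 2 := by positivity
      rw [hK]; linarith)
    (by
      intro t _
      rw [norm_pow]
      have : ‖D.ξ t‖ ^ 2 ≤ B ^ 2 := pow_le_pow_left₀ (norm_nonneg _) (hB t).1 2
      have : 0 ≤ 3 * D.T * B ^ 2 := by positivity
      rw [hK]; linarith)
  have dX : ∀ t, HasDerivAt (fun t : ℝ => D.ξ t + ((t - s : ℝ) : ℂ) * D.η t ^ 2)
      (2 * D.η t * (D.η t + ((t - s : ℝ) : ℂ) * D.ξ t ^ 2)) t := by
    intro t
    have a1 : HasDerivAt (fun t : ℝ => ((t - s : ℝ) : ℂ)) 1 t := by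
      have := ((hasDerivAt_id t).sub_const s).ofReal_comp
      simpa using this
    have a2 : HasDerivAt (fun t => D.η t ^ 2) (2 * D.η t * D.ξ t ^ 2) t := by
      exact cm_dsq (D.hη t)
    have a3 := (D.hξ t).add (a1.mul a2)
    convert! a3 using 1
    ring
  have dY : ∀ t, HasDerivAt (fun t : ℝ => D.η t + ((t - s : ℝ) : ℂ) * D.ξ t ^ 2)
      (2 * D.ξ t * (D.ξ t + ((t - s : ℝ) : ℂ) * D.η t ^ 2)) t := by
    intro t
    have a1 : HasDerivAt (fun t : ℝ => ((t - s : ℝ) : ℂ)) 1 t := by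
      have := ((hasDerivAt_id t).sub_const s).ofReal_comp
      simpa using this
    have a2 : HasDerivAt (fun t => D.ξ t ^ 2) (2 * D.ξ t * D.η t ^ 2) t := by
      exact cm_dsq (D.hξ t)
    have a3 := (D.hη t).add (a1.mul a2)
    convert! a3 using 1
    ring
  have bX : ∀ t ∈ Set.Icc s (s + 3 * D.T), ‖D.ξ t + ((t - s : ℝ) : ℂ) * D.η t ^ 2‖ ≤ K := by
    intro t ht
    refine (norm_add_le _ _).trans ?_
    rw [norm_mul, norm_pow, Complex.norm_real, Real.norm_eq_abs, abs_of_nonneg (by linarith [ht.1])]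
    have b1 : ‖D.η t‖ ^ 2 ≤ B ^ 2 := pow_le_pow_left₀ (norm_nonneg _) (hB t).2 2
    have b2 : (t - s) * ‖D.η t‖ ^ 2 ≤ 3 * D.T * B ^ 2 :=
      mul_le_mul (by linarith [ht.2]) b1 (by positivity) (by positivity)
    have b3 := (hB t).1
    have : 0 ≤ B ^ 2 := by positivity
    rw [hK]; linarith
  have bY : ∀ t ∈ Set.Icc s (s + 3 * D.T), ‖D.η t + ((t - s : ℝ) : ℂ) * D.ξ t ^ 2‖ ≤ K := by
    intro t ht
    refine (norm_add_le _ _).trans ?_
    rw [norm_mul, norm_pow, Complex.norm_real, Real.norm_eq_abs, abs_of_nonneg (by linarith [ht.1])]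
    have b1 : ‖D.ξ t‖ ^ 2 ≤ B ^ 2 := pow_le_pow_left₀ (norm_nonneg _) (hB t).1 2
    have b2 : (t - s) * ‖D.ξ t‖ ^ 2 ≤ 3 * D.T * B ^ 2 :=
      mul_le_mul (by linarith [ht.2]) b1 (by positivity) (by positivity)
    have b3 := (hB t).2
    have : 0 ≤ B ^ 2 := by positivity
    rw [hK]; linarith
  have hg := cm_d D hB hM hh s δ0 δ1 hC1e hK0 dX dY bX bY
  -- end values of the tangent orbits
  have hBK : ∀ z w : ℂ, ‖z‖ ≤ B → ‖w‖ ≤ K → ‖2 * z * w‖ ≤ 2 * B * K := by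
    intro z w hz hw
    rw [norm_mul, norm_mul, n2]
    gcongr
  have hBsqK : B ^ 2 ≤ K := by
    have : 0 ≤ 3 * D.T * B ^ 2 := by positivity
    rw [hK]; linarith
  have hendf := cm_end D hM hh s (X := fun t => D.η t ^ 2) (Y := fun t => D.ξ t ^ 2)
    (GX := fun t => 2 * D.η t * D.ξ t ^ 2) (GY := fun t => 2 * D.ξ t * D.η t ^ 2)
    (L := 2 * B * K)
    (fun t => cm_dsq (D.hη t))
    (fun t => cm_dsq (D.hξ t))
    (fun t _ => hBK _ _ (hB t).2 (by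
      rw [norm_pow]; exact (pow_le_pow_left₀ (norm_nonneg _) (hB t).1 2).trans hBsqK))
    (fun t _ => hBK _ _ (hB t).1 (by
      rw [norm_pow]; exact (pow_le_pow_left₀ (norm_nonneg _) (hB t).2 2).trans hBsqK))
  have hendg := cm_end D hM hh s (L := 2 * B * K) dX dY
    (fun t ht => hBK _ _ (hB t).2 (bY t ht)) (fun t ht => hBK _ _ (hB t).1 (bX t ht))
  simp only [D.hc1, D.hc2, add_sub_cancel_left] at hendf hendg
  refine ⟨?_, ?_, ?_, ?_, ?_, ?_, ?_⟩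
  · intro k hk
    have e1 := hcw k hk
    have e2 : ‖cm_seq D.ξ D.η s h k‖ ≤ B :=
      cm_seq_bd (S := s + 3 * D.T) h0.le (fun t _ => (hB t).1) (fun t _ => (hB t).2)
        (by have := h3 k hk; linarith)
    have e3 := norm_add_le (ys h (D.ξ s + δ0) (D.η s + δ1) k - cm_seq D.ξ D.η s h k)
      (cm_seq D.ξ D.η s h k)
    rw [sub_add_cancel] at e3
    linarith
  · rw [cm_conj]
    have e1 := hcw (2 * M + 1) (by omega)
    have e2 := hsum (ys h (D.ξ s + δ0) (D.η s + δ1) (2 * M + 1)) (cm_seq D.ξ D.η s h (2 * M + 1))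
      ((starRingEnd ℂ) (D.ξ s))
    linarith [hend.1]
  · rw [cm_conj]
    have e1 := hcw (2 * M + 2) le_rfl
    have e2 := hsum (ys h (D.ξ s + δ0) (D.η s + δ1) (2 * M + 2)) (cm_seq D.ξ D.η s h (2 * M + 2))
      ((starRingEnd ℂ) (D.η s))
    linarith [hend.2]
  · rw [← (ds_eq h _ _ _ _ _).1, cm_conj]
    have e1 := hf (2 * M + 1) (by omega)
    have e2 := hsum (ds h (D.ξ s + δ0) (D.η s + δ1) (D.η s ^ 2) (D.ξ s ^ 2) (2 * M + 1))
      (cm_seq (fun t => D.η t ^ 2) (fun t => D.ξ t ^ 2) s h (2 * M + 1)) ((starRingEnd ℂ) (D.η s ^ 2))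
    have e3 := hendf.1
    rw [← map_pow] at e3
    linarith
  · rw [← (ds_eq h _ _ _ _ _).2, cm_conj]
    have e1 := hf (2 * M + 2) le_rfl
    have e2 := hsum (ds h (D.ξ s + δ0) (D.η s + δ1) (D.η s ^ 2) (D.ξ s ^ 2) (2 * M + 2))
      (cm_seq (fun t => D.η t ^ 2) (fun t => D.ξ t ^ 2) s h (2 * M + 2)) ((starRingEnd ℂ) (D.ξ s ^ 2))
    have e3 := hendf.2
    rw [← map_pow] at e3
    linarith
  · rw [← (ds_eq h _ _ _ _ _).1, cm_conj]
    have e1 := hg (2 * M + 1) (by omega)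
    simp only [sub_self, Complex.ofReal_zero, zero_mul, add_zero] at e1
    have e2 := hsum (ds h (D.ξ s + δ0) (D.η s + δ1) (D.ξ s) (D.η s) (2 * M + 1))
      (cm_seq (fun t => D.ξ t + ((t - s : ℝ) : ℂ) * D.η t ^ 2)
        (fun t => D.η t + ((t - s : ℝ) : ℂ) * D.ξ t ^ 2) s h (2 * M + 1))
      ((starRingEnd ℂ) (D.ξ s + D.T * D.η s ^ 2))
    have e3 := hendg.1
    have e4 : (starRingEnd ℂ) (D.ξ s) + (D.T : ℂ) * (starRingEnd ℂ) (D.η s) ^ 2 = (starRingEnd ℂ) (D.ξ s + D.T * D.η s ^ 2) := by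
      simp
    rw [e4] at e3
    linarith
  · rw [← (ds_eq h _ _ _ _ _).2, cm_conj]
    have e1 := hg (2 * M + 2) le_rfl
    simp only [sub_self, Complex.ofReal_zero, zero_mul, add_zero] at e1
    have e2 := hsum (ds h (D.ξ s + δ0) (D.η s + δ1) (D.ξ s) (D.η s) (2 * M + 2))
      (cm_seq (fun t => D.ξ t + ((t - s : ℝ) : ℂ) * D.η t ^ 2)
        (fun t => D.η t + ((t - s : ℝ) : ℂ) * D.ξ t ^ 2) s h (2 * M + 2))
      ((starRingEnd ℂ) (D.η s + D.T * D.ξ s ^ 2))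
    have e3 := hendg.2
    have e4 : (starRingEnd ℂ) (D.η s) + (D.T : ℂ) * (starRingEnd ℂ) (D.ξ s) ^ 2 = (starRingEnd ℂ) (D.η s + D.T * D.ξ s ^ 2) := by
      simp
    rw [e4] at e3
    linarith



end Pool.Agent.H763.Hen
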