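import Pool.Agent.H763.HenCoreA

set_option autoImplicit false

namespace Pool.Agent.H763.Hen

open Filter Topology Complex


theorem Near.mono {D : OdeData} {s κ κ' : ℝ} {A : Matrix (Fin 2) (Fin 2) ℂ}
    (h : Near D s κ A) (hκ : κ ≤ κ') : Near D s κ' A :=
  ⟨h.1.trans hκ, h.2.1.trans hκ, h.2.2.1.trans hκ, h.2.2.2.trans hκ⟩

theorem hasDerivAt_nu (D : OdeData) (s : ℝ) :
    HasDerivAt (nu D) (Complex.I * (2 * D.η s * D.ξ s ^ 2)) s := by
  unfold nu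
  have h := ((D.hη s).pow 2).const_mul Complex.I
  refine h.congr_deriv ?_
  simp

theorem nu_ne (D : OdeData) (s : ℝ) : nu D s ≠ 0 := by
  unfold nu
  exact mul_ne_zero Complex.I_ne_zero (pow_ne_zero 2 (D.hne s))

/-- the local computation along a solution curve -/
theorem curve_step (D : OdeData) (h : ℝ) (M : ℕ) (c : ℝ → ℝ × ℂ) (s : ℝ)
    (hc : DifferentiableAt ℝ c s)
    (hz : ∀ᶠ s' in 𝓝 s, Fn D h (2 * M + 1) (s', c s') = 0) :
    HasDerivAt (fun s => (Wf h (2 * M + 1) (D.ξ s + (c s).1 * nu D s) (D.η s + (c s).2)).im)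
      ((1 - 2 * (c s).1 * (D.ξ s ^ 2 / D.η s).im) *
        (F2 D h (2 * M + 1) s (c s).1 (c s).2).re) s := by
  obtain ⟨c', hc'⟩ : ∃ c' : ℝ × ℂ, HasDerivAt c c' s := ⟨_, hc.hasDerivAt⟩
  have hρ : HasDerivAt (fun s => ((c s).1 : ℂ)) (c'.1 : ℂ) s := by
    have : HasDerivAt (fun s => (c s).1) c'.1 s :=
      (ContinuousLinearMap.fst ℝ ℝ ℂ).hasFDerivAt.comp_hasDerivAt s hc'
    exact this.ofReal_comp
  have hσ : HasDerivAt (fun s => (c s).2) c'.2 s :=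
    (ContinuousLinearMap.snd ℝ ℝ ℂ).hasFDerivAt.comp_hasDerivAt s hc'
  have ha : HasDerivAt (fun s => D.ξ s + (c s).1 * nu D s)
      (D.η s ^ 2 + ((c'.1 : ℂ) * nu D s + (c s).1 * (Complex.I * (2 * D.η s * D.ξ s ^ 2)))) s :=
    (D.hξ s).add (hρ.mul (hasDerivAt_nu D s))
  have hb : HasDerivAt (fun s => D.η s + (c s).2) (D.ξ s ^ 2 + c'.2) s := (D.hη s).add hσ
  have hN : ∀ᶠ s' in 𝓝 s, ys h (D.ξ s' + (c s').1 * nu D s') (D.η s' + (c s').2) (2 * M + 1)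
      = (starRingEnd ℂ) (D.ξ s' + (c s').1 * nu D s') := by
    filter_upwards [hz] with s' hs'
    have h1 : F1 D h (2 * M + 1) s' (c s').1 (c s').2 = 0 := congrArg Prod.fst hs'
    unfold F1 at h1
    have h2 := sub_eq_zero.mp h1
    have h3 := congrArg (starRingEnd ℂ) h2
    rwa [Complex.conj_conj] at h3
  have hW := W_deriv h M _ _ _ _ s ha hb hN
  refine hW.congr_deriv ?_
  have hz0 := hz.self_of_nhds
  have him : (F2 D h (2 * M + 1) s (c s).1 (c s).2).im = 0 := congrArg Prod.snd hz0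
  set l := (F2 D h (2 * M + 1) s (c s).1 (c s).2).re with hl
  have hF2 : F2 D h (2 * M + 1) s (c s).1 (c s).2 = (l : ℂ) := by
    apply Complex.ext
    · simp [hl]
    · simp [him]
  have hν := nu_ne D s
  have hdiff : (D.η s + (c s).2) - (starRingEnd ℂ) (ys h (D.ξ s + (c s).1 * nu D s) (D.η s + (c s).2)
      (2 * M + 2)) = -(l : ℂ) / nu D s := by
    have h1 : (((starRingEnd ℂ) (ys h (D.ξ s + (c s).1 * nu D s) (D.η s + (c s).2) (2 * M + 2)))
        - (D.η s + (c s).2)) * nu D s = (l : ℂ) := hF2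
    rw [eq_div_iff hν]
    linear_combination -h1
  rw [hdiff]
  have hη := D.hne s
  have hkey : -(l : ℂ) / nu D s * (D.η s ^ 2 + ((c'.1 : ℂ) * nu D s
      + (c s).1 * (Complex.I * (2 * D.η s * D.ξ s ^ 2))))
      = (l : ℂ) * (Complex.I - c'.1 - 2 * (c s).1 * (D.ξ s ^ 2 / D.η s)) := by
    unfold nu
    have hI : Complex.I ≠ 0 := Complex.I_ne_zero
    field_simp
    have hII : Complex.I ^ 2 = -1 := Complex.I_sq
    linear_combination (-(l : ℂ) * D.η s) * hII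
  rw [hkey, Complex.im_ofReal_mul]
  have e2 : 2 * ((c s).1 : ℂ) * (D.ξ s ^ 2 / D.η s) = ((2 * (c s).1 : ℝ) : ℂ) * (D.ξ s ^ 2 / D.η s) := by
    push_cast; ring
  rw [e2, Complex.sub_im, Complex.sub_im, Complex.I_im, Complex.ofReal_im, Complex.im_ofReal_mul]
  ring

/-- the linear relations at a zero of the reduced function -/
theorem curve_end (D : OdeData) (h : ℝ) (M : ℕ) (c : ℝ → ℝ × ℂ) (s : ℝ)
    (hc : DifferentiableAt ℝ c s)
    (hz : ∀ᶠ s' in 𝓝 s, Fn D h (2 * M + 1) (s', c s') = 0)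
    (hl0 : (F2 D h (2 * M + 1) s (c s).1 (c s).2).re = 0) :
    (starRingEnd ℂ) (ys h (D.ξ s + (c s).1 * nu D s) (D.η s + (c s).2) (2 * M + 1))
      = D.ξ s + (c s).1 * nu D s ∧
    (starRingEnd ℂ) (ys h (D.ξ s + (c s).1 * nu D s) (D.η s + (c s).2) (2 * M + 2)) = D.η s + (c s).2 ∧
    ∃ (v0 v1 : ℂ) (l' : ℝ),
      HasDerivAt (fun s => (F2 D h (2 * M + 1) s (c s).1 (c s).2).re) l' s ∧
      (starRingEnd ℂ) (JA h (D.ξ s + (c s).1 * nu D s) (D.η s + (c s).2) (2 * M + 1) 0 0 * v0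
        + JA h (D.ξ s + (c s).1 * nu D s) (D.η s + (c s).2) (2 * M + 1) 0 1 * v1) = v0 ∧
      (starRingEnd ℂ) (JA h (D.ξ s + (c s).1 * nu D s) (D.η s + (c s).2) (2 * M + 1) 1 0 * v0
        + JA h (D.ξ s + (c s).1 * nu D s) (D.η s + (c s).2) (2 * M + 1) 1 1 * v1)
        = v1 + l' / nu D s ∧
      (v0 / nu D s).im = -(1 - 2 * (c s).1 * (D.ξ s ^ 2 / D.η s).im) := by
  obtain ⟨c', hc'⟩ : ∃ c' : ℝ × ℂ, HasDerivAt c c' s := ⟨_, hc.hasDerivAt⟩
  have hρ : HasDerivAt (fun s => ((c s).1 : ℂ)) (c'.1 : ℂ) s := by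
    have : HasDerivAt (fun s => (c s).1) c'.1 s :=
      (ContinuousLinearMap.fst ℝ ℝ ℂ).hasFDerivAt.comp_hasDerivAt s hc'
    exact this.ofReal_comp
  have hσ : HasDerivAt (fun s => (c s).2) c'.2 s :=
    (ContinuousLinearMap.snd ℝ ℝ ℂ).hasFDerivAt.comp_hasDerivAt s hc'
  have ha : HasDerivAt (fun s => D.ξ s + (c s).1 * nu D s)
      (D.η s ^ 2 + ((c'.1 : ℂ) * nu D s + (c s).1 * (Complex.I * (2 * D.η s * D.ξ s ^ 2)))) s :=
    (D.hξ s).add (hρ.mul (hasDerivAt_nu D s))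
  have hb : HasDerivAt (fun s => D.η s + (c s).2) (D.ξ s ^ 2 + c'.2) s := (D.hη s).add hσ
  obtain ⟨v0, hv0⟩ : ∃ v0, v0 = D.η s ^ 2 + ((c'.1 : ℂ) * nu D s
      + (c s).1 * (Complex.I * (2 * D.η s * D.ξ s ^ 2))) := ⟨_, rfl⟩
  obtain ⟨v1, hv1⟩ : ∃ v1, v1 = D.ξ s ^ 2 + c'.2 := ⟨_, rfl⟩
  rw [← hv0] at ha
  rw [← hv1] at hb
  have hν := nu_ne D s
  have hη := D.hne s
  have hz0 := hz.self_of_nhds
  have h10 : F1 D h (2 * M + 1) s (c s).1 (c s).2 = 0 := congrArg Prod.fst hz0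
  have him : (F2 D h (2 * M + 1) s (c s).1 (c s).2).im = 0 := congrArg Prod.snd hz0
  have h20 : F2 D h (2 * M + 1) s (c s).1 (c s).2 = 0 := Complex.ext hl0 him
  have hf1 : (starRingEnd ℂ) (ys h (D.ξ s + (c s).1 * nu D s) (D.η s + (c s).2) (2 * M + 1))
      = D.ξ s + (c s).1 * nu D s := sub_eq_zero.mp h10
  have hf2 : (starRingEnd ℂ) (ys h (D.ξ s + (c s).1 * nu D s) (D.η s + (c s).2) (2 * M + 2))
      = D.η s + (c s).2 := by
    unfold F2 at h20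
    rcases mul_eq_zero.mp h20 with h | h
    · exact sub_eq_zero.mp h
    · exact absurd h hν
  refine ⟨hf1, hf2, ?_⟩
  have k1 := (hasDerivAt_ys (h := h) ha hb (2 * M + 1)).star
  have k2 := (hasDerivAt_ys (h := h) ha hb (2 * M + 1 + 1)).star
  rw [(ds_eq h _ _ _ _ (2 * M + 1)).1] at k1
  rw [(ds_eq h _ _ _ _ (2 * M + 1)).2] at k2
  have kF2 := (k2.sub hb).mul (hasDerivAt_nu D s)
  obtain ⟨w, hw⟩ : ∃ w : ℂ, HasDerivAt (fun s => F2 D h (2 * M + 1) s (c s).1 (c s).2) w s ∧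
      w = ((starRingEnd ℂ) (JA h (D.ξ s + (c s).1 * nu D s) (D.η s + (c s).2) (2 * M + 1) 1 0 * v0
        + JA h (D.ξ s + (c s).1 * nu D s) (D.η s + (c s).2) (2 * M + 1) 1 1 * v1) - v1)
        * nu D s := by
    refine ⟨_, kF2, ?_⟩
    have : star (ys h (D.ξ s + (c s).1 * nu D s) (D.η s + (c s).2) (2 * M + 1 + 1))
        - (D.η s + (c s).2) = 0 := sub_eq_zero.mpr hf2
    simp only [Pi.sub_apply]
    rw [this]
    simp only [zero_mul, add_zero]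
    rfl
  have hre : HasDerivAt (fun s => (F2 D h (2 * M + 1) s (c s).1 (c s).2).re) w.re s :=
    Complex.reCLM.hasFDerivAt.comp_hasDerivAt s hw.1
  have himd : HasDerivAt (fun s => (F2 D h (2 * M + 1) s (c s).1 (c s).2).im) w.im s :=
    Complex.imCLM.hasFDerivAt.comp_hasDerivAt s hw.1
  have him0 : w.im = 0 := by
    have h1 : (fun s => (F2 D h (2 * M + 1) s (c s).1 (c s).2).im) =ᶠ[𝓝 s] fun _ => 0 := by
      filter_upwards [hz] with s' hs'
      exact congrArg Prod.snd hs'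
    exact himd.unique ((hasDerivAt_const s (0 : ℝ)).congr_of_eventuallyEq h1)
  have hwre : w = (w.re : ℂ) := Complex.ext (by simp) (by simp [him0])
  refine ⟨v0, v1, w.re, hre, ?_, ?_, ?_⟩
  · have h1 : (fun s => (starRingEnd ℂ) (ys h (D.ξ s + (c s).1 * nu D s) (D.η s + (c s).2) (2 * M + 1)))
        =ᶠ[𝓝 s] fun s => D.ξ s + (c s).1 * nu D s := by
      filter_upwards [hz] with s' hs'
      have h1 : F1 D h (2 * M + 1) s' (c s').1 (c s').2 = 0 := congrArg Prod.fst hs'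
      exact sub_eq_zero.mp h1
    exact k1.unique (ha.congr_of_eventuallyEq h1)
  · rw [← hwre, hw.2]
    field_simp
    ring
  · have hkey : v0 / nu D s = -Complex.I + c'.1 + 2 * (c s).1 * (D.ξ s ^ 2 / D.η s) := by
      rw [hv0]
      unfold nu
      have hI : Complex.I ≠ 0 := Complex.I_ne_zero
      field_simp
      have hII : Complex.I ^ 2 = -1 := Complex.I_sq
      linear_combination (D.η s) * hII
    have e2 : 2 * ((c s).1 : ℂ) * (D.ξ s ^ 2 / D.η s) = ((2 * (c s).1 : ℝ) : ℂ)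
        * (D.ξ s ^ 2 / D.η s) := by
      push_cast; ring
    rw [hkey, e2, Complex.add_im, Complex.add_im, Complex.neg_im, Complex.I_im, Complex.ofReal_im,
      Complex.im_ofReal_mul]
    ring

theorem trace_real (A : Matrix (Fin 2) (Fin 2) ℂ) : (A.map (starRingEnd ℂ) * A).trace
    = (((A.map (starRingEnd ℂ) * A).trace).re : ℂ) := by
  apply Complex.ext
  · simp
  · simp only [Matrix.trace, Matrix.diag, Matrix.mul_apply, Fin.sum_univ_two, Matrix.map_apply,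
      Complex.add_im, Complex.mul_im, Complex.conj_re, Complex.conj_im, Complex.ofReal_im]
    ring

theorem core_one (D : OdeData) (sg : ℝ) (hsg : sg = 1 ∨ sg = -1) : ∃ B : ℝ, ∀ ε : ℝ, 0 < ε →
    ∃ M0 : ℕ, ∀ (M : ℕ) (h : ℝ), M0 ≤ M → h = 2 * D.T / (2 * M + 1) →
    ∃ (p : ℂ × ℂ) (t : ℝ), Sol h M B t p ∧ |t - 2| ≤ ε ∧ sg * ((t - 2) * D.e) ≤ 0 := by
  obtain ⟨B, m, hB1, hm0, hbd⟩ := ode_bounds D
  obtain ⟨Cc, hCc, hcmp⟩ := comparison D B (fun t => ⟨(hbd t).1, (hbd t).2.1⟩)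
  obtain ⟨Ct, hCt, htr⟩ := trace_near D
  obtain ⟨κ1, hκ1, hsign⟩ := sign_near D
  obtain ⟨ε0, hε0, hbox⟩ := exists_box D
  refine ⟨B + 1, fun ε hε => ?_⟩
  have hB0 : 0 < B := by linarith
  have hT := D.hT
  obtain ⟨κ0, hκ0⟩ : ∃ κ0, κ0 = min (min κ1 1) (ε / Ct) := ⟨_, rfl⟩
  have hκ0pos : 0 < κ0 := by rw [hκ0]; positivity
  have hκ01 : κ0 ≤ κ1 := by rw [hκ0]; exact (min_le_left _ _).trans (min_le_left _ _)
  have hκ02 : κ0 ≤ 1 := by rw [hκ0]; exact (min_le_left _ _).trans (min_le_right _ _)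
  have hκ03 : Ct * κ0 ≤ ε := by
    have : κ0 ≤ ε / Ct := by rw [hκ0]; exact min_le_right _ _
    calc Ct * κ0 ≤ Ct * (ε / Ct) := by gcongr
      _ = ε := by field_simp
  obtain ⟨ε1, hε1⟩ : ∃ ε1, ε1 = min (min ε0 (κ0 / (Cc * (B ^ 2 + 2)))) (min (m / (4 * B ^ 2)) (m / 2)) :=
    ⟨_, rfl⟩
  have hCc0 : 0 < Cc := by linarith
  have hε1pos : 0 < ε1 := by rw [hε1]; positivity
  have hε1a : ε1 ≤ ε0 := by rw [hε1]; exact (min_le_left _ _).trans (min_le_left _ _)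
  have hε1b : Cc * (ε1 * (B ^ 2 + 2)) ≤ κ0 := by
    have h1 : ε1 ≤ κ0 / (Cc * (B ^ 2 + 2)) := by
      rw [hε1]; exact (min_le_left _ _).trans (min_le_right _ _)
    calc Cc * (ε1 * (B ^ 2 + 2)) = ε1 * (Cc * (B ^ 2 + 2)) := by ring
      _ ≤ κ0 / (Cc * (B ^ 2 + 2)) * (Cc * (B ^ 2 + 2)) := by gcongr
      _ = κ0 := by field_simp
  have hε1c : ε1 ≤ m / (4 * B ^ 2) := by
    rw [hε1]; exact (min_le_right _ _).trans (min_le_left _ _)
  have hε1d : ε1 ≤ m / 2 := by rw [hε1]; exact (min_le_right _ _).trans (min_le_right _ _)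
  obtain ⟨M1, hM1⟩ := hbox ε1 hε1pos hε1a
  obtain ⟨M2, hM2⟩ := exists_nat_ge (2 * D.T / ε1)
  refine ⟨M1 + M2 + 1, fun M h hM hh => ?_⟩
  have hMpos : 1 ≤ M := by omega
  have hMr : (M2 : ℝ) ≤ M := by exact_mod_cast (by omega : M2 ≤ M)
  have hMr1 : (1 : ℝ) ≤ M := by exact_mod_cast hMpos
  have hhpos : 0 < h := by rw [hh]; positivity
  have hhε : h ≤ ε1 := by
    rw [hh, div_le_iff₀ (by positivity)]
    have h1 : 2 * D.T / ε1 ≤ M := hM2.trans hMr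
    rw [div_le_iff₀ hε1pos] at h1
    nlinarith
  obtain ⟨hin, hex, hinj⟩ := hM1 M h (by omega) hh
  have hνle : ∀ s, ‖nu D s‖ ≤ B ^ 2 := by
    intro s
    unfold nu
    rw [norm_mul, Complex.norm_I, one_mul, norm_pow]
    have := (hbd s).2.1
    gcongr
  -- closeness in the box
  have hclose : ∀ (s ρ : ℝ) (σ : ℂ), |ρ| ≤ ε1 → ‖σ‖ ≤ ε1 →
      (∀ k ≤ 2 * M + 2, ‖ys h (D.ξ s + ρ * nu D s) (D.η s + σ) k‖ ≤ B + 1) ∧
      Near D s κ0 (JA h (D.ξ s + ρ * nu D s) (D.η s + σ) (2 * M + 1)) := by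
    intro s ρ σ hρ hσ
    have h1 : ‖(ρ : ℂ) * nu D s‖ ≤ ε1 * B ^ 2 := by
      rw [norm_mul, Complex.norm_real, Real.norm_eq_abs]
      exact mul_le_mul hρ (hνle s) (norm_nonneg _) hε1pos.le
    have h2 : Cc * (h + ‖(ρ : ℂ) * nu D s‖ + ‖σ‖) ≤ κ0 := by
      refine le_trans ?_ hε1b
      gcongr
      nlinarith
    obtain ⟨c1, _, _, c4⟩ := hcmp M s (ρ * nu D s) σ h hMpos hh (h2.trans hκ02)
    exact ⟨c1, c4.mono h2⟩
  -- apply the maximum lemma
  obtain ⟨s0, c, hc1, hc2, hcd, hcz, hcm⟩ := max_abstract (Fn D h (2 * M + 1))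
    (gg sg D h (2 * M + 1)) (2 * D.T) ε1 (by positivity) (contDiff_Fn D h _) (continuous_gg sg D h _)
    (fun s v => Fn_periodic D h _ s v) (fun s v => gg_periodic sg D h _ s v)
    (by
      intro s v h1 h2 h3
      exact hin s v.1 v.2 h1 h2 (congrArg Prod.fst h3) (congrArg Prod.snd h3))
    (by
      obtain ⟨s, ρ, σ, h1, h2, h3, h4⟩ := hex
      exact ⟨s, (ρ, σ), h1, h2, Prod.ext h3 h4⟩)
    (by
      intro s v h1 h2 h3 w hw
      have h4 := fderiv_Fn D h (2 * M + 1) s v.1 v.2 w.1 w.2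
      rw [show ((s, (v.1, v.2)) : ℝ × (ℝ × ℂ)) = (s, v) from rfl,
        show ((0, (w.1, w.2)) : ℝ × (ℝ × ℂ)) = (0, w) from rfl, hw] at h4
      obtain ⟨h5, h6⟩ := hinj s v.1 v.2 h1 h2 w.1 w.2 (congrArg Prod.fst h4).symm
        (congrArg Prod.snd h4).symm
      exact Prod.ext h5 h6)
  have hdiff : ∀ᶠ s in 𝓝 s0, DifferentiableAt ℝ c s := by
    filter_upwards [hcd.eventually (by simp)] with s hs
    exact hs.differentiableAt (by norm_num)
  have hcz' : ∀ᶠ s in 𝓝 s0, ∀ᶠ s' in 𝓝 s, Fn D h (2 * M + 1) (s', c s') = 0 :=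
    eventually_eventually_nhds.mpr hcz
  have hcc : ContinuousAt c s0 := hcd.continuousAt
  have hc1' : ∀ᶠ s in 𝓝 s0, |(c s).1| < ε1 := by
    have h1 : ContinuousAt (fun s => |(c s).1|) s0 := (continuous_fst.continuousAt.comp hcc).abs
    exact h1.eventually_lt continuousAt_const hc1
  have hμ : ∀ s, |(c s).1| < ε1 → 1 / 2 ≤ 1 - 2 * (c s).1 * (D.ξ s ^ 2 / D.η s).im := by
    intro s hs
    have h1 : |(D.ξ s ^ 2 / D.η s).im| ≤ B ^ 2 / m := by
      refine (Complex.abs_im_le_norm _).trans ?_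
      rw [norm_div, norm_pow]
      have := (hbd s).1
      have h3 := (hbd s).2.2
      gcongr
    have h2 : |2 * (c s).1 * (D.ξ s ^ 2 / D.η s).im| ≤ 1 / 2 := by
      rw [abs_mul, abs_mul, abs_of_pos (by norm_num : (0:ℝ) < 2)]
      calc 2 * |(c s).1| * |(D.ξ s ^ 2 / D.η s).im| ≤ 2 * (m / (4 * B ^ 2)) * (B ^ 2 / m) := by
            have h4 : |(c s).1| ≤ m / (4 * B ^ 2) := hs.le.trans hε1c
            gcongr
        _ = 1 / 2 := by field_simp; norm_num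
    have := (abs_le.mp h2).2
    linarith
  have hlast := curve_end D h M c s0 hdiff.self_of_nhds hcz
  have hstep : ∀ᶠ s in 𝓝 s0, HasDerivAt (fun s => gg sg D h (2 * M + 1) (s, c s))
      ((1 - 2 * (c s).1 * (D.ξ s ^ 2 / D.η s).im) *
        (sg * (F2 D h (2 * M + 1) s (c s).1 (c s).2).re)) s := by
    filter_upwards [hdiff, hcz'] with s h1 h2
    have h3 := (curve_step D h M c s h1 h2).const_mul sg
    refine h3.congr_deriv ?_
    ring
  -- differentiability of the multiplier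
  have hl' : ∃ l' : ℝ, HasDerivAt (fun s => (F2 D h (2 * M + 1) s (c s).1 (c s).2).re) l' s0 := by
    have h1 : DifferentiableAt ℝ (fun s => F2 D h (2 * M + 1) s (c s).1 (c s).2) s0 := by
      have h2 : ContDiff ℝ 2 (fun x : ℝ × (ℝ × ℂ) => F2 D h (2 * M + 1) x.1 x.2.1 x.2.2) := by
        unfold F2
        have hc : ContDiff ℝ 2 (fun z : ℂ => (starRingEnd ℂ) z) := Complex.conjCLE.contDiff
        exact ((hc.comp (contDiff_ys h (contDiff_pa D) (contDiff_pb D) (2 * M + 1 + 1))).sub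
          (contDiff_pb D)).mul ((contDiff_nu D).comp contDiff_fst)
      have h3 : DifferentiableAt ℝ (fun s => ((s, c s) : ℝ × (ℝ × ℂ))) s0 :=
        differentiableAt_id.prodMk hdiff.self_of_nhds
      exact ((h2.differentiable (by norm_num)).differentiableAt (x := (s0, c s0))).comp s0 h3
    exact ⟨_, (Complex.reCLM.hasFDerivAt.comp_hasDerivAt s0 h1.hasDerivAt)⟩
  obtain ⟨l1, hl1⟩ := hl'
  have hslope := slope_max (fun s => gg sg D h (2 * M + 1) (s, c s))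
    (fun s => 1 - 2 * (c s).1 * (D.ξ s ^ 2 / D.η s).im)
    (fun s => sg * (F2 D h (2 * M + 1) s (c s).1 (c s).2).re) s0 (sg * l1) hcm
    (by filter_upwards [hc1'] with s hs; linarith [hμ s hs]) hstep (hl1.const_mul sg)
  have hsg0 : sg ≠ 0 := by rcases hsg with h | h <;> rw [h] <;> norm_num
  have hl0 : (F2 D h (2 * M + 1) s0 (c s0).1 (c s0).2).re = 0 := by
    rcases mul_eq_zero.mp hslope.1 with h | h
    · exact absurd h hsg0
    · exact h
  obtain ⟨hf1, hf2, v0, v1, l', hd, e1, e2, e3⟩ := hlast hl0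
  have hll : l' = l1 := hd.unique hl1
  rw [← hll] at hslope
  obtain ⟨hys, hnear⟩ := hclose s0 (c s0).1 (c s0).2 hc1.le hc2.le
  set A := JA h (D.ξ s0 + (c s0).1 * nu D s0) (D.η s0 + (c s0).2) (2 * M + 1) with hA
  obtain ⟨t, ht⟩ : ∃ t : ℝ, t = ((A.map (starRingEnd ℂ) * A).trace).re := ⟨_, rfl⟩
  have htt : (A.map (starRingEnd ℂ) * A).trace = (t : ℂ) := by rw [ht]; exact trace_real A
  have hdet : A.det = -1 := by
    rw [hA, det_JA, pow_succ, pow_mul]; norm_num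
  have hs := hsign s0 A (hnear.mono hκ01) hdet v0 v1 l' t e1 e2
    (by rw [e3]; linarith [hμ s0 hc1]) htt
  refine ⟨(D.ξ s0 + (c s0).1 * nu D s0, D.η s0 + (c s0).2), t, ⟨hf1, hf2, ?_, hys, htt⟩, ?_, ?_⟩
  · intro h0
    have h0' : D.η s0 + (c s0).2 = 0 := h0
    have h1 : ‖D.η s0‖ = ‖(c s0).2‖ := by
      rw [eq_neg_of_add_eq_zero_left h0', norm_neg]
    have h2 := (hbd s0).2.2
    linarith
  · have h1 := htr s0 κ0 A hnear hκ02
    rw [htt] at h1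
    have h2 : ‖((t : ℂ) - 2)‖ = |t - 2| := by
      rw [← Real.norm_eq_abs, ← Complex.norm_real]; push_cast; rfl
    rw [h2] at h1
    exact h1.trans hκ03
  · rcases hsg with h | h
    · rw [h] at hslope ⊢
      have := hs.1 (by linarith [hslope.2])
      linarith
    · rw [h] at hslope ⊢
      have h3 : 0 ≤ l' := by linarith [hslope.2]
      have := hs.2 h3
      linarith

theorem Sol.mono {h : ℝ} {M : ℕ} {B B' t : ℝ} {p : ℂ × ℂ} (hs : Sol h M B t p) (hB : B ≤ B') :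
    Sol h M B' t p :=
  ⟨hs.1, hs.2.1, hs.2.2.1, fun k hk => (hs.2.2.2.1 k hk).trans hB, hs.2.2.2.2⟩

theorem core (D : OdeData) : ∃ B : ℝ, ∀ ε : ℝ, 0 < ε → ∃ M0 : ℕ, ∀ (M : ℕ) (h : ℝ), M0 ≤ M →
    h = 2 * D.T / (2 * M + 1) → ∃ (p q : ℂ × ℂ) (t u : ℝ), Sol h M B t p ∧ Sol h M B u q ∧
      |t - 2| ≤ ε ∧ |u - 2| ≤ ε ∧ t ≤ 2 ∧ 2 ≤ u := by
  obtain ⟨B1, h1⟩ := core_one D 1 (Or.inl rfl)
  obtain ⟨B2, h2⟩ := core_one D (-1) (Or.inr rfl)
  refine ⟨max B1 B2, fun ε hε => ?_⟩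
  obtain ⟨M1, h1⟩ := h1 ε hε
  obtain ⟨M2, h2⟩ := h2 ε hε
  refine ⟨max M1 M2, fun M h hM hh => ?_⟩
  obtain ⟨p, t, hp, ht, hpt⟩ := h1 M h ((le_max_left _ _).trans hM) hh
  obtain ⟨q, u, hq, hu, hqu⟩ := h2 M h ((le_max_right _ _).trans hM) hh
  have hp' := hp.mono (le_max_left B1 B2)
  have hq' := hq.mono (le_max_right B1 B2)
  rcases lt_or_gt_of_ne D.he with he | he
  · -- e < 0
    refine ⟨q, p, u, t, hq', hp', hu, ht, ?_, ?_⟩
    · by_contra hcon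
      push Not at hcon
      nlinarith [mul_pos_of_neg_of_neg he (by linarith : -(u - 2) < 0)]
    · by_contra hcon
      push Not at hcon
      nlinarith [mul_pos_of_neg_of_neg he (by linarith : (t - 2) < 0)]
  · refine ⟨p, q, t, u, hp', hq', ht, hu, ?_, ?_⟩
    · by_contra hcon
      push Not at hcon
      nlinarith [mul_pos he (by linarith : 0 < t - 2)]
    · by_contra hcon
      push Not at hcon
      nlinarith [mul_pos he (by linarith : 0 < -(u - 2))]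

end Pool.Agent.H763.Hen
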