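import Pool.Agent.H763.HenDefs

set_option autoImplicit false

namespace Pool.Agent.H763.Hen

open Filter Topology Complex




theorem max_abstract (Fn : ℝ × (ℝ × ℂ) → ℂ × ℝ) (g : ℝ × (ℝ × ℂ) → ℝ) (P ε : ℝ) (hP : 0 < P)
    (hFn : ContDiff ℝ 2 Fn) (hg : Continuous g)
    (hFper : ∀ s v, Fn (s + P, v) = Fn (s, v)) (hgper : ∀ s v, g (s + P, v) = g (s, v))
    (hin : ∀ s v, |v.1| ≤ ε → ‖v.2‖ ≤ ε → Fn (s, v) = 0 → |v.1| < ε ∧ ‖v.2‖ < ε)
    (hex : ∃ s v, |v.1| ≤ ε ∧ ‖v.2‖ ≤ ε ∧ Fn (s, v) = 0)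
    (hinj : ∀ s v, |v.1| ≤ ε → ‖v.2‖ ≤ ε → Fn (s, v) = 0 →
      ∀ w : ℝ × ℂ, fderiv ℝ Fn (s, v) (0, w) = 0 → w = 0) :
    ∃ (s0 : ℝ) (c : ℝ → ℝ × ℂ), |(c s0).1| < ε ∧ ‖(c s0).2‖ < ε ∧ ContDiffAt ℝ 2 c s0 ∧
      (∀ᶠ s in 𝓝 s0, Fn (s, c s) = 0) ∧ IsLocalMax (fun s => g (s, c s)) s0 := by
  have hper : ∀ (s : ℝ) (v : ℝ × ℂ), ∃ y ∈ Set.Ico 0 P, Fn (s, v) = Fn (y, v) ∧
      g (s, v) = g (y, v) := by
    intro s v
    have h1 : Function.Periodic (fun s => (Fn (s, v), g (s, v))) P := by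
      intro s
      simp only [hFper, hgper]
    obtain ⟨y, hy, hy'⟩ := h1.exists_mem_Ico₀ hP s
    simp only [Prod.mk.injEq] at hy'
    exact ⟨y, hy, hy'.1, hy'.2⟩
  set K : Set (ℝ × (ℝ × ℂ)) := (Set.Icc 0 P ×ˢ (Metric.closedBall 0 ε ×ˢ Metric.closedBall 0 ε)) ∩
    Fn ⁻¹' {0} with hK
  have hKc : IsCompact K := by
    apply IsCompact.inter_right
    · exact isCompact_Icc.prod ((isCompact_closedBall 0 ε).prod (isCompact_closedBall 0 ε))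
    · exact isClosed_singleton.preimage hFn.continuous
  have hKmem : ∀ s v, (s, v) ∈ K ↔ s ∈ Set.Icc 0 P ∧ |v.1| ≤ ε ∧ ‖v.2‖ ≤ ε ∧ Fn (s, v) = 0 := by
    intro s v
    simp only [hK, Set.mem_inter_iff, Set.mem_prod, mem_closedBall_zero_iff, Set.mem_preimage,
      Set.mem_singleton_iff, Real.norm_eq_abs]
    tauto
  have hKne : K.Nonempty := by
    obtain ⟨s, v, h1, h2, h3⟩ := hex
    obtain ⟨y, hy, hy1, _⟩ := hper s v
    exact ⟨(y, v), (hKmem y v).2 ⟨⟨hy.1, hy.2.le⟩, h1, h2, by rw [← hy1]; exact h3⟩⟩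
  obtain ⟨⟨s0, v0⟩, hmem, hmax⟩ := hKc.exists_isMaxOn hKne hg.continuousOn
  obtain ⟨_, hv1, hv2, hF0⟩ := (hKmem s0 v0).1 hmem
  have hmax' : ∀ s v, |v.1| ≤ ε → ‖v.2‖ ≤ ε → Fn (s, v) = 0 → g (s, v) ≤ g (s0, v0) := by
    intro s v h1 h2 h3
    obtain ⟨y, hy, hy1, hy2⟩ := hper s v
    rw [hy2]
    exact hmax ((hKmem y v).2 ⟨⟨hy.1, hy.2.le⟩, h1, h2, by rw [← hy1]; exact h3⟩)
  obtain ⟨hv1', hv2'⟩ := hin s0 v0 hv1 hv2 hF0
  have cdf : ContDiffAt ℝ 2 Fn (s0, v0) := hFn.contDiffAt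
  have pn : (2 : WithTop ℕ∞) ≠ 0 := by norm_num
  have hI : (fderiv ℝ Fn (s0, v0) ∘L ContinuousLinearMap.inr ℝ ℝ (ℝ × ℂ)).IsInvertible := by
    set L := fderiv ℝ Fn (s0, v0) ∘L ContinuousLinearMap.inr ℝ ℝ (ℝ × ℂ) with hL
    have hinjL : Function.Injective L.toLinearMap := by
      rw [injective_iff_map_eq_zero]
      intro w hw
      apply hinj s0 v0 hv1 hv2 hF0 w
      simpa [hL] using hw
    have hfr : Module.finrank ℝ (ℝ × ℂ) = Module.finrank ℝ (ℂ × ℝ) := by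
      simp [Module.finrank_prod, Complex.finrank_real_complex]
    let e := LinearEquiv.ofInjectiveOfFinrankEq L.toLinearMap hinjL hfr
    refine ⟨e.toContinuousLinearEquiv, ?_⟩
    ext w <;> rfl
  have hself := cdf.implicitFunction_apply_self pn hI
  have hev := cdf.eventually_apply_implicitFunction pn hI
  have hcd := cdf.contDiffAt_implicitFunction pn hI
  set c := cdf.implicitFunction pn hI with hc
  simp only at hself hev hcd
  have hev' : ∀ᶠ s in 𝓝 s0, Fn (s, c s) = 0 := by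
    filter_upwards [hev] with s hs
    rw [hs, hF0]
  refine ⟨s0, c, by rw [hself]; exact hv1', by rw [hself]; exact hv2', hcd, hev', ?_⟩
  have hcont : ContinuousAt c s0 := hcd.continuousAt
  have h1 : ∀ᶠ s in 𝓝 s0, |(c s).1| < ε := by
    have : ContinuousAt (fun s => |(c s).1|) s0 := hcont.fst.abs
    exact this.eventually_lt_const (by simp only [hself]; exact hv1')
  have h2 : ∀ᶠ s in 𝓝 s0, ‖(c s).2‖ < ε := by
    have : ContinuousAt (fun s => ‖(c s).2‖) s0 := hcont.snd.norm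
    exact this.eventually_lt_const (by simp only [hself]; exact hv2')
  filter_upwards [h1, h2, hev'] with s g1 g2 g3
  have := hmax' s (c s) g1.le g2.le g3
  rw [hself]
  exact this


end Pool.Agent.H763.Hen
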