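import Pool.Agent.H763.HenDefs

set_option autoImplicit false

namespace Pool.Agent.H763.Hen

open Filter Topology Complex




theorem slope_max (g m l : ℝ → ℝ) (s0 l' : ℝ) (hmax : IsLocalMax g s0)
    (hm : ∀ᶠ s in 𝓝 s0, 0 < m s) (hg : ∀ᶠ s in 𝓝 s0, HasDerivAt g (m s * l s) s)
    (hl : HasDerivAt l l' s0) : l s0 = 0 ∧ l' ≤ 0 := by
  have h0 : m s0 * l s0 = 0 := hmax.hasDerivAt_eq_zero hg.self_of_nhds
  have hm0 : 0 < m s0 := hm.self_of_nhds
  have hl0 : l s0 = 0 := by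
    rcases mul_eq_zero.1 h0 with h | h
    · exact absurd h hm0.ne'
    · exact h
  refine ⟨hl0, ?_⟩
  by_contra hpos
  rw [not_le] at hpos
  have hsl := hasDerivAt_iff_tendsto_slope.1 hl
  have hsl' : ∀ᶠ s in 𝓝[>] s0, 0 < slope l s0 s :=
    (hsl.mono_left (nhdsWithin_mono s0 (fun s (hs : s0 < s) => ne_of_gt hs))).eventually
      (lt_mem_nhds hpos)
  have hall : ∀ᶠ s in 𝓝[>] s0, 0 < slope l s0 s ∧ 0 < m s ∧ HasDerivAt g (m s * l s) s ∧
      g s ≤ g s0 := by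
    filter_upwards [hsl', nhdsWithin_le_nhds hm, nhdsWithin_le_nhds hg,
      nhdsWithin_le_nhds hmax] with s h1 h2 h3 h4
    exact ⟨h1, h2, h3, h4⟩
  obtain ⟨u, hu, hsub⟩ := mem_nhdsGT_iff_exists_Ioo_subset.1 hall
  have hu' : s0 < u := hu
  have hb1 : s0 < (s0 + u) / 2 := by linarith
  have hb2 : (s0 + u) / 2 < u := by linarith
  have hcont : ContinuousOn g (Set.Icc s0 ((s0 + u) / 2)) := by
    intro s hs
    rcases eq_or_lt_of_le hs.1 with h | h
    · rw [← h]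
      exact hg.self_of_nhds.continuousAt.continuousWithinAt
    · exact (hsub ⟨h, lt_of_le_of_lt hs.2 hb2⟩).2.2.1.continuousAt.continuousWithinAt
  obtain ⟨c, hc, hce⟩ := exists_hasDerivAt_eq_slope g (fun s => m s * l s) hb1 hcont
    (fun s hs => (hsub ⟨hs.1, hs.2.trans hb2⟩).2.2.1)
  have hcI := hsub ⟨hc.1, hc.2.trans hb2⟩
  have hlc : 0 < l c := by
    have h1 := hcI.1
    rw [slope_def_field, hl0, sub_zero] at h1
    have h2 : 0 < c - s0 := by linarith [hc.1]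
    exact (div_pos_iff_of_pos_right h2).1 h1
  have h5 : 0 < m c * l c := mul_pos hcI.2.1 hlc
  have h6 : g ((s0 + u) / 2) ≤ g s0 := (hsub ⟨hb1, hb2⟩).2.2.2
  have h7 : (g ((s0 + u) / 2) - g s0) / ((s0 + u) / 2 - s0) ≤ 0 :=
    div_nonpos_of_nonpos_of_nonneg (by linarith) (by linarith)
  rw [← hce] at h7
  exact absurd h5 (not_lt.2 h7)



end Pool.Agent.H763.Hen
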