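import Pool.Agent.H763.HenOde

set_option autoImplicit false

namespace Pool.Agent.H763.Hen

open Filter Topology Complex







theorem alg_id {M00 M01 M10 M11 v0 v1 q0 q1 l t : ℂ} (hdet : M00 * M11 - M01 * M10 = 1)
    (ht : M00 + M11 = t) (h0 : M00 * v0 + M01 * v1 = v0 + l * q0)
    (h1 : M10 * v0 + M11 * v1 = v1 + l * q1) :
    l * ((M00 - 1) * q0 + M01 * q1) = (t - 2) * (v0 + l * q0) := by
  have e0 : l * q0 = (M00 - 1) * v0 + M01 * v1 := by linear_combination -h0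
  have e1 : l * q1 = M10 * v0 + (M11 - 1) * v1 := by linear_combination -h1
  calc l * ((M00 - 1) * q0 + M01 * q1) = (M00 - 1) * (l * q0) + M01 * (l * q1) := by ring
    _ = (M00 - 1) * ((M00 - 1) * v0 + M01 * v1) + M01 * (M10 * v0 + (M11 - 1) * v1) := by
        rw [e0, e1]
    _ = (t - 2) * (M00 * v0 + M01 * v1) := by
        rw [← ht]; linear_combination (-v0) * hdet
    _ = (t - 2) * (v0 + l * q0) := by rw [h0]

theorem row_bound {a b ξ η : ℂ} {e B U V : ℝ} (he : e ≠ 0) (hE : ξ ^ 3 - η ^ 3 = e * Complex.I)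
    (hξ : ‖ξ‖ ≤ B) (hη : ‖η‖ ≤ B) (hu : ‖a * η ^ 2 + b * ξ ^ 2‖ ≤ U)
    (hv : ‖a * ξ + b * η‖ ≤ V) :
    ‖a‖ ≤ (U * B + V * B ^ 2) / |e| ∧ ‖b‖ ≤ (U * B + V * B ^ 2) / |e| := by
  have hB : 0 ≤ B := (norm_nonneg _).trans hξ
  have hU : 0 ≤ U := (norm_nonneg _).trans hu
  have hV : 0 ≤ V := (norm_nonneg _).trans hv
  have he' : 0 < |e| := abs_pos.2 he
  have hn : ‖(e : ℂ) * Complex.I‖ = |e| := by
    rw [norm_mul, Complex.norm_I, mul_one, Complex.norm_real, Real.norm_eq_abs]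
  have ha : a * (e * Complex.I) = (a * ξ + b * η) * ξ ^ 2 - (a * η ^ 2 + b * ξ ^ 2) * η := by
    rw [← hE]; ring
  have hb : b * (e * Complex.I) = (a * η ^ 2 + b * ξ ^ 2) * ξ - (a * ξ + b * η) * η ^ 2 := by
    rw [← hE]; ring
  constructor
  · rw [le_div_iff₀ he']
    calc ‖a‖ * |e| = ‖a * (e * Complex.I)‖ := by rw [norm_mul, hn]
      _ = ‖(a * ξ + b * η) * ξ ^ 2 - (a * η ^ 2 + b * ξ ^ 2) * η‖ := by rw [ha]
      _ ≤ ‖(a * ξ + b * η) * ξ ^ 2‖ + ‖(a * η ^ 2 + b * ξ ^ 2) * η‖ := norm_sub_le _ _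
      _ = ‖a * ξ + b * η‖ * ‖ξ‖ ^ 2 + ‖a * η ^ 2 + b * ξ ^ 2‖ * ‖η‖ := by
          rw [norm_mul, norm_mul, norm_pow]
      _ ≤ V * B ^ 2 + U * B := by gcongr
      _ = U * B + V * B ^ 2 := by ring
  · rw [le_div_iff₀ he']
    calc ‖b‖ * |e| = ‖b * (e * Complex.I)‖ := by rw [norm_mul, hn]
      _ = ‖(a * η ^ 2 + b * ξ ^ 2) * ξ - (a * ξ + b * η) * η ^ 2‖ := by rw [hb]
      _ ≤ ‖(a * η ^ 2 + b * ξ ^ 2) * ξ‖ + ‖(a * ξ + b * η) * η ^ 2‖ := norm_sub_le _ _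
      _ = ‖a * η ^ 2 + b * ξ ^ 2‖ * ‖ξ‖ + ‖a * ξ + b * η‖ * ‖η‖ ^ 2 := by
          rw [norm_mul, norm_mul, norm_pow]
      _ ≤ U * B + V * B ^ 2 := by gcongr

theorem norm_of_near {z w : ℂ} {κ W : ℝ} (h : ‖(starRingEnd ℂ) z - w‖ ≤ κ) (hκ : κ ≤ 1) (hw : ‖w‖ ≤ W) :
    ‖z‖ ≤ W + 1 := by
  calc ‖z‖ = ‖(starRingEnd ℂ) z‖ := (RCLike.norm_conj z).symm
    _ = ‖w + ((starRingEnd ℂ) z - w)‖ := by congr 1; ring
    _ ≤ ‖w‖ + ‖(starRingEnd ℂ) z - w‖ := norm_add_le _ _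
    _ ≤ W + 1 := by linarith

theorem bd3 {x y z u v : ℂ} {κ K : ℝ} (hx : ‖x‖ ≤ κ) (hy : ‖y‖ ≤ K) (hz : ‖z‖ ≤ κ) (hu : ‖u‖ ≤ K)
    (hv : ‖v‖ ≤ κ) : ‖x + y * z + u * v‖ ≤ (1 + 2 * K) * κ := by
  have hK : 0 ≤ K := (norm_nonneg _).trans hy
  calc ‖x + y * z + u * v‖ ≤ ‖x + y * z‖ + ‖u * v‖ := norm_add_le _ _
    _ ≤ ‖x‖ + ‖y * z‖ + ‖u * v‖ := by gcongr; exact norm_add_le _ _
    _ = ‖x‖ + ‖y‖ * ‖z‖ + ‖u‖ * ‖v‖ := by rw [norm_mul, norm_mul]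
    _ ≤ κ + K * κ + K * κ := by gcongr
    _ = (1 + 2 * K) * κ := by ring

theorem bd4 {x y z u v w : ℂ} {κ K T : ℝ} (hT : 0 < T) (hx : ‖x‖ ≤ κ) (hy : ‖y‖ ≤ K) (hz : ‖z‖ ≤ κ)
    (hu : ‖u‖ ≤ K) (hv : ‖v‖ ≤ κ) (hw : ‖w‖ ≤ κ) :
    ‖x + T * w + y * z + u * v‖ ≤ (1 + T + 2 * K) * κ := by
  have hK : 0 ≤ K := (norm_nonneg _).trans hy
  have h1 : ‖(T : ℂ) * w‖ ≤ T * κ := by
    rw [norm_mul, Complex.norm_real, Real.norm_eq_abs, abs_of_pos hT]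
    gcongr
  calc ‖x + T * w + y * z + u * v‖ ≤ ‖x + T * w + y * z‖ + ‖u * v‖ := norm_add_le _ _
    _ ≤ ‖x + T * w‖ + ‖y * z‖ + ‖u * v‖ := by gcongr; exact norm_add_le _ _
    _ ≤ ‖x‖ + ‖(T : ℂ) * w‖ + ‖y * z‖ + ‖u * v‖ := by gcongr; exact norm_add_le _ _
    _ = ‖x‖ + ‖(T : ℂ) * w‖ + ‖y‖ * ‖z‖ + ‖u‖ * ‖v‖ := by rw [norm_mul y, norm_mul u]
    _ ≤ κ + T * κ + K * κ + K * κ := by gcongr
    _ = (1 + T + 2 * K) * κ := by ring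

/-- the bound of the entries -/
noncomputable def KA (T e B : ℝ) : ℝ := ((B ^ 2 + 1) * B + (B + T * B ^ 2 + 1) * B ^ 2) / |e|

/-- all that is needed about a near matrix -/
structure Dat (ξ η a b c d p0 p1 r0 r1 : ℂ) (T e B κ K : ℝ) : Prop where
  ha : ‖a‖ ≤ K
  hb : ‖b‖ ≤ K
  hc : ‖c‖ ≤ K
  hd : ‖d‖ ≤ K
  hp0 : ‖p0‖ ≤ κ
  hp1 : ‖p1‖ ≤ κ
  hr0 : ‖r0‖ ≤ κ
  hr1 : ‖r1‖ ≤ κ
  h1 : (starRingEnd ℂ) a * (starRingEnd ℂ) η ^ 2 + (starRingEnd ℂ) b * (starRingEnd ℂ) ξ ^ 2 = η ^ 2 + p0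
  h2 : (starRingEnd ℂ) c * (starRingEnd ℂ) η ^ 2 + (starRingEnd ℂ) d * (starRingEnd ℂ) ξ ^ 2 = ξ ^ 2 + p1
  h3 : (starRingEnd ℂ) a * (starRingEnd ℂ) ξ + (starRingEnd ℂ) b * (starRingEnd ℂ) η = ξ + T * η ^ 2 + r0
  h4 : (starRingEnd ℂ) c * (starRingEnd ℂ) ξ + (starRingEnd ℂ) d * (starRingEnd ℂ) η = η + T * ξ ^ 2 + r1
  h1' : a * η ^ 2 + b * ξ ^ 2 = (starRingEnd ℂ) η ^ 2 + (starRingEnd ℂ) p0
  h2' : c * η ^ 2 + d * ξ ^ 2 = (starRingEnd ℂ) ξ ^ 2 + (starRingEnd ℂ) p1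
  h3' : a * ξ + b * η = (starRingEnd ℂ) ξ + T * (starRingEnd ℂ) η ^ 2 + (starRingEnd ℂ) r0
  h4' : c * ξ + d * η = (starRingEnd ℂ) η + T * (starRingEnd ℂ) ξ ^ 2 + (starRingEnd ℂ) r1

theorem norm_add_T {x y : ℂ} {T B : ℝ} (hT : 0 < T) (hx : ‖x‖ ≤ B) (hy : ‖y‖ ≤ B) :
    ‖x + T * y ^ 2‖ ≤ B + T * B ^ 2 := by
  calc ‖x + T * y ^ 2‖ ≤ ‖x‖ + ‖(T : ℂ) * y ^ 2‖ := norm_add_le _ _
    _ = ‖x‖ + T * ‖y‖ ^ 2 := by
        rw [norm_mul, Complex.norm_real, Real.norm_eq_abs, abs_of_pos hT, norm_pow]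
    _ ≤ B + T * B ^ 2 := by gcongr

theorem dat_of_near {ξ η a b c d : ℂ} {T e B κ : ℝ} (hT : 0 < T) (he : e ≠ 0)
    (hE : ξ ^ 3 - η ^ 3 = e * Complex.I) (hξ : ‖ξ‖ ≤ B) (hη : ‖η‖ ≤ B) (hκ : κ ≤ 1)
    (n1 : ‖(starRingEnd ℂ) (a * η ^ 2 + b * ξ ^ 2) - η ^ 2‖ ≤ κ)
    (n2 : ‖(starRingEnd ℂ) (c * η ^ 2 + d * ξ ^ 2) - ξ ^ 2‖ ≤ κ)
    (n3 : ‖(starRingEnd ℂ) (a * ξ + b * η) - (ξ + T * η ^ 2)‖ ≤ κ)
    (n4 : ‖(starRingEnd ℂ) (c * ξ + d * η) - (η + T * ξ ^ 2)‖ ≤ κ) :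
    ∃ p0 p1 r0 r1 : ℂ, Dat ξ η a b c d p0 p1 r0 r1 T e B κ (KA T e B) := by
  have hB : 0 ≤ B := (norm_nonneg _).trans hξ
  have hη2 : ‖η ^ 2‖ ≤ B ^ 2 := by rw [norm_pow]; gcongr
  have hξ2 : ‖ξ ^ 2‖ ≤ B ^ 2 := by rw [norm_pow]; gcongr
  have b1 := row_bound he hE hξ hη (norm_of_near n1 hκ hη2)
    (norm_of_near n3 hκ (norm_add_T hT hξ hη))
  have b2 := row_bound he hE hξ hη (norm_of_near n2 hκ hξ2)
    (norm_of_near n4 hκ (norm_add_T hT hη hξ))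
  refine ⟨(starRingEnd ℂ) (a * η ^ 2 + b * ξ ^ 2) - η ^ 2, (starRingEnd ℂ) (c * η ^ 2 + d * ξ ^ 2) - ξ ^ 2,
    (starRingEnd ℂ) (a * ξ + b * η) - (ξ + T * η ^ 2), (starRingEnd ℂ) (c * ξ + d * η) - (η + T * ξ ^ 2),
    ⟨b1.1, b1.2, b2.1, b2.2, n1, n2, n3, n4, ?_, ?_, ?_, ?_, ?_, ?_, ?_, ?_⟩⟩ <;>
  · simp only [map_add, map_sub, map_mul, map_pow, Complex.conj_conj, Complex.conj_ofReal]
    ring

section consequences
variable {ξ η a b c d p0 p1 r0 r1 : ℂ} {T e B κ K : ℝ}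

theorem Dat.Mf0 (D : Dat ξ η a b c d p0 p1 r0 r1 T e B κ K) :
    ((starRingEnd ℂ) a * a + (starRingEnd ℂ) b * c) * η ^ 2 + ((starRingEnd ℂ) a * b + (starRingEnd ℂ) b * d) * ξ ^ 2 =
      η ^ 2 + (p0 + (starRingEnd ℂ) a * (starRingEnd ℂ) p0 + (starRingEnd ℂ) b * (starRingEnd ℂ) p1) := by
  linear_combination (starRingEnd ℂ) a * D.h1' + (starRingEnd ℂ) b * D.h2' + D.h1

theorem Dat.Mf1 (D : Dat ξ η a b c d p0 p1 r0 r1 T e B κ K) :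
    ((starRingEnd ℂ) c * a + (starRingEnd ℂ) d * c) * η ^ 2 + ((starRingEnd ℂ) c * b + (starRingEnd ℂ) d * d) * ξ ^ 2 =
      ξ ^ 2 + (p1 + (starRingEnd ℂ) c * (starRingEnd ℂ) p0 + (starRingEnd ℂ) d * (starRingEnd ℂ) p1) := by
  linear_combination (starRingEnd ℂ) c * D.h1' + (starRingEnd ℂ) d * D.h2' + D.h2

theorem Dat.Mg0 (D : Dat ξ η a b c d p0 p1 r0 r1 T e B κ K) :
    ((starRingEnd ℂ) a * a + (starRingEnd ℂ) b * c) * ξ + ((starRingEnd ℂ) a * b + (starRingEnd ℂ) b * d) * η =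
      ξ + 2 * T * η ^ 2 + (r0 + T * p0 + (starRingEnd ℂ) a * (starRingEnd ℂ) r0 + (starRingEnd ℂ) b * (starRingEnd ℂ) r1) := by
  linear_combination (starRingEnd ℂ) a * D.h3' + (starRingEnd ℂ) b * D.h4' + D.h3 + T * D.h1

theorem Dat.Mg1 (D : Dat ξ η a b c d p0 p1 r0 r1 T e B κ K) :
    ((starRingEnd ℂ) c * a + (starRingEnd ℂ) d * c) * ξ + ((starRingEnd ℂ) c * b + (starRingEnd ℂ) d * d) * η =
      η + 2 * T * ξ ^ 2 + (r1 + T * p1 + (starRingEnd ℂ) c * (starRingEnd ℂ) r0 + (starRingEnd ℂ) d * (starRingEnd ℂ) r1) := by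
  linear_combination (starRingEnd ℂ) c * D.h3' + (starRingEnd ℂ) d * D.h4' + D.h4 + T * D.h2

theorem Dat.tr (D : Dat ξ η a b c d p0 p1 r0 r1 T e B κ K) (hE : ξ ^ 3 - η ^ 3 = e * Complex.I) :
    (((starRingEnd ℂ) a * a + (starRingEnd ℂ) b * c) + ((starRingEnd ℂ) c * b + (starRingEnd ℂ) d * d) - 2) * (e * Complex.I) =
      (p1 + (starRingEnd ℂ) c * (starRingEnd ℂ) p0 + (starRingEnd ℂ) d * (starRingEnd ℂ) p1) * ξ - (p0 + (starRingEnd ℂ) a * (starRingEnd ℂ) p0 + (starRingEnd ℂ) b * (starRingEnd ℂ) p1) * η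
      + (ξ ^ 2 * (r0 + T * p0 + (starRingEnd ℂ) a * (starRingEnd ℂ) r0 + (starRingEnd ℂ) b * (starRingEnd ℂ) r1) -
        η ^ 2 * (r1 + T * p1 + (starRingEnd ℂ) c * (starRingEnd ℂ) r0 + (starRingEnd ℂ) d * (starRingEnd ℂ) r1)) := by
  rw [← hE]
  linear_combination D.Mf1 * ξ - D.Mf0 * η + ξ ^ 2 * D.Mg0 - η ^ 2 * D.Mg1

theorem Dat.trace_bound (D : Dat ξ η a b c d p0 p1 r0 r1 T e B κ K) (hT : 0 < T) (he : e ≠ 0)
    (hE : ξ ^ 3 - η ^ 3 = e * Complex.I) (hξ : ‖ξ‖ ≤ B) (hη : ‖η‖ ≤ B) :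
    ‖((starRingEnd ℂ) a * a + (starRingEnd ℂ) b * c) + ((starRingEnd ℂ) c * b + (starRingEnd ℂ) d * d) - 2‖ ≤
      (2 * (1 + 2 * K) * B + 2 * B ^ 2 * (1 + T + 2 * K)) / |e| * κ := by
  have hB : 0 ≤ B := (norm_nonneg _).trans hξ
  have hK : 0 ≤ K := (norm_nonneg _).trans D.ha
  have hκ : 0 ≤ κ := (norm_nonneg _).trans D.hp0
  have he' : 0 < |e| := abs_pos.2 he
  have hn : ‖(e : ℂ) * Complex.I‖ = |e| := by
    rw [norm_mul, Complex.norm_I, mul_one, Complex.norm_real, Real.norm_eq_abs]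
  have na : ‖(starRingEnd ℂ) a‖ ≤ K := by rw [RCLike.norm_conj]; exact D.ha
  have nb : ‖(starRingEnd ℂ) b‖ ≤ K := by rw [RCLike.norm_conj]; exact D.hb
  have nc : ‖(starRingEnd ℂ) c‖ ≤ K := by rw [RCLike.norm_conj]; exact D.hc
  have nd : ‖(starRingEnd ℂ) d‖ ≤ K := by rw [RCLike.norm_conj]; exact D.hd
  have np0 : ‖(starRingEnd ℂ) p0‖ ≤ κ := by rw [RCLike.norm_conj]; exact D.hp0
  have np1 : ‖(starRingEnd ℂ) p1‖ ≤ κ := by rw [RCLike.norm_conj]; exact D.hp1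
  have nr0 : ‖(starRingEnd ℂ) r0‖ ≤ κ := by rw [RCLike.norm_conj]; exact D.hr0
  have nr1 : ‖(starRingEnd ℂ) r1‖ ≤ κ := by rw [RCLike.norm_conj]; exact D.hr1
  have f0 := bd3 D.hp0 na np0 nb np1
  have f1 := bd3 D.hp1 nc np0 nd np1
  have g0 := bd4 hT D.hr0 na nr0 nb nr1 D.hp0
  have g1 := bd4 hT D.hr1 nc nr0 nd nr1 D.hp1
  have key := D.tr hE
  rw [div_mul_eq_mul_div, le_div_iff₀ he', ← hn, ← norm_mul, key]
  calc _ ≤ ‖(p1 + (starRingEnd ℂ) c * (starRingEnd ℂ) p0 + (starRingEnd ℂ) d * (starRingEnd ℂ) p1) * ξ - (p0 + (starRingEnd ℂ) a * (starRingEnd ℂ) p0 + (starRingEnd ℂ) b * (starRingEnd ℂ) p1) * η‖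
      + ‖ξ ^ 2 * (r0 + T * p0 + (starRingEnd ℂ) a * (starRingEnd ℂ) r0 + (starRingEnd ℂ) b * (starRingEnd ℂ) r1) -
        η ^ 2 * (r1 + T * p1 + (starRingEnd ℂ) c * (starRingEnd ℂ) r0 + (starRingEnd ℂ) d * (starRingEnd ℂ) r1)‖ := norm_add_le _ _
    _ ≤ (‖(p1 + (starRingEnd ℂ) c * (starRingEnd ℂ) p0 + (starRingEnd ℂ) d * (starRingEnd ℂ) p1) * ξ‖ + ‖(p0 + (starRingEnd ℂ) a * (starRingEnd ℂ) p0 + (starRingEnd ℂ) b * (starRingEnd ℂ) p1) * η‖)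
      + (‖ξ ^ 2 * (r0 + T * p0 + (starRingEnd ℂ) a * (starRingEnd ℂ) r0 + (starRingEnd ℂ) b * (starRingEnd ℂ) r1)‖ +
        ‖η ^ 2 * (r1 + T * p1 + (starRingEnd ℂ) c * (starRingEnd ℂ) r0 + (starRingEnd ℂ) d * (starRingEnd ℂ) r1)‖) := by
        gcongr <;> exact norm_sub_le _ _
    _ = (‖p1 + (starRingEnd ℂ) c * (starRingEnd ℂ) p0 + (starRingEnd ℂ) d * (starRingEnd ℂ) p1‖ * ‖ξ‖ + ‖p0 + (starRingEnd ℂ) a * (starRingEnd ℂ) p0 + (starRingEnd ℂ) b * (starRingEnd ℂ) p1‖ * ‖η‖)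
      + (‖ξ‖ ^ 2 * ‖r0 + T * p0 + (starRingEnd ℂ) a * (starRingEnd ℂ) r0 + (starRingEnd ℂ) b * (starRingEnd ℂ) r1‖ +
        ‖η‖ ^ 2 * ‖r1 + T * p1 + (starRingEnd ℂ) c * (starRingEnd ℂ) r0 + (starRingEnd ℂ) d * (starRingEnd ℂ) r1‖) := by
        simp only [norm_mul, norm_pow]
    _ ≤ ((1 + 2 * K) * κ * B + (1 + 2 * K) * κ * B) + (B ^ 2 * ((1 + T + 2 * K) * κ) +
        B ^ 2 * ((1 + T + 2 * K) * κ)) := by
        gcongr
    _ = (2 * (1 + 2 * K) * B + 2 * B ^ 2 * (1 + T + 2 * K)) * κ := by ring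


theorem Dat.Q0 (D : Dat ξ η a b c d p0 p1 r0 r1 T e B κ K) {al w i : ℂ}
    (k0 : al * η ^ 2 + i * ξ = 0)
    (k0' : (starRingEnd ℂ) al * (starRingEnd ℂ) η ^ 2 + i * (starRingEnd ℂ) ξ = 0) (k1' : (starRingEnd ℂ) al * (starRingEnd ℂ) ξ ^ 2 + i * (starRingEnd ℂ) η = (starRingEnd ℂ) w) :
    (starRingEnd ℂ) b * (starRingEnd ℂ) w = (al + (starRingEnd ℂ) al + T * i) * η ^ 2 + 2 * i * ξ + ((starRingEnd ℂ) al * p0 + i * r0) := by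
  linear_combination -(starRingEnd ℂ) b * k1' - (starRingEnd ℂ) a * k0' + (starRingEnd ℂ) al * D.h1 + i * D.h3 - k0

theorem Dat.Q1 (D : Dat ξ η a b c d p0 p1 r0 r1 T e B κ K) {al w i : ℂ}
    (k1 : al * ξ ^ 2 + i * η = w)
    (k0' : (starRingEnd ℂ) al * (starRingEnd ℂ) η ^ 2 + i * (starRingEnd ℂ) ξ = 0) (k1' : (starRingEnd ℂ) al * (starRingEnd ℂ) ξ ^ 2 + i * (starRingEnd ℂ) η = (starRingEnd ℂ) w) :
    w + (starRingEnd ℂ) d * (starRingEnd ℂ) w = (al + (starRingEnd ℂ) al + T * i) * ξ ^ 2 + 2 * i * η + ((starRingEnd ℂ) al * p1 + i * r1) := by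
  linear_combination -(starRingEnd ℂ) d * k1' - (starRingEnd ℂ) c * k0' + (starRingEnd ℂ) al * D.h2 + i * D.h4 - k1

theorem Dat.E0 (D : Dat ξ η a b c d p0 p1 r0 r1 T e B κ K) {al w i q0 q1 : ℂ}
    (hq0 : q0 = (al + (starRingEnd ℂ) al + T * i) * η ^ 2 + 2 * i * ξ + ((starRingEnd ℂ) al * p0 + i * r0))
    (hq1 : q1 = (al + (starRingEnd ℂ) al + T * i) * ξ ^ 2 + 2 * i * η + ((starRingEnd ℂ) al * p1 + i * r1)) :
    ((starRingEnd ℂ) a * a + (starRingEnd ℂ) b * c - 1) * q0 + ((starRingEnd ℂ) a * b + (starRingEnd ℂ) b * d) * q1 =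
      4 * T * i * η ^ 2 + ((al + (starRingEnd ℂ) al + T * i) * (p0 + (starRingEnd ℂ) a * (starRingEnd ℂ) p0 + (starRingEnd ℂ) b * (starRingEnd ℂ) p1) +
        2 * i * (r0 + T * p0 + (starRingEnd ℂ) a * (starRingEnd ℂ) r0 + (starRingEnd ℂ) b * (starRingEnd ℂ) r1) +
        ((starRingEnd ℂ) a * a + (starRingEnd ℂ) b * c - 1) * ((starRingEnd ℂ) al * p0 + i * r0) +
        ((starRingEnd ℂ) a * b + (starRingEnd ℂ) b * d) * ((starRingEnd ℂ) al * p1 + i * r1)) := by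
  rw [hq0, hq1]
  linear_combination (al + (starRingEnd ℂ) al + T * i) * D.Mf0 + 2 * i * D.Mg0

/-- constants -/
noncomputable def CE (T e B m K : ℝ) : ℝ :=
  ((2 * (B / (|e| * m ^ 2)) + T * (1 / |e|)) * (1 + 2 * K) + 2 * (1 / |e|) * (1 + T + 2 * K) +
    (2 * K ^ 2 + 1) * (B / (|e| * m ^ 2) + 1 / |e|) + 2 * K ^ 2 * (B / (|e| * m ^ 2) + 1 / |e|)) / m ^ 2

noncomputable def CY (T e B m : ℝ) : ℝ :=
  ((2 * (B / (|e| * m ^ 2)) + T * (1 / |e|)) * B ^ 2 + 2 * (1 / |e|) * B +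
    (B / (|e| * m ^ 2) + 1 / |e|)) / m ^ 2

theorem Dat.bounds (D : Dat ξ η a b c d p0 p1 r0 r1 T e B κ K) (hT : 0 < T) (he : e ≠ 0)
    (hE : ξ ^ 3 - η ^ 3 = e * Complex.I) (hξ : ‖ξ‖ ≤ B) (hη : ‖η‖ ≤ B) {m : ℝ} (hm : 0 < m)
    (hmη : m ≤ ‖η‖) (hκ1 : κ ≤ 1) {w : ℂ} (hw : w = 1 / (Complex.I * η ^ 2)) :
    |((((starRingEnd ℂ) a * a + (starRingEnd ℂ) b * c - 1) * ((starRingEnd ℂ) b * (starRingEnd ℂ) w) +
      ((starRingEnd ℂ) a * b + (starRingEnd ℂ) b * d) * (w + (starRingEnd ℂ) d * (starRingEnd ℂ) w)) / (Complex.I * η ^ 2)).im + 4 * T / e| ≤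
        CE T e B m K * κ ∧
    |(((starRingEnd ℂ) b * (starRingEnd ℂ) w) / (Complex.I * η ^ 2)).im| ≤ CY T e B m := by
  have hB : 0 ≤ B := (norm_nonneg _).trans hξ
  have hK : 0 ≤ K := (norm_nonneg _).trans D.ha
  have hκ : 0 ≤ κ := (norm_nonneg _).trans D.hp0
  have he' : 0 < |e| := abs_pos.2 he
  have heC : (e : ℂ) ≠ 0 := by exact_mod_cast he
  have hη0 : η ≠ 0 := by
    rintro rfl
    rw [norm_zero] at hmη
    linarith
  have na : ‖(starRingEnd ℂ) a‖ ≤ K := by rw [RCLike.norm_conj]; exact D.ha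
  have nb : ‖(starRingEnd ℂ) b‖ ≤ K := by rw [RCLike.norm_conj]; exact D.hb
  have np0 : ‖(starRingEnd ℂ) p0‖ ≤ κ := by rw [RCLike.norm_conj]; exact D.hp0
  have np1 : ‖(starRingEnd ℂ) p1‖ ≤ κ := by rw [RCLike.norm_conj]; exact D.hp1
  have nr0 : ‖(starRingEnd ℂ) r0‖ ≤ κ := by rw [RCLike.norm_conj]; exact D.hr0
  have nr1 : ‖(starRingEnd ℂ) r1‖ ≤ κ := by rw [RCLike.norm_conj]; exact D.hr1
  have f0 := bd3 D.hp0 na np0 nb np1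
  have g0 := bd4 hT D.hr0 na nr0 nb nr1 D.hp0
  obtain ⟨i, hi⟩ : ∃ i : ℂ, i = 1 / (e : ℂ) := ⟨_, rfl⟩
  obtain ⟨al, hal⟩ : ∃ al : ℂ, al = -ξ / (e * η ^ 2) := ⟨_, rfl⟩
  have k0 : al * η ^ 2 + i * ξ = 0 := by
    rw [hi, hal]; field_simp; ring
  have k1 : al * ξ ^ 2 + i * η = w := by
    have hI : Complex.I ≠ 0 := Complex.I_ne_zero
    have hI2 : Complex.I * Complex.I = -1 := Complex.I_mul_I
    rw [hi, hal, hw, eq_div_iff (by positivity)]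
    have : (-ξ / (e * η ^ 2) * ξ ^ 2 + 1 / e * η) * (Complex.I * η ^ 2) =
        -(ξ ^ 3 - η ^ 3) * Complex.I / e := by
      field_simp
      ring
    rw [this, hE]
    field_simp
    rw [Complex.I_sq]; ring
  have hci : (starRingEnd ℂ) i = i := by
    rw [hi]; simp
  have k0' : (starRingEnd ℂ) al * (starRingEnd ℂ) η ^ 2 + i * (starRingEnd ℂ) ξ = 0 := by
    have := congrArg (starRingEnd ℂ) k0
    simpa only [map_add, map_mul, map_pow, map_zero, hci] using this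
  have k1' : (starRingEnd ℂ) al * (starRingEnd ℂ) ξ ^ 2 + i * (starRingEnd ℂ) η = (starRingEnd ℂ) w := by
    have := congrArg (starRingEnd ℂ) k1
    simpa only [map_add, map_mul, map_pow, hci] using this
  have hQ0 := D.Q0 k0 k0' k1'
  have hQ1 := D.Q1 k1 k0' k1'
  have hEE := D.E0 (w := w) hQ0 hQ1
  have ni : ‖i‖ = 1 / |e| := by
    rw [hi, norm_div, norm_one, Complex.norm_real, Real.norm_eq_abs]
  have nal : ‖al‖ ≤ B / (|e| * m ^ 2) := by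
    rw [hal, norm_div, norm_neg, norm_mul, norm_pow, Complex.norm_real, Real.norm_eq_abs]
    gcongr
  have ncal : ‖(starRingEnd ℂ) al‖ ≤ B / (|e| * m ^ 2) := by rw [RCLike.norm_conj]; exact nal
  have nT : ‖(T : ℂ)‖ = T := by rw [Complex.norm_real, Real.norm_eq_abs, abs_of_pos hT]
  have nsig : ‖al + (starRingEnd ℂ) al + T * i‖ ≤ 2 * (B / (|e| * m ^ 2)) + T * (1 / |e|) := by
    calc ‖al + (starRingEnd ℂ) al + T * i‖ ≤ ‖al + (starRingEnd ℂ) al‖ + ‖(T : ℂ) * i‖ := norm_add_le _ _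
      _ ≤ ‖al‖ + ‖(starRingEnd ℂ) al‖ + ‖(T : ℂ) * i‖ := by gcongr; exact norm_add_le _ _
      _ = ‖al‖ + ‖(starRingEnd ℂ) al‖ + T * (1 / |e|) := by rw [norm_mul, nT, ni]
      _ ≤ B / (|e| * m ^ 2) + B / (|e| * m ^ 2) + T * (1 / |e|) := by gcongr
      _ = _ := by ring
  have nw0 : ‖(starRingEnd ℂ) al * p0 + i * r0‖ ≤ (B / (|e| * m ^ 2) + 1 / |e|) * κ := by
    calc ‖(starRingEnd ℂ) al * p0 + i * r0‖ ≤ ‖(starRingEnd ℂ) al * p0‖ + ‖i * r0‖ := norm_add_le _ _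
      _ = ‖(starRingEnd ℂ) al‖ * ‖p0‖ + 1 / |e| * ‖r0‖ := by rw [norm_mul, norm_mul, ni]
      _ ≤ B / (|e| * m ^ 2) * κ + 1 / |e| * κ := by
          have := D.hp0
          have := D.hr0
          gcongr
      _ = _ := by ring
  have nw1 : ‖(starRingEnd ℂ) al * p1 + i * r1‖ ≤ (B / (|e| * m ^ 2) + 1 / |e|) * κ := by
    calc ‖(starRingEnd ℂ) al * p1 + i * r1‖ ≤ ‖(starRingEnd ℂ) al * p1‖ + ‖i * r1‖ := norm_add_le _ _
      _ = ‖(starRingEnd ℂ) al‖ * ‖p1‖ + 1 / |e| * ‖r1‖ := by rw [norm_mul, norm_mul, ni]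
      _ ≤ B / (|e| * m ^ 2) * κ + 1 / |e| * κ := by
          have := D.hp1
          have := D.hr1
          gcongr
      _ = _ := by ring
  have nM00 : ‖(starRingEnd ℂ) a * a + (starRingEnd ℂ) b * c - 1‖ ≤ 2 * K ^ 2 + 1 := by
    calc ‖(starRingEnd ℂ) a * a + (starRingEnd ℂ) b * c - 1‖ ≤ ‖(starRingEnd ℂ) a * a + (starRingEnd ℂ) b * c‖ + ‖(1 : ℂ)‖ := norm_sub_le _ _
      _ ≤ ‖(starRingEnd ℂ) a * a‖ + ‖(starRingEnd ℂ) b * c‖ + ‖(1 : ℂ)‖ := by gcongr; exact norm_add_le _ _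
      _ = ‖(starRingEnd ℂ) a‖ * ‖a‖ + ‖(starRingEnd ℂ) b‖ * ‖c‖ + 1 := by rw [norm_mul, norm_mul, norm_one]
      _ ≤ K * K + K * K + 1 := by
          have := D.ha
          have := D.hc
          gcongr
      _ = _ := by ring
  have nM01 : ‖(starRingEnd ℂ) a * b + (starRingEnd ℂ) b * d‖ ≤ 2 * K ^ 2 := by
    calc ‖(starRingEnd ℂ) a * b + (starRingEnd ℂ) b * d‖ ≤ ‖(starRingEnd ℂ) a * b‖ + ‖(starRingEnd ℂ) b * d‖ := norm_add_le _ _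
      _ = ‖(starRingEnd ℂ) a‖ * ‖b‖ + ‖(starRingEnd ℂ) b‖ * ‖d‖ := by rw [norm_mul, norm_mul]
      _ ≤ K * K + K * K := by
          have := D.hb
          have := D.hd
          gcongr
      _ = _ := by ring
  have nnu : ‖Complex.I * η ^ 2‖ = ‖η‖ ^ 2 := by rw [norm_mul, Complex.norm_I, one_mul, norm_pow]
  have hnu0 : Complex.I * η ^ 2 ≠ 0 := mul_ne_zero Complex.I_ne_zero (pow_ne_zero _ hη0)
  have hm2 : m ^ 2 ≤ ‖η‖ ^ 2 := by gcongr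
  constructor
  · obtain ⟨E, hEdef⟩ : ∃ E : ℂ, E = (al + (starRingEnd ℂ) al + T * i) * (p0 + (starRingEnd ℂ) a * (starRingEnd ℂ) p0 + (starRingEnd ℂ) b * (starRingEnd ℂ) p1) +
        2 * i * (r0 + T * p0 + (starRingEnd ℂ) a * (starRingEnd ℂ) r0 + (starRingEnd ℂ) b * (starRingEnd ℂ) r1) +
        ((starRingEnd ℂ) a * a + (starRingEnd ℂ) b * c - 1) * ((starRingEnd ℂ) al * p0 + i * r0) +
        ((starRingEnd ℂ) a * b + (starRingEnd ℂ) b * d) * ((starRingEnd ℂ) al * p1 + i * r1) := ⟨_, rfl⟩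
    rw [hEE, ← hEdef]
    have h1 : (4 * T * i * η ^ 2 + E) / (Complex.I * η ^ 2) =
        ((-(4 * T / e) : ℝ) : ℂ) * Complex.I + E / (Complex.I * η ^ 2) := by
      rw [hi]
      push_cast
      have hI : Complex.I ≠ 0 := Complex.I_ne_zero
      field_simp
      rw [Complex.I_sq]
      ring
    rw [h1, Complex.add_im, Complex.im_ofReal_mul, Complex.I_im, mul_one]
    have h2 : -(4 * T / e) + (E / (Complex.I * η ^ 2)).im + 4 * T / e =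
        (E / (Complex.I * η ^ 2)).im := by ring
    rw [h2]
    refine (Complex.abs_im_le_norm _).trans ?_
    rw [norm_div, nnu, CE, div_mul_eq_mul_div]
    have h3 : ‖E‖ ≤ (((2 * (B / (|e| * m ^ 2)) + T * (1 / |e|)) * (1 + 2 * K) +
        2 * (1 / |e|) * (1 + T + 2 * K) + (2 * K ^ 2 + 1) * (B / (|e| * m ^ 2) + 1 / |e|) +
        2 * K ^ 2 * (B / (|e| * m ^ 2) + 1 / |e|))) * κ := by
      rw [hEdef]
      calc _ ≤ ‖(al + (starRingEnd ℂ) al + T * i) * (p0 + (starRingEnd ℂ) a * (starRingEnd ℂ) p0 + (starRingEnd ℂ) b * (starRingEnd ℂ) p1) +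
            2 * i * (r0 + T * p0 + (starRingEnd ℂ) a * (starRingEnd ℂ) r0 + (starRingEnd ℂ) b * (starRingEnd ℂ) r1) +
            ((starRingEnd ℂ) a * a + (starRingEnd ℂ) b * c - 1) * ((starRingEnd ℂ) al * p0 + i * r0)‖ +
            ‖((starRingEnd ℂ) a * b + (starRingEnd ℂ) b * d) * ((starRingEnd ℂ) al * p1 + i * r1)‖ := norm_add_le _ _
        _ ≤ ‖(al + (starRingEnd ℂ) al + T * i) * (p0 + (starRingEnd ℂ) a * (starRingEnd ℂ) p0 + (starRingEnd ℂ) b * (starRingEnd ℂ) p1) +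
            2 * i * (r0 + T * p0 + (starRingEnd ℂ) a * (starRingEnd ℂ) r0 + (starRingEnd ℂ) b * (starRingEnd ℂ) r1)‖ +
            ‖((starRingEnd ℂ) a * a + (starRingEnd ℂ) b * c - 1) * ((starRingEnd ℂ) al * p0 + i * r0)‖ +
            ‖((starRingEnd ℂ) a * b + (starRingEnd ℂ) b * d) * ((starRingEnd ℂ) al * p1 + i * r1)‖ := by
            gcongr; exact norm_add_le _ _
        _ ≤ ‖(al + (starRingEnd ℂ) al + T * i) * (p0 + (starRingEnd ℂ) a * (starRingEnd ℂ) p0 + (starRingEnd ℂ) b * (starRingEnd ℂ) p1)‖ +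
            ‖2 * i * (r0 + T * p0 + (starRingEnd ℂ) a * (starRingEnd ℂ) r0 + (starRingEnd ℂ) b * (starRingEnd ℂ) r1)‖ +
            ‖((starRingEnd ℂ) a * a + (starRingEnd ℂ) b * c - 1) * ((starRingEnd ℂ) al * p0 + i * r0)‖ +
            ‖((starRingEnd ℂ) a * b + (starRingEnd ℂ) b * d) * ((starRingEnd ℂ) al * p1 + i * r1)‖ := by
            gcongr; exact norm_add_le _ _
        _ = ‖al + (starRingEnd ℂ) al + T * i‖ * ‖p0 + (starRingEnd ℂ) a * (starRingEnd ℂ) p0 + (starRingEnd ℂ) b * (starRingEnd ℂ) p1‖ +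
            2 * (1 / |e|) * ‖r0 + T * p0 + (starRingEnd ℂ) a * (starRingEnd ℂ) r0 + (starRingEnd ℂ) b * (starRingEnd ℂ) r1‖ +
            ‖(starRingEnd ℂ) a * a + (starRingEnd ℂ) b * c - 1‖ * ‖(starRingEnd ℂ) al * p0 + i * r0‖ +
            ‖(starRingEnd ℂ) a * b + (starRingEnd ℂ) b * d‖ * ‖(starRingEnd ℂ) al * p1 + i * r1‖ := by
            simp only [norm_mul, ni, Complex.norm_ofNat]
        _ ≤ (2 * (B / (|e| * m ^ 2)) + T * (1 / |e|)) * ((1 + 2 * K) * κ) +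
            2 * (1 / |e|) * ((1 + T + 2 * K) * κ) +
            (2 * K ^ 2 + 1) * ((B / (|e| * m ^ 2) + 1 / |e|) * κ) +
            2 * K ^ 2 * ((B / (|e| * m ^ 2) + 1 / |e|) * κ) := by
            gcongr
        _ = _ := by ring
    gcongr
  · rw [hQ0]
    refine (Complex.abs_im_le_norm _).trans ?_
    rw [norm_div, nnu, CY]
    have h3 : ‖(al + (starRingEnd ℂ) al + T * i) * η ^ 2 + 2 * i * ξ + ((starRingEnd ℂ) al * p0 + i * r0)‖ ≤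
        (2 * (B / (|e| * m ^ 2)) + T * (1 / |e|)) * B ^ 2 + 2 * (1 / |e|) * B +
          (B / (|e| * m ^ 2) + 1 / |e|) := by
      calc _ ≤ ‖(al + (starRingEnd ℂ) al + T * i) * η ^ 2 + 2 * i * ξ‖ + ‖(starRingEnd ℂ) al * p0 + i * r0‖ := norm_add_le _ _
        _ ≤ ‖(al + (starRingEnd ℂ) al + T * i) * η ^ 2‖ + ‖2 * i * ξ‖ + ‖(starRingEnd ℂ) al * p0 + i * r0‖ := by
            gcongr; exact norm_add_le _ _
        _ = ‖al + (starRingEnd ℂ) al + T * i‖ * ‖η‖ ^ 2 + 2 * (1 / |e|) * ‖ξ‖ + ‖(starRingEnd ℂ) al * p0 + i * r0‖ := by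
            simp only [norm_mul, norm_pow, ni, Complex.norm_ofNat]
        _ ≤ (2 * (B / (|e| * m ^ 2)) + T * (1 / |e|)) * B ^ 2 + 2 * (1 / |e|) * B +
            (B / (|e| * m ^ 2) + 1 / |e|) * κ := by gcongr
        _ ≤ (2 * (B / (|e| * m ^ 2)) + T * (1 / |e|)) * B ^ 2 + 2 * (1 / |e|) * B +
            (B / (|e| * m ^ 2) + 1 / |e|) * 1 := by gcongr
        _ = _ := by ring
    gcongr

end consequences


theorem trace_near (D : OdeData) : ∃ C : ℝ, 0 < C ∧ ∀ (s κ : ℝ) (A : Matrix (Fin 2) (Fin 2) ℂ),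
    Near D s κ A → κ ≤ 1 → ‖(A.map (starRingEnd ℂ) * A).trace - 2‖ ≤ C * κ := by
  obtain ⟨B, m, hB, hm, hb⟩ := ode_bounds D
  have he' : 0 < |D.e| := abs_pos.2 D.he
  have hT := D.hT
  have hK : 0 ≤ KA D.T D.e B := by unfold KA; positivity
  refine ⟨(2 * (1 + 2 * KA D.T D.e B) * B + 2 * B ^ 2 * (1 + D.T + 2 * KA D.T D.e B)) / |D.e|,
    by positivity, ?_⟩
  rintro s κ A ⟨n1, n2, n3, n4⟩ hκ
  obtain ⟨b1, b2, b3⟩ := hb s
  obtain ⟨p0, p1, r0, r1, hD⟩ := dat_of_near hT D.he (D.hE s) b1 b2 hκ n1 n2 n3 n4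
  have := hD.trace_bound hT D.he (D.hE s) b1 b2
  have htr : (A.map (starRingEnd ℂ) * A).trace = ((starRingEnd ℂ) (A 0 0) * A 0 0 + (starRingEnd ℂ) (A 0 1) * A 1 0) +
      ((starRingEnd ℂ) (A 1 0) * A 0 1 + (starRingEnd ℂ) (A 1 1) * A 1 1) := by
    simp [Matrix.trace, Matrix.mul_apply, Fin.sum_univ_two]
  rw [htr]
  exact this


theorem sign_near (D : OdeData) : ∃ κ1 : ℝ, 0 < κ1 ∧
    ∀ (s : ℝ) (A : Matrix (Fin 2) (Fin 2) ℂ), Near D s κ1 A → A.det = -1 →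
    ∀ (v0 v1 : ℂ) (l t : ℝ), (starRingEnd ℂ) (A 0 0 * v0 + A 0 1 * v1) = v0 →
      (starRingEnd ℂ) (A 1 0 * v0 + A 1 1 * v1) = v1 + l / nu D s → (v0 / nu D s).im ≤ -1 / 2 →
      (A.map (starRingEnd ℂ) * A).trace = t →
      (l ≤ 0 → (t - 2) * D.e ≤ 0) ∧ (0 ≤ l → 0 ≤ (t - 2) * D.e) := by
  obtain ⟨B, m, hB, hm, hb⟩ := ode_bounds D
  obtain ⟨C, hC, htn⟩ := trace_near D
  have he' : 0 < |D.e| := abs_pos.2 D.he
  have hT := D.hT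
  have hK : 0 ≤ KA D.T D.e B := by unfold KA; positivity
  have hCE : 0 ≤ CE D.T D.e B m (KA D.T D.e B) := by unfold CE; positivity
  have hCY : 0 ≤ CY D.T D.e B m := by unfold CY; positivity
  obtain ⟨Ct, hCt⟩ : ∃ Ct, Ct = |D.e| * (CE D.T D.e B m (KA D.T D.e B) + C * CY D.T D.e B m) + 1 :=
    ⟨_, rfl⟩
  have hCt0 : 0 < Ct := by rw [hCt]; positivity
  obtain ⟨κ, hκdef⟩ : ∃ κ, κ = min 1 (2 * D.T / Ct) := ⟨_, rfl⟩
  have hκ0 : 0 < κ := by rw [hκdef]; positivity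
  have hκ1 : κ ≤ 1 := by rw [hκdef]; exact min_le_left _ _
  have hκ2 : Ct * κ ≤ 2 * D.T := by
    have : κ ≤ 2 * D.T / Ct := by rw [hκdef]; exact min_le_right _ _
    rw [le_div_iff₀ hCt0] at this
    linarith
  refine ⟨κ, hκ0, ?_⟩
  intro s A hnear hdet v0 v1 l t hv0 hv1 hmu htr
  have htr2 := htn s κ A hnear hκ1
  obtain ⟨n1, n2, n3, n4⟩ := hnear
  obtain ⟨b1, b2, b3⟩ := hb s
  obtain ⟨p0, p1, r0, r1, hD⟩ := dat_of_near hT D.he (D.hE s) b1 b2 hκ1 n1 n2 n3 n4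
  have htr' : (A.map (starRingEnd ℂ) * A).trace = ((starRingEnd ℂ) (A 0 0) * A 0 0 + (starRingEnd ℂ) (A 0 1) * A 1 0) +
      ((starRingEnd ℂ) (A 1 0) * A 0 1 + (starRingEnd ℂ) (A 1 1) * A 1 1) := by
    simp [Matrix.trace, Matrix.mul_apply, Fin.sum_univ_two]
  rw [htr] at htr2
  have htr3 : |t - 2| ≤ C * κ := by
    have : ‖((t - 2 : ℝ) : ℂ)‖ ≤ C * κ := by push_cast; exact htr2
    rwa [Complex.norm_real, Real.norm_eq_abs] at this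
  rw [htr'] at htr
  rw [Matrix.det_fin_two] at hdet
  generalize A 0 0 = a at *
  generalize A 0 1 = b at *
  generalize A 1 0 = c at *
  generalize A 1 1 = d at *
  have hη0 : D.η s ≠ 0 := D.hne s
  unfold nu at hv1 hmu
  have hnu0 : Complex.I * D.η s ^ 2 ≠ 0 := mul_ne_zero Complex.I_ne_zero (pow_ne_zero _ hη0)
  obtain ⟨w, hw⟩ : ∃ w : ℂ, w = 1 / (Complex.I * D.η s ^ 2) := ⟨_, rfl⟩
  obtain ⟨hX, hY⟩ := hD.bounds hT D.he (D.hE s) b1 b2 hm b3 hκ1 hw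
  have hv1' : (starRingEnd ℂ) (c * v0 + d * v1) = v1 + l * w := by
    rw [hv1, hw]; ring
  have hv0c : a * v0 + b * v1 = (starRingEnd ℂ) v0 := by
    have := congrArg (starRingEnd ℂ) hv0
    rwa [Complex.conj_conj] at this
  have hv1c : c * v0 + d * v1 = (starRingEnd ℂ) v1 + l * (starRingEnd ℂ) w := by
    have := congrArg (starRingEnd ℂ) hv1'
    rw [Complex.conj_conj] at this
    rw [this]
    simp
  have hdc : (starRingEnd ℂ) a * (starRingEnd ℂ) d - (starRingEnd ℂ) b * (starRingEnd ℂ) c = -1 := by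
    have := congrArg (starRingEnd ℂ) hdet
    simpa using this
  have e0 : ((starRingEnd ℂ) a * a + (starRingEnd ℂ) b * c) * v0 + ((starRingEnd ℂ) a * b + (starRingEnd ℂ) b * d) * v1 = v0 + l * ((starRingEnd ℂ) b * (starRingEnd ℂ) w) := by
    have h5 : (starRingEnd ℂ) a * (starRingEnd ℂ) v0 + (starRingEnd ℂ) b * (starRingEnd ℂ) v1 = v0 := by
      simpa only [map_add, map_mul] using hv0
    linear_combination (starRingEnd ℂ) a * hv0c + (starRingEnd ℂ) b * hv1c + h5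
  have e1 : ((starRingEnd ℂ) c * a + (starRingEnd ℂ) d * c) * v0 + ((starRingEnd ℂ) c * b + (starRingEnd ℂ) d * d) * v1 =
      v1 + l * (w + (starRingEnd ℂ) d * (starRingEnd ℂ) w) := by
    have h5 : (starRingEnd ℂ) c * (starRingEnd ℂ) v0 + (starRingEnd ℂ) d * (starRingEnd ℂ) v1 = v1 + l * w := by
      simpa only [map_add, map_mul] using hv1'
    linear_combination (starRingEnd ℂ) c * hv0c + (starRingEnd ℂ) d * hv1c + h5
  have hdM : ((starRingEnd ℂ) a * a + (starRingEnd ℂ) b * c) * ((starRingEnd ℂ) c * b + (starRingEnd ℂ) d * d) -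
      ((starRingEnd ℂ) a * b + (starRingEnd ℂ) b * d) * ((starRingEnd ℂ) c * a + (starRingEnd ℂ) d * c) = 1 := by
    linear_combination ((starRingEnd ℂ) a * (starRingEnd ℂ) d - (starRingEnd ℂ) b * (starRingEnd ℂ) c) * hdet - hdc
  have hid := alg_id hdM htr e0 e1
  have hid2 : (l : ℂ) * ((((starRingEnd ℂ) a * a + (starRingEnd ℂ) b * c - 1) * ((starRingEnd ℂ) b * (starRingEnd ℂ) w) +
      ((starRingEnd ℂ) a * b + (starRingEnd ℂ) b * d) * (w + (starRingEnd ℂ) d * (starRingEnd ℂ) w)) / (Complex.I * D.η s ^ 2)) =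
      ((t - 2 : ℝ) : ℂ) * (v0 / (Complex.I * D.η s ^ 2) +
        (l : ℂ) * (((starRingEnd ℂ) b * (starRingEnd ℂ) w) / (Complex.I * D.η s ^ 2))) := by
    push_cast
    rw [← mul_div_assoc, hid]
    ring
  have hid3 := congrArg Complex.im hid2
  rw [Complex.im_ofReal_mul, Complex.im_ofReal_mul, Complex.add_im, Complex.im_ofReal_mul] at hid3
  generalize ((((starRingEnd ℂ) a * a + (starRingEnd ℂ) b * c - 1) * ((starRingEnd ℂ) b * (starRingEnd ℂ) w) +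
      ((starRingEnd ℂ) a * b + (starRingEnd ℂ) b * d) * (w + (starRingEnd ℂ) d * (starRingEnd ℂ) w)) / (Complex.I * D.η s ^ 2)).im = X at *
  generalize (((starRingEnd ℂ) b * (starRingEnd ℂ) w) / (Complex.I * D.η s ^ 2)).im = Y at *
  generalize (v0 / (Complex.I * D.η s ^ 2)).im = μ at *
  -- l * X = (t - 2) * (μ + l * Y)
  have hmain : (t - 2) * D.e * μ = l * (D.e * X - D.e * ((t - 2) * Y)) := by
    linear_combination -D.e * hid3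
  have hδ : D.e * X - D.e * ((t - 2) * Y) ≤ -2 * D.T := by
    have h6 : D.e * X = -4 * D.T + D.e * (X + 4 * D.T / D.e) := by
      have := D.he
      field_simp
      ring
    have h7 : D.e * (X + 4 * D.T / D.e) ≤ |D.e| * (CE D.T D.e B m (KA D.T D.e B) * κ) := by
      calc D.e * (X + 4 * D.T / D.e) ≤ |D.e * (X + 4 * D.T / D.e)| := le_abs_self _
        _ = |D.e| * |X + 4 * D.T / D.e| := abs_mul _ _
        _ ≤ _ := by gcongr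
    have h8 : -(D.e * ((t - 2) * Y)) ≤ |D.e| * ((C * κ) * CY D.T D.e B m) := by
      calc -(D.e * ((t - 2) * Y)) ≤ |D.e * ((t - 2) * Y)| := neg_le_abs _
        _ = |D.e| * (|t - 2| * |Y|) := by rw [abs_mul, abs_mul]
        _ ≤ _ := by gcongr
    have h9 : |D.e| * (CE D.T D.e B m (KA D.T D.e B) * κ) +
        |D.e| * ((C * κ) * CY D.T D.e B m) ≤ Ct * κ := by
      rw [hCt]
      nlinarith
    linarith
  generalize D.e * X - D.e * ((t - 2) * Y) = Z at *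
  have hμ : μ < 0 := by linarith
  have hZ : Z < 0 := by linarith
  constructor
  · intro hl
    have h10 : 0 ≤ (t - 2) * D.e * μ := by
      rw [hmain]; exact mul_nonneg_of_nonpos_of_nonpos hl hZ.le
    by_contra hcon
    push Not at hcon
    have := mul_neg_of_pos_of_neg hcon hμ
    linarith
  · intro hl
    have h10 : (t - 2) * D.e * μ ≤ 0 := by
      rw [hmain]; exact mul_nonpos_of_nonneg_of_nonpos hl hZ.le
    by_contra hcon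
    push Not at hcon
    have := mul_pos_of_neg_of_neg hcon hμ
    linarith


end Pool.Agent.H763.Hen
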