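import Pool.Agent.H763.HenMats

set_option autoImplicit false

namespace Pool.Agent.H763.Hen

open Filter Topology Complex







theorem Wf_deriv_aux (h : ℝ) (a b : ℝ → ℂ) (a' b' : ℂ) (s : ℝ) (ha : HasDerivAt a a' s)
    (hb : HasDerivAt b b' s) (n : ℕ) :
    HasDerivAt (fun s => Wf h n (a s) (b s))
      ((b s - h * a s ^ 2) * a' - (-1 : ℂ) ^ n *
        (ys h (a s) (b s) (n + 1) - h * ys h (a s) (b s) n ^ 2) * ds h (a s) (b s) a' b' n) s := by
  induction n with
  | zero =>
    have h1 : (fun s => Wf h 0 (a s) (b s)) = fun _ => 0 := by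
      funext s; simp [Wf]
    rw [h1]
    refine (hasDerivAt_const s (0 : ℂ)).congr_deriv ?_
    simp only [ys, ds, zero_add]
    ring
  | succ n ih =>
    have h1 : (fun s => Wf h (n + 1) (a s) (b s)) = fun s => Wf h n (a s) (b s) +
        (-1 : ℂ) ^ n * (ys h (a s) (b s) n * ys h (a s) (b s) (n + 1) -
          h * ys h (a s) (b s) n ^ 3 / 3) := by
      funext s; simp [Wf, Finset.sum_range_succ]
    rw [h1]
    have hy := hasDerivAt_ys (h := h) ha hb n
    have hy1 := hasDerivAt_ys (h := h) ha hb (n + 1)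
    have h2 := ih.add (((hy.mul hy1).sub (((hy.pow 3).const_mul (h : ℂ)).div_const 3)).const_mul
      ((-1 : ℂ) ^ n))
    refine h2.congr_deriv ?_
    have e1 : ys h (a s) (b s) (n + 1 + 1) =
        ys h (a s) (b s) n + h * ys h (a s) (b s) (n + 1) ^ 2 := by
      rw [ys]
    rw [e1, pow_succ (-1 : ℂ) n]
    push_cast
    ring

theorem W_deriv (h : ℝ) (M : ℕ) (a b : ℝ → ℂ) (a' b' : ℂ) (s : ℝ) (ha : HasDerivAt a a' s)
    (hb : HasDerivAt b b' s)
    (hN : ∀ᶠ s' in 𝓝 s, ys h (a s') (b s') (2 * M + 1) = (starRingEnd ℂ) (a s')) :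
    HasDerivAt (fun s => (Wf h (2 * M + 1) (a s) (b s)).im)
      ((b s - (starRingEnd ℂ) (ys h (a s) (b s) (2 * M + 2))) * a').im s := by
  have h1 := Wf_deriv_aux h a b a' b' s ha hb (2 * M + 1)
  have hself : ys h (a s) (b s) (2 * M + 1) = (starRingEnd ℂ) (a s) := hN.self_of_nhds
  have hcj : HasDerivAt (fun s => (starRingEnd ℂ) (a s)) ((starRingEnd ℂ) a') s := by
    have := (Complex.conjCLE.toContinuousLinearMap.hasFDerivAt (x := a s)).comp_hasDerivAt s ha
    simpa [Function.comp_def] using this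
  have hd : ds h (a s) (b s) a' b' (2 * M + 1) = (starRingEnd ℂ) a' := by
    have h2 := hasDerivAt_ys (h := h) ha hb (2 * M + 1)
    have h3 : HasDerivAt (fun s => ys h (a s) (b s) (2 * M + 1)) ((starRingEnd ℂ) a') s :=
      hcj.congr_of_eventuallyEq hN
    exact h2.unique h3
  have h4 := (Complex.imCLM.hasFDerivAt (x := Wf h (2 * M + 1) (a s) (b s))).comp_hasDerivAt s h1
  have h5 : HasDerivAt (fun s => (Wf h (2 * M + 1) (a s) (b s)).im) (((b s - h * a s ^ 2) * a' -
      (-1 : ℂ) ^ (2 * M + 1) * (ys h (a s) (b s) (2 * M + 1 + 1) -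
        h * ys h (a s) (b s) (2 * M + 1) ^ 2) * ds h (a s) (b s) a' b' (2 * M + 1)).im) s := by
    simpa [Function.comp_def] using h4
  refine h5.congr_deriv ?_
  rw [hd, hself]
  have e1 : (-1 : ℂ) ^ (2 * M + 1) = -1 := by
    rw [pow_succ, pow_mul]; simp
  rw [e1]
  have e2 : 2 * M + 1 + 1 = 2 * M + 2 := rfl
  rw [e2]
  generalize ys h (a s) (b s) (2 * M + 2) = y
  generalize b s = B
  generalize a s = A
  simp only [Complex.sub_im, Complex.mul_im, Complex.sub_re, Complex.mul_re, Complex.conj_re,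
    Complex.conj_im, Complex.ofReal_re, Complex.ofReal_im, pow_two, Complex.neg_re, Complex.neg_im,
    Complex.one_re, Complex.one_im]
  ring


end Pool.Agent.H763.Hen
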