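import Pool.Agent.H763.HenBox
import Pool.Agent.H763.HenMax
import Pool.Agent.H763.HenW
import Pool.Agent.H763.HenSlope
import Pool.Agent.H763.HenTS

set_option autoImplicit false

namespace Pool.Agent.H763.Hen

open Filter Topology Complex


/-- What the analysis produces for a fixed `N = 2 M + 1`. -/
def Sol (h : ℝ) (M : ℕ) (B : ℝ) (t : ℝ) (p : ℂ × ℂ) : Prop :=
  (starRingEnd ℂ) (ys h p.1 p.2 (2 * M + 1)) = p.1 ∧ (starRingEnd ℂ) (ys h p.1 p.2 (2 * M + 2)) = p.2 ∧ p.2 ≠ 0 ∧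
  (∀ k ≤ 2 * M + 2, ‖ys h p.1 p.2 k‖ ≤ B) ∧
  ((JA h p.1 p.2 (2 * M + 1)).map (starRingEnd ℂ) * JA h p.1 p.2 (2 * M + 1)).trace = (t : ℂ)

theorem contDiff_ys {E : Type*} [NormedAddCommGroup E] [NormedSpace ℝ E] (h : ℝ) {a b : E → ℂ}
    (ha : ContDiff ℝ 2 a) (hb : ContDiff ℝ 2 b) (k : ℕ) :
    ContDiff ℝ 2 (fun x => ys h (a x) (b x) k) := by
  have key : ∀ k, ContDiff ℝ 2 (fun x => ys h (a x) (b x) k) ∧
      ContDiff ℝ 2 (fun x => ys h (a x) (b x) (k + 1)) := by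
    intro k
    induction k with
    | zero => exact ⟨ha, hb⟩
    | succ k ih =>
      refine ⟨ih.2, ?_⟩
      show ContDiff ℝ 2 (fun x => ys h (a x) (b x) k + h * ys h (a x) (b x) (k + 1) ^ 2)
      exact ih.1.add (contDiff_const.mul (ih.2.pow 2))
  exact (key k).1

noncomputable def Fn (D : OdeData) (h : ℝ) (n : ℕ) (x : ℝ × (ℝ × ℂ)) : ℂ × ℝ :=
  (F1 D h n x.1 x.2.1 x.2.2, (F2 D h n x.1 x.2.1 x.2.2).im)

noncomputable def gg (sg : ℝ) (D : OdeData) (h : ℝ) (n : ℕ) (x : ℝ × (ℝ × ℂ)) : ℝ :=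
  sg * (Wf h n (D.ξ x.1 + x.2.1 * nu D x.1) (D.η x.1 + x.2.2)).im

theorem contDiff_nu (D : OdeData) : ContDiff ℝ 2 (nu D) := by
  unfold nu
  exact contDiff_const.mul ((ode_contDiff D).2.pow 2)

theorem contDiff_pa (D : OdeData) :
    ContDiff ℝ 2 (fun x : ℝ × (ℝ × ℂ) => D.ξ x.1 + x.2.1 * nu D x.1) := by
  have h1 : ContDiff ℝ 2 (fun x : ℝ × (ℝ × ℂ) => ((x.2.1 : ℝ) : ℂ)) :=
    Complex.ofRealCLM.contDiff.comp (contDiff_fst.comp contDiff_snd)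
  exact ((ode_contDiff D).1.comp contDiff_fst).add (h1.mul ((contDiff_nu D).comp contDiff_fst))

theorem contDiff_pb (D : OdeData) :
    ContDiff ℝ 2 (fun x : ℝ × (ℝ × ℂ) => D.η x.1 + x.2.2) :=
  ((ode_contDiff D).2.comp contDiff_fst).add (contDiff_snd.comp contDiff_snd)

theorem contDiff_Fn (D : OdeData) (h : ℝ) (n : ℕ) : ContDiff ℝ 2 (Fn D h n) := by
  have hc : ContDiff ℝ 2 (fun z : ℂ => (starRingEnd ℂ) z) := Complex.conjCLE.contDiff
  have h1 : ContDiff ℝ 2 (fun x : ℝ × (ℝ × ℂ) => F1 D h n x.1 x.2.1 x.2.2) := by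
    unfold F1
    exact (hc.comp (contDiff_ys h (contDiff_pa D) (contDiff_pb D) n)).sub (contDiff_pa D)
  have h2 : ContDiff ℝ 2 (fun x : ℝ × (ℝ × ℂ) => F2 D h n x.1 x.2.1 x.2.2) := by
    unfold F2
    exact ((hc.comp (contDiff_ys h (contDiff_pa D) (contDiff_pb D) (n + 1))).sub
      (contDiff_pb D)).mul ((contDiff_nu D).comp contDiff_fst)
  exact h1.prodMk (Complex.imCLM.contDiff.comp h2)

theorem continuous_gg (sg : ℝ) (D : OdeData) (h : ℝ) (n : ℕ) : Continuous (gg sg D h n) := by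
  unfold gg Wf
  have ha := (contDiff_pa D).continuous
  have hb := (contDiff_pb D).continuous
  have hy : ∀ k, Continuous (fun x : ℝ × (ℝ × ℂ) =>
      ys h (D.ξ x.1 + x.2.1 * nu D x.1) (D.η x.1 + x.2.2) k) := fun k =>
    (contDiff_ys h (contDiff_pa D) (contDiff_pb D) k).continuous
  refine continuous_const.mul (Complex.continuous_im.comp (continuous_finsetSum _ fun k _ => ?_))
  exact continuous_const.mul (((hy k).mul (hy (k + 1))).sub
    ((continuous_const.mul ((hy k).pow 3)).div_const _))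

theorem nu_periodic (D : OdeData) (s : ℝ) : nu D (s + 2 * D.T) = nu D s := by
  unfold nu; rw [(ode_periodic D s).2]

theorem Fn_periodic (D : OdeData) (h : ℝ) (n : ℕ) (s : ℝ) (v : ℝ × ℂ) :
    Fn D h n (s + 2 * D.T, v) = Fn D h n (s, v) := by
  simp only [Fn, F1, F2, nu_periodic, (ode_periodic D s).1, (ode_periodic D s).2]

theorem gg_periodic (sg : ℝ) (D : OdeData) (h : ℝ) (n : ℕ) (s : ℝ) (v : ℝ × ℂ) :
    gg sg D h n (s + 2 * D.T, v) = gg sg D h n (s, v) := by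
  simp only [gg, nu_periodic, (ode_periodic D s).1, (ode_periodic D s).2]

theorem fderiv_Fn (D : OdeData) (h : ℝ) (n : ℕ) (s ρ : ℝ) (σ : ℂ) (ρ' : ℝ) (σ' : ℂ) :
    fderiv ℝ (Fn D h n) (s, (ρ, σ)) (0, (ρ', σ')) =
      ((starRingEnd ℂ) (JA h (D.ξ s + ρ * nu D s) (D.η s + σ) n 0 0 * (ρ' * nu D s)
        + JA h (D.ξ s + ρ * nu D s) (D.η s + σ) n 0 1 * σ') - ρ' * nu D s,
      (((starRingEnd ℂ) (JA h (D.ξ s + ρ * nu D s) (D.η s + σ) n 1 0 * (ρ' * nu D s)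
        + JA h (D.ξ s + ρ * nu D s) (D.η s + σ) n 1 1 * σ') - σ') * nu D s).im) := by
  have hF : HasFDerivAt (Fn D h n) (fderiv ℝ (Fn D h n) (s, (ρ, σ))) (s, (ρ, σ)) :=
    ((contDiff_Fn D h n).differentiable (by norm_num)).differentiableAt.hasFDerivAt
  have hline : HasDerivAt (fun t : ℝ => ((s, (ρ + t * ρ', σ + t * σ')) : ℝ × (ℝ × ℂ)))
      (0, (ρ', σ')) 0 := by
    have h1 : HasDerivAt (fun t : ℝ => ρ + t * ρ') ρ' 0 := by
      have := ((hasDerivAt_id (0 : ℝ)).mul_const ρ').const_add ρ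
      simpa using this
    have h2 : HasDerivAt (fun t : ℝ => σ + (t : ℂ) * σ') σ' 0 := by
      have h3 : HasDerivAt (fun t : ℝ => (t : ℂ)) (1 : ℂ) 0 := by
        have := (hasDerivAt_id (0 : ℝ)).ofReal_comp
        simpa using this
      have := (h3.mul_const σ').const_add σ
      simpa using this
    exact (hasDerivAt_const (0 : ℝ) s).prodMk (h1.prodMk h2)
  have e0 : ((s, (ρ + (0 : ℝ) * ρ', σ + ((0 : ℝ) : ℂ) * σ')) : ℝ × (ℝ × ℂ)) = (s, (ρ, σ)) := by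
    simp
  rw [← e0] at hF
  have hcomp := hF.comp_hasDerivAt (0 : ℝ) hline
  rw [e0] at hcomp
  have hd := F_deriv D h n s ρ σ ρ' σ'
  have hd' : HasDerivAt (fun t : ℝ => Fn D h n (s, (ρ + t * ρ', σ + t * σ')))
      ((starRingEnd ℂ) (JA h (D.ξ s + ρ * nu D s) (D.η s + σ) n 0 0 * (ρ' * nu D s)
        + JA h (D.ξ s + ρ * nu D s) (D.η s + σ) n 0 1 * σ') - ρ' * nu D s,
      (((starRingEnd ℂ) (JA h (D.ξ s + ρ * nu D s) (D.η s + σ) n 1 0 * (ρ' * nu D s)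
        + JA h (D.ξ s + ρ * nu D s) (D.η s + σ) n 1 1 * σ') - σ') * nu D s).im) 0 :=
    hd.1.prodMk (Complex.imCLM.hasFDerivAt.comp_hasDerivAt (0 : ℝ) hd.2)
  exact hcomp.unique hd'

end Pool.Agent.H763.Hen
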