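import Mathlib

set_option autoImplicit false

/-!
Definitions for the small cycles of the quadratic Henon map `(x,y) ↦ (y, x+y^2)`.
-/

namespace Pool.Agent.H763.Hen

/-- A periodic solution of `ξ' = η^2, η' = ξ^2` with a real structure. -/
structure OdeData where
  ξ : ℝ → ℂ
  η : ℝ → ℂ
  T : ℝ
  e : ℝ
  hT : 0 < T
  he : e ≠ 0
  hξ : ∀ t, HasDerivAt ξ (η t ^ 2) t
  hη : ∀ t, HasDerivAt η (ξ t ^ 2) t
  hc1 : ∀ t, ξ (t + T) = (starRingEnd ℂ) (η t)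
  hc2 : ∀ t, η (t + T) = (starRingEnd ℂ) (ξ t)
  hE : ∀ t, ξ t ^ 3 - η t ^ 3 = e * Complex.I
  hne : ∀ t, η t ≠ 0

/-- Orbit of the rescaled map `(a,b) ↦ (b, a + h b^2)`. -/
noncomputable def ys (h : ℝ) (a b : ℂ) : ℕ → ℂ
  | 0 => a
  | 1 => b
  | (k + 2) => ys h a b k + h * ys h a b (k + 1) ^ 2

/-- Tangent orbit. -/
noncomputable def ds (h : ℝ) (a b u v : ℂ) : ℕ → ℂ
  | 0 => u
  | 1 => v
  | (k + 2) => ds h a b u v k + 2 * h * ys h a b (k + 1) * ds h a b u v (k + 1)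

/-- Derivative matrix of one step. -/
def stp (c : ℂ) : Matrix (Fin 2) (Fin 2) ℂ := !![0, 1; 1, 2 * c]

/-- Derivative matrix of `n` steps along the orbit `z`. -/
noncomputable def mp (z : ℕ → ℂ) : ℕ → Matrix (Fin 2) (Fin 2) ℂ
  | 0 => 1
  | (k + 1) => stp (z (k + 1)) * mp z k

/-- Derivative matrix of `n` steps of the rescaled map at `(a,b)`. -/
noncomputable def JA (h : ℝ) (a b : ℂ) (n : ℕ) : Matrix (Fin 2) (Fin 2) ℂ :=
  mp (fun k => h * ys h a b k) n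

/-- The matrix `A` is `κ`-close to the limit matrix at time `s`. -/
def Near (D : OdeData) (s κ : ℝ) (A : Matrix (Fin 2) (Fin 2) ℂ) : Prop :=
  ‖(starRingEnd ℂ) (A 0 0 * D.η s ^ 2 + A 0 1 * D.ξ s ^ 2) - D.η s ^ 2‖ ≤ κ ∧
  ‖(starRingEnd ℂ) (A 1 0 * D.η s ^ 2 + A 1 1 * D.ξ s ^ 2) - D.ξ s ^ 2‖ ≤ κ ∧
  ‖(starRingEnd ℂ) (A 0 0 * D.ξ s + A 0 1 * D.η s) - (D.ξ s + D.T * D.η s ^ 2)‖ ≤ κ ∧
  ‖(starRingEnd ℂ) (A 1 0 * D.ξ s + A 1 1 * D.η s) - (D.η s + D.T * D.ξ s ^ 2)‖ ≤ κ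

/-- The normal direction. -/
noncomputable def nu (D : OdeData) (s : ℝ) : ℂ := Complex.I * D.η s ^ 2

/-- Coordinates of the limit displacement `δ = α f + β γ`. -/
noncomputable def alp (D : OdeData) (s : ℝ) (δ0 δ1 : ℂ) : ℂ :=
  (δ0 * D.η s - δ1 * D.ξ s) / (-(D.e * Complex.I))
noncomputable def bet (D : OdeData) (s : ℝ) (δ0 δ1 : ℂ) : ℂ :=
  (D.η s ^ 2 * δ1 - D.ξ s ^ 2 * δ0) / (-(D.e * Complex.I))

/-- The limit of `conj (A δ) - δ` (first coordinate, and second coordinate times `ν`), for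
`δ = (ρ ν, σ)`. -/
noncomputable def Lam1 (D : OdeData) (s ρ : ℝ) (σ : ℂ) : ℂ :=
  let α := alp D s (ρ * nu D s) σ
  let β := bet D s (ρ * nu D s) σ
  ((starRingEnd ℂ) α - α + D.T * (starRingEnd ℂ) β) * D.η s ^ 2 + ((starRingEnd ℂ) β - β) * D.ξ s
noncomputable def Lam2 (D : OdeData) (s ρ : ℝ) (σ : ℂ) : ℂ :=
  let α := alp D s (ρ * nu D s) σ
  let β := bet D s (ρ * nu D s) σ
  (((starRingEnd ℂ) α - α + D.T * (starRingEnd ℂ) β) * D.ξ s ^ 2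
    + ((starRingEnd ℂ) β - β) * D.η s) * nu D s

/-- The two components of the fixed point equation at the point
`(ξ s + ρ ν s, η s + σ)`. -/
noncomputable def F1 (D : OdeData) (h : ℝ) (n : ℕ) (s ρ : ℝ) (σ : ℂ) : ℂ :=
  (starRingEnd ℂ) (ys h (D.ξ s + ρ * nu D s) (D.η s + σ) n) - (D.ξ s + ρ * nu D s)
noncomputable def F2 (D : OdeData) (h : ℝ) (n : ℕ) (s ρ : ℝ) (σ : ℂ) : ℂ :=
  ((starRingEnd ℂ) (ys h (D.ξ s + ρ * nu D s) (D.η s + σ) (n + 1)) - (D.η s + σ)) * nu D s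

/-- The action. -/
noncomputable def Wf (h : ℝ) (n : ℕ) (a b : ℂ) : ℂ :=
  ∑ k ∈ Finset.range n, (-1 : ℂ) ^ k * (ys h a b k * ys h a b (k + 1) - h * ys h a b k ^ 3 / 3)

end Pool.Agent.H763.Hen
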