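import Pool.Agent.H763.HenOde

set_option autoImplicit false

namespace Pool.Agent.H763.Hen

open Filter Topology Complex






theorem cramer1 (D : OdeData) (s : ℝ) (δ0 δ1 : ℂ) :
    alp D s δ0 δ1 * D.η s ^ 2 + bet D s δ0 δ1 * D.ξ s = δ0 := by
  have he : (D.e : ℂ) ≠ 0 := by exact_mod_cast D.he
  have hI : Complex.I ≠ 0 := Complex.I_ne_zero
  have hE := D.hE s
  have h1 : (-(D.e * Complex.I)) ≠ 0 := neg_ne_zero.mpr (mul_ne_zero he hI)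
  have h2 : alp D s δ0 δ1 * D.η s ^ 2 + bet D s δ0 δ1 * D.ξ s =
      δ0 * (-(D.ξ s ^ 3 - D.η s ^ 3)) / (-(D.e * Complex.I)) := by
    unfold alp bet
    ring
  rw [h2, hE, mul_div_assoc, div_self h1, mul_one]

theorem cramer2 (D : OdeData) (s : ℝ) (δ0 δ1 : ℂ) :
    alp D s δ0 δ1 * D.ξ s ^ 2 + bet D s δ0 δ1 * D.η s = δ1 := by
  have he : (D.e : ℂ) ≠ 0 := by exact_mod_cast D.he
  have hI : Complex.I ≠ 0 := Complex.I_ne_zero
  have hE := D.hE s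
  have h1 : (-(D.e * Complex.I)) ≠ 0 := neg_ne_zero.mpr (mul_ne_zero he hI)
  have h2 : alp D s δ0 δ1 * D.ξ s ^ 2 + bet D s δ0 δ1 * D.η s =
      δ1 * (-(D.ξ s ^ 3 - D.η s ^ 3)) / (-(D.e * Complex.I)) := by
    unfold alp bet
    ring
  rw [h2, hE, mul_div_assoc, div_self h1, mul_one]

theorem norm_nu (D : OdeData) (s : ℝ) : ‖nu D s‖ = ‖D.η s‖ ^ 2 := by
  unfold nu
  rw [norm_mul, Complex.norm_I, one_mul, norm_pow]

theorem alp_bet_bound (D : OdeData) (B : ℝ) (hB : 1 ≤ B) (s : ℝ) (hξ : ‖D.ξ s‖ ≤ B)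
    (hη : ‖D.η s‖ ≤ B) (ρ : ℝ) (σ : ℂ) :
    ‖alp D s (ρ * nu D s) σ‖ + ‖bet D s (ρ * nu D s) σ‖ ≤
      2 * B ^ 4 / |D.e| * (|ρ| + ‖σ‖) := by
  have he : 0 < |D.e| := abs_pos.mpr D.he
  have hden : ‖(-(D.e * Complex.I) : ℂ)‖ = |D.e| := by
    rw [norm_neg, norm_mul, Complex.norm_I, mul_one, Complex.norm_real, Real.norm_eq_abs]
  have hν : ‖nu D s‖ ≤ B ^ 2 := by
    rw [norm_nu]
    exact pow_le_pow_left₀ (norm_nonneg _) hη 2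
  have hδ : ‖(ρ : ℂ) * nu D s‖ ≤ |ρ| * B ^ 2 := by
    rw [norm_mul, Complex.norm_real, Real.norm_eq_abs]
    exact mul_le_mul_of_nonneg_left hν (abs_nonneg _)
  have hB0 : 0 ≤ B := by linarith
  have h12 : B ≤ B ^ 4 := by
    calc B = B ^ 1 := (pow_one B).symm
      _ ≤ B ^ 4 := pow_le_pow_right₀ hB (by norm_num)
  have h32 : B ^ 3 ≤ B ^ 4 := pow_le_pow_right₀ hB (by norm_num)
  have h22 : B ^ 2 ≤ B ^ 4 := pow_le_pow_right₀ hB (by norm_num)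
  have ha : ‖alp D s (ρ * nu D s) σ‖ ≤ B ^ 4 / |D.e| * (|ρ| + ‖σ‖) := by
    unfold alp
    rw [norm_div, hden, div_mul_eq_mul_div]
    apply div_le_div_of_nonneg_right _ he.le
    refine le_trans (norm_sub_le _ _) ?_
    rw [norm_mul, norm_mul σ]
    have e1 : ‖(ρ : ℂ) * nu D s‖ * ‖D.η s‖ ≤ |ρ| * B ^ 2 * B :=
      mul_le_mul hδ hη (norm_nonneg _) (by positivity)
    have e2 : ‖σ‖ * ‖D.ξ s‖ ≤ ‖σ‖ * B := mul_le_mul_of_nonneg_left hξ (norm_nonneg _)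
    have e3 : |ρ| * B ^ 2 * B = |ρ| * B ^ 3 := by ring
    have e4 : |ρ| * B ^ 3 ≤ |ρ| * B ^ 4 := mul_le_mul_of_nonneg_left h32 (abs_nonneg _)
    have e5 : ‖σ‖ * B ≤ ‖σ‖ * B ^ 4 := mul_le_mul_of_nonneg_left h12 (norm_nonneg _)
    calc _ ≤ |ρ| * B ^ 4 + ‖σ‖ * B ^ 4 := by linarith
      _ = B ^ 4 * (|ρ| + ‖σ‖) := by ring
  have hb : ‖bet D s (ρ * nu D s) σ‖ ≤ B ^ 4 / |D.e| * (|ρ| + ‖σ‖) := by
    unfold bet
    rw [norm_div, hden, div_mul_eq_mul_div]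
    apply div_le_div_of_nonneg_right _ he.le
    refine le_trans (norm_sub_le _ _) ?_
    rw [norm_mul, norm_mul (D.ξ s ^ 2), norm_pow, norm_pow]
    have e0 : ‖D.η s‖ ^ 2 ≤ B ^ 2 := pow_le_pow_left₀ (norm_nonneg _) hη 2
    have e0' : ‖D.ξ s‖ ^ 2 ≤ B ^ 2 := pow_le_pow_left₀ (norm_nonneg _) hξ 2
    have e1 : ‖D.η s‖ ^ 2 * ‖σ‖ ≤ B ^ 2 * ‖σ‖ := mul_le_mul_of_nonneg_right e0 (norm_nonneg _)
    have e2 : ‖D.ξ s‖ ^ 2 * ‖(ρ : ℂ) * nu D s‖ ≤ B ^ 2 * (|ρ| * B ^ 2) :=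
      mul_le_mul e0' hδ (norm_nonneg _) (by positivity)
    have e3 : B ^ 2 * ‖σ‖ ≤ B ^ 4 * ‖σ‖ := mul_le_mul_of_nonneg_right h22 (norm_nonneg _)
    calc _ ≤ B ^ 4 * ‖σ‖ + B ^ 2 * (|ρ| * B ^ 2) := by linarith
      _ = B ^ 4 * (|ρ| + ‖σ‖) := by ring
  calc _ ≤ B ^ 4 / |D.e| * (|ρ| + ‖σ‖) + B ^ 4 / |D.e| * (|ρ| + ‖σ‖) := add_le_add ha hb
    _ = _ := by ring


theorem near_lam (D : OdeData) : ∃ C : ℝ, 0 < C ∧ ∀ (s κ : ℝ) (A : Matrix (Fin 2) (Fin 2) ℂ),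
    Near D s κ A → ∀ (ρ : ℝ) (σ : ℂ),
    ‖((starRingEnd ℂ) (A 0 0 * (ρ * nu D s) + A 0 1 * σ) - ρ * nu D s) - Lam1 D s ρ σ‖
        ≤ C * κ * (|ρ| + ‖σ‖) ∧
    ‖((starRingEnd ℂ) (A 1 0 * (ρ * nu D s) + A 1 1 * σ) - σ) * nu D s - Lam2 D s ρ σ‖
        ≤ C * κ * (|ρ| + ‖σ‖) := by
  obtain ⟨B, m, hB, hm, hbd⟩ := ode_bounds D
  have he : 0 < |D.e| := abs_pos.mpr D.he
  have hB0 : 0 < B := by linarith
  refine ⟨2 * B ^ 4 / |D.e| * B ^ 2, by positivity, ?_⟩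
  intro s κ A hA ρ σ
  obtain ⟨n1, n2, n3, n4⟩ := hA
  obtain ⟨hξ, hη, hη'⟩ := hbd s
  have hκ : 0 ≤ κ := le_trans (norm_nonneg _) n1
  have hab := alp_bet_bound D B hB s hξ hη ρ σ
  have c1 := cramer1 D s (ρ * nu D s) σ
  have c2 := cramer2 D s (ρ * nu D s) σ
  unfold Lam1 Lam2
  set α := alp D s (ρ * nu D s) σ with hα
  set β := bet D s (ρ * nu D s) σ with hβ
  have hν : ‖nu D s‖ ≤ B ^ 2 := by
    rw [norm_nu]
    exact pow_le_pow_left₀ (norm_nonneg _) hη 2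
  have key : ∀ p q u v : ℂ, ‖p‖ ≤ κ → ‖q‖ ≤ κ → ‖u‖ = ‖α‖ → ‖v‖ = ‖β‖ →
      ‖u * p + v * q‖ ≤ κ * (‖α‖ + ‖β‖) := by
    intro p q u v hp hq hu hv
    refine le_trans (norm_add_le _ _) ?_
    rw [norm_mul, norm_mul, hu, hv]
    have e1 : ‖α‖ * ‖p‖ ≤ ‖α‖ * κ := mul_le_mul_of_nonneg_left hp (norm_nonneg _)
    have e2 : ‖β‖ * ‖q‖ ≤ ‖β‖ * κ := mul_le_mul_of_nonneg_left hq (norm_nonneg _)
    calc _ ≤ ‖α‖ * κ + ‖β‖ * κ := add_le_add e1 e2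
      _ = _ := by ring
  have hcα : ‖(starRingEnd ℂ) α‖ = ‖α‖ := Complex.norm_conj α
  have hcβ : ‖(starRingEnd ℂ) β‖ = ‖β‖ := Complex.norm_conj β
  have hS : 0 ≤ |ρ| + ‖σ‖ := add_nonneg (abs_nonneg _) (norm_nonneg _)
  have hBB : 1 ≤ B ^ 2 := one_le_pow₀ hB
  have hκab : κ * (‖α‖ + ‖β‖) ≤ κ * (2 * B ^ 4 / |D.e| * (|ρ| + ‖σ‖)) :=
    mul_le_mul_of_nonneg_left hab hκ
  have hnn : 0 ≤ κ * (2 * B ^ 4 / |D.e| * (|ρ| + ‖σ‖)) := by positivity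
  constructor
  · have e : ((starRingEnd ℂ) (A 0 0 * (ρ * nu D s) + A 0 1 * σ) - ρ * nu D s) -
        (((starRingEnd ℂ) α - α + D.T * (starRingEnd ℂ) β) * D.η s ^ 2 + ((starRingEnd ℂ) β - β) * D.ξ s) =
        (starRingEnd ℂ) α * ((starRingEnd ℂ) (A 0 0 * D.η s ^ 2 + A 0 1 * D.ξ s ^ 2) - D.η s ^ 2) +
        (starRingEnd ℂ) β * ((starRingEnd ℂ) (A 0 0 * D.ξ s + A 0 1 * D.η s) - (D.ξ s + D.T * D.η s ^ 2)) := by
      have e1 : A 0 0 * (ρ * nu D s) + A 0 1 * σ =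
          α * (A 0 0 * D.η s ^ 2 + A 0 1 * D.ξ s ^ 2) +
          β * (A 0 0 * D.ξ s + A 0 1 * D.η s) := by
        have : A 0 0 * (ρ * nu D s) + A 0 1 * σ = A 0 0 * (α * D.η s ^ 2 + β * D.ξ s) +
            A 0 1 * (α * D.ξ s ^ 2 + β * D.η s) := by rw [c1, c2]
        rw [this]
        ring
      rw [e1]
      have e2 : (starRingEnd ℂ) (α * (A 0 0 * D.η s ^ 2 + A 0 1 * D.ξ s ^ 2) +
          β * (A 0 0 * D.ξ s + A 0 1 * D.η s)) =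
          (starRingEnd ℂ) α * (starRingEnd ℂ) (A 0 0 * D.η s ^ 2 + A 0 1 * D.ξ s ^ 2) +
          (starRingEnd ℂ) β * (starRingEnd ℂ) (A 0 0 * D.ξ s + A 0 1 * D.η s) := by
        rw [map_add, map_mul, map_mul]
      rw [e2]
      have e3 : (ρ : ℂ) * nu D s = α * D.η s ^ 2 + β * D.ξ s := c1.symm
      rw [e3]
      ring
    have e' := key _ _ ((starRingEnd ℂ) α) ((starRingEnd ℂ) β) n1 n3 hcα hcβ
    rw [← e] at e'
    refine le_trans e' (le_trans hκab ?_)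
    calc κ * (2 * B ^ 4 / |D.e| * (|ρ| + ‖σ‖)) = κ * (2 * B ^ 4 / |D.e| * (|ρ| + ‖σ‖)) * 1 := by
          rw [mul_one]
      _ ≤ κ * (2 * B ^ 4 / |D.e| * (|ρ| + ‖σ‖)) * B ^ 2 := mul_le_mul_of_nonneg_left hBB hnn
      _ = _ := by ring
  · have e : ((starRingEnd ℂ) (A 1 0 * (ρ * nu D s) + A 1 1 * σ) - σ) * nu D s -
        (((starRingEnd ℂ) α - α + D.T * (starRingEnd ℂ) β) * D.ξ s ^ 2 + ((starRingEnd ℂ) β - β) * D.η s) * nu D s =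
        ((starRingEnd ℂ) α * ((starRingEnd ℂ) (A 1 0 * D.η s ^ 2 + A 1 1 * D.ξ s ^ 2) - D.ξ s ^ 2) +
        (starRingEnd ℂ) β * ((starRingEnd ℂ) (A 1 0 * D.ξ s + A 1 1 * D.η s) - (D.η s + D.T * D.ξ s ^ 2))) * nu D s := by
      have e1 : A 1 0 * (ρ * nu D s) + A 1 1 * σ =
          α * (A 1 0 * D.η s ^ 2 + A 1 1 * D.ξ s ^ 2) +
          β * (A 1 0 * D.ξ s + A 1 1 * D.η s) := by
        have : A 1 0 * (ρ * nu D s) + A 1 1 * σ = A 1 0 * (α * D.η s ^ 2 + β * D.ξ s) +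
            A 1 1 * (α * D.ξ s ^ 2 + β * D.η s) := by rw [c1, c2]
        rw [this]
        ring
      rw [e1]
      have e2 : (starRingEnd ℂ) (α * (A 1 0 * D.η s ^ 2 + A 1 1 * D.ξ s ^ 2) +
          β * (A 1 0 * D.ξ s + A 1 1 * D.η s)) =
          (starRingEnd ℂ) α * (starRingEnd ℂ) (A 1 0 * D.η s ^ 2 + A 1 1 * D.ξ s ^ 2) +
          (starRingEnd ℂ) β * (starRingEnd ℂ) (A 1 0 * D.ξ s + A 1 1 * D.η s) := by
        rw [map_add, map_mul, map_mul]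
      rw [e2]
      have e4 : (starRingEnd ℂ) α * (starRingEnd ℂ) (A 1 0 * D.η s ^ 2 + A 1 1 * D.ξ s ^ 2) +
          (starRingEnd ℂ) β * (starRingEnd ℂ) (A 1 0 * D.ξ s + A 1 1 * D.η s) - σ =
          (starRingEnd ℂ) α * (starRingEnd ℂ) (A 1 0 * D.η s ^ 2 + A 1 1 * D.ξ s ^ 2) +
          (starRingEnd ℂ) β * (starRingEnd ℂ) (A 1 0 * D.ξ s + A 1 1 * D.η s) - (α * D.ξ s ^ 2 + β * D.η s) := by
        rw [c2]
      rw [e4]
      ring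
    have e' := key _ _ ((starRingEnd ℂ) α) ((starRingEnd ℂ) β) n2 n4 hcα hcβ
    rw [e, norm_mul]
    calc _ ≤ κ * (2 * B ^ 4 / |D.e| * (|ρ| + ‖σ‖)) * B ^ 2 :=
          mul_le_mul (le_trans e' hκab) hν (norm_nonneg _) hnn
      _ = _ := by ring

theorem lam_lower (D : OdeData) : ∃ c : ℝ, 0 < c ∧ ∀ (s ρ : ℝ) (σ : ℂ),
    c * (|ρ| + ‖σ‖) ≤ ‖Lam1 D s ρ σ‖ + |(Lam2 D s ρ σ).im| := by
  obtain ⟨B, m, hB, hm, hbd⟩ := ode_bounds D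
  have he : 0 < |D.e| := abs_pos.mpr D.he
  have hB0 : 0 < B := by linarith
  have hT := D.hT
  obtain ⟨K1, hK1⟩ : ∃ K1, K1 = (1 + B ^ 2) / (2 * |D.e|) := ⟨_, rfl⟩
  obtain ⟨K2, hK2⟩ : ∃ K2, K2 = (1 + 2 * K1 * B) / m ^ 2 := ⟨_, rfl⟩
  obtain ⟨K3, hK3⟩ : ∃ K3, K3 = K2 + D.T * K1 := ⟨_, rfl⟩
  obtain ⟨K4, hK4⟩ : ∃ K4, K4 = K2 / D.T + K1 := ⟨_, rfl⟩
  obtain ⟨K5, hK5⟩ : ∃ K5, K5 = K3 + K4 * B / m ^ 2 := ⟨_, rfl⟩
  obtain ⟨K6, hK6⟩ : ∃ K6, K6 = K5 + K4 * B / m ^ 2 := ⟨_, rfl⟩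
  obtain ⟨K7, hK7⟩ : ∃ K7, K7 = K5 + (K6 * B ^ 2 + K4 * B) := ⟨_, rfl⟩
  have p1 : 0 < K1 := by rw [hK1]; positivity
  have p2 : 0 < K2 := by rw [hK2]; positivity
  have p3 : 0 < K3 := by rw [hK3]; positivity
  have p4 : 0 < K4 := by rw [hK4]; positivity
  have p5 : 0 < K5 := by rw [hK5]; positivity
  have p6 : 0 < K6 := by rw [hK6]; positivity
  have p7 : 0 < K7 := by rw [hK7]; positivity
  refine ⟨1 / K7, by positivity, ?_⟩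
  intro s ρ σ
  obtain ⟨hξ, hη, hη'⟩ := hbd s
  have c1 := cramer1 D s (ρ * nu D s) σ
  have c2 := cramer2 D s (ρ * nu D s) σ
  have hE := D.hE s
  have hL1 : Lam1 D s ρ σ = ((starRingEnd ℂ) (alp D s (ρ * nu D s) σ) - alp D s (ρ * nu D s) σ +
      D.T * (starRingEnd ℂ) (bet D s (ρ * nu D s) σ)) * D.η s ^ 2 +
      ((starRingEnd ℂ) (bet D s (ρ * nu D s) σ) - bet D s (ρ * nu D s) σ) * D.ξ s := rfl
  have hL2 : Lam2 D s ρ σ = (((starRingEnd ℂ) (alp D s (ρ * nu D s) σ) - alp D s (ρ * nu D s) σ +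
      D.T * (starRingEnd ℂ) (bet D s (ρ * nu D s) σ)) * D.ξ s ^ 2 +
      ((starRingEnd ℂ) (bet D s (ρ * nu D s) σ) - bet D s (ρ * nu D s) σ) * D.η s) * nu D s := rfl
  generalize alp D s (ρ * nu D s) σ = α at c1 c2 hL1 hL2
  generalize bet D s (ρ * nu D s) σ = β at c1 c2 hL1 hL2
  generalize Lam1 D s ρ σ = L1 at hL1 ⊢
  generalize Lam2 D s ρ σ = L2 at hL2 ⊢
  unfold nu at c1 hL2
  have hη0 : 0 < ‖D.η s‖ := lt_of_lt_of_le hm hη'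
  have hηne : D.η s ≠ 0 := norm_pos_iff.mp hη0
  have hT' := D.hT
  generalize D.ξ s = ξ at c1 c2 hL1 hL2 hξ hE
  generalize D.η s = η at c1 c2 hL1 hL2 hη hη' hE hη0 hηne
  obtain ⟨w, hw⟩ : ∃ w, w = ‖L1‖ + |L2.im| := ⟨_, rfl⟩
  rw [← hw]
  have hw0 : 0 ≤ w := by rw [hw]; positivity
  have hL1w : ‖L1‖ ≤ w := by rw [hw]; linarith [abs_nonneg L2.im]
  have hL2w : |L2.im| ≤ w := by rw [hw]; linarith [norm_nonneg L1]
  obtain ⟨a, ha⟩ : ∃ a, a = (starRingEnd ℂ) α - α + D.T * (starRingEnd ℂ) β := ⟨_, rfl⟩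
  obtain ⟨b, hb⟩ : ∃ b, b = (starRingEnd ℂ) β - β := ⟨_, rfl⟩
  rw [← ha, ← hb] at hL1 hL2
  have hL2' : L2 = Complex.I * (ξ ^ 2 * L1) + D.e * b := by
    have h0 : L2 = Complex.I * (ξ ^ 2 * L1) - Complex.I * b * (ξ ^ 3 - η ^ 3) := by
      rw [hL2, hL1]
      ring
    rw [h0, hE]
    have : Complex.I * b * (D.e * Complex.I) = (Complex.I * Complex.I) * (D.e * b) := by ring
    rw [this, Complex.I_mul_I]
    ring
  have hbim : b.im = -2 * β.im := by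
    rw [hb]
    simp
    ring
  have hbre : b.re = 0 := by
    rw [hb]
    simp
  have hL2im : L2.im = (ξ ^ 2 * L1).re - 2 * D.e * β.im := by
    rw [hL2', Complex.add_im, Complex.I_mul_im, Complex.im_ofReal_mul, hbim]; ring
  -- bound on `Im β`
  have hξL : ‖ξ ^ 2 * L1‖ ≤ B ^ 2 * w := by
    rw [norm_mul, norm_pow]
    exact mul_le_mul (pow_le_pow_left₀ (norm_nonneg _) hξ 2) hL1w (norm_nonneg _) (by positivity)
  have hβim : |β.im| ≤ K1 * w := by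
    have h1 : 2 * |D.e| * |β.im| = |(ξ ^ 2 * L1).re - L2.im| := by
      have : (ξ ^ 2 * L1).re - L2.im = 2 * D.e * β.im := by rw [hL2im]; ring
      rw [this, abs_mul, abs_mul, abs_of_pos (by norm_num : (0 : ℝ) < 2)]
    have h2 : |(ξ ^ 2 * L1).re - L2.im| ≤ (1 + B ^ 2) * w := by
      refine le_trans (abs_sub _ _) ?_
      have := le_trans (Complex.abs_re_le_norm (ξ ^ 2 * L1)) hξL
      linarith
    rw [hK1, div_mul_eq_mul_div, le_div_iff₀ (by positivity)]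
    calc |β.im| * (2 * |D.e|) = 2 * |D.e| * |β.im| := by ring
      _ ≤ _ := by rw [h1]; exact h2
  have hbn : ‖b‖ ≤ 2 * K1 * w := by
    have h1 := Complex.norm_le_abs_re_add_abs_im b
    rw [hbre, abs_zero, zero_add, hbim, abs_mul] at h1
    have h2 : |(-2 : ℝ)| = 2 := by norm_num
    rw [h2] at h1
    linarith
  have han : ‖a‖ ≤ K2 * w := by
    have h1 : a * η ^ 2 = L1 - b * ξ := by rw [hL1]; ring
    have h2 : ‖a‖ * ‖η‖ ^ 2 = ‖L1 - b * ξ‖ := by rw [← h1, norm_mul, norm_pow]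
    have h3 : ‖L1 - b * ξ‖ ≤ w + 2 * K1 * w * B := by
      refine le_trans (norm_sub_le _ _) ?_
      rw [norm_mul]
      exact add_le_add hL1w (mul_le_mul hbn hξ (norm_nonneg _) (by positivity))
    have h4 : m ^ 2 ≤ ‖η‖ ^ 2 := pow_le_pow_left₀ hm.le hη' 2
    rw [hK2, div_mul_eq_mul_div, le_div_iff₀ (by positivity)]
    calc ‖a‖ * m ^ 2 ≤ ‖a‖ * ‖η‖ ^ 2 := mul_le_mul_of_nonneg_left h4 (norm_nonneg _)
      _ ≤ w + 2 * K1 * w * B := by rw [h2]; exact h3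
      _ = _ := by ring
  have hare : a.re = D.T * β.re := by
    rw [ha]
    simp
  have haim : a.im = -2 * α.im - D.T * β.im := by
    rw [ha]
    simp
    ring
  have hβre : |β.re| ≤ K2 / D.T * w := by
    have h1 : D.T * |β.re| = |a.re| := by rw [hare, abs_mul, abs_of_pos hT']
    have h2 := le_trans (Complex.abs_re_le_norm a) han
    rw [div_mul_eq_mul_div, le_div_iff₀ hT']
    calc |β.re| * D.T = D.T * |β.re| := by ring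
      _ ≤ _ := by rw [h1]; exact h2
  have hαim : |α.im| ≤ K3 * w := by
    have h1 : α.im = -(a.im + D.T * β.im) / 2 := by rw [haim]; ring
    have h2 := le_trans (Complex.abs_im_le_norm a) han
    have h3 : |a.im + D.T * β.im| ≤ K2 * w + D.T * (K1 * w) := by
      refine le_trans (abs_add_le _ _) ?_
      rw [abs_mul, abs_of_pos hT']
      exact add_le_add h2 (mul_le_mul_of_nonneg_left hβim hT'.le)
    have h4 : |α.im| = |a.im + D.T * β.im| / 2 := by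
      rw [h1, abs_div, abs_neg, abs_of_pos (by norm_num : (0 : ℝ) < 2)]
    rw [h4, hK3]
    have h5 : 0 ≤ K2 * w + D.T * (K1 * w) := by positivity
    calc |a.im + D.T * β.im| / 2 ≤ (K2 * w + D.T * (K1 * w)) / 2 := by linarith
      _ ≤ K2 * w + D.T * (K1 * w) := by linarith
      _ = _ := by ring
  have hβn : ‖β‖ ≤ K4 * w := by
    refine le_trans (Complex.norm_le_abs_re_add_abs_im β) ?_
    rw [hK4, add_mul]
    exact add_le_add hβre hβim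
  obtain ⟨γ, hγ⟩ : ∃ γ, γ = β * ξ / η ^ 2 := ⟨_, rfl⟩
  have hα' : α = ρ * Complex.I - γ := by
    rw [hγ]
    have hη2 : η ^ 2 ≠ 0 := pow_ne_zero _ hηne
    rw [eq_sub_iff_add_eq]
    apply mul_right_cancel₀ hη2
    rw [add_mul, div_mul_cancel₀ _ hη2, c1]
    ring
  have hγn : ‖γ‖ ≤ K4 * B / m ^ 2 * w := by
    rw [hγ, norm_div, norm_mul, norm_pow]
    have h4 : m ^ 2 ≤ ‖η‖ ^ 2 := pow_le_pow_left₀ hm.le hη' 2
    have h5 : ‖β‖ * ‖ξ‖ ≤ K4 * w * B := mul_le_mul hβn hξ (norm_nonneg _) (by positivity)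
    calc ‖β‖ * ‖ξ‖ / ‖η‖ ^ 2 ≤ K4 * w * B / m ^ 2 :=
          div_le_div₀ (by positivity) h5 (by positivity) h4
      _ = _ := by ring
  have hρ : |ρ| ≤ K5 * w := by
    have h1 : ρ = α.im + γ.im := by
      rw [hα']
      simp
    have h2 : |ρ| ≤ |α.im| + |γ.im| := by
      conv_lhs => rw [h1]
      exact abs_add_le _ _
    have h3 := le_trans (Complex.abs_im_le_norm γ) hγn
    rw [hK5, add_mul]
    linarith
  have hαn : ‖α‖ ≤ K6 * w := by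
    have h1 : ‖α‖ ≤ |ρ| + ‖γ‖ := by
      rw [hα']
      refine le_trans (norm_sub_le _ _) ?_
      rw [norm_mul, Complex.norm_I, mul_one, Complex.norm_real, Real.norm_eq_abs]
    rw [hK6, add_mul]
    linarith
  have hσ : ‖σ‖ ≤ (K6 * B ^ 2 + K4 * B) * w := by
    rw [← c2]
    refine le_trans (norm_add_le _ _) ?_
    rw [norm_mul, norm_mul, norm_pow]
    have e1 : ‖α‖ * ‖ξ‖ ^ 2 ≤ K6 * w * B ^ 2 :=
      mul_le_mul hαn (pow_le_pow_left₀ (norm_nonneg _) hξ 2) (by positivity) (by positivity)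
    have e2 : ‖β‖ * ‖η‖ ≤ K4 * w * B := mul_le_mul hβn hη (norm_nonneg _) (by positivity)
    calc _ ≤ K6 * w * B ^ 2 + K4 * w * B := add_le_add e1 e2
      _ = _ := by ring
  rw [div_mul_eq_mul_div, one_mul, div_le_iff₀ p7]
  calc |ρ| + ‖σ‖ ≤ K5 * w + (K6 * B ^ 2 + K4 * B) * w := add_le_add hρ hσ
    _ = w * K7 := by rw [hK7]; ring


end Pool.Agent.H763.Hen
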