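import Pool.Agent.H763.HenCmp
import Pool.Agent.H763.HenNear

set_option autoImplicit false

namespace Pool.Agent.H763.Hen

open Filter Topology Complex

















theorem mv_aux (g : ℝ → ℂ) (g' : ℝ → ℂ) (K : ℝ)
    (hg : ∀ t ∈ Set.Icc (0:ℝ) 1, HasDerivAt g (g' t) t)
    (hb : ∀ t ∈ Set.Icc (0:ℝ) 1, ‖g' t‖ ≤ K) : ‖g 1 - g 0‖ ≤ K := by
  have h := norm_image_sub_le_of_norm_deriv_le_segment_01' (f := g) (f' := g') (C := K)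
    (fun t ht => (hg t ht).hasDerivWithinAt) (fun t ht => hb t ⟨ht.1, ht.2.le⟩)
  exact h

theorem nu_le (D : OdeData) (B : ℝ) (s : ℝ) (hη : ‖D.η s‖ ≤ B) : ‖nu D s‖ ≤ B ^ 2 := by
  unfold nu
  rw [norm_mul, norm_pow, Complex.norm_I, one_mul]
  exact pow_le_pow_left₀ (norm_nonneg _) hη 2

theorem F_est (D : OdeData) : ∃ C ε0 : ℝ, 0 < C ∧ 0 < ε0 ∧
    ∀ (M : ℕ) (h : ℝ), 1 ≤ M → h = 2 * D.T / (2 * M + 1) → h ≤ ε0 → ∀ (s ρ : ℝ) (σ : ℂ),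
    |ρ| ≤ ε0 → ‖σ‖ ≤ ε0 →
    ‖F1 D h (2 * M + 1) s ρ σ - F1 D h (2 * M + 1) s 0 0 - Lam1 D s ρ σ‖
      ≤ C * (h + |ρ| + ‖σ‖) * (|ρ| + ‖σ‖) ∧
    ‖F2 D h (2 * M + 1) s ρ σ - F2 D h (2 * M + 1) s 0 0 - Lam2 D s ρ σ‖
      ≤ C * (h + |ρ| + ‖σ‖) * (|ρ| + ‖σ‖) ∧
    ‖F1 D h (2 * M + 1) s 0 0‖ ≤ C * h ∧ ‖F2 D h (2 * M + 1) s 0 0‖ ≤ C * h := by
  obtain ⟨B, m, hB1, hm, hBm⟩ := ode_bounds D
  have hB : ∀ t, ‖D.ξ t‖ ≤ B ∧ ‖D.η t‖ ≤ B := fun t => ⟨(hBm t).1, (hBm t).2.1⟩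
  obtain ⟨Cc, hCc1, hcomp⟩ := comparison D B hB
  obtain ⟨Cn, hCn, hnear⟩ := near_lam D
  have hB0 : 0 < B := by linarith
  have hB2 : 1 ≤ B ^ 2 := one_le_pow₀ hB1
  have hCc0 : 0 < Cc := by linarith
  refine ⟨Cn * Cc * B ^ 2 + Cc * B ^ 2, 1 / (3 * B ^ 2 * Cc), by positivity, by positivity, ?_⟩
  intro M h hM hh hhε s ρ σ hρ hσ
  have hT := D.hT
  have hh0 : 0 < h := by rw [hh]; positivity
  have hν : ‖nu D s‖ ≤ B ^ 2 := nu_le D B s (hB s).2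
  have hε : (1 / (3 * B ^ 2 * Cc)) * (3 * B ^ 2 * Cc) = 1 := by
    field_simp
  set ε := 1 / (3 * B ^ 2 * Cc) with hεdef
  have hε0 : 0 < ε := by positivity
  -- smallness
  have hsmall : ∀ t ∈ Set.Icc (0:ℝ) 1, Cc * (h + ‖((t * ρ : ℝ) : ℂ) * nu D s‖ + ‖(t : ℂ) * σ‖) ≤
      Cc * B ^ 2 * (h + |ρ| + ‖σ‖) := by
    intro t ht
    have h1 : ‖((t * ρ : ℝ) : ℂ) * nu D s‖ ≤ B ^ 2 * |ρ| := by
      rw [norm_mul, Complex.norm_real, Real.norm_eq_abs, abs_mul, abs_of_nonneg ht.1]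
      have : t * |ρ| ≤ 1 * |ρ| := mul_le_mul_of_nonneg_right ht.2 (abs_nonneg _)
      calc t * |ρ| * ‖nu D s‖ ≤ (1 * |ρ|) * B ^ 2 := by
            apply mul_le_mul this hν (norm_nonneg _) (by positivity)
        _ = B ^ 2 * |ρ| := by ring
    have h2 : ‖(t : ℂ) * σ‖ ≤ B ^ 2 * ‖σ‖ := by
      rw [norm_mul, Complex.norm_real, Real.norm_eq_abs, abs_of_nonneg ht.1]
      have : t ≤ B ^ 2 := ht.2.trans hB2
      exact mul_le_mul_of_nonneg_right this (norm_nonneg _)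
    have h3 : h ≤ B ^ 2 * h := by nlinarith
    have : h + ‖((t * ρ : ℝ) : ℂ) * nu D s‖ + ‖(t : ℂ) * σ‖ ≤ B ^ 2 * (h + |ρ| + ‖σ‖) := by
      linarith
    calc _ ≤ Cc * (B ^ 2 * (h + |ρ| + ‖σ‖)) := mul_le_mul_of_nonneg_left this hCc0.le
      _ = _ := by ring
  have hone : Cc * B ^ 2 * (h + |ρ| + ‖σ‖) ≤ 1 := by
    have : h + |ρ| + ‖σ‖ ≤ 3 * ε := by linarith
    calc Cc * B ^ 2 * (h + |ρ| + ‖σ‖) ≤ Cc * B ^ 2 * (3 * ε) :=
          mul_le_mul_of_nonneg_left this (by positivity)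
      _ = ε * (3 * B ^ 2 * Cc) := by ring
      _ = 1 := hε
  -- comparison along the segment
  have hcmp : ∀ t ∈ Set.Icc (0:ℝ) 1,
      Near D s (Cc * (h + ‖((t * ρ : ℝ) : ℂ) * nu D s‖ + ‖(t : ℂ) * σ‖))
        (JA h (D.ξ s + ((t * ρ : ℝ) : ℂ) * nu D s) (D.η s + (t : ℂ) * σ) (2 * M + 1)) := by
    intro t ht
    exact (hcomp M s (((t * ρ : ℝ) : ℂ) * nu D s) ((t : ℂ) * σ) h hM hh
      ((hsmall t ht).trans hone)).2.2.2
  have hcmp0 := hcomp M s 0 0 h hM hh (by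
    have := hsmall 0 ⟨le_refl _, zero_le_one⟩
    simp only [zero_mul, Complex.ofReal_zero, norm_zero] at this ⊢
    exact this.trans hone)
  -- derivatives
  have hda : ∀ t : ℝ, HasDerivAt (fun t : ℝ => D.ξ s + ((t * ρ : ℝ) : ℂ) * nu D s)
      ((ρ : ℂ) * nu D s) t := by
    intro t
    have h1 : HasDerivAt (fun t : ℝ => ((t * ρ : ℝ) : ℂ)) ((1 * ρ : ℝ) : ℂ) t :=
      ((hasDerivAt_id t).mul_const ρ).ofReal_comp
    have h2 := (h1.mul_const (nu D s)).const_add (D.ξ s)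
    rw [one_mul] at h2
    exact h2
  have hdb : ∀ t : ℝ, HasDerivAt (fun t : ℝ => D.η s + (t : ℂ) * σ) σ t := by
    intro t
    have h1 : HasDerivAt (fun t : ℝ => (t : ℂ)) ((1 : ℝ) : ℂ) t := (hasDerivAt_id t).ofReal_comp
    have h2 := (h1.mul_const σ).const_add (D.η s)
    rw [Complex.ofReal_one, one_mul] at h2
    exact h2
  have hκ : ∀ t ∈ Set.Icc (0:ℝ) 1,
      Cn * (Cc * (h + ‖((t * ρ : ℝ) : ℂ) * nu D s‖ + ‖(t : ℂ) * σ‖)) * (|ρ| + ‖σ‖) ≤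
      (Cn * Cc * B ^ 2 + Cc * B ^ 2) * (h + |ρ| + ‖σ‖) * (|ρ| + ‖σ‖) := by
    intro t ht
    apply mul_le_mul_of_nonneg_right _ (by positivity)
    calc Cn * (Cc * (h + ‖((t * ρ : ℝ) : ℂ) * nu D s‖ + ‖(t : ℂ) * σ‖))
        ≤ Cn * (Cc * B ^ 2 * (h + |ρ| + ‖σ‖)) := mul_le_mul_of_nonneg_left (hsmall t ht) hCn.le
      _ ≤ _ := by
        have : 0 ≤ Cc * B ^ 2 * (h + |ρ| + ‖σ‖) := by positivity
        nlinarith
  refine ⟨?_, ?_, ?_, ?_⟩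
  · have key := mv_aux
      (fun t : ℝ => (starRingEnd ℂ) (ys h (D.ξ s + ((t * ρ : ℝ) : ℂ) * nu D s) (D.η s + (t : ℂ) * σ) (2 * M + 1))
        - (D.ξ s + ((t * ρ : ℝ) : ℂ) * nu D s) - (t : ℂ) * Lam1 D s ρ σ)
      (fun t : ℝ => (starRingEnd ℂ) (ds h (D.ξ s + ((t * ρ : ℝ) : ℂ) * nu D s) (D.η s + (t : ℂ) * σ)
        ((ρ : ℂ) * nu D s) σ (2 * M + 1)) - (ρ : ℂ) * nu D s - Lam1 D s ρ σ)
      ((Cn * Cc * B ^ 2 + Cc * B ^ 2) * (h + |ρ| + ‖σ‖) * (|ρ| + ‖σ‖))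
      (by
        intro t ht
        have h1 := (hasDerivAt_ys (h := h) (hda t) (hdb t) (2 * M + 1)).star
        have h3 : HasDerivAt (fun t : ℝ => (t : ℂ) * Lam1 D s ρ σ) (Lam1 D s ρ σ) t := by
          have h1 : HasDerivAt (fun t : ℝ => (t : ℂ)) ((1 : ℝ) : ℂ) t :=
            (hasDerivAt_id t).ofReal_comp
          have h2 := (h1.mul_const (Lam1 D s ρ σ))
          rw [Complex.ofReal_one, one_mul] at h2
          exact h2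
        exact (h1.sub (hda t)).sub h3)
      (by
        intro t ht
        rw [(ds_eq h _ _ _ _ (2 * M + 1)).1]
        exact ((hnear s _ _ (hcmp t ht) ρ σ).1).trans (hκ t ht))
    have e : (F1 D h (2 * M + 1) s ρ σ - F1 D h (2 * M + 1) s 0 0 - Lam1 D s ρ σ) =
        ((starRingEnd ℂ) (ys h (D.ξ s + (((1:ℝ) * ρ : ℝ) : ℂ) * nu D s) (D.η s + ((1:ℝ) : ℂ) * σ) (2 * M + 1))
        - (D.ξ s + (((1:ℝ) * ρ : ℝ) : ℂ) * nu D s) - ((1:ℝ) : ℂ) * Lam1 D s ρ σ) -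
        ((starRingEnd ℂ) (ys h (D.ξ s + (((0:ℝ) * ρ : ℝ) : ℂ) * nu D s) (D.η s + ((0:ℝ) : ℂ) * σ) (2 * M + 1))
        - (D.ξ s + (((0:ℝ) * ρ : ℝ) : ℂ) * nu D s) - ((0:ℝ) : ℂ) * Lam1 D s ρ σ) := by
      simp only [F1, one_mul, zero_mul, Complex.ofReal_one, Complex.ofReal_zero, add_zero]
      ring
    rw [e]
    exact key
  · have key := mv_aux
      (fun t : ℝ => ((starRingEnd ℂ) (ys h (D.ξ s + ((t * ρ : ℝ) : ℂ) * nu D s) (D.η s + (t : ℂ) * σ)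
          (2 * M + 1 + 1)) - (D.η s + (t : ℂ) * σ)) * nu D s - (t : ℂ) * Lam2 D s ρ σ)
      (fun t : ℝ => ((starRingEnd ℂ) (ds h (D.ξ s + ((t * ρ : ℝ) : ℂ) * nu D s) (D.η s + (t : ℂ) * σ)
        ((ρ : ℂ) * nu D s) σ (2 * M + 1 + 1)) - σ) * nu D s - Lam2 D s ρ σ)
      ((Cn * Cc * B ^ 2 + Cc * B ^ 2) * (h + |ρ| + ‖σ‖) * (|ρ| + ‖σ‖))
      (by
        intro t ht
        have h1 := (hasDerivAt_ys (h := h) (hda t) (hdb t) (2 * M + 1 + 1)).star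
        have h3 : HasDerivAt (fun t : ℝ => (t : ℂ) * Lam2 D s ρ σ) (Lam2 D s ρ σ) t := by
          have h1 : HasDerivAt (fun t : ℝ => (t : ℂ)) ((1 : ℝ) : ℂ) t :=
            (hasDerivAt_id t).ofReal_comp
          have h2 := (h1.mul_const (Lam2 D s ρ σ))
          rw [Complex.ofReal_one, one_mul] at h2
          exact h2
        exact ((h1.sub (hdb t)).mul_const (nu D s)).sub h3)
      (by
        intro t ht
        rw [(ds_eq h _ _ _ _ (2 * M + 1)).2]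
        exact ((hnear s _ _ (hcmp t ht) ρ σ).2).trans (hκ t ht))
    have e : (F2 D h (2 * M + 1) s ρ σ - F2 D h (2 * M + 1) s 0 0 - Lam2 D s ρ σ) =
        (((starRingEnd ℂ) (ys h (D.ξ s + (((1:ℝ) * ρ : ℝ) : ℂ) * nu D s) (D.η s + ((1:ℝ) : ℂ) * σ)
          (2 * M + 1 + 1)) - (D.η s + ((1:ℝ) : ℂ) * σ)) * nu D s
          - ((1:ℝ) : ℂ) * Lam2 D s ρ σ) -
        (((starRingEnd ℂ) (ys h (D.ξ s + (((0:ℝ) * ρ : ℝ) : ℂ) * nu D s) (D.η s + ((0:ℝ) : ℂ) * σ)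
          (2 * M + 1 + 1)) - (D.η s + ((0:ℝ) : ℂ) * σ)) * nu D s
          - ((0:ℝ) : ℂ) * Lam2 D s ρ σ) := by
      simp only [F2, one_mul, zero_mul, Complex.ofReal_one, Complex.ofReal_zero, add_zero]
      ring
    rw [e]
    exact key
  · have := hcmp0.2.1
    simp only [norm_zero, add_zero] at this
    have e : F1 D h (2 * M + 1) s 0 0 = (starRingEnd ℂ) (ys h (D.ξ s) (D.η s) (2 * M + 1)) - D.ξ s := by
      simp only [F1, Complex.ofReal_zero, zero_mul, add_zero]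
    rw [e]
    refine this.trans ?_
    apply mul_le_mul_of_nonneg_right _ hh0.le
    have : 0 ≤ Cn * Cc * B ^ 2 := by positivity
    nlinarith
  · have := hcmp0.2.2.1
    simp only [norm_zero, add_zero] at this
    have e : F2 D h (2 * M + 1) s 0 0 =
        ((starRingEnd ℂ) (ys h (D.ξ s) (D.η s) (2 * M + 2)) - D.η s) * nu D s := by
      simp only [F2, Complex.ofReal_zero, zero_mul, add_zero]
    rw [e, norm_mul]
    calc ‖(starRingEnd ℂ) (ys h (D.ξ s) (D.η s) (2 * M + 2)) - D.η s‖ * ‖nu D s‖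
        ≤ (Cc * h) * B ^ 2 := mul_le_mul this hν (norm_nonneg _) (by positivity)
      _ ≤ _ := by
        have : 0 ≤ Cn * Cc * B ^ 2 * h := by positivity
        nlinarith


end Pool.Agent.H763.Hen
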