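import Pool.Agent.H763.HenCore
import Pool.Agent.H763.HenArith

set_option autoImplicit false

namespace Pool.Agent.H763.Hen

open Filter Topology Complex Polynomial


/-! ### eigenvalues of two by two matrices -/

theorem exists_eig (A : Matrix (Fin 2) (Fin 2) ℂ) : ∃ l1 l2 : ℂ, l1 + l2 = A.trace ∧
    l1 * l2 = A.det := by
  obtain ⟨s, hs⟩ := IsAlgClosed.exists_pow_nat_eq (A.trace ^ 2 - 4 * A.det) (n := 2) (by norm_num)
  refine ⟨(A.trace + s) / 2, (A.trace - s) / 2, by ring, ?_⟩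
  linear_combination (-1 / 4 : ℂ) * hs

theorem trace_pow_eig (A : Matrix (Fin 2) (Fin 2) ℂ) (l1 l2 : ℂ) (h1 : l1 + l2 = A.trace)
    (h2 : l1 * l2 = A.det) (q : ℕ) : (A ^ q).trace = l1 ^ q + l2 ^ q := by
  have hCH : A ^ 2 = A.trace • A - A.det • (1 : Matrix (Fin 2) (Fin 2) ℂ) := by
    ext i j
    fin_cases i <;> fin_cases j <;>
      simp [pow_two, Matrix.mul_apply, Fin.sum_univ_two, Matrix.trace, Matrix.det_fin_two] <;> ring
  have key : ∀ q : ℕ, (A ^ q).trace = l1 ^ q + l2 ^ q ∧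
      (A ^ (q + 1)).trace = l1 ^ (q + 1) + l2 ^ (q + 1) := by
    intro q
    induction q with
    | zero => simp [h1]; norm_num
    | succ q ih =>
      refine ⟨ih.2, ?_⟩
      have e : A ^ (q + 1 + 1) = A ^ q * A ^ 2 := by rw [← pow_add]
      rw [e, hCH, mul_sub, Matrix.trace_sub, mul_smul_comm, mul_smul_comm, ← pow_succ,
        Matrix.trace_smul, Matrix.trace_smul, mul_one, ih.1, ih.2, ← h1, ← h2]
      simp only [smul_eq_mul]
      ring
  exact (key q).1

/-- trace above two means saddle -/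
theorem saddle_of_trace (l1 l2 : ℂ) (q : ℕ) (t : ℝ) (hn : ‖l1 * l2‖ = 1)
    (ht : l1 ^ q + l2 ^ q = t) (h2 : 2 < t) :
    (‖l1‖ < 1 ∧ 1 < ‖l2‖) ∨ (‖l2‖ < 1 ∧ 1 < ‖l1‖) := by
  rw [norm_mul] at hn
  have h10 : 0 < ‖l1‖ := by
    rcases (norm_nonneg l1).lt_or_eq with h | h
    · exact h
    · rw [← h, zero_mul] at hn; norm_num at hn
  rcases lt_trichotomy ‖l1‖ 1 with h | h | h
  · left
    refine ⟨h, ?_⟩
    by_contra hcon
    push Not at hcon
    have : ‖l1‖ * ‖l2‖ < 1 := by nlinarith [norm_nonneg l2]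
    linarith
  · exfalso
    have hl2 : ‖l2‖ = 1 := by rw [h, one_mul] at hn; exact hn
    have h3 : ‖(t : ℂ)‖ ≤ 2 := by
      rw [← ht]
      calc ‖l1 ^ q + l2 ^ q‖ ≤ ‖l1 ^ q‖ + ‖l2 ^ q‖ := norm_add_le _ _
        _ = 2 := by rw [norm_pow, norm_pow, h, hl2]; norm_num
    rw [Complex.norm_real, Real.norm_eq_abs] at h3
    linarith [le_abs_self t]
  · right
    refine ⟨?_, h⟩
    by_contra hcon
    push Not at hcon
    have : 1 < ‖l1‖ * ‖l2‖ := by nlinarith
    linarith

/-- trace in `[-2,2]` means elliptic -/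
theorem elliptic_of_trace (l1 l2 : ℂ) (q : ℕ) (hq : 0 < q) (t : ℝ) (hn : ‖l1 * l2‖ = 1)
    (hp : (l1 * l2) ^ q = 1) (ht : l1 ^ q + l2 ^ q = t) (h2 : t ≤ 2) (h3 : -2 ≤ t) :
    ‖l1‖ = 1 ∧ ‖l2‖ = 1 := by
  obtain ⟨a, ha⟩ : ∃ a, a = l1 ^ q := ⟨_, rfl⟩
  obtain ⟨b, hb⟩ : ∃ b, b = l2 ^ q := ⟨_, rfl⟩
  rw [mul_pow, ← ha, ← hb] at hp
  rw [← ha, ← hb] at ht
  have hbt : b = t - a := by linear_combination ht
  rw [hbt] at hp
  -- a (t - a) = 1
  have hre : a.re * (t - a.re) + a.im ^ 2 = 1 := by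
    have := congrArg Complex.re hp
    simp [Complex.mul_re] at this
    linarith
  have him : a.im * (t - 2 * a.re) = 0 := by
    have := congrArg Complex.im hp
    simp [Complex.mul_im] at this
    linarith
  have hna : ‖a‖ = 1 := by
    have h5 : a.re ^ 2 + a.im ^ 2 = 1 := by
      rcases mul_eq_zero.mp him with h | h
      · rw [h] at hre ⊢
        rcases le_or_gt 0 a.re with hx | hx
        · have h8 : t * a.re ≤ 2 * a.re := by nlinarith
          have h9 : (a.re - 1) ^ 2 ≤ 0 := by nlinarith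
          have h10 : a.re - 1 = 0 := by
            have := sq_nonneg (a.re - 1)
            exact pow_eq_zero_iff (two_ne_zero) |>.mp (le_antisymm h9 this)
          have h11 : a.re = 1 := by linarith
          rw [h11]; norm_num
        · have h8 : t * a.re ≤ -2 * a.re := by nlinarith
          have h9 : (a.re + 1) ^ 2 ≤ 0 := by nlinarith
          have h10 : a.re + 1 = 0 := by
            have := sq_nonneg (a.re + 1)
            exact pow_eq_zero_iff (two_ne_zero) |>.mp (le_antisymm h9 this)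
          have h11 : a.re = -1 := by linarith
          rw [h11]; norm_num
      · have : t = 2 * a.re := by linarith
        rw [this] at hre
        nlinarith
    have h6 : ‖a‖ ^ 2 = 1 := by
      rw [← Complex.normSq_eq_norm_sq, Complex.normSq_apply]; nlinarith
    have h7 := norm_nonneg a
    nlinarith
  have h1 : ‖l1‖ = 1 := by
    rw [ha, norm_pow] at hna
    exact (pow_eq_one_iff_of_nonneg (norm_nonneg _) hq.ne').mp hna
  refine ⟨h1, ?_⟩
  rw [norm_mul, h1, one_mul] at hn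
  exact hn

end Pool.Agent.H763.Hen
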