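import Pool.Agent.H763.HenFin

set_option autoImplicit false

namespace Pool.Agent.H763.Hen

open Filter Topology Complex Polynomial


/-- the linear map of `ℂ × ℂ` with matrix `A` -/
noncomputable def Lm (A : Matrix (Fin 2) (Fin 2) ℂ) : ℂ × ℂ →L[ℂ] ℂ × ℂ :=
  (A 0 0 • ContinuousLinearMap.fst ℂ ℂ ℂ + A 0 1 • ContinuousLinearMap.snd ℂ ℂ ℂ).prod
    (A 1 0 • ContinuousLinearMap.fst ℂ ℂ ℂ + A 1 1 • ContinuousLinearMap.snd ℂ ℂ ℂ)

theorem Lm_apply (A : Matrix (Fin 2) (Fin 2) ℂ) (u v : ℂ) :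
    Lm A (u, v) = (A 0 0 * u + A 0 1 * v, A 1 0 * u + A 1 1 * v) := by
  simp [Lm]

theorem Lm_mul (A B : Matrix (Fin 2) (Fin 2) ℂ) : Lm (A * B) = (Lm A).comp (Lm B) := by
  ext <;> simp [Lm, Matrix.mul_apply, Fin.sum_univ_two]

theorem Lm_charpoly (A : Matrix (Fin 2) (Fin 2) ℂ) (l1 l2 : ℂ) (h1 : l1 + l2 = A.trace)
    (h2 : l1 * l2 = A.det) :
    LinearMap.charpoly (Lm A : ℂ × ℂ →ₗ[ℂ] ℂ × ℂ) = (X - C l1) * (X - C l2) := by
  have hA : LinearMap.toMatrix (Module.Basis.finTwoProd ℂ) (Module.Basis.finTwoProd ℂ)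
      (Lm A : ℂ × ℂ →ₗ[ℂ] ℂ × ℂ) = A := by
    ext i j
    rw [LinearMap.toMatrix_apply]
    fin_cases i <;> fin_cases j <;> simp [Lm]
  rw [← LinearMap.charpoly_toMatrix _ (Module.Basis.finTwoProd ℂ), hA, Matrix.charpoly_fin_two,
    ← h1, ← h2]
  simp only [map_add, map_mul]
  ring

section
variable (H : ℂ × ℂ → ℂ × ℂ) (hH : ∀ p, H p = (p.2, p.1 + p.2 ^ 2))
  (z : ℕ → ℂ) (hz : ∀ k, z (k + 2) = z k + z (k + 1) ^ 2)
include hH hz

theorem iter_eq (k : ℕ) : H^[k] (z 0, z 1) = (z k, z (k + 1)) := by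
  induction k with
  | zero => rfl
  | succ k ih =>
    rw [Function.iterate_succ_apply', ih, hH]
    simp only
    rw [hz]

theorem hasFDerivAt_iter (n : ℕ) : HasFDerivAt (H^[n]) (Lm (mp z n)) (z 0, z 1) := by
  induction n with
  | zero =>
    have : Lm (mp z 0) = ContinuousLinearMap.id ℂ (ℂ × ℂ) := by
      ext <;> simp [Lm, mp]
    rw [this]
    exact hasFDerivAt_id _
  | succ n ih =>
    have h1 : HasFDerivAt H (Lm (stp (z (n + 1)))) (H^[n] (z 0, z 1)) := by
      rw [iter_eq H hH z hz]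
      have hHe : H = fun p => (p.2, p.1 + p.2 ^ 2) := funext hH
      rw [hHe]
      have h2 : HasFDerivAt (fun p : ℂ × ℂ => p.2) (ContinuousLinearMap.snd ℂ ℂ ℂ)
        (z n, z (n + 1)) := hasFDerivAt_snd
      have h3 : HasFDerivAt (fun p : ℂ × ℂ => p.1) (ContinuousLinearMap.fst ℂ ℂ ℂ)
        (z n, z (n + 1)) := hasFDerivAt_fst
      have h4 := h2.prodMk (h3.add (h2.pow 2))
      refine h4.congr_fderiv ?_
      ext <;> simp [Lm, stp]
    have h5 := h1.comp (z 0, z 1) ih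
    rw [mp, Lm_mul]
    have e : H^[n + 1] = H ∘ H^[n] := Function.iterate_succ' H n
    rw [e]
    exact h5

end

theorem mp_add (z : ℕ → ℂ) (m n : ℕ) : mp z (m + n) = mp (fun k => z (m + k)) n * mp z m := by
  induction n with
  | zero => simp [mp]
  | succ n ih =>
    rw [← add_assoc, mp, ih, mp, Matrix.mul_assoc]
    rfl

theorem mp_pow (z : ℕ → ℂ) (n : ℕ) (hper : ∀ k, z (n + k) = z k) (q : ℕ) :
    mp z (n * q) = mp z n ^ q := by
  induction q with
  | zero => simp [mp]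
  | succ q ih =>
    have hp : ∀ q k, z (n * q + k) = z k := by
      intro q
      induction q with
      | zero => intro k; simp
      | succ q ihq => intro k; rw [mul_add, mul_one, add_comm (n * q) n, add_assoc, hper, ihq]
    rw [mul_add, mul_one, mp_add, ih, pow_succ']
    congr 1
    have : (fun k => z (n * q + k)) = z := funext (hp q)
    rw [this]

theorem det_mp (z : ℕ → ℂ) (n : ℕ) : (mp z n).det = (-1) ^ n := by
  induction n with
  | zero => simp [mp]
  | succ n ih =>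
    rw [mp, Matrix.det_mul, ih, pow_succ']
    congr 1
    simp [stp, Matrix.det_fin_two]

theorem mp_conj (z : ℕ → ℂ) (n : ℕ) : mp (fun k => (starRingEnd ℂ) (z k)) n = (mp z n).map (starRingEnd ℂ) := by
  induction n with
  | zero => simp [mp]
  | succ n ih =>
    rw [mp, mp, ih, Matrix.map_mul]
    congr 1
    have h2 : (starRingEnd ℂ) (2 : ℂ) = 2 := Complex.conj_ofNat 2
    ext i j
    fin_cases i <;> fin_cases j <;> simp [stp, h2]

end Pool.Agent.H763.Hen
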