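import Mathlib

set_option autoImplicit false

namespace Pool.Agent.H763.Hen


open Finset

section Key2

variable {L : Type} [Field L] [CharP L 2]

omit [CharP L 2] in
theorem k2_shift {N : ℕ} (f : ℕ → L) (h : ∀ i, f (i + N) = f i) :
    ∑ i ∈ range N, f (i + 1) = ∑ i ∈ range N, f i := by
  have h1 := Finset.sum_range_succ f N
  have h2 := Finset.sum_range_succ' f N
  have h3 := h 0
  rw [zero_add] at h3
  rw [h1, h3] at h2
  exact (add_right_cancel h2).symm

theorem k2_shifts {N : ℕ} (f : ℕ → L) (h : ∀ i, f (i + N) = f i) (m : ℕ) :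
    ∑ i ∈ range N, f (i + m) = ∑ i ∈ range N, f i := by
  induction m with
  | zero => rfl
  | succ m ih =>
    rw [← ih, ← k2_shift (fun i => f (i + m)) (fun i => by
      rw [show i + N + m = i + m + N by ring, h])]
    apply sum_congr rfl
    intro i _
    congr 1
    ring

/-- correlation -/
def k2C (N : ℕ) (a : ℕ → L) (r : ℕ) : L := ∑ i ∈ range N, a i * a (i + r)

theorem k2_corr {N : ℕ} (d : ℕ → L) (hd : ∀ i, d (i + N) = d i) (r : ℕ) :
    ∑ i ∈ range N, (d (i + 1) + d i) * (d (i + r + 2) + d (i + r + 1)) =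
      k2C N d r + k2C N d (r + 2) := by
  have hs : ∀ m, ∑ i ∈ range N, d (i + 1) * d (i + 1 + m) = k2C N d m := by
    intro m
    exact k2_shift (fun i => d i * d (i + m)) (fun i => by
      rw [hd, show i + N + m = i + m + N by ring, hd])
  have h1 : ∑ i ∈ range N, (d (i + 1) + d i) * (d (i + r + 2) + d (i + r + 1)) =
      ∑ i ∈ range N, d (i + 1) * d (i + 1 + (r + 1)) + ∑ i ∈ range N, d (i + 1) * d (i + 1 + r) +
      ∑ i ∈ range N, d i * d (i + (r + 2)) + ∑ i ∈ range N, d i * d (i + (r + 1)) := by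
    rw [← sum_add_distrib, ← sum_add_distrib, ← sum_add_distrib]
    apply sum_congr rfl
    intro i _
    rw [show i + 1 + (r + 1) = i + r + 2 by ring, show i + 1 + r = i + r + 1 by ring,
      show i + (r + 2) = i + r + 2 by ring, show i + (r + 1) = i + r + 1 by ring]
    ring
  rw [h1, hs, hs]
  have h2 : k2C N d (r + 1) + k2C N d (r + 1) = 0 := CharTwo.add_self_eq_zero _
  change k2C N d (r + 1) + k2C N d r + k2C N d (r + 2) + k2C N d (r + 1) = _
  linear_combination h2

/-- second elementary symmetric polynomial -/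
def k2Q (c : ℕ → L) (n : ℕ) : L := ∑ k ∈ range n, c k * ∑ i ∈ range k, c i

omit [CharP L 2] in
theorem k2Q_succ (c : ℕ → L) (n : ℕ) : k2Q c (n + 1) = k2Q c n + c n * ∑ i ∈ range n, c i := by
  rw [k2Q, sum_range_succ, k2Q]

theorem k2Q_sh (c : ℕ → L) (n : ℕ) :
    k2Q c (n + 1) = k2Q (fun i => c (i + 1)) n + c 0 * ∑ i ∈ range n, c (i + 1) := by
  induction n with
  | zero => simp [k2Q]
  | succ n ih =>
    rw [k2Q_succ, ih, k2Q_succ, sum_range_succ' c n, sum_range_succ]
    ring

theorem k2Q_per {N : ℕ} (c : ℕ → L) (h : ∀ i, c (i + N) = c i) :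
    k2Q (fun i => c (i + 1)) N = k2Q c N := by
  have h1 := k2Q_sh c N
  rw [k2Q_succ, k2_shift c h] at h1
  have h2 := h 0
  rw [zero_add] at h2
  rw [h2] at h1
  exact (add_right_cancel h1).symm

theorem k2Q_add (c d : ℕ → L) (n : ℕ) :
    k2Q (fun i => c i + d i) n + ∑ k ∈ range n, c k * d k =
      k2Q c n + k2Q d n + (∑ i ∈ range n, c i) * ∑ i ∈ range n, d i := by
  induction n with
  | zero => simp [k2Q]
  | succ n ih =>
    rw [k2Q_succ, k2Q_succ, k2Q_succ, sum_range_succ, sum_range_succ, sum_range_succ,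
      sum_add_distrib]
    linear_combination ih

theorem k2_sq (s : Finset ℕ) (f : ℕ → L) : (∑ i ∈ s, f i) ^ 2 = ∑ i ∈ s, f i ^ 2 :=
  sum_pow_char 2 s f

theorem k2Q_sq (c : ℕ → L) (n : ℕ) : k2Q c n ^ 2 = k2Q (fun i => c i ^ 2) n := by
  rw [k2Q, k2_sq, k2Q]
  apply sum_congr rfl
  intro k _
  rw [mul_pow, k2_sq]

/-- Fourier transform -/
def k2H (N : ℕ) (a : ℕ → L) (w : L) : L := ∑ i ∈ range N, a i * w ^ i

theorem k2_alg [IsAlgClosed L] (j : ℕ) (hj : 1 ≤ j) (a b : ℕ → L)
    (hpa : ∀ i, a (i + (4 ^ j + 1)) = a i) (hpb : ∀ i, b (i + (4 ^ j + 1)) = b i)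
    (ha : ∀ i, a (i + 1) ^ 2 = b (i + 1) + b i) (hb : ∀ i, b i ^ 2 = a (i + 1) + a i)
    (hq : ∑ k ∈ Finset.range (4 ^ j + 1), a k * ∑ i ∈ Finset.range k, a i = 0) :
    ∀ i, a i = 0 ∧ b i = 0 := by
  have hodd : Odd (4 ^ j + 1) := by
    have h4 : Even (4 ^ j) := (by decide : Even 4).pow_of_ne_zero (by omega)
    exact h4.add_one
  set N := 4 ^ j + 1 with hN
  have hN0 : N ≠ 0 := by rw [hN]; exact Nat.succ_ne_zero _
  have h2 : ∀ x : L, x + x = 0 := fun x => CharTwo.add_self_eq_zero x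
  -- sums vanish
  have sa : ∑ i ∈ range N, a i = 0 := by
    rw [← k2_shift a hpa]
    have h3 : (∑ i ∈ range N, a (i + 1)) ^ 2 = 0 := by
      rw [k2_sq, sum_congr rfl (fun i _ => ha i), sum_add_distrib, k2_shift b hpb, h2]
    exact pow_eq_zero_iff (two_ne_zero) |>.1 h3
  have sb : ∑ i ∈ range N, b i = 0 := by
    have h3 : (∑ i ∈ range N, b i) ^ 2 = 0 := by
      rw [k2_sq, sum_congr rfl (fun i _ => hb i), sum_add_distrib, k2_shift a hpa, h2]
    exact pow_eq_zero_iff (two_ne_zero) |>.1 h3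
  have ca0 : k2C N a 0 = 0 := by
    have h3 : k2C N a 0 = (∑ i ∈ range N, a i) ^ 2 := by
      rw [k2_sq, k2C]
      exact sum_congr rfl (fun i _ => by rw [add_zero, sq])
    rw [h3, sa]; ring
  have reca : ∀ r, k2C N a (r + 1) ^ 2 = k2C N b r + k2C N b (r + 2) := by
    intro r
    rw [← k2_corr b hpb, k2C, k2_sq, ← k2_shift (fun i => (a i * a (i + (r + 1))) ^ 2) (fun i => by
      rw [hpa, show i + N + (r + 1) = i + (r + 1) + N by ring, hpa])]
    apply sum_congr rfl
    intro i _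
    rw [mul_pow, ha, show i + 1 + (r + 1) = i + r + 1 + 1 by ring, ha]
  have recb : ∀ r, k2C N b (r + 1) ^ 2 = k2C N a r + k2C N a (r + 2) := by
    intro r
    rw [← k2_corr a hpa, k2C, k2_sq]
    apply sum_congr rfl
    intro i _
    rw [mul_pow, hb, hb, show i + (r + 1) + 1 = i + r + 2 by ring,
      show i + (r + 1) = i + r + 1 by ring]
  have cb1 : k2C N b 1 = 0 := by
    have h3 : k2Q (fun i => b (i + 1) + b i) N = 0 := by
      have h4 : k2Q (fun i => a i ^ 2) N = 0 := by
        rw [← k2Q_sq, k2Q, hq]; ring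
      rw [← k2Q_per (fun i => a i ^ 2) (fun i => by rw [hpa])] at h4
      rw [← h4]
      congr 1
      funext i
      exact (ha i).symm
    have h5 := k2Q_add (fun i => b (i + 1)) b N
    rw [h3, k2Q_per b hpb, sb, h2] at h5
    rw [k2C]
    have h6 : ∑ i ∈ range N, b i * b (i + 1) = ∑ k ∈ range N, b (k + 1) * b k :=
      sum_congr rfl (fun i _ => mul_comm _ _)
    rw [h6]
    linear_combination h5
  have hind : ∀ r, k2C N a (2 * r) = 0 ∧ k2C N b (2 * r + 1) = 0 := by
    intro r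
    induction r with
    | zero => exact ⟨ca0, cb1⟩
    | succ r ih =>
      obtain ⟨i1, i2⟩ := ih
      have e1 := recb (2 * r)
      rw [i2, i1] at e1
      have e2 : k2C N a (2 * (r + 1)) = 0 := by
        rw [show 2 * (r + 1) = 2 * r + 2 by ring]
        linear_combination -e1
      have e3 := reca (2 * r + 1)
      rw [show 2 * r + 1 + 1 = 2 * (r + 1) by ring, e2, i2] at e3
      refine ⟨e2, ?_⟩
      rw [show 2 * (r + 1) + 1 = 2 * r + 1 + 2 by ring]
      linear_combination -e3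
  have hper : ∀ r, k2C N a (r + N) = k2C N a r := by
    intro r
    rw [k2C, k2C]
    apply sum_congr rfl
    intro i _
    rw [show i + (r + N) = i + r + N by ring, hpa]
  have hCa : ∀ r, k2C N a r = 0 := by
    intro r
    rcases Nat.even_or_odd r with hr | hr
    · obtain ⟨k, hk⟩ := hr.exists_two_nsmul
      rw [hk, smul_eq_mul]
      exact (hind k).1
    · rw [← hper]
      have : Even (r + N) := hr.add_odd hodd
      obtain ⟨k, hk⟩ := this.exists_two_nsmul
      rw [hk, smul_eq_mul]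
      exact (hind k).1
  -- Fourier
  have hF1 : ∀ w : L, w ^ N = 1 → k2H N a w * k2H N a w⁻¹ = 0 := by
    intro w hw
    have hw0 : w ≠ 0 := by
      rintro rfl
      rw [zero_pow hN0] at hw
      exact zero_ne_one hw
    have hwi : (w⁻¹) ^ N = 1 := by rw [inv_pow, hw, inv_one]
    have e1 : k2H N a w * k2H N a w⁻¹ =
        ∑ i ∈ range N, ∑ r ∈ range N, (w⁻¹) ^ r * (a i * a (i + r)) := by
      rw [k2H, sum_mul]
      apply sum_congr rfl
      intro i _
      have e2 : k2H N a w⁻¹ = ∑ r ∈ range N, a (r + i) * (w⁻¹) ^ (r + i) := by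
        rw [k2_shifts (fun k => a k * (w⁻¹) ^ k) (fun k => by
          rw [hpa, pow_add, hwi, mul_one]) i]
        rfl
      rw [e2, mul_sum]
      apply sum_congr rfl
      intro r _
      rw [pow_add, show r + i = i + r by ring]
      have e3 : w ^ i * (w⁻¹) ^ i = 1 := by rw [← mul_pow, mul_inv_cancel₀ hw0, one_pow]
      linear_combination (a i * a (i + r) * (w⁻¹) ^ r) * e3
    rw [e1, sum_comm]
    apply sum_eq_zero
    intro r _
    rw [← mul_sum]
    have := hCa r
    rw [k2C] at this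
    rw [this, mul_zero]
  have hF2 : ∀ w : L, w ^ N = 1 → k2H N a w ^ 2 = (1 + w ^ 2) * k2H N b (w ^ 2) := by
    intro w hw
    have hw2 : (w ^ 2) ^ N = 1 := by rw [← pow_mul, mul_comm, pow_mul, hw, one_pow]
    rw [k2H, k2_sq, ← k2_shift (fun i => (a i * w ^ i) ^ 2) (fun i => by
      rw [hpa, pow_add, hw, mul_one])]
    have e1 : ∀ i ∈ range N, (a (i + 1) * w ^ (i + 1)) ^ 2 =
        b (i + 1) * (w ^ 2) ^ (i + 1) + w ^ 2 * (b i * (w ^ 2) ^ i) := by
      intro i _
      rw [mul_pow, ha, ← pow_mul, mul_comm (i + 1) 2, pow_mul]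
      ring
    rw [sum_congr rfl e1, sum_add_distrib, ← mul_sum,
      k2_shift (fun i => b i * (w ^ 2) ^ i) (fun i => by
        rw [hpb, pow_add, hw2, mul_one])]
    rw [k2H]
    ring
  have hF3 : ∀ w : L, w ^ N = 1 → w ^ 2 * k2H N b w ^ 2 = (1 + w ^ 2) * k2H N a (w ^ 2) := by
    intro w hw
    have hw2 : (w ^ 2) ^ N = 1 := by rw [← pow_mul, mul_comm, pow_mul, hw, one_pow]
    rw [k2H, k2_sq, mul_sum]
    have e1 : ∀ i ∈ range N, w ^ 2 * (b i * w ^ i) ^ 2 =
        a (i + 1) * (w ^ 2) ^ (i + 1) + w ^ 2 * (a i * (w ^ 2) ^ i) := by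
      intro i _
      rw [mul_pow, hb, ← pow_mul, mul_comm i 2, pow_mul]
      ring
    rw [sum_congr rfl e1, sum_add_distrib, ← mul_sum,
      k2_shift (fun i => a i * (w ^ 2) ^ i) (fun i => by
        rw [hpa, pow_add, hw2, mul_one])]
    rw [k2H]
    ring
  have hne : ∀ w : L, w ^ N = 1 → w ≠ 1 → w ^ 2 ≠ 1 ∧ (1 + w ^ 2) ≠ 0 := by
    intro w hw hw1
    have h3 : w ^ 2 ≠ 1 := by
      intro h
      obtain ⟨k, hk⟩ := hodd
      rw [hk, pow_add, pow_mul, h, one_pow, one_mul, pow_one] at hw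
      exact hw1 hw
    refine ⟨h3, fun h => h3 ?_⟩
    have h4 := h2 (1 : L)
    linear_combination h - h4
  have hstep : ∀ w : L, w ^ N = 1 → w ≠ 1 → k2H N a w = 0 →
      (w ^ 4) ^ N = 1 ∧ w ^ 4 ≠ 1 ∧ k2H N a (w ^ 4) = 0 := by
    intro w hw hw1 h0
    have hw0 : w ≠ 0 := by
      rintro rfl
      rw [zero_pow hN0] at hw
      exact zero_ne_one hw
    have hw2 : (w ^ 2) ^ N = 1 := by rw [← pow_mul, mul_comm, pow_mul, hw, one_pow]
    obtain ⟨n1, n2⟩ := hne w hw hw1
    obtain ⟨n3, n4⟩ := hne (w ^ 2) hw2 n1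
    have e1 := hF2 w hw
    rw [h0, zero_pow two_ne_zero] at e1
    have e2 : k2H N b (w ^ 2) = 0 := by
      rcases mul_eq_zero.1 e1.symm with h | h
      · exact absurd h n2
      · exact h
    have e3 := hF3 (w ^ 2) hw2
    rw [e2, zero_pow two_ne_zero, mul_zero] at e3
    have e4 : (w ^ 2) ^ 2 = w ^ 4 := by ring
    rw [e4] at e3 n3 n4
    refine ⟨by rw [← pow_mul, mul_comm, pow_mul, hw, one_pow], n3, ?_⟩
    rcases mul_eq_zero.1 e3.symm with h | h
    · exact absurd h n4
    · exact h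
  have hiter : ∀ w : L, w ^ N = 1 → w ≠ 1 → k2H N a w = 0 → ∀ k : ℕ,
      (w ^ (4 ^ k)) ^ N = 1 ∧ w ^ (4 ^ k) ≠ 1 ∧ k2H N a (w ^ (4 ^ k)) = 0 := by
    intro w hw hw1 h0 k
    induction k with
    | zero => simpa using ⟨hw, hw1, h0⟩
    | succ k ih =>
      obtain ⟨i1, i2, i3⟩ := ih
      have := hstep _ i1 i2 i3
      have e : w ^ 4 ^ (k + 1) = (w ^ 4 ^ k) ^ 4 := by rw [← pow_mul, ← pow_succ]
      rw [e]
      exact this
  have hinv : ∀ w : L, w ^ N = 1 → w ≠ 1 → k2H N a w = 0 → k2H N a w⁻¹ = 0 := by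
    intro w hw hw1 h0
    obtain ⟨_, _, i3⟩ := hiter w hw hw1 h0 j
    have e1 : w ^ (4 ^ j) = w⁻¹ := by
      apply eq_inv_of_mul_eq_one_left
      rw [← pow_succ]
      exact hw
    rwa [e1] at i3
  have hall : ∀ w : L, w ^ N = 1 → k2H N a w = 0 := by
    intro w hw
    by_cases hw1 : w = 1
    · rw [hw1, k2H]
      simpa using sa
    · rcases mul_eq_zero.1 (hF1 w hw) with h | h
      · exact h
      · have hwi : (w⁻¹) ^ N = 1 := by rw [inv_pow, hw, inv_one]
        have hwi1 : w⁻¹ ≠ 1 := by rwa [ne_eq, inv_eq_one]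
        have := hinv w⁻¹ hwi hwi1 h
        rwa [inv_inv] at this
  have hNne : ((N : ℕ) : L) ≠ 0 := by
    intro h
    have := (CharP.cast_eq_zero_iff L 2 N).1 h
    exact (Nat.not_even_iff_odd.2 hodd) (even_iff_two_dvd.2 this)
  have hpoly : (∑ i ∈ range N, Polynomial.C (a i) * Polynomial.X ^ i : Polynomial L) = 0 := by
    classical
    have hsep : (Polynomial.X ^ N - 1 : Polynomial L).Separable :=
      Polynomial.X_pow_sub_one_separable_iff.2 hNne
    have hdeg : (Polynomial.X ^ N - 1 : Polynomial L).natDegree = N := by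
      have := Polynomial.natDegree_X_pow_sub_C (R := L) (n := N) (r := 1)
      simpa using this
    have hcard : ((Polynomial.X ^ N - 1 : Polynomial L).roots.toFinset).card = N := by
      rw [Multiset.toFinset_card_of_nodup (Polynomial.nodup_roots hsep),
        ← (IsAlgClosed.splits (Polynomial.X ^ N - 1 : Polynomial L)).natDegree_eq_card_roots, hdeg]
    apply Polynomial.eq_zero_of_natDegree_lt_card_of_eval_eq_zero' _
      ((Polynomial.X ^ N - 1 : Polynomial L).roots.toFinset)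
    · intro w hw
      rw [Multiset.mem_toFinset] at hw
      have h3 := Polynomial.isRoot_of_mem_roots hw
      rw [Polynomial.IsRoot.def, Polynomial.eval_sub, Polynomial.eval_pow, Polynomial.eval_X,
        Polynomial.eval_one, sub_eq_zero] at h3
      have h4 := hall w h3
      rw [k2H] at h4
      simp only [Polynomial.eval_finsetSum, Polynomial.eval_mul, Polynomial.eval_C,
        Polynomial.eval_pow, Polynomial.eval_X]
      exact h4
    · rw [hcard]
      have h5 : (∑ i ∈ range N, Polynomial.C (a i) * Polynomial.X ^ i : Polynomial L).natDegree ≤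
          N - 1 := by
        apply Polynomial.natDegree_sum_le_of_forall_le
        intro i hi
        rw [mem_range] at hi
        exact (Polynomial.natDegree_C_mul_X_pow_le _ _).trans (by omega)
      have := Nat.pos_of_ne_zero hN0
      omega
  have ha0 : ∀ i, i < N → a i = 0 := by
    intro i hi
    have h3 := congrArg (fun p => Polynomial.coeff p i) hpoly
    simp only [Polynomial.finsetSum_coeff, Polynomial.coeff_C_mul_X_pow, Polynomial.coeff_zero] at h3
    rw [Finset.sum_eq_single i (fun k _ hk => if_neg (Ne.symm hk))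
      (fun h => absurd (mem_range.2 hi) h), if_pos rfl] at h3
    exact h3
  have ha0' : ∀ i, a i = 0 := by
    intro i
    induction i using Nat.strong_induction_on with
    | _ i ih =>
      by_cases hi : i < N
      · exact ha0 i hi
      · push Not at hi
        obtain ⟨k, hk⟩ := Nat.exists_eq_add_of_le hi
        rw [hk, add_comm, hpa]
        exact ih k (by have := Nat.pos_of_ne_zero hN0; omega)
  intro i
  refine ⟨ha0' i, ?_⟩
  have h3 := hb i
  rw [ha0', ha0', add_zero] at h3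
  exact pow_eq_zero_iff (two_ne_zero) |>.1 h3

end Key2

/-- TARGET. Key lemma in characteristic two. -/
theorem key2 (K : Type) [Field K] [CharP K 2] (j : ℕ) (hj : 1 ≤ j) (a b : ℕ → K)
    (hpa : ∀ i, a (i + (4 ^ j + 1)) = a i) (hpb : ∀ i, b (i + (4 ^ j + 1)) = b i)
    (ha : ∀ i, a (i + 1) ^ 2 = b (i + 1) + b i) (hb : ∀ i, b i ^ 2 = a (i + 1) + a i)
    (hq : ∑ k ∈ Finset.range (4 ^ j + 1), a k * ∑ i ∈ Finset.range k, a i = 0) :
    ∀ i, a i = 0 ∧ b i = 0 := by
  let φ := algebraMap K (AlgebraicClosure K)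
  have : CharP (AlgebraicClosure K) 2 := charP_of_injective_algebraMap φ.injective 2
  have h := k2_alg j hj (fun i => φ (a i)) (fun i => φ (b i)) (fun i => by simp only [hpa])
    (fun i => by simp only [hpb]) (fun i => by simp only [← map_pow, ha, map_add])
    (fun i => by simp only [← map_pow, hb, map_add]) (by
      simp only [← map_sum, ← map_mul, hq, map_zero])
  intro i
  obtain ⟨h1, h2⟩ := h i
  exact ⟨(map_eq_zero φ).1 h1, (map_eq_zero φ).1 h2⟩


end Pool.Agent.H763.Hen
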