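import Pool.Agent.H763.HenFinB

set_option autoImplicit false

namespace Pool.Agent.H763.Hen

open Filter Topology Complex Polynomial


/-- Everything about one cycle. -/
theorem cycle_facts (H : ℂ × ℂ → ℂ × ℂ) (hH : ∀ p, H p = (p.2, p.1 + p.2 ^ 2))
    (z : ℕ → ℂ) (hz : ∀ k, z (k + 2) = z k + z (k + 1) ^ 2) (N : ℕ) (hN : 0 < N)
    (hper : ∀ k, z (k + 2 * N) = z k) (t : ℝ) (htr : (mp z (2 * N)).trace = t) :
    (z 0, z 1) ∈ Function.periodicPts H ∧ ∃ l1 l2 : ℂ,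
      LinearMap.charpoly ((fderiv ℂ (H^[Function.minimalPeriod H (z 0, z 1)]) (z 0, z 1) :
        ℂ × ℂ →L[ℂ] ℂ × ℂ) : ℂ × ℂ →ₗ[ℂ] ℂ × ℂ) = (X - C l1) * (X - C l2) ∧
      (2 < t → (‖l1‖ < 1 ∧ 1 < ‖l2‖) ∨ (‖l2‖ < 1 ∧ 1 < ‖l1‖)) ∧
      (t ≤ 2 → -2 ≤ t → ‖l1‖ = 1 ∧ ‖l2‖ = 1) := by
  have hpp : Function.IsPeriodicPt H (2 * N) (z 0, z 1) := by
    unfold Function.IsPeriodicPt Function.IsFixedPt
    rw [iter_eq H hH z hz]
    have h0 := hper 0
    have h1 := hper 1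
    rw [zero_add] at h0
    rw [add_comm] at h1
    rw [h0, h1]
  have hmem : (z 0, z 1) ∈ Function.periodicPts H := ⟨2 * N, by positivity, hpp⟩
  refine ⟨hmem, ?_⟩
  set n := Function.minimalPeriod H (z 0, z 1) with hn
  have hnpos : 0 < n := Function.minimalPeriod_pos_of_mem_periodicPts hmem
  obtain ⟨q, hq⟩ : n ∣ 2 * N := hpp.minimalPeriod_dvd
  have hqpos : 0 < q := by
    rcases Nat.eq_zero_or_pos q with h | h
    · rw [h] at hq; omega
    · exact h
  have hzn : ∀ k, z (n + k) = z k := by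
    have h1 : H^[n] (z 0, z 1) = (z 0, z 1) := Function.isPeriodicPt_minimalPeriod H _
    rw [iter_eq H hH z hz] at h1
    have h2 : z n = z 0 := congrArg Prod.fst h1
    have h3 : z (n + 1) = z 1 := congrArg Prod.snd h1
    have key : ∀ k, z (n + k) = z k ∧ z (n + (k + 1)) = z (k + 1) := by
      intro k
      induction k with
      | zero => exact ⟨h2, h3⟩
      | succ k ih =>
        refine ⟨ih.2, ?_⟩
        have e : n + (k + 1 + 1) = (n + k) + 2 := by ring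
        rw [e, hz, ih.1]
        have e2 : n + k + 1 = n + (k + 1) := by ring
        rw [e2, ih.2, ← hz]
    exact fun k => (key k).1
  obtain ⟨l1, l2, h1, h2⟩ := exists_eig (mp z n)
  refine ⟨l1, l2, ?_, ?_, ?_⟩
  · rw [(hasFDerivAt_iter H hH z hz n).fderiv]
    exact Lm_charpoly _ l1 l2 h1 h2
  · intro ht
    have hpow : l1 ^ q + l2 ^ q = t := by
      rw [← trace_pow_eig _ l1 l2 h1 h2, ← mp_pow z n hzn, ← hq, htr]
    exact saddle_of_trace l1 l2 q t (by rw [h2, det_mp]; simp) hpow ht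
  · intro ht ht'
    have hpow : l1 ^ q + l2 ^ q = t := by
      rw [← trace_pow_eig _ l1 l2 h1 h2, ← mp_pow z n hzn, ← hq, htr]
    refine elliptic_of_trace l1 l2 q hqpos t (by rw [h2, det_mp]; simp) ?_ hpow ht ht'
    rw [h2, det_mp, ← pow_mul, ← hq, pow_mul]; simp

/-- From a solution of the reduced problem to a small cycle. -/
theorem sol_cycle {h : ℝ} {M : ℕ} {B t : ℝ} {p : ℂ × ℂ} (hh : 0 < h) (hs : Sol h M B t p) :
    ∃ z : ℕ → ℂ, (∀ k, z (k + 2) = z k + z (k + 1) ^ 2) ∧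
      (∀ k, z (k + 2 * (2 * M + 1)) = z k) ∧ (∀ k, ‖z k‖ ≤ h * B) ∧ z 1 ≠ 0 ∧
      (mp z (2 * (2 * M + 1))).trace = t := by
  obtain ⟨hs1, hs2, hs3, hs4, hs5⟩ := hs
  obtain ⟨y, hy⟩ : ∃ y : ℕ → ℂ, y = fun k => ys h p.1 p.2 k := ⟨_, rfl⟩
  have hyr : ∀ k, y (k + 2) = y k + h * y (k + 1) ^ 2 := by intro k; rw [hy]; rfl
  have hconj : ∀ k, y (2 * M + 1 + k) = (starRingEnd ℂ) (y k) := by
    have key : ∀ k, y (2 * M + 1 + k) = (starRingEnd ℂ) (y k) ∧ y (2 * M + 1 + (k + 1)) = (starRingEnd ℂ) (y (k + 1)) := by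
      intro k
      induction k with
      | zero =>
        constructor
        · have := congrArg (starRingEnd ℂ) hs1
          rw [Complex.conj_conj] at this
          rw [hy]; exact this
        · have := congrArg (starRingEnd ℂ) hs2
          rw [Complex.conj_conj] at this
          rw [hy]; exact this
      | succ k ih =>
        refine ⟨ih.2, ?_⟩
        have e : 2 * M + 1 + (k + 1 + 1) = (2 * M + 1 + k) + 2 := by ring
        have e2 : 2 * M + 1 + k + 1 = 2 * M + 1 + (k + 1) := by ring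
        rw [e, hyr, ih.1, e2, ih.2, hyr, map_add, map_mul, map_pow, Complex.conj_ofReal]
    exact fun k => (key k).1
  have hbound : ∀ k, ‖y k‖ ≤ B := by
    intro k
    induction k using Nat.strong_induction_on with
    | _ k ih =>
      rcases le_or_gt k (2 * M + 2) with hk | hk
      · rw [hy]; exact hs4 k hk
      · obtain ⟨j, rfl⟩ : ∃ j, k = 2 * M + 1 + j := ⟨k - (2 * M + 1), by omega⟩
        rw [hconj, Complex.norm_conj]
        exact ih j (by omega)
  refine ⟨fun k => h * y k, ?_, ?_, ?_, ?_, ?_⟩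
  · intro k
    simp only
    rw [hyr]; ring
  · intro k
    simp only
    have e : k + 2 * (2 * M + 1) = 2 * M + 1 + (2 * M + 1 + k) := by ring
    rw [e, hconj, hconj, Complex.conj_conj]
  · intro k
    simp only
    rw [norm_mul, Complex.norm_real, Real.norm_of_nonneg hh.le]
    exact mul_le_mul_of_nonneg_left (hbound k) hh.le
  · simp only
    rw [hy]
    exact mul_ne_zero (by exact_mod_cast hh.ne') hs3
  · have e : 2 * (2 * M + 1) = (2 * M + 1) + (2 * M + 1) := by ring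
    rw [e, mp_add]
    have e2 : (fun k => (fun k => (h : ℂ) * y k) (2 * M + 1 + k)) = fun k => (starRingEnd ℂ) ((h : ℂ) * y k) := by
      funext k
      simp only
      rw [hconj, map_mul, Complex.conj_ofReal]
    rw [e2, mp_conj (fun k => (h : ℂ) * y k)]
    rw [← hs5, hy]
    rfl

theorem main (H : ℂ × ℂ → ℂ × ℂ) (hH : ∀ p, H p = (p.2, p.1 + p.2 ^ 2)) (U : Set (ℂ × ℂ))
    (hU : U ∈ 𝓝 (0 : ℂ × ℂ)) :
    (∃ p, p ∈ Function.periodicPts H ∧ (∃ l1 l2 : ℂ,
      LinearMap.charpoly ((fderiv ℂ (H^[Function.minimalPeriod H p]) p :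
        ℂ × ℂ →L[ℂ] ℂ × ℂ) : ℂ × ℂ →ₗ[ℂ] ℂ × ℂ) = (X - C l1) * (X - C l2) ∧
      ‖l1‖ < 1 ∧ 1 < ‖l2‖) ∧ ∀ k, H^[k] p ∈ U \ {0}) ∧
    (∃ p, p ∈ Function.periodicPts H ∧ (∃ l1 l2 : ℂ,
      LinearMap.charpoly ((fderiv ℂ (H^[Function.minimalPeriod H p]) p :
        ℂ × ℂ →L[ℂ] ℂ × ℂ) : ℂ × ℂ →ₗ[ℂ] ℂ × ℂ) = (X - C l1) * (X - C l2) ∧
      ‖l1‖ = 1 ∧ ‖l2‖ = 1) ∧ ∀ k, H^[k] p ∈ U \ {0}) := by
  obtain ⟨D⟩ := exists_odeData
  obtain ⟨B, hB⟩ := core D
  obtain ⟨M0, hM0⟩ := hB 1 one_pos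
  obtain ⟨r, hr, hrU⟩ := Metric.mem_nhds_iff.mp hU
  have hT := D.hT
  -- choose j
  obtain ⟨K, hK⟩ := exists_nat_gt (2 * D.T * (|B| + 1) / r)
  obtain ⟨j, hj⟩ : ∃ j : ℕ, j = M0 + K + 1 := ⟨_, rfl⟩
  have hj4 : ∀ n : ℕ, n < 4 ^ n := fun n => Nat.lt_pow_self (by norm_num)
  obtain ⟨M, hM⟩ : ∃ M : ℕ, M = 2 * 4 ^ (j - 1) := ⟨_, rfl⟩
  have hMj : 2 * M + 1 = 4 ^ j + 1 := by
    have : j = (j - 1) + 1 := by omega
    rw [hM]
    conv_rhs => rw [this]
    rw [pow_succ]; ring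
  have hMge : M0 + K ≤ M := by
    have h1 := hj4 (j - 1)
    have h2 : j - 1 = M0 + K := by omega
    rw [hM]; omega
  obtain ⟨h, hh⟩ : ∃ h : ℝ, h = 2 * D.T / (2 * M + 1) := ⟨_, rfl⟩
  have hhpos : 0 < h := by rw [hh]; positivity
  have hsmall : h * B < r := by
    have h1 : 2 * D.T * (|B| + 1) / r < 2 * M + 1 := by
      have : (K : ℝ) ≤ M := by exact_mod_cast (by omega : K ≤ M)
      have h3 : (0 : ℝ) ≤ M := by positivity
      linarith
    rw [div_lt_iff₀ hr] at h1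
    rw [hh, div_mul_eq_mul_div, div_lt_iff₀ (by positivity)]
    have h2 : 2 * D.T * B ≤ 2 * D.T * (|B| + 1) := by
      have := le_abs_self B
      gcongr
      linarith
    linarith
  obtain ⟨p, q, t, u, hp, hq, ht, hu, ht2, hu2⟩ := hM0 M h (by omega) hh
  -- general consequences
  have gen : ∀ (z : ℕ → ℂ), (∀ k, z (k + 2) = z k + z (k + 1) ^ 2) →
      (∀ k, z (k + 2 * (2 * M + 1)) = z k) → (∀ k, ‖z k‖ ≤ h * B) → z 1 ≠ 0 →
      ∀ k, H^[k] (z 0, z 1) ∈ U \ {0} := by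
    intro z hz hper hb h1 k
    rw [iter_eq H hH z hz]
    constructor
    · apply hrU
      rw [mem_ball_zero_iff, Prod.norm_mk]
      exact max_lt ((hb _).trans_lt hsmall) ((hb _).trans_lt hsmall)
    · intro h0
      have h2 : z k = 0 := congrArg Prod.fst h0
      have h3 : z (k + 1) = 0 := congrArg Prod.snd h0
      have key : ∀ i, z (k + i) = 0 ∧ z (k + (i + 1)) = 0 := by
        intro i
        induction i with
        | zero => exact ⟨h2, h3⟩
        | succ i ih =>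
          refine ⟨ih.2, ?_⟩
          have e : k + (i + 1 + 1) = (k + i) + 2 := by ring
          rw [e, hz, ih.1]
          have e2 : k + i + 1 = k + (i + 1) := by ring
          rw [e2, ih.2]; ring
      have hpm : ∀ m, z (1 + m * (2 * (2 * M + 1))) = z 1 := by
        intro m
        induction m with
        | zero => simp
        | succ m ihm =>
          have e : 1 + (m + 1) * (2 * (2 * M + 1)) = (1 + m * (2 * (2 * M + 1))) + 2 * (2 * M + 1) := by
            ring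
          rw [e, hper, ihm]
      apply h1
      rw [← hpm k]
      obtain ⟨i, hi⟩ : ∃ i, 1 + k * (2 * (2 * M + 1)) = k + i := by
        refine ⟨1 + k * (2 * (2 * M + 1)) - k, ?_⟩
        have : k ≤ k * (2 * (2 * M + 1)) := Nat.le_mul_of_pos_right k (by positivity)
        omega
      rw [hi]
      exact (key i).1
  constructor
  · obtain ⟨z, hz, hper, hb, h1, htr⟩ := sol_cycle hhpos hq
    obtain ⟨hmem, l1, l2, hc, hsad, _⟩ := cycle_facts H hH z hz (2 * M + 1) (by omega) hper u htr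
    have hu2' : 2 < u := by
      refine lt_of_le_of_ne hu2 ?_
      intro h0
      have har := arith j (by omega) z hz (by rw [← hMj]; exact hper) (fun hall => h1 (hall 1))
      rw [← hMj, htr, ← h0] at har
      apply har; push_cast; rfl
    refine ⟨(z 0, z 1), hmem, ?_, gen z hz hper hb h1⟩
    rcases hsad hu2' with h | h
    · exact ⟨l1, l2, hc, h.1, h.2⟩
    · exact ⟨l2, l1, by rw [hc, mul_comm], h.1, h.2⟩
  · obtain ⟨z, hz, hper, hb, h1, htr⟩ := sol_cycle hhpos hp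
    obtain ⟨hmem, l1, l2, hc, _, hell⟩ := cycle_facts H hH z hz (2 * M + 1) (by omega) hper t htr
    refine ⟨(z 0, z 1), hmem, ?_, gen z hz hper hb h1⟩
    have h3 := hell ht2 (by have := (abs_le.mp ht).1; linarith)
    exact ⟨l1, l2, hc, h3.1, h3.2⟩

end Pool.Agent.H763.Hen
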