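import Pool.Agent.H763.HenDefs

set_option autoImplicit false

namespace Pool.Agent.H763.Hen

open Filter Topology Complex




theorem ds_eq (h : ℝ) (a b u v : ℂ) (n : ℕ) :
    ds h a b u v n = JA h a b n 0 0 * u + JA h a b n 0 1 * v ∧
    ds h a b u v (n + 1) = JA h a b n 1 0 * u + JA h a b n 1 1 * v := by
  induction n with
  | zero =>
    constructor
    · simp [ds, JA, mp]
    · simp [ds, JA, mp]
  | succ k ih =>
    obtain ⟨ih0, ih1⟩ := ih
    have e00 : JA h a b (k + 1) 0 0 = JA h a b k 1 0 := by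
      simp [JA, mp, stp, Matrix.mul_apply, Fin.sum_univ_two]
    have e01 : JA h a b (k + 1) 0 1 = JA h a b k 1 1 := by
      simp [JA, mp, stp, Matrix.mul_apply, Fin.sum_univ_two]
    have e10 : JA h a b (k + 1) 1 0 = JA h a b k 0 0 + 2 * (h * ys h a b (k + 1)) * JA h a b k 1 0 := by
      simp [JA, mp, stp, Matrix.mul_apply, Fin.sum_univ_two]
    have e11 : JA h a b (k + 1) 1 1 = JA h a b k 0 1 + 2 * (h * ys h a b (k + 1)) * JA h a b k 1 1 := by
      simp [JA, mp, stp, Matrix.mul_apply, Fin.sum_univ_two]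
    refine ⟨?_, ?_⟩
    · rw [e00, e01]; exact ih1
    · rw [e10, e11]
      have hds : ds h a b u v (k + 1 + 1) = ds h a b u v k +
          2 * h * ys h a b (k + 1) * ds h a b u v (k + 1) := rfl
      rw [hds, ih0, ih1]
      ring

theorem det_JA (h : ℝ) (a b : ℂ) (n : ℕ) : (JA h a b n).det = (-1) ^ n := by
  unfold JA
  induction n with
  | zero => simp [mp]
  | succ k ih =>
    rw [mp, Matrix.det_mul, ih, pow_succ, mul_comm]
    congr 1
    simp [stp, Matrix.det_fin_two]

theorem hasDerivAt_ys {h : ℝ} {a b : ℝ → ℂ} {a' b' : ℂ} {s : ℝ} (ha : HasDerivAt a a' s)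
    (hb : HasDerivAt b b' s) (k : ℕ) :
    HasDerivAt (fun s => ys h (a s) (b s) k) (ds h (a s) (b s) a' b' k) s := by
  suffices H : HasDerivAt (fun s => ys h (a s) (b s) k) (ds h (a s) (b s) a' b' k) s ∧
      HasDerivAt (fun s => ys h (a s) (b s) (k + 1)) (ds h (a s) (b s) a' b' (k + 1)) s from H.1
  induction k with
  | zero =>
    refine ⟨?_, ?_⟩
    · simpa [ys, ds] using ha
    · simpa [ys, ds] using hb
  | succ k ih =>
    refine ⟨ih.2, ?_⟩
    have h1 : HasDerivAt (fun s => ys h (a s) (b s) k + h * ys h (a s) (b s) (k + 1) ^ 2)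
        (ds h (a s) (b s) a' b' k +
          h * (2 * ys h (a s) (b s) (k + 1) * ds h (a s) (b s) a' b' (k + 1))) s := by
      refine ih.1.add (HasDerivAt.const_mul (h : ℂ) ?_)
      have := ih.2.pow 2
      refine this.congr_deriv ?_
      simp
    have h2 : ds h (a s) (b s) a' b' (k + 1 + 1) = ds h (a s) (b s) a' b' k +
          h * (2 * ys h (a s) (b s) (k + 1) * ds h (a s) (b s) a' b' (k + 1)) := by
      have : ds h (a s) (b s) a' b' (k + 1 + 1) = ds h (a s) (b s) a' b' k +
        2 * h * ys h (a s) (b s) (k + 1) * ds h (a s) (b s) a' b' (k + 1) := rfl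
      rw [this]; ring
    rw [h2]
    exact h1


end Pool.Agent.H763.Hen
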