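import Pool.Agent.H763.HenDefs

set_option autoImplicit false

namespace Pool.Agent.H763.Hen

open Filter Topology Complex





lemma exists_am' (m : ℝ) (hm0 : 0 ≤ m) (hm1 : m < 1) :
    ∃ φ : ℝ → ℝ, (∀ t, HasDerivAt φ (Real.sqrt (1 - m * Real.sin (φ t) ^ 2)) t) ∧
      ∃ T : ℝ, 0 < T ∧ φ 0 = -(Real.pi / 2) ∧ ∀ t, φ (t + T) = φ t + Real.pi := by
  set D : ℝ → ℝ := fun s => Real.sqrt (1 - m * Real.sin s ^ 2) with hD
  have hpos : ∀ s, 0 < 1 - m * Real.sin s ^ 2 := by
    intro s
    have := Real.sin_sq_le_one s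
    nlinarith [sq_nonneg (Real.sin s)]
  have hDpos : ∀ s, 0 < D s := fun s => Real.sqrt_pos.mpr (hpos s)
  have hDle : ∀ s, D s ≤ 1 := by
    intro s
    rw [hD]; simp only
    apply Real.sqrt_le_iff.mpr; refine ⟨zero_le_one, ?_⟩
    nlinarith [mul_nonneg hm0 (sq_nonneg (Real.sin s))]
  have hDc : Continuous D := by
    rw [hD]; fun_prop
  set g : ℝ → ℝ := fun s => (D s)⁻¹ with hg
  have hgc : Continuous g := hDc.inv₀ (fun s => (hDpos s).ne')
  have hg1 : ∀ s, 1 ≤ g s := fun s => (one_le_inv₀ (hDpos s)).mpr (hDle s)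
  set G : ℝ → ℝ := fun x => ∫ s in (-(Real.pi / 2))..x, g s with hG
  have hGd : ∀ x, HasDerivAt G (g x) x := fun x =>
    intervalIntegral.integral_hasDerivAt_right (hgc.intervalIntegrable _ _)
      (hgc.stronglyMeasurableAtFilter _ _) hgc.continuousAt
  have hGc : Continuous G := continuous_iff_continuousAt.mpr fun x => (hGd x).continuousAt
  have hGmono : StrictMono G := strictMono_of_deriv_pos (fun x => by
    rw [(hGd x).deriv]; linarith [hg1 x])
  have hGsub : Monotone (fun x => G x - x) := by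
    apply monotone_of_deriv_nonneg
    · exact fun x => ((hGd x).sub (hasDerivAt_id x)).differentiableAt
    · intro x
      have := ((hGd x).sub (hasDerivAt_id x)).deriv
      have h2 : deriv (fun x => G x - x) x = g x - 1 := this
      rw [h2]; linarith [hg1 x]
  have htop : Filter.Tendsto G Filter.atTop Filter.atTop := by
    apply Filter.tendsto_atTop_mono' _ _ (Filter.tendsto_atTop_add_const_right Filter.atTop (G 0) Filter.tendsto_id)
    filter_upwards [Filter.eventually_ge_atTop 0] with x hx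
    have := hGsub hx
    simp at this
    simp; linarith
  have hbot : Filter.Tendsto G Filter.atBot Filter.atBot := by
    apply Filter.tendsto_atBot_mono' _ _ (Filter.tendsto_atBot_add_const_right Filter.atBot (G 0) Filter.tendsto_id)
    filter_upwards [Filter.eventually_le_atBot 0] with x hx
    have := hGsub hx
    simp at this
    simp; linarith
  have hsurj : Function.Surjective G := hGc.surjective htop hbot
  let e : ℝ ≃o ℝ := StrictMono.orderIsoOfSurjective G hGmono hsurj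
  have heG : ∀ x, e x = G x := fun x => rfl
  have hesymm : Continuous e.symm := e.symm.continuous
  have h0 : G (-(Real.pi / 2)) = 0 := by rw [hG]; simp
  have hper : ∀ x, G (x + Real.pi) = G x + G (Real.pi / 2) := by
    have hd : ∀ x, HasDerivAt (fun x => G (x + Real.pi) - G x) 0 x := by
      intro x
      have h1 : HasDerivAt (fun x => G (x + Real.pi)) (g (x + Real.pi)) x :=
        HasDerivAt.comp_add_const x Real.pi (hGd (x + Real.pi))
      have h2 := h1.sub (hGd x)
      refine h2.congr_deriv ?_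
      have : g (x + Real.pi) = g x := by
        rw [hg]; simp only [hD, Real.sin_add_pi, neg_sq]
      rw [this]; ring
    intro x
    have hc := is_const_of_deriv_eq_zero (f := fun x => G (x + Real.pi) - G x)
      (fun x => (hd x).differentiableAt) (fun x => (hd x).deriv) x (-(Real.pi / 2))
    simp only [h0] at hc
    rw [show -(Real.pi / 2) + Real.pi = Real.pi / 2 by ring] at hc
    linarith
  refine ⟨fun t => e.symm t, ?_, G (Real.pi / 2), ?_, ?_, ?_⟩
  · intro t
    have h1 : HasDerivAt G (g (e.symm t)) (e.symm t) := hGd _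
    have h2 : HasDerivAt (fun t => e.symm t) (g (e.symm t))⁻¹ t := by
      apply HasDerivAt.of_local_left_inverse (f := G) hesymm.continuousAt h1
      · linarith [hg1 (e.symm t)]
      · exact Filter.Eventually.of_forall (fun y => e.apply_symm_apply y)
    have h3 : (g (e.symm t))⁻¹ = Real.sqrt (1 - m * Real.sin (e.symm t) ^ 2) := by
      rw [hg]; simp [hD]
    rw [← h3]; exact h2
  · rw [← h0]
    exact hGmono (by linarith [Real.pi_pos])
  · show e.symm 0 = _
    rw [OrderIso.symm_apply_eq, heG, h0]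
  · intro t
    show e.symm _ = e.symm t + Real.pi
    rw [OrderIso.symm_apply_eq, heG, hper]
    have : G (e.symm t) = t := e.apply_symm_apply t
    rw [this]

theorem exists_odeData : Nonempty OdeData := by
  obtain ⟨q, hqpos, hq2⟩ : ∃ q : ℝ, 0 < q ∧ q ^ 2 = 3 :=
    ⟨Real.sqrt 3, Real.sqrt_pos.mpr (by norm_num), Real.sq_sqrt (by norm_num)⟩
  have hqlt : q < 2 := by nlinarith
  have hqgt : 1 < q := by nlinarith
  obtain ⟨r3, hr3⟩ : ∃ r3 : ℝ, r3 = -q := ⟨_, rfl⟩
  have hr3sq : r3 ^ 2 = 3 := by rw [hr3, neg_sq, hq2]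
  obtain ⟨m, hm⟩ : ∃ m : ℝ, m = (2 - r3) / 4 := ⟨_, rfl⟩
  have hm0 : 0 ≤ m := by rw [hm, hr3]; linarith
  have hm1 : m < 1 := by rw [hm, hr3]; linarith
  obtain ⟨φ, hφ, T, hT, hφ0, hφT⟩ := exists_am' m hm0 hm1
  obtain ⟨k, hk2⟩ : ∃ k : ℝ, k ^ 2 = m := ⟨Real.sqrt m, Real.sq_sqrt hm0⟩
  set c : ℝ → ℝ := fun t => Real.sqrt (1 - m * Real.sin (φ t) ^ 2) with hc
  set s : ℝ → ℝ := fun t => k * Real.sin (φ t) with hs
  set p : ℝ → ℝ := fun t => k * Real.cos (φ t) with hp
  have hpos : ∀ x, 0 < 1 - m * Real.sin x ^ 2 := by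
    intro x
    have := Real.sin_sq_le_one x
    nlinarith [sq_nonneg (Real.sin x)]
  have hcpos : ∀ t, 0 < c t := fun t => Real.sqrt_pos.mpr (hpos _)
  have hc2 : ∀ t, c t ^ 2 = 1 - s t ^ 2 := by
    intro t
    have h1 : c t ^ 2 = 1 - m * Real.sin (φ t) ^ 2 := Real.sq_sqrt (hpos _).le
    rw [h1]; simp only [hs]; rw [mul_pow, hk2]
  have hp2 : ∀ t, p t ^ 2 = m - s t ^ 2 := by
    intro t
    simp only [hs, hp]
    rw [mul_pow, mul_pow, hk2, Real.cos_sq']; ring
  have hφ' : ∀ t, HasDerivAt φ (c t) t := hφ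
  have hsd : ∀ t, HasDerivAt s (p t * c t) t := by
    intro t
    have := ((hφ' t).sin).const_mul k
    refine this.congr_deriv ?_
    simp only [hp]; ring
  have hpd : ∀ t, HasDerivAt p (-(s t * c t)) t := by
    intro t
    have := ((hφ' t).cos).const_mul k
    refine this.congr_deriv ?_
    simp only [hs]; ring
  have hcd : ∀ t, HasDerivAt c (-(s t * p t)) t := by
    intro t
    have h1 : HasDerivAt (fun t => 1 - m * Real.sin (φ t) ^ 2)
        (-(m * (2 * Real.sin (φ t) * (Real.cos (φ t) * c t)))) t := by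
      have h2 := (((hφ' t).sin).pow 2).const_mul m
      have h3 := h2.const_sub 1
      refine h3.congr_deriv ?_
      simp
    have h4 := h1.sqrt (hpos _).ne'
    refine h4.congr_deriv ?_
    have h5 : Real.sqrt (1 - m * Real.sin (φ t) ^ 2) = c t := rfl
    rw [h5]
    have h6 := (hcpos t).ne'
    have h7 : s t * p t = m * (Real.sin (φ t) * Real.cos (φ t)) := by
      rw [← hk2]; simp only [hs, hp]; ring
    rw [h7]
    field_simp
  -- periodicity of the real functions
  have hsT : ∀ t, s (t + T) = -s t := by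
    intro t; simp only [hs, hφT, Real.sin_add_pi]; ring
  have hpT : ∀ t, p (t + T) = -p t := by
    intro t; simp only [hp, hφT, Real.cos_add_pi]; ring
  have hcT : ∀ t, c (t + T) = c t := by
    intro t; simp only [hc, hφT, Real.sin_add_pi, neg_sq]
  set E : ℝ → ℂ := fun t => ((c t : ℂ) + (s t : ℂ) * Complex.I) ^ 2 with hE
  set Ei : ℝ → ℂ := fun t => ((c t : ℂ) - (s t : ℂ) * Complex.I) ^ 2 with hEi
  have hII : (Complex.I) ^ 2 = -1 := Complex.I_sq
  have hEEi : ∀ t, E t * Ei t = 1 := by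
    intro t
    have h1 : ((c t : ℂ)) ^ 2 = 1 - (s t : ℂ) ^ 2 := by exact_mod_cast hc2 t
    simp only [hE, hEi]
    have h2 : ((c t : ℂ) + (s t : ℂ) * Complex.I) * ((c t : ℂ) - (s t : ℂ) * Complex.I) = 1 := by
      linear_combination h1 - (s t : ℂ) ^ 2 * hII
    rw [← mul_pow, h2, one_pow]
  have hEd : ∀ t, HasDerivAt E (2 * Complex.I * p t * E t) t := by
    intro t
    have h1 : HasDerivAt (fun t => (c t : ℂ)) ((-(s t * p t) : ℝ) : ℂ) t := (hcd t).ofReal_comp
    have h2 : HasDerivAt (fun t => (s t : ℂ)) ((p t * c t : ℝ) : ℂ) t := (hsd t).ofReal_comp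
    have h3 := (h1.add (h2.mul_const Complex.I)).pow 2
    refine h3.congr_deriv ?_
    simp only [hE, Pi.add_apply]
    push_cast
    linear_combination (-2 * (s t : ℂ) * p t * (c t + s t * Complex.I)) * hII
  have hEnorm : ∀ t, ‖E t‖ = 1 := by
    intro t
    have h1 : ‖((c t : ℂ) + (s t : ℂ) * Complex.I)‖ ^ 2 = 1 := by
      rw [← Complex.normSq_eq_norm_sq, Complex.normSq_add_mul_I]
      linarith [hc2 t]
    simp only [hE, norm_pow]; exact h1
  set D : ℝ → ℂ := fun t => (r3 : ℂ) * E t - 1 with hD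
  have hDne : ∀ t, D t ≠ 0 := by
    intro t h0
    simp only [hD] at h0
    have h1 : (r3 : ℂ) * E t = 1 := by linear_combination h0
    have h2 := congrArg norm h1
    rw [norm_mul, hEnorm, Complex.norm_real, hr3, norm_neg, Real.norm_of_nonneg hqpos.le] at h2
    simp at h2
    linarith
  have hDd : ∀ t, HasDerivAt D ((r3 : ℂ) * (2 * Complex.I * p t * E t)) t := by
    intro t
    exact ((hEd t).const_mul (r3 : ℂ)).sub_const 1
  obtain ⟨w, hwpos, hw2⟩ : ∃ w : ℝ, 0 < w ∧ w ^ 2 = q :=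
    ⟨Real.sqrt q, Real.sqrt_pos.mpr hqpos, Real.sq_sqrt hqpos.le⟩
  obtain ⟨μ, hμ⟩ : ∃ μ : ℂ, μ = Complex.I * w := ⟨_, rfl⟩
  have hμ2 : μ ^ 2 = r3 := by
    rw [hμ, mul_pow, hII, hr3, ← hw2]; push_cast; ring
  have hμne : μ ≠ 0 := by
    rw [hμ]; exact mul_ne_zero Complex.I_ne_zero (by exact_mod_cast hwpos.ne')
  set u : ℝ → ℂ := fun t => (2 * (r3 : ℂ) * Complex.I * p t * E t) / D t with hu
  set v : ℝ → ℂ := fun t => μ / D t with hv
  have hvd : ∀ t, HasDerivAt v (-(u t * v t)) t := by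
    intro t
    have h1 := (hasDerivAt_const t μ).div (hDd t) (hDne t)
    refine h1.congr_deriv ?_
    have := hDne t
    simp only [hu, hv]
    field_simp
    ring
  have hud : ∀ t, HasDerivAt u ((u t ^ 2 + v t ^ 2) / 2) t := by
    intro t
    have h0 : HasDerivAt (fun t => (p t : ℂ)) ((-(s t * c t) : ℝ) : ℂ) t := (hpd t).ofReal_comp
    have h1 := (((h0.const_mul (2 * (r3 : ℂ) * Complex.I)).mul (hEd t))).div (hDd t) (hDne t)
    refine h1.congr_deriv ?_
    have hDt := hDne t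
    simp only [hu, hv, Pi.mul_apply]
    have hI : Complex.I ^ 2 = -1 := hII
    have hr : (r3 : ℂ) ^ 2 = 3 := by exact_mod_cast hr3sq
    have hm' : μ ^ 2 = r3 := hμ2
    have hEE := hEEi t
    have hc2' : ((c t : ℂ)) ^ 2 = 1 - (s t : ℂ) ^ 2 := by exact_mod_cast hc2 t
    have hp2' : ((p t : ℂ)) ^ 2 = (2 - r3) / 4 - (s t : ℂ) ^ 2 := by
      have := hp2 t
      rw [hm] at this
      exact_mod_cast this
    have hA : (((-(s t * c t) : ℝ)) : ℂ) = Complex.I * (E t - Ei t) / 4 := by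
      simp only [hE, hEi]
      push_cast
      linear_combination (- (c t : ℂ) * s t) * hI
    have hP : ((p t : ℂ)) ^ 2 = (E t + Ei t - r3) / 4 := by
      simp only [hE, hEi]
      linear_combination hp2' - (1 / 2 : ℂ) * hc2' - (1 / 2 : ℂ) * (s t : ℂ) ^ 2 * hI
    rw [hA]
    have key : (2 * (r3 : ℂ) * Complex.I * (Complex.I * (E t - Ei t) / 4) * E t +
        2 * (r3 : ℂ) * Complex.I * p t * (2 * Complex.I * p t * E t)) * D t -
        2 * (r3 : ℂ) * Complex.I * p t * E t * ((r3 : ℂ) * (2 * Complex.I * p t * E t))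
        = ((2 * (r3 : ℂ) * Complex.I * p t * E t) ^ 2 + μ ^ 2) / 2 := by
      simp only [hD]
      linear_combination (-4 * (r3 : ℂ) * (p t : ℂ) ^ 2 * E t - 2 * (r3 : ℂ) ^ 2 * (p t : ℂ) ^ 2 * E t ^ 2) * hI
        + (2 * Complex.I * (Complex.I * (E t - Ei t) / 4) * E t ^ 2 + 2 * (p t : ℂ) ^ 2 * E t ^ 2) * hr
        + ((6 * E t ^ 2 - 2 * (r3 : ℂ) * E t) * (E t - Ei t) / 4) * hI
        + (6 * E t ^ 2 + 4 * (r3 : ℂ) * E t) * hP
        + (3 * E t + (r3 : ℂ) / 2) * hEE - E t * hr - (1 / 2 : ℂ) * hm'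
    have e1 : ((2 * (r3 : ℂ) * Complex.I * p t * E t / D t) ^ 2 + (μ / D t) ^ 2) / 2
        = (((2 * (r3 : ℂ) * Complex.I * p t * E t) ^ 2 + μ ^ 2) / 2) / D t ^ 2 := by
      field_simp
    rw [e1, ← key]
  -- symmetry
  have hET : ∀ t, E (t + T) = (starRingEnd ℂ) (E t) := by
    intro t
    simp only [hE, hsT, hcT, map_pow, map_add, map_mul, Complex.conj_ofReal, Complex.conj_I]
    push_cast; ring
  have hDT : ∀ t, D (t + T) = (starRingEnd ℂ) (D t) := by
    intro t
    simp only [hD, hET, map_sub, map_mul, Complex.conj_ofReal, map_one]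
  have huT : ∀ t, u (t + T) = (starRingEnd ℂ) (u t) := by
    intro t
    simp only [hu, hET, hDT, hpT, map_div₀, map_mul, Complex.conj_ofReal, Complex.conj_I, map_ofNat]
    push_cast; ring
  have hvT : ∀ t, v (t + T) = -(starRingEnd ℂ) (v t) := by
    intro t
    simp only [hv, hDT, map_div₀, hμ, map_mul, Complex.conj_ofReal, Complex.conj_I]
    ring
  have hpz0 : p 0 = 0 := by
    simp only [hp, hφ0, Real.cos_neg, Real.cos_pi_div_two, mul_zero]
  have hu0 : u 0 = 0 := by simp [hu, hpz0]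
  have hvne : ∀ t, v t ≠ 0 := by
    intro t
    simp only [hv]
    exact div_ne_zero hμne (hDne t)
  obtain ⟨ξ, hξdef⟩ : ∃ ξ : ℝ → ℂ, ∀ t, ξ t = (u t + v t) / 2 := ⟨_, fun _ => rfl⟩
  obtain ⟨η, hηdef⟩ : ∃ η : ℝ → ℂ, ∀ t, η t = (u t - v t) / 2 := ⟨_, fun _ => rfl⟩
  have hξd : ∀ t, HasDerivAt ξ (η t ^ 2) t := by
    intro t
    have := ((hud t).add (hvd t)).div_const 2
    have hf : ξ = fun t => (u t + v t) / 2 := funext hξdef
    rw [hf]
    refine this.congr_deriv ?_
    rw [hηdef]; ring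
  have hηd : ∀ t, HasDerivAt η (ξ t ^ 2) t := by
    intro t
    have := ((hud t).sub (hvd t)).div_const 2
    have hf : η = fun t => (u t - v t) / 2 := funext hηdef
    rw [hf]
    refine this.congr_deriv ?_
    rw [hξdef]; ring
  have hξT : ∀ t, ξ (t + T) = (starRingEnd ℂ) (η t) := by
    intro t
    rw [hξdef, hηdef, huT, hvT, map_div₀ (starRingEnd ℂ) (u t - v t) 2, map_sub (starRingEnd ℂ) (u t) (v t), map_ofNat (starRingEnd ℂ) 2]; ring
  have hηT : ∀ t, η (t + T) = (starRingEnd ℂ) (ξ t) := by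
    intro t
    rw [hξdef, hηdef, huT, hvT, map_div₀ (starRingEnd ℂ) (u t + v t) 2, map_add (starRingEnd ℂ) (u t) (v t), map_ofNat (starRingEnd ℂ) 2]; ring
  have hcd0 : ∀ t, HasDerivAt (fun t => ξ t ^ 3 - η t ^ 3) 0 t := by
    intro t
    have := ((hξd t).pow 3).sub ((hηd t).pow 3)
    refine this.congr_deriv ?_
    simp; ring
  obtain ⟨E0, hE0⟩ : ∃ E0 : ℂ, E0 = ξ 0 ^ 3 - η 0 ^ 3 := ⟨_, rfl⟩
  have hconst : ∀ t, ξ t ^ 3 - η t ^ 3 = E0 := by
    intro t
    have := is_const_of_deriv_eq_zero (f := fun t => ξ t ^ 3 - η t ^ 3)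
      (fun x => (hcd0 x).differentiableAt) (fun x => (hcd0 x).deriv) t 0
    simpa [hE0] using this
  have hconj : E0 = -(starRingEnd ℂ) E0 := by
    have h1 := hconst (0 + T)
    rw [hξT, hηT] at h1
    rw [← hconst 0, map_sub, map_pow, map_pow, neg_sub, hconst 0, ← h1]
  have hre : E0.re = 0 := by
    have := congrArg Complex.re hconj
    simp at this
    linarith
  have hEI : E0 = (E0.im : ℂ) * Complex.I := by
    apply Complex.ext <;> simp [hre]
  have hE0v : E0 = v 0 ^ 3 / 4 := by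
    rw [hE0, hξdef, hηdef, hu0]; ring
  have hE0ne : E0 ≠ 0 := by
    rw [hE0v]; exact div_ne_zero (pow_ne_zero _ (hvne 0)) (by norm_num)
  have hene : E0.im ≠ 0 := by
    intro h0
    apply hE0ne
    rw [hEI, h0]; simp
  have hηne : ∀ t, η t ≠ 0 := by
    intro t h0
    rw [hηdef] at h0
    have h1 : u t = v t := by linear_combination 2 * h0
    simp only [hu, hv] at h1
    rw [div_left_inj' (hDne t)] at h1
    have h2 : (2 * r3 * p t : ℝ) * E t = (w : ℂ) := by
      have h3 : Complex.I * (((2 * r3 * p t : ℝ) : ℂ) * E t) = Complex.I * (w : ℂ) := by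
        rw [← hμ, ← h1]; push_cast; ring
      exact mul_left_cancel₀ Complex.I_ne_zero h3
    -- imaginary and real parts
    have hEre : (E t).re = c t ^ 2 - s t ^ 2 := by
      simp only [hE, sq]
      simp
    have hEim : (E t).im = 2 * c t * s t := by
      simp only [hE, sq]
      simp; ring
    have h4 := congrArg Complex.im h2
    have h5 := congrArg Complex.re h2
    rw [Complex.re_ofReal_mul, Complex.ofReal_re, hEre] at h5
    rw [Complex.im_ofReal_mul, Complex.ofReal_im, hEim] at h4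
    have hpne : 2 * r3 * p t ≠ 0 := by
      intro h6
      rw [h6, zero_mul] at h5
      linarith
    have hs0 : s t = 0 := by
      have h7 : 2 * c t * s t = 0 := (mul_eq_zero.1 h4).resolve_left hpne
      have h8 : (2 * c t) ≠ 0 := by have := hcpos t; positivity
      exact (mul_eq_zero.1 h7).resolve_left h8
    have hc1 := hc2 t
    have hpp := hp2 t
    rw [hs0] at hc1 hpp h5
    rw [hc1] at h5
    have h9 : (2 * r3 * p t) ^ 2 = q := by
      rw [← hw2, ← h5]; ring
    have h10 : 12 * p t ^ 2 = q := by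
      have : (2 * r3 * p t) ^ 2 = 4 * r3 ^ 2 * p t ^ 2 := by ring
      rw [this, hr3sq] at h9; linarith
    rw [hpp, hm, hr3] at h10
    nlinarith
  exact ⟨⟨ξ, η, T, E0.im, hT, hene, hξd, hηd, hξT, hηT, fun t => (hconst t).trans hEI, hηne⟩⟩






theorem ode_periodic (D : OdeData) (t : ℝ) :
    D.ξ (t + 2 * D.T) = D.ξ t ∧ D.η (t + 2 * D.T) = D.η t := by
  have h : t + 2 * D.T = (t + D.T) + D.T := by ring
  rw [h]
  constructor
  · rw [D.hc1, D.hc2]
    exact Complex.conj_conj _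
  · rw [D.hc2, D.hc1]
    exact Complex.conj_conj _

theorem ode_bounds (D : OdeData) : ∃ B m : ℝ, 1 ≤ B ∧ 0 < m ∧
    ∀ t, ‖D.ξ t‖ ≤ B ∧ ‖D.η t‖ ≤ B ∧ m ≤ ‖D.η t‖ := by
  have cξ : Continuous D.ξ := continuous_iff_continuousAt.2 fun t => (D.hξ t).continuousAt
  have cη : Continuous D.η := continuous_iff_continuousAt.2 fun t => (D.hη t).continuousAt
  have hT := D.hT
  have pξ : Function.Periodic D.ξ (2 * D.T) := fun t => (ode_periodic D t).1
  have pη : Function.Periodic D.η (2 * D.T) := fun t => (ode_periodic D t).2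
  obtain ⟨B1, hB1⟩ := (isCompact_Icc (a := (0:ℝ)) (b := 2 * D.T)).exists_bound_of_continuousOn
    cξ.continuousOn
  obtain ⟨B2, hB2⟩ := (isCompact_Icc (a := (0:ℝ)) (b := 2 * D.T)).exists_bound_of_continuousOn
    cη.continuousOn
  obtain ⟨s, hs, hsm⟩ := (isCompact_Icc (a := (0:ℝ)) (b := 2 * D.T)).exists_isMinOn
    (Set.nonempty_Icc.2 (by positivity)) (f := fun t => ‖D.η t‖) (by fun_prop)
  refine ⟨max 1 (max B1 B2), ‖D.η s‖, le_max_left _ _, norm_pos_iff.2 (D.hne s), fun t => ?_⟩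
  obtain ⟨u, hu, hut⟩ := pξ.exists_mem_Ico₀ (by positivity) t
  obtain ⟨w, hw, hwt⟩ := pη.exists_mem_Ico₀ (by positivity) t
  have h1 := hB1 u ⟨hu.1, hu.2.le⟩
  have h2 := hB2 w ⟨hw.1, hw.2.le⟩
  have h3 : ‖D.η s‖ ≤ ‖D.η w‖ := hsm ⟨hw.1, hw.2.le⟩
  rw [hut, hwt]
  exact ⟨h1.trans ((le_max_left _ _).trans (le_max_right _ _)),
    h2.trans ((le_max_right _ _).trans (le_max_right _ _)), h3⟩

theorem ode_contDiff (D : OdeData) : ContDiff ℝ 2 D.ξ ∧ ContDiff ℝ 2 D.η := by
  have key : ∀ n : ℕ, ContDiff ℝ n D.ξ ∧ ContDiff ℝ n D.η := by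
    intro n
    induction n with
    | zero =>
      constructor
      · exact contDiff_zero.2 (continuous_iff_continuousAt.2 fun t => (D.hξ t).continuousAt)
      · exact contDiff_zero.2 (continuous_iff_continuousAt.2 fun t => (D.hη t).continuousAt)
    | succ n ih =>
      have e1 : deriv D.ξ = fun t => D.η t ^ 2 := funext fun t => (D.hξ t).deriv
      have e2 : deriv D.η = fun t => D.ξ t ^ 2 := funext fun t => (D.hη t).deriv
      constructor
      · push_cast
        rw [contDiff_succ_iff_deriv]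
        refine ⟨fun t => (D.hξ t).differentiableAt, by simp, ?_⟩
        rw [e1]
        exact ih.2.pow 2
      · push_cast
        rw [contDiff_succ_iff_deriv]
        refine ⟨fun t => (D.hη t).differentiableAt, by simp, ?_⟩
        rw [e2]
        exact ih.1.pow 2
  exact_mod_cast key 2


end Pool.Agent.H763.Hen
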