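import Mathlib
import Pool.Agent.Helper60.Mah.Defs

/-!
Decomposition of a finite measure (with a dense set of cardinality at most aleph one in Lp) into
countably many pieces, each generated by fair bits indexed by a well-order with countable initial
segments. Lemmas by several seats (halve helper175, small helper81, realize helper910, one_step
helper42, rec_exists helper214, fair_of_step helper83, determined helper711, good_atom helper208,
ra_finite helper762, good_sep helper154, ra_countable helper372, good_nws helper546, exhaustion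
helper992, dense_family helper733).
-/

namespace H60Mah

open MeasureTheory

/-- the conclusion of one step -/
def StepP {Ω : Type*} [MeasurableSpace Ω] (μ : Measure Ω) (B : MeasurableSpace Ω)
    (E A : Set Ω) (β : Ω → Bool) : Prop :=
  ∃ H : Set Ω, MeasurableSet[B] H ∧
    (∀ B', MeasurableSet[B] B' → μ (E ∩ B' ∩ {w | β w = true}) = 2⁻¹ * μ (E ∩ B')) ∧
    μ (E ∩ H ∩ {w | β w = false} ∩ A) = 0 ∧
    μ ((E ∩ Hᶜ ∩ {w | β w = true}) \ A) = 0


section
theorem halve {Ω : Type} (B : MeasurableSpace Ω) [m : MeasurableSpace Ω] (μ : Measure Ω)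
    [IsFiniteMeasure μ] (hB : B ≤ m) (E : Set Ω) (hRA : RA μ B E)
    (E2 : Set Ω) (hE2 : MeasurableSet E2) (hE2E : E2 ⊆ E) (hpos : 0 < μ E2) :
    ∃ C, MeasurableSet C ∧ C ⊆ E2 ∧ 0 < μ C ∧
      ∀ B', MeasurableSet[B] B' → μ (C ∩ B') ≤ 2⁻¹ * μ (E2 ∩ B') := by
  obtain ⟨F, hF, hFE, hne⟩ := hRA E2 hE2 hE2E hpos
  -- the two measures on `B`
  set ν1 : @Measure Ω B := (μ.restrict F).trim hB with hν1
  set ν2 : @Measure Ω B := (μ.restrict E2).trim hB with hν2
  have v1 : ∀ t, MeasurableSet[B] t → ν1 t = μ (t ∩ F) := by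
    intro t ht
    rw [hν1, trim_measurableSet_eq hB ht, Measure.restrict_apply (hB t ht)]
  have v2 : ∀ t, MeasurableSet[B] t → ν2 t = μ (t ∩ E2) := by
    intro t ht
    rw [hν2, trim_measurableSet_eq hB ht, Measure.restrict_apply (hB t ht)]
  have i1 : @IsFiniteMeasure Ω B ν1 := isFiniteMeasure_trim hB
  have i2 : @IsFiniteMeasure Ω B ν2 := isFiniteMeasure_trim hB
  obtain ⟨s, hs, h1, h2⟩ := @hahn_decomposition Ω B ν2 (ν1 + ν1) i2 inferInstance
  have h1' : ∀ t, MeasurableSet[B] t → t ⊆ s → μ (t ∩ F) + μ (t ∩ F) ≤ μ (t ∩ E2) := by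
    intro t ht hts
    have := h1 t ht hts
    rw [v2 t ht] at this
    have e : (ν1 + ν1) t = μ (t ∩ F) + μ (t ∩ F) := by
      rw [← v1 t ht]; rfl
    rwa [e] at this
  have h2' : ∀ t, MeasurableSet[B] t → t ⊆ sᶜ → μ (t ∩ E2) ≤ μ (t ∩ F) + μ (t ∩ F) := by
    intro t ht hts
    have := h2 t ht hts
    rw [v2 t ht] at this
    have e : (ν1 + ν1) t = μ (t ∩ F) + μ (t ∩ F) := by
      rw [← v1 t ht]; rfl
    rwa [e] at this
  have half : ∀ a b : ENNReal, a + a ≤ b → a ≤ 2⁻¹ * b := by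
    intro a b hab
    calc a = 2⁻¹ * (a + a) := by
          rw [mul_add, ← add_mul, ENNReal.inv_two_add_inv_two, one_mul]
      _ ≤ 2⁻¹ * b := by gcongr
  have hsm : MeasurableSet s := hB s hs
  by_cases hc1 : μ (F ∩ s) = 0
  · by_cases hc2 : μ ((E2 \ F) ∩ sᶜ) = 0
    · exfalso
      apply hne sᶜ (MeasurableSet.compl hs)
      have hsub : symmDiff F (E2 ∩ sᶜ) ⊆ (F ∩ s) ∪ ((E2 \ F) ∩ sᶜ) := by
        intro x hx
        rcases hx with ⟨hxF, hx2⟩ | ⟨⟨hxE, hxs⟩, hxF⟩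
        · left
          refine ⟨hxF, ?_⟩
          by_contra hxs
          exact hx2 ⟨hFE hxF, hxs⟩
        · right
          exact ⟨⟨hxE, hxF⟩, hxs⟩
      exact measure_mono_null hsub (measure_union_null hc1 hc2)
    · refine ⟨(E2 \ F) ∩ sᶜ, (hE2.diff hF).inter hsm.compl, ?_, pos_iff_ne_zero.2 hc2, ?_⟩
      · intro x hx; exact hx.1.1
      · intro B' hB'
        have ht : MeasurableSet[B] (sᶜ ∩ B') := MeasurableSet.inter (MeasurableSet.compl hs) hB'
        have htm : MeasurableSet (sᶜ ∩ B') := hB _ ht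
        have h3 := h2' (sᶜ ∩ B') ht (fun x hx => hx.1)
        have hsplit : μ ((sᶜ ∩ B') ∩ E2) = μ ((sᶜ ∩ B') ∩ F) + μ ((E2 \ F) ∩ sᶜ ∩ B') := by
          rw [← measure_inter_add_sdiff ((sᶜ ∩ B') ∩ E2) hF]
          congr 1
          · congr 1
            ext x
            constructor
            · rintro ⟨⟨hx1, _⟩, hx3⟩; exact ⟨hx1, hx3⟩
            · rintro ⟨hx1, hx3⟩; exact ⟨⟨hx1, hFE hx3⟩, hx3⟩
          · congr 1
            ext x
            constructor
            · rintro ⟨⟨⟨a, b⟩, c⟩, d⟩; exact ⟨⟨⟨c, d⟩, a⟩, b⟩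
            · rintro ⟨⟨⟨c, d⟩, a⟩, b⟩; exact ⟨⟨⟨a, b⟩, c⟩, d⟩
        have hfin : μ ((sᶜ ∩ B') ∩ F) ≠ ⊤ := measure_ne_top _ _
        have h4 : μ ((E2 \ F) ∩ sᶜ ∩ B') ≤ μ ((sᶜ ∩ B') ∩ F) := by
          rw [hsplit] at h3
          exact (ENNReal.add_le_add_iff_left hfin).1 h3
        have h5 : μ ((E2 \ F) ∩ sᶜ ∩ B') ≤ 2⁻¹ * μ ((sᶜ ∩ B') ∩ E2) := by
          apply half
          rw [hsplit]
          gcongr
        refine h5.trans ?_
        have hm : μ ((sᶜ ∩ B') ∩ E2) ≤ μ (E2 ∩ B') :=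
          measure_mono (fun x hx => ⟨hx.2, hx.1.2⟩)
        exact mul_le_mul' le_rfl hm
  · refine ⟨F ∩ s, hF.inter hsm, fun x hx => hFE hx.1, pos_iff_ne_zero.2 hc1, ?_⟩
    intro B' hB'
    have ht : MeasurableSet[B] (s ∩ B') := MeasurableSet.inter hs hB'
    have h3 := h1' (s ∩ B') ht (fun x hx => hx.1)
    have h4 := half _ _ h3
    have e : F ∩ s ∩ B' = (s ∩ B') ∩ F := by
      ext x
      constructor
      · rintro ⟨⟨a, b⟩, c⟩; exact ⟨⟨b, c⟩, a⟩
      · rintro ⟨⟨b, c⟩, a⟩; exact ⟨⟨a, b⟩, c⟩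
    rw [e]
    refine h4.trans ?_
    have hm : μ ((s ∩ B') ∩ E2) ≤ μ (E2 ∩ B') :=
      measure_mono (fun x hx => ⟨hx.2, hx.1.2⟩)
    exact mul_le_mul' le_rfl hm
end

section
theorem small {Ω : Type} (B : MeasurableSpace Ω) [m : MeasurableSpace Ω] (μ : Measure Ω)
    [IsFiniteMeasure μ] (E : Set Ω)
    (hHV : ∀ E2 : Set Ω, MeasurableSet E2 → E2 ⊆ E → 0 < μ E2 →
      ∃ C, MeasurableSet C ∧ C ⊆ E2 ∧ 0 < μ C ∧
        ∀ B', MeasurableSet[B] B' → μ (C ∩ B') ≤ 2⁻¹ * μ (E2 ∩ B'))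
    (ε : ENNReal) (hε : 0 < ε) (E2 : Set Ω) (hE2 : MeasurableSet E2) (hE2E : E2 ⊆ E)
    (hpos : 0 < μ E2) :
    ∃ C, MeasurableSet C ∧ C ⊆ E2 ∧ 0 < μ C ∧
      ∀ B', MeasurableSet[B] B' → μ (C ∩ B') ≤ ε * μ B' := by
  have hind : ∀ n : ℕ, ∃ C, MeasurableSet C ∧ C ⊆ E2 ∧ 0 < μ C ∧
      ∀ B', MeasurableSet[B] B' → μ (C ∩ B') ≤ (2⁻¹ : ENNReal) ^ n * μ (E2 ∩ B') := by
    intro n
    induction n with
    | zero =>
      refine ⟨E2, hE2, subset_rfl, hpos, fun B' _ => ?_⟩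
      rw [pow_zero, one_mul]
    | succ n ih =>
      obtain ⟨C, h1, h2, h3, h4⟩ := ih
      obtain ⟨C', h1', h2', h3', h4'⟩ := hHV C h1 (h2.trans hE2E) h3
      refine ⟨C', h1', h2'.trans h2, h3', fun B' hB' => ?_⟩
      calc μ (C' ∩ B') ≤ 2⁻¹ * μ (C ∩ B') := h4' B' hB'
        _ ≤ 2⁻¹ * ((2⁻¹ : ENNReal) ^ n * μ (E2 ∩ B')) := by gcongr; exact h4 B' hB'
        _ = (2⁻¹ : ENNReal) ^ (n + 1) * μ (E2 ∩ B') := by rw [pow_succ']; ring
  obtain ⟨n, hn⟩ := ENNReal.exists_inv_two_pow_lt hε.ne'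
  obtain ⟨C, h1, h2, h3, h4⟩ := hind n
  refine ⟨C, h1, h2, h3, fun B' hB' => (h4 B' hB').trans ?_⟩
  gcongr
  exact Set.inter_subset_right
end

section
theorem greedy {Ω : Type} [MeasurableSpace Ω] (μ : Measure Ω) [IsFiniteMeasure μ]
    (Adm : Set Ω → Prop) (h0 : Adm ∅)
    (hU : ∀ s : ℕ → Set Ω, Monotone s → (∀ n, Adm (s n)) → Adm (⋃ n, s n)) :
    ∃ C, Adm C ∧ ∀ D, Adm D → C ⊆ D → μ D ≤ μ C := by
  have next : ∀ (n : ℕ) (C : Set Ω), Adm C → ∃ C', Adm C' ∧ C ⊆ C' ∧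
      ∀ D, Adm D → C ⊆ D → μ D ≤ μ C' + ((n + 1 : ℕ) : ENNReal)⁻¹ := by
    intro n C hC
    obtain ⟨s, hs⟩ : ∃ s : ENNReal, s = ⨆ D : {D : Set Ω // Adm D ∧ C ⊆ D}, μ D.1 := ⟨_, rfl⟩
    have hle : ∀ D, Adm D → C ⊆ D → μ D ≤ s := by
      intro D hD hCD
      rw [hs]
      exact le_iSup (fun D : {D : Set Ω // Adm D ∧ C ⊆ D} => μ D.1) ⟨D, hD, hCD⟩
    have hpos : ((n + 1 : ℕ) : ENNReal)⁻¹ ≠ 0 := ENNReal.inv_ne_zero.2 (ENNReal.natCast_ne_top _)
    rcases eq_or_ne s 0 with h1 | h1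
    · refine ⟨C, hC, subset_rfl, fun D hD hCD => ?_⟩
      have := hle D hD hCD
      rw [h1] at this
      exact this.trans zero_le
    · have hfin : s ≠ ⊤ := by
        rw [hs]
        refine ne_top_of_le_ne_top (measure_ne_top μ Set.univ) ?_
        exact iSup_le fun D => measure_mono (Set.subset_univ _)
      have h2 : s - ((n + 1 : ℕ) : ENNReal)⁻¹ < s := ENNReal.sub_lt_self hfin h1 hpos
      conv_rhs at h2 => rw [hs]
      obtain ⟨⟨D, hD, hCD⟩, h3⟩ := lt_iSup_iff.1 h2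
      refine ⟨D, hD, hCD, fun D' hD' hCD' => ?_⟩
      exact (hle D' hD' hCD').trans (tsub_le_iff_right.1 h3.le)
  choose! f hf1 hf2 hf3 using next
  let S : ℕ → Set Ω := fun n => Nat.rec ∅ (fun n C => f n C) n
  have hS0 : S 0 = ∅ := rfl
  have hSs : ∀ n, S (n + 1) = f n (S n) := fun _ => rfl
  have hadm : ∀ n, Adm (S n) := by
    intro n
    induction n with
    | zero => rw [hS0]; exact h0
    | succ n ih => rw [hSs]; exact hf1 n _ ih
  have hmono : Monotone S := monotone_nat_of_le_succ fun n => by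
    rw [hSs]; exact hf2 n _ (hadm n)
  refine ⟨⋃ n, S n, hU S hmono hadm, ?_⟩
  intro D hD hCD
  refine ENNReal.le_of_forall_pos_le_add fun ε hε _ => ?_
  obtain ⟨n, hn⟩ := ENNReal.exists_inv_nat_lt (a := (ε : ENNReal)) (by
    rw [ne_eq, ENNReal.coe_eq_zero]; exact hε.ne')
  have h1 := hf3 n (S n) (hadm n) D hD ((Set.subset_iUnion S n).trans hCD)
  rw [← hSs] at h1
  refine h1.trans (add_le_add (measure_mono (Set.subset_iUnion S (n + 1))) ?_)
  refine le_trans (ENNReal.inv_le_inv.2 ?_) hn.le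
  exact_mod_cast Nat.le_succ n

theorem realize {Ω : Type} (B : MeasurableSpace Ω) [m : MeasurableSpace Ω] (μ : Measure Ω)
    [IsFiniteMeasure μ] (hB : B ≤ m) (E : Set Ω)
    (hSP : ∀ ε : ENNReal, 0 < ε → ∀ E2 : Set Ω, MeasurableSet E2 → E2 ⊆ E → 0 < μ E2 →
      ∃ C, MeasurableSet C ∧ C ⊆ E2 ∧ 0 < μ C ∧
        ∀ B', MeasurableSet[B] B' → μ (C ∩ B') ≤ ε * μ B')
    (E1 : Set Ω) (hE1 : MeasurableSet E1) (hE1E : E1 ⊆ E)
    (lam : @Measure Ω B) (hlam : ∀ B', MeasurableSet[B] B' → lam B' ≤ μ (E1 ∩ B')) :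
    ∃ C, MeasurableSet C ∧ C ⊆ E1 ∧ ∀ B', MeasurableSet[B] B' → μ (C ∩ B') = lam B' := by
  have hlamfin : @IsFiniteMeasure Ω B lam := by
    refine @IsFiniteMeasure.mk Ω B lam ?_
    exact (hlam Set.univ (@MeasurableSet.univ Ω B)).trans_lt (measure_lt_top μ _)
  obtain ⟨C, ⟨hCm, hCE, hCl⟩, hmax⟩ := greedy μ
    (fun C => MeasurableSet C ∧ C ⊆ E1 ∧ ∀ B', MeasurableSet[B] B' → μ (C ∩ B') ≤ lam B')
    ⟨MeasurableSet.empty, Set.empty_subset _, fun B' _ => by simp⟩
    (by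
      intro s hs hadm
      refine ⟨MeasurableSet.iUnion fun n => (hadm n).1, Set.iUnion_subset fun n => (hadm n).2.1, ?_⟩
      intro B' hB'
      rw [Set.iUnion_inter]
      have hmono : Monotone fun n => s n ∩ B' := fun i j hij =>
        Set.inter_subset_inter_left _ (hs hij)
      rw [hmono.measure_iUnion]
      exact iSup_le fun n => (hadm n).2.2 B' hB')
  refine ⟨C, hCm, hCE, fun B0 hB0 => ?_⟩
  by_contra hne
  have hlt : μ (C ∩ B0) < lam B0 := lt_of_le_of_ne (hCl B0 hB0) hne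
  obtain ⟨ε, hε, hεlt⟩ := ENNReal.exists_nnreal_pos_mul_lt (measure_ne_top μ B0)
    (tsub_pos_of_lt hlt).ne'
  rw [lt_tsub_iff_left] at hεlt
  -- the comparison measure
  obtain ⟨ν, hνfin, hν⟩ : ∃ ν : @Measure Ω B, @IsFiniteMeasure Ω B ν ∧
      ∀ B', MeasurableSet[B] B' → ν B' = μ (C ∩ B') + (ε : ENNReal) * μ B' := by
    have hval : ∀ B', MeasurableSet[B] B' →
        ((μ.restrict C + (ε : ENNReal) • μ).trim hB) B' = μ (C ∩ B') + (ε : ENNReal) * μ B' := by
      intro B' hB'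
      rw [trim_measurableSet_eq hB hB', Measure.add_apply, Measure.smul_apply,
        Measure.restrict_apply (hB B' hB'), Set.inter_comm B' C, smul_eq_mul]
    refine ⟨(μ.restrict C + (ε : ENNReal) • μ).trim hB, ?_, hval⟩
    refine @IsFiniteMeasure.mk Ω B _ ?_
    rw [hval _ (@MeasurableSet.univ Ω B)]
    exact ENNReal.add_lt_top.2 ⟨measure_lt_top _ _,
      ENNReal.mul_lt_top ENNReal.coe_lt_top (measure_lt_top _ _)⟩
  obtain ⟨P, hP, hP1, hP2⟩ := @hahn_decomposition Ω B lam ν hlamfin hνfin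
  have hB0P : MeasurableSet[B] (B0 ∩ P) := @MeasurableSet.inter Ω B _ _ hB0 hP
  have hB0P' : MeasurableSet[B] (B0 \ P) := @MeasurableSet.diff Ω B _ _ hB0 hP
  have hlam_split : ∀ B', MeasurableSet[B] B' → lam (B' ∩ P) + lam (B' \ P) = lam B' :=
    fun B' _ => @measure_inter_add_sdiff Ω B lam P B' hP
  have hν_split : ∀ B', MeasurableSet[B] B' → ν (B' ∩ P) + ν (B' \ P) = ν B' :=
    fun B' _ => @measure_inter_add_sdiff Ω B ν P B' hP
  have hstrict : ν (B0 ∩ P) < lam (B0 ∩ P) := by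
    by_contra hcon
    push Not at hcon
    have h1 : lam (B0 \ P) ≤ ν (B0 \ P) := hP2 _ hB0P' (fun x hx => hx.2)
    have h2 : lam B0 ≤ ν B0 := by
      rw [← hlam_split B0 hB0, ← hν_split B0 hB0]
      exact add_le_add hcon h1
    rw [hν B0 hB0] at h2
    exact absurd hεlt (not_lt.2 h2)
  have hE2pos : 0 < μ ((E1 ∩ (B0 ∩ P)) \ C) := by
    rw [pos_iff_ne_zero]
    intro h0
    have h1 : μ (E1 ∩ (B0 ∩ P)) ≤ μ (C ∩ (B0 ∩ P)) := by
      calc μ (E1 ∩ (B0 ∩ P)) ≤ μ ((C ∩ (B0 ∩ P)) ∪ ((E1 ∩ (B0 ∩ P)) \ C)) := by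
            apply measure_mono
            intro x hx
            by_cases hxC : x ∈ C
            · exact Or.inl ⟨hxC, hx.2⟩
            · exact Or.inr ⟨hx, hxC⟩
        _ ≤ μ (C ∩ (B0 ∩ P)) + μ ((E1 ∩ (B0 ∩ P)) \ C) := measure_union_le _ _
        _ = μ (C ∩ (B0 ∩ P)) := by rw [h0, add_zero]
    have h2 : lam (B0 ∩ P) ≤ ν (B0 ∩ P) := by
      rw [hν _ hB0P]
      exact ((hlam _ hB0P).trans h1).trans le_self_add
    exact absurd hstrict (not_lt.2 h2)
  have hE2m : MeasurableSet ((E1 ∩ (B0 ∩ P)) \ C) := (hE1.inter (hB _ hB0P)).diff hCm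
  obtain ⟨C', hC'm, hC's, hC'pos, hC'l⟩ := hSP (ε : ENNReal) (ENNReal.coe_pos.2 hε) _ hE2m
    (fun x hx => hE1E hx.1.1) hE2pos
  have hC'P : C' ⊆ P := fun x hx => (hC's hx).1.2.2
  have hadm' := hmax (C ∪ C') ⟨hCm.union hC'm, Set.union_subset hCE (fun x hx => (hC's hx).1.1), by
    intro B' hB'
    have hBP : MeasurableSet[B] (B' ∩ P) := @MeasurableSet.inter Ω B _ _ hB' hP
    have hBP' : MeasurableSet[B] (B' \ P) := @MeasurableSet.diff Ω B _ _ hB' hP
    have h1 : μ ((C ∪ C') ∩ (B' ∩ P)) ≤ lam (B' ∩ P) := by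
      refine le_trans ?_ (hP1 _ hBP Set.inter_subset_right)
      rw [hν _ hBP, Set.union_inter_distrib_right]
      exact (measure_union_le _ _).trans (add_le_add le_rfl (hC'l _ hBP))
    have h2 : μ ((C ∪ C') ∩ (B' \ P)) ≤ lam (B' \ P) := by
      refine le_trans (measure_mono ?_) (hCl _ hBP')
      rintro x ⟨hx | hx, hx2⟩
      · exact ⟨hx, hx2⟩
      · exact absurd (hC'P hx) hx2.2
    calc μ ((C ∪ C') ∩ B') ≤ μ (((C ∪ C') ∩ (B' ∩ P)) ∪ ((C ∪ C') ∩ (B' \ P))) := by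
          apply measure_mono
          intro x hx
          by_cases hxP : x ∈ P
          · exact Or.inl ⟨hx.1, hx.2, hxP⟩
          · exact Or.inr ⟨hx.1, hx.2, hxP⟩
      _ ≤ μ ((C ∪ C') ∩ (B' ∩ P)) + μ ((C ∪ C') ∩ (B' \ P)) := measure_union_le _ _
      _ ≤ lam (B' ∩ P) + lam (B' \ P) := add_le_add h1 h2
      _ = lam B' := hlam_split B' hB'⟩ Set.subset_union_left
  have hdisj : Disjoint C C' := by
    rw [Set.disjoint_left]
    intro x hx hx'
    exact (hC's hx').2 hx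
  rw [measure_union hdisj hC'm] at hadm'
  have := ENNReal.lt_add_right (measure_ne_top μ C) hC'pos.ne'
  exact absurd hadm' (not_le.2 this)
end

section
theorem one_step {Ω : Type} (B : MeasurableSpace Ω) [m : MeasurableSpace Ω] (μ : Measure Ω)
    [IsFiniteMeasure μ] (hB : B ≤ m) (E : Set Ω) (hE : MeasurableSet E)
    (hRS : ∀ E1 : Set Ω, MeasurableSet E1 → E1 ⊆ E → ∀ lam : @Measure Ω B,
      (∀ B', MeasurableSet[B] B' → lam B' ≤ μ (E1 ∩ B')) →
      ∃ C, MeasurableSet C ∧ C ⊆ E1 ∧ ∀ B', MeasurableSet[B] B' → μ (C ∩ B') = lam B')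
    (A : Set Ω) (hA : MeasurableSet A) :
    ∃ β : Ω → Bool, Measurable β ∧ StepP μ B E A β := by
  classical
  -- the two measures on `B`
  obtain ⟨ν1, hν1⟩ : ∃ ν1 : @Measure Ω B, ν1 = (μ.restrict (A ∩ E)).trim hB := ⟨_, rfl⟩
  obtain ⟨ν2, hν2⟩ : ∃ ν2 : @Measure Ω B, ν2 = ((2⁻¹ : ENNReal) • (μ.restrict E)).trim hB := ⟨_, rfl⟩
  have hh : (2⁻¹ : ENNReal) ≠ ⊤ := by simp
  have fin1 : @IsFiniteMeasure Ω B ν1 := by rw [hν1]; infer_instance
  have fin0 : IsFiniteMeasure ((2⁻¹ : ENNReal) • (μ.restrict E)) := by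
    refine ⟨?_⟩
    rw [Measure.smul_apply, smul_eq_mul]
    exact ENNReal.mul_lt_top (by simp) (measure_lt_top _ _)
  have fin2 : @IsFiniteMeasure Ω B ν2 := by rw [hν2]; infer_instance
  have e1 : ∀ B', MeasurableSet[B] B' → ν1 B' = μ (B' ∩ (A ∩ E)) := by
    intro B' hB'
    rw [hν1, trim_measurableSet_eq hB hB', Measure.restrict_apply (hB _ hB')]
  have e2 : ∀ B', MeasurableSet[B] B' → ν2 B' = 2⁻¹ * μ (B' ∩ E) := by
    intro B' hB'
    rw [hν2, trim_measurableSet_eq hB hB', Measure.smul_apply, smul_eq_mul,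
      Measure.restrict_apply (hB _ hB')]
  obtain ⟨H, hH, hH1, hH2⟩ := @hahn_decomposition Ω B ν2 ν1 fin2 fin1
  -- on H
  let r1 : @Measure Ω B := @Measure.restrict Ω B ν1 H
  let r2 : @Measure Ω B := @Measure.restrict Ω B ν2 H
  have hr : r1 ≤ r2 := by
    refine Measure.le_iff.2 (fun s hs => ?_)
    show (@Measure.restrict Ω B ν1 H) s ≤ (@Measure.restrict Ω B ν2 H) s
    rw [Measure.restrict_apply hs, Measure.restrict_apply hs]
    exact hH1 _ (hs.inter hH) Set.inter_subset_right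
  have hfr : @IsFiniteMeasure Ω B r1 := inferInstanceAs (@IsFiniteMeasure Ω B (@Measure.restrict Ω B ν1 H))
  have l1 : ∀ B', MeasurableSet[B] B' →
      (r2 - r1) B' = 2⁻¹ * μ ((B' ∩ H) ∩ E) - μ ((B' ∩ H) ∩ (A ∩ E)) := by
    intro B' hB'
    rw [Measure.sub_apply hB' hr]
    show (@Measure.restrict Ω B ν2 H) B' - (@Measure.restrict Ω B ν1 H) B' = _
    rw [Measure.restrict_apply hB', Measure.restrict_apply hB', e1 _ (hB'.inter hH),
      e2 _ (hB'.inter hH)]
  obtain ⟨C1, hC1m, hC1s, hC1⟩ := hRS ((E ∩ H) \ A) ((hE.inter (hB _ hH)).diff hA)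
    (fun w hw => hw.1.1) (r2 - r1) (by
      intro B' hB'
      rw [l1 _ hB', tsub_le_iff_left]
      have h1 : μ (B' ∩ H ∩ E) = μ (B' ∩ H ∩ (A ∩ E)) + μ ((E ∩ H) \ A ∩ B') := by
        rw [← measure_union]
        · congr 1
          ext w
          simp only [Set.mem_inter_iff, Set.mem_union, Set.mem_diff]
          tauto
        · rw [Set.disjoint_left]
          intro w hw hw'
          exact hw'.1.2 hw.2.1
        · exact ((hE.inter (hB _ hH)).diff hA).inter (hB _ hB')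
      rw [← h1]
      have h2 : (2⁻¹ : ENNReal) ≤ 1 := by simp
      calc 2⁻¹ * μ (B' ∩ H ∩ E) ≤ 1 * μ (B' ∩ H ∩ E) := by gcongr
        _ = _ := one_mul _)
  -- on the complement
  obtain ⟨C2, hC2m, hC2s, hC2⟩ := hRS (A ∩ E ∩ Hᶜ) ((hA.inter hE).inter (hB _ hH.compl))
    (fun w hw => hw.1.2) (@Measure.restrict Ω B ν2 Hᶜ) (by
      intro B' hB'
      rw [Measure.restrict_apply hB']
      have h1 := hH2 _ (hB'.inter hH.compl) Set.inter_subset_right
      refine h1.trans ?_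
      rw [e1 _ (hB'.inter hH.compl)]
      apply measure_mono
      intro w hw
      exact ⟨⟨hw.2, hw.1.2⟩, hw.1.1⟩)
  have hS : MeasurableSet ((A ∩ E ∩ H) ∪ C1 ∪ C2) :=
    (((hA.inter hE).inter (hB _ hH)).union hC1m).union hC2m
  refine ⟨fun w => decide (w ∈ (A ∩ E ∩ H) ∪ C1 ∪ C2), ?_, H, hH, ?_, ?_, ?_⟩
  · apply measurable_to_bool
    have h3 : (fun w => decide (w ∈ (A ∩ E ∩ H) ∪ C1 ∪ C2)) ⁻¹' {true}
        = (A ∩ E ∩ H) ∪ C1 ∪ C2 := by
      ext w
      simp only [Set.mem_preimage, Set.mem_singleton_iff, decide_eq_true_eq]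
    rw [h3]
    exact hS
  · intro B' hB'
    have h3 : E ∩ B' ∩ {w | decide (w ∈ (A ∩ E ∩ H) ∪ C1 ∪ C2) = true}
        = (B' ∩ H ∩ (A ∩ E)) ∪ (C1 ∩ B') ∪ (C2 ∩ B') := by
      ext w
      have f1 : w ∈ C1 → w ∈ E := fun h => (hC1s h).1.1
      have f2 : w ∈ C2 → w ∈ E := fun h => (hC2s h).1.2
      simp only [Set.mem_inter_iff, Set.mem_setOf_eq, decide_eq_true_eq, Set.mem_union]
      tauto
    have h4 : Disjoint ((B' ∩ H ∩ (A ∩ E)) ∪ (C1 ∩ B')) (C2 ∩ B') := by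
      rw [Set.disjoint_left]
      rintro w (hw | hw) hw'
      · exact (hC2s hw'.1).2 hw.1.2
      · exact (hC2s hw'.1).2 (hC1s hw.1).1.2
    have h5 : Disjoint (B' ∩ H ∩ (A ∩ E)) (C1 ∩ B') := by
      rw [Set.disjoint_left]
      rintro w hw hw'
      exact (hC1s hw'.1).2 hw.2.1
    have hBm := hB _ hB'
    rw [h3, measure_union h4 (hC2m.inter hBm), measure_union h5 (hC1m.inter hBm),
      hC1 _ hB', hC2 _ hB', l1 _ hB', Measure.restrict_apply hB', e2 _ (hB'.inter hH.compl)]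
    have h6 : μ (B' ∩ H ∩ (A ∩ E)) ≤ 2⁻¹ * μ (B' ∩ H ∩ E) := by
      have := hH1 _ (hB'.inter hH) Set.inter_subset_right
      rwa [e1 _ (hB'.inter hH), e2 _ (hB'.inter hH)] at this
    rw [add_tsub_cancel_of_le h6, ← mul_add]
    congr 1
    rw [← measure_union]
    · congr 1
      ext w
      simp only [Set.mem_inter_iff, Set.mem_union, Set.mem_compl_iff]
      tauto
    · rw [Set.disjoint_left]
      intro w hw hw'
      exact hw'.1.2 hw.1.2
    · exact (hBm.inter (hB _ hH.compl)).inter hE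
  · have h3 : E ∩ H ∩ {w | decide (w ∈ (A ∩ E ∩ H) ∪ C1 ∪ C2) = false} ∩ A = ∅ := by
      ext w
      simp only [Set.mem_inter_iff, Set.mem_setOf_eq, decide_eq_false_iff_not, Set.mem_union,
        Set.mem_empty_iff_false, iff_false]
      tauto
    rw [h3, measure_empty]
  · have h3 : (E ∩ Hᶜ ∩ {w | decide (w ∈ (A ∩ E ∩ H) ∪ C1 ∪ C2) = true}) \ A = ∅ := by
      ext w
      have f1 : w ∈ C1 → w ∈ H := fun h => (hC1s h).1.2
      have f2 : w ∈ C2 → w ∈ A := fun h => (hC2s h).1.1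
      simp only [Set.mem_inter_iff, Set.mem_diff, Set.mem_setOf_eq, decide_eq_true_eq, Set.mem_union,
        Set.mem_empty_iff_false, iff_false, Set.mem_compl_iff]
      tauto
    rw [h3, measure_empty]
end

section
open Classical in
/-- one step of the recursion -/
noncomputable def recStep {Ω : Type} {I : Type} [LinearOrder I]
    (Q : (Ω → Bool) → Prop) (P : (b : I → Ω → Bool) → I → (Ω → Bool) → Prop)
    (i : I) (f : (j : I) → j < i → Ω → Bool) : Ω → Bool :=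
  if h : ∃ β, Q β ∧ P (fun j => if hj : j < i then f j hj else fun _ => true) i β then h.choose
  else fun _ => true

theorem rec_exists {Ω : Type} {I : Type} [LinearOrder I] [WellFoundedLT I]
    (Q : (Ω → Bool) → Prop) (P : (b : I → Ω → Bool) → I → (Ω → Bool) → Prop)
    (hP : ∀ b b' i β, (∀ j, j < i → b j = b' j) → P b i β → P b' i β)
    (hstep : ∀ b : I → Ω → Bool, ∀ i, (∀ j, j < i → Q (b j)) → ∃ β, Q β ∧ P b i β) :
    ∃ b : I → Ω → Bool, (∀ i, Q (b i)) ∧ ∀ i, P b i (b i) := by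
  classical
  have wf : WellFounded ((· < ·) : I → I → Prop) := wellFounded_lt
  let b : I → Ω → Bool := wf.fix (recStep Q P)
  have hb : ∀ i, b i = recStep Q P i (fun j _ => b j) := fun i => wf.fix_eq _ i
  have main : ∀ i, Q (b i) ∧ P b i (b i) := by
    intro i
    induction i using wf.induction with
    | _ i ih =>
      have h1 : ∃ β, Q β ∧ P (fun j => if hj : j < i then b j else fun _ => true) i β := by
        apply hstep
        intro j hj
        simp only [dif_pos hj]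
        exact (ih j hj).1
      have h2 : b i = h1.choose := by
        rw [hb i]
        unfold recStep
        rw [dif_pos h1]
      have h3 := h1.choose_spec
      rw [← h2] at h3
      refine ⟨h3.1, hP _ b i (b i) (fun j hj => ?_) h3.2⟩
      simp only [dif_pos hj]
  exact ⟨b, fun i => (main i).1, fun i => (main i).2⟩
end

section
theorem fair_of_step {Ω : Type} [m : MeasurableSpace Ω] (μ : Measure Ω) [IsFiniteMeasure μ]
    (E : Set Ω) (hE : MeasurableSet E) {I : Type} [LinearOrder I] (b : I → Ω → Bool)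
    (hb : ∀ i, Measurable (b i))
    (hs : ∀ i B', MeasurableSet[sig b (Set.Iio i)] B' →
      μ (E ∩ B' ∩ {w | b i w = true}) = 2⁻¹ * μ (E ∩ B')) : Fair μ E b := by
  refine ⟨hb, ?_⟩
  intro s v
  induction s using Finset.induction_on_max with
  | empty => simp
  | insert i t hmax ih =>
    have hit : i ∉ t := fun h => lt_irrefl _ (hmax i h)
    rw [Finset.card_insert_of_notMem hit, pow_succ', mul_assoc, ← ih]
    set B' : Set Ω := {w | ∀ j ∈ t, b j w = v j} with hB'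
    have hset : B' = ⋂ j ∈ t, (b j) ⁻¹' {v j} := by
      ext w
      simp [hB']
    have hBs : MeasurableSet[sig b (Set.Iio i)] B' := by
      rw [hset]
      refine Finset.measurableSet_biInter t fun j hj => ?_
      have h1 : MeasurableSpace.comap (b j) ⊤ ≤ sig b (Set.Iio i) :=
        le_iSup₂ (f := fun j (_ : j ∈ Set.Iio i) => MeasurableSpace.comap (b j) ⊤) j (hmax j hj)
      exact h1 _ ⟨{v j}, trivial, rfl⟩
    have hBm : MeasurableSet B' := by
      rw [hset]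
      exact Finset.measurableSet_biInter t fun j _ => hb j (measurableSet_singleton _)
    have htrue := hs i B' hBs
    have hsplit : {w | ∀ j ∈ insert i t, b j w = v j} = B' ∩ {w | b i w = v i} := by
      ext w
      simp only [Finset.mem_insert, forall_eq_or_imp, Set.mem_setOf_eq, Set.mem_inter_iff, hB']
      exact and_comm
    rw [hsplit, ← Set.inter_assoc]
    have hTm : MeasurableSet {w | b i w = true} := hb i (measurableSet_singleton true)
    have hdecomp := measure_inter_add_diff (μ := μ) (E ∩ B') hTm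
    have hdiff : (E ∩ B') \ {w | b i w = true} = E ∩ B' ∩ {w | b i w = false} := by
      ext w
      simp only [Set.mem_diff, Set.mem_inter_iff, Set.mem_setOf_eq, Bool.not_eq_true]
    rw [hdiff, htrue] at hdecomp
    have hfin : μ (E ∩ B') ≠ ⊤ := measure_ne_top _ _
    have hhalf : (2⁻¹ : ENNReal) * μ (E ∩ B') ≠ ⊤ :=
      ENNReal.mul_ne_top (by simp) hfin
    have hsum : (2⁻¹ : ENNReal) * μ (E ∩ B') + 2⁻¹ * μ (E ∩ B') = μ (E ∩ B') := by
      rw [← add_mul, ENNReal.inv_two_add_inv_two, one_mul]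
    cases hv : v i with
    | true => exact htrue
    | false =>
      have h1 : (2⁻¹ : ENNReal) * μ (E ∩ B') + μ (E ∩ B' ∩ {w | b i w = false}) =
          2⁻¹ * μ (E ∩ B') + 2⁻¹ * μ (E ∩ B') := by
        rw [hdecomp, hsum]
      exact (ENNReal.add_right_inj hhalf).1 h1
end

section
theorem sig_le' {Ω : Type} [m : MeasurableSpace Ω] {I : Type} (b : I → Ω → Bool)
    (hb : ∀ i, Measurable (b i)) (S : Set I) : sig b S ≤ m :=
  iSup₂_le (fun j _ => (hb j).comap_le)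

theorem sig_mono' {Ω : Type} {I : Type} (b : I → Ω → Bool) {S T : Set I} (h : S ⊆ T) :
    sig b S ≤ sig b T :=
  iSup₂_le (fun j hj => le_iSup₂ (f := fun j (_ : j ∈ T) => MeasurableSpace.comap (b j) ⊤) j (h hj))

theorem sig_bit' {Ω : Type} {I : Type} (b : I → Ω → Bool) {S : Set I} (a : I) (ha : a ∈ S)
    (v : Bool) : MeasurableSet[sig b S] {w | b a w = v} := by
  have h : MeasurableSpace.comap (b a) ⊤ ≤ sig b S :=
    le_iSup₂ (f := fun j (_ : j ∈ S) => MeasurableSpace.comap (b j) ⊤) a ha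
  apply h
  exact ⟨{v}, trivial, rfl⟩

theorem half_compl {Ω : Type} [m : MeasurableSpace Ω] (μ : Measure Ω) [IsFiniteMeasure μ]
    (X : Set Ω) (β : Ω → Bool) (hβ : Measurable β)
    (h : μ (X ∩ {w | β w = true}) = 2⁻¹ * μ X) : μ (X ∩ {w | β w = false}) = 2⁻¹ * μ X := by
  have hm : MeasurableSet {w | β w = true} := hβ (MeasurableSet.of_discrete (s := {true}))
  have h1 := measure_inter_add_diff (μ := μ) X hm
  have h2 : X \ {w | β w = true} = X ∩ {w | β w = false} := by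
    ext w
    simp
  rw [h2, h] at h1
  have h3 : 2⁻¹ * μ X + 2⁻¹ * μ X = μ X := by
    rw [← add_mul, ENNReal.inv_two_add_inv_two, one_mul]
  have h4 : 2⁻¹ * μ X ≠ ⊤ := ENNReal.mul_ne_top (by simp) (measure_ne_top μ X)
  rw [← ENNReal.add_right_inj h4, h1, h3]

theorem determined_aux {Ω : Type} [m : MeasurableSpace Ω] (μ : Measure Ω) [IsFiniteMeasure μ]
    (E : Set Ω) (hE : MeasurableSet E) {I : Type} [LinearOrder I]
    (b : I → Ω → Bool) (hb : ∀ i, Measurable (b i)) (A : I → Set Ω)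
    (hs : ∀ i, StepP μ (sig b (Set.Iio i)) E (A i) (b i))
    (A0 : Set Ω) (s : Finset I) : (∀ i ∈ s, A i = A0) →
    ∃ U G : Set Ω, MeasurableSet[sig b {j | ∃ i ∈ s, j ≤ i}] U ∧
      MeasurableSet[sig b {j | ∃ i ∈ s, j ≤ i}] G ∧ Disjoint G U ∧
      μ (E ∩ U) = (2⁻¹ : ENNReal) ^ s.card * μ E ∧
      μ (symmDiff (E ∩ A0) (E ∩ G) \ U) = 0 := by
  classical
  induction s using Finset.induction_on_max with
  | empty =>
    intro _
    refine ⟨Set.univ, ∅, @MeasurableSet.univ Ω (sig b {j | ∃ i ∈ (∅ : Finset I), j ≤ i}),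
      @MeasurableSet.empty Ω (sig b {j | ∃ i ∈ (∅ : Finset I), j ≤ i}), by simp, by simp, by simp⟩
  | insert a s hmax ih =>
    intro hA0
    obtain ⟨U, G, hU, hG, hd, hμ, hn⟩ := ih (fun i hi => hA0 i (Finset.mem_insert_of_mem hi))
    obtain ⟨H, hH, hhalf, hz1, hz2⟩ := hs a
    rw [hA0 a (Finset.mem_insert_self a s)] at hz1 hz2
    have hsub1 : {j | ∃ i ∈ s, j ≤ i} ⊆ Set.Iio a := by
      rintro j ⟨i, hi, hj⟩
      exact lt_of_le_of_lt hj (hmax i hi)
    have hsub2 : Set.Iio a ⊆ {j | ∃ i ∈ insert a s, j ≤ i} := by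
      intro j hj
      exact ⟨a, Finset.mem_insert_self a s, le_of_lt hj⟩
    have ha : a ∈ {j | ∃ i ∈ insert a s, j ≤ i} := ⟨a, Finset.mem_insert_self a s, le_rfl⟩
    have hU1 : MeasurableSet[sig b (Set.Iio a)] U := sig_mono' b hsub1 _ hU
    have hG1 : MeasurableSet[sig b (Set.Iio a)] G := sig_mono' b hsub1 _ hG
    have hU2 := sig_mono' b hsub2 _ hU1
    have hG2 := sig_mono' b hsub2 _ hG1
    have hH2 := sig_mono' b hsub2 _ hH
    have ht := sig_bit' b a ha true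
    have hf := sig_bit' b a ha false
    have hle := sig_le' b hb (Set.Iio a)
    have hUm : MeasurableSet U := hle _ hU1
    have hHm : MeasurableSet H := hle _ hH
    have htm : MeasurableSet {w | b a w = true} := hb a (MeasurableSet.of_discrete (s := {true}))
    have hfm : MeasurableSet {w | b a w = false} := hb a (MeasurableSet.of_discrete (s := {false}))
    refine ⟨U ∩ ((H ∩ {w | b a w = true}) ∪ (Hᶜ ∩ {w | b a w = false})),
      G ∪ (U ∩ Hᶜ ∩ {w | b a w = true}), ?_, ?_, ?_, ?_, ?_⟩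
    · exact MeasurableSet.inter hU2 (MeasurableSet.union (MeasurableSet.inter hH2 ht)
        (MeasurableSet.inter (MeasurableSet.compl hH2) hf))
    · exact MeasurableSet.union hG2 (MeasurableSet.inter
        (MeasurableSet.inter hU2 (MeasurableSet.compl hH2)) ht)
    · rw [Set.disjoint_left] at hd ⊢
      rintro w (hw | hw) ⟨hw2, hw3⟩
      · exact hd hw hw2
      · rcases hw3 with hw3 | hw3
        · exact hw.1.2 hw3.1
        · have h1 : b a w = true := hw.2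
          have h2 : b a w = false := hw3.2
          rw [h1] at h2
          exact Bool.noConfusion h2
    · have e1 : E ∩ (U ∩ ((H ∩ {w | b a w = true}) ∪ (Hᶜ ∩ {w | b a w = false}))) =
          (E ∩ (U ∩ H) ∩ {w | b a w = true}) ∪ (E ∩ (U ∩ Hᶜ) ∩ {w | b a w = false}) := by
        ext w
        simp only [Set.mem_inter_iff, Set.mem_union, Set.mem_compl_iff, Set.mem_setOf_eq]
        tauto
      have hdis : Disjoint (E ∩ (U ∩ H) ∩ {w | b a w = true})
          (E ∩ (U ∩ Hᶜ) ∩ {w | b a w = false}) := by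
        rw [Set.disjoint_left]
        rintro w ⟨⟨_, _, h1⟩, _⟩ ⟨⟨_, _, h2⟩, _⟩
        exact h2 h1
      have hm2 : MeasurableSet (E ∩ (U ∩ Hᶜ) ∩ {w | b a w = false}) :=
        (hE.inter (hUm.inter hHm.compl)).inter hfm
      have h1 := hhalf (U ∩ H) (MeasurableSet.inter hU1 hH)
      have h2 := half_compl μ (E ∩ (U ∩ Hᶜ)) (b a) (hb a)
        (hhalf (U ∩ Hᶜ) (MeasurableSet.inter hU1 (MeasurableSet.compl hH)))
      rw [e1, measure_union hdis hm2, h1, h2, ← mul_add]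
      have h3 : μ (E ∩ (U ∩ H)) + μ (E ∩ (U ∩ Hᶜ)) = μ (E ∩ U) := by
        have h4 := measure_inter_add_diff (μ := μ) (E ∩ U) hHm
        have h5 : E ∩ U ∩ H = E ∩ (U ∩ H) := Set.inter_assoc _ _ _
        have h6 : (E ∩ U) \ H = E ∩ (U ∩ Hᶜ) := by
          ext w
          simp only [Set.mem_inter_iff, Set.mem_diff, Set.mem_compl_iff]
          tauto
        rwa [h5, h6] at h4
      rw [h3, hμ, Finset.card_insert_of_notMem (fun h => lt_irrefl _ (hmax a h)), pow_succ]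
      ring
    · refine measure_mono_null ?_ (measure_union_null (measure_union_null hn hz1) hz2)
      rintro w ⟨hw1, hw2⟩
      rw [Set.disjoint_left] at hd
      have hwE : w ∈ E := by
        rcases hw1 with h | h
        · exact h.1.1
        · exact h.1.1
      by_cases hwU : w ∈ U
      · have hbt : b a w = true ∨ b a w = false := by
          cases b a w <;> simp
        by_cases hwH : w ∈ H
        · have hbf : b a w = false := by
            rcases hbt with h | h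
            · exact absurd ⟨hwU, Or.inl ⟨hwH, h⟩⟩ hw2
            · exact h
          left; right
          refine ⟨⟨⟨hwE, hwH⟩, hbf⟩, ?_⟩
          rcases hw1 with h | h
          · exact h.1.2
          · exfalso
            rcases h.1.2 with h3 | h3
            · exact hd h3 hwU
            · exact h3.1.2 hwH
        · have hbf : b a w = true := by
            rcases hbt with h | h
            · exact h
            · exact absurd ⟨hwU, Or.inr ⟨hwH, h⟩⟩ hw2
          right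
          refine ⟨⟨⟨hwE, hwH⟩, hbf⟩, ?_⟩
          intro hwA
          rcases hw1 with h | h
          · exact h.2 ⟨hwE, Or.inr ⟨⟨hwU, hwH⟩, hbf⟩⟩
          · exact h.2 ⟨hwE, hwA⟩
      · left; left
        refine ⟨?_, hwU⟩
        rcases hw1 with h | h
        · left
          exact ⟨h.1, fun h3 => h.2 ⟨h3.1, Or.inl h3.2⟩⟩
        · right
          refine ⟨⟨hwE, ?_⟩, h.2⟩
          rcases h.1.2 with h3 | h3
          · exact h3
          · exact absurd h3.1.1 hwU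

theorem determined {Ω : Type} [m : MeasurableSpace Ω] (μ : Measure Ω) [IsFiniteMeasure μ]
    (E : Set Ω) (hE : MeasurableSet E) {I : Type} [LinearOrder I] [WellFoundedLT I]
    (b : I → Ω → Bool) (hb : ∀ i, Measurable (b i)) (A : I → Set Ω)
    (hA : ∀ i, MeasurableSet (A i))
    (hs : ∀ i, StepP μ (sig b (Set.Iio i)) E (A i) (b i))
    (A0 : Set Ω) (hinf : {i | A i = A0}.Infinite) (ε : ENNReal) (hε : 0 < ε) :
    ∃ A', MeasurableSet[sig b Set.univ] A' ∧ μ (symmDiff (E ∩ A0) (E ∩ A')) ≤ ε := by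
  have hlim : Filter.Tendsto (fun k : ℕ => (2⁻¹ : ENNReal) ^ k * μ E) Filter.atTop (nhds 0) := by
    have h1 : Filter.Tendsto (fun k : ℕ => (2⁻¹ : ENNReal) ^ k) Filter.atTop (nhds 0) :=
      ENNReal.tendsto_pow_atTop_nhds_zero_of_lt_one (by
        rw [ENNReal.inv_lt_one]
        exact ENNReal.one_lt_two)
    have h2 := ENNReal.Tendsto.mul_const h1 (b := μ E) (Or.inr (measure_ne_top μ E))
    rwa [zero_mul] at h2
  obtain ⟨k, hk⟩ := (hlim.eventually (gt_mem_nhds hε)).exists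
  obtain ⟨s, hsub, hcard⟩ := hinf.exists_subset_card_eq k
  obtain ⟨U, G, hU, hG, hd, hμ, hn⟩ := determined_aux μ E hE b hb A hs A0 s (fun i hi => hsub hi)
  refine ⟨G, sig_mono' b (Set.subset_univ _) _ hG, ?_⟩
  calc μ (symmDiff (E ∩ A0) (E ∩ G))
      ≤ μ ((symmDiff (E ∩ A0) (E ∩ G) \ U) ∪ (E ∩ U)) := by
        apply measure_mono
        intro w hw
        have hwE : w ∈ E := by
          rcases hw with h | h
          · exact h.1.1
          · exact h.1.1
        by_cases hwU : w ∈ U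
        · exact Or.inr ⟨hwE, hwU⟩
        · exact Or.inl ⟨hw, hwU⟩
    _ ≤ μ (symmDiff (E ∩ A0) (E ∩ G) \ U) + μ (E ∩ U) := measure_union_le _ _
    _ = (2⁻¹ : ENNReal) ^ k * μ E := by rw [hn, hμ, hcard, zero_add]
    _ ≤ ε := (le_of_lt hk)
end

section
theorem good_atom {Ω : Type} [m : MeasurableSpace Ω] (μ : Measure Ω) [IsFiniteMeasure μ]
    (E : Set Ω) (h : Atom μ E) : Good μ E := by
  obtain ⟨hE, hpos, hat⟩ := h
  refine ⟨hE, Empty, inferInstance, inferInstance, fun i => i.elim, fun i => i.elim, ?_, ?_⟩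
  · refine ⟨fun i => i.elim, fun s v => ?_⟩
    have hs : s = ∅ := by
      ext i
      exact i.elim
    subst hs
    simp
  · intro A hA hAE ε _
    rcases hat A hA hAE with h0 | h0
    · refine ⟨∅, @MeasurableSet.empty _ (sig _ _), ?_⟩
      have : symmDiff A (E ∩ ∅) = A := by simp
      rw [this, h0]
      exact zero_le
    · refine ⟨Set.univ, @MeasurableSet.univ _ (sig _ _), ?_⟩
      have : symmDiff A (E ∩ Set.univ) = E \ A := by
        ext w
        rw [Set.inter_univ, Set.mem_symmDiff]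
        constructor
        · rintro (⟨h1, h2⟩ | h1)
          · exact absurd (hAE h1) h2
          · exact h1
        · intro h1
          exact Or.inr h1
      rw [this, h0]
      exact zero_le
end

section
theorem sig_le_comap_7816 {Ω : Type} {I : Type} [LinearOrder I] (b : I → Ω → Bool) (i : I) :
    sig b (Set.Iio i) ≤ MeasurableSpace.comap (fun (w : Ω) (j : Set.Iio i) => b j.1 w) ⊤ := by
  unfold sig
  refine iSup₂_le ?_
  intro j hj s hs
  obtain ⟨t, _, rfl⟩ := hs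
  exact ⟨{x | x ⟨j, hj⟩ ∈ t}, trivial, rfl⟩

theorem measure_diff_add_inter_7816 {Ω : Type} [MeasurableSpace Ω] (μ : Measure Ω) {F F' : Set Ω}
    (hF' : MeasurableSet F') (h : F' ⊆ F) : μ (F \ F') + μ F' = μ F := by
  have := measure_sdiff_add_inter (μ := μ) F hF'
  rwa [Set.inter_eq_right.mpr h] at this

theorem ra_finite {Ω : Type} [m : MeasurableSpace Ω] (μ : Measure Ω) [IsFiniteMeasure μ]
    (E : Set Ω) (hE : MeasurableSet E) (hna : ∀ F, F ⊆ E → ¬ Atom μ F)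
    {I : Type} [LinearOrder I] (b : I → Ω → Bool) (hb : ∀ i, Measurable (b i)) (i : I)
    (hi : (Set.Iio i).Finite) : RA μ (sig b (Set.Iio i)) E := by
  intro E2 hE2 hE2E hpos
  by_contra hcon
  push Not at hcon
  have hfI : Finite (Set.Iio i) := hi
  let T : Ω → (Set.Iio i → Bool) := fun w j => b j.1 w
  have hfinB : {v : ENNReal | ∃ F, MeasurableSet F ∧ F ⊆ E2 ∧ 0 < μ F ∧ v = μ F}.Finite := by
    have h1 : (Set.range (fun S : Set (Set.Iio i → Bool) => μ (E2 ∩ T ⁻¹' S))).Finite :=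
      Set.finite_range _
    refine h1.subset ?_
    rintro v ⟨F, hF, hFE, _, rfl⟩
    obtain ⟨B', hB', h0⟩ := hcon F hF hFE
    obtain ⟨S, _, rfl⟩ := sig_le_comap_7816 b i B' hB'
    refine ⟨S, ?_⟩
    exact (measure_congr (measure_symmDiff_eq_zero_iff.mp h0)).symm
  obtain ⟨v, ⟨F, hF, hFE, hFpos, hv⟩, hmin⟩ := Set.exists_min_image _ id hfinB ⟨μ E2, E2, hE2, subset_rfl, hpos, rfl⟩
  have hnaF := hna F (hFE.trans hE2E)
  unfold Atom at hnaF
  push Not at hnaF
  obtain ⟨F', hF', hF'F, hne1, hne2⟩ := hnaF hF hFpos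
  have h2 := hmin (μ F') ⟨F', hF', hF'F.trans hFE, pos_iff_ne_zero.mpr hne1, rfl⟩
  simp only [id] at h2
  rw [hv] at h2
  have h3 : μ F = μ F' + μ (F \ F') := by
    rw [add_comm, measure_diff_add_inter_7816 μ hF' hF'F]
  have hfin : μ F' ≠ ⊤ := measure_ne_top μ F'
  rw [h3] at h2
  have h4 : μ F' < μ F' + μ (F \ F') := ENNReal.lt_add_right hfin hne2
  exact absurd h2 (not_le.mpr h4)
end

section
theorem good_sep {Ω : Type} [m : MeasurableSpace Ω] (μ : Measure Ω) [IsFiniteMeasure μ]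
    (E : Set Ω) (hE : MeasurableSet E) (hsep : Sep μ E)
    (hRAf : ∀ (b : ℕ → Ω → Bool), (∀ i, Measurable (b i)) → ∀ i, RA μ (sig b (Set.Iio i)) E)
    (hrec : ∀ {I : Type} [LinearOrder I] [WellFoundedLT I] (A : I → Set Ω),
      (∀ i, MeasurableSet (A i)) →
      (∀ b : I → Ω → Bool, (∀ i, Measurable (b i)) → ∀ i, RA μ (sig b (Set.Iio i)) E) →
      ∃ b : I → Ω → Bool, Fair μ E b ∧ ∀ A0 : Set Ω, {i | A i = A0}.Infinite →
        ∀ ε : ENNReal, 0 < ε → ∃ A', MeasurableSet[sig b Set.univ] A' ∧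
          μ (symmDiff (E ∩ A0) (E ∩ A')) ≤ ε)
    : Good μ E := by
  obtain ⟨D, hDm, hD⟩ := hsep
  obtain ⟨b, hfair, hb⟩ := hrec (I := ℕ) (fun n => D (Nat.unpair n).1) (fun i => hDm _) hRAf
  refine ⟨hE, ℕ, inferInstance, inferInstance, b, ?_, hfair, ?_⟩
  · intro i
    exact (Set.Iio i).to_countable
  · intro A hA hAE ε hε
    obtain ⟨n, hn⟩ := hD A hA hAE (ε / 2) (ENNReal.half_pos hε.ne')
    have hinf : {i : ℕ | (fun n => D (Nat.unpair n).1) i = D n}.Infinite := by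
      refine Set.infinite_of_injective_forall_mem (f := fun l => Nat.pair n l) ?_ ?_
      · intro l l' h
        have h2 : (Nat.unpair (Nat.pair n l)).2 = (Nat.unpair (Nat.pair n l')).2 := by
          simp only at h
          rw [h]
        simpa using h2
      · intro l
        simp
    obtain ⟨A', hA', hA'2⟩ := hb (D n) hinf (ε / 2) (ENNReal.half_pos hε.ne')
    refine ⟨A', hA', ?_⟩
    calc μ (symmDiff A (E ∩ A')) ≤ μ (symmDiff A (E ∩ D n)) + μ (symmDiff (E ∩ D n) (E ∩ A')) :=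
          measure_symmDiff_le _ _ _
      _ ≤ ε / 2 + ε / 2 := add_le_add hn hA'2
      _ = ε := ENNReal.add_halves ε
end

section
theorem cgen_7818 {Ω : Type} {I : Type} [LinearOrder I] (b : I → Ω → Bool) (i : I)
    (hi : (Set.Iio i).Countable) : @MeasurableSpace.CountablyGenerated Ω (sig b (Set.Iio i)) := by
  refine @MeasurableSpace.CountablyGenerated.mk Ω (sig b (Set.Iio i))
    ⟨(fun j => b j ⁻¹' {true}) '' (Set.Iio i), hi.image _, ?_⟩
  apply le_antisymm
  · unfold sig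
    refine iSup₂_le fun j hj => ?_
    have h2 : @Measurable Ω Bool
        (MeasurableSpace.generateFrom ((fun j => b j ⁻¹' {true}) '' (Set.Iio i))) ⊤ (b j) := by
      apply @measurable_to_bool Ω (MeasurableSpace.generateFrom ((fun j => b j ⁻¹' {true}) '' (Set.Iio i)))
      exact MeasurableSpace.measurableSet_generateFrom ⟨j, hj, rfl⟩
    rintro _ ⟨t, _, rfl⟩
    exact h2 trivial
  · apply MeasurableSpace.generateFrom_le
    rintro _ ⟨j, hj, rfl⟩
    have h1 : MeasurableSpace.comap (b j) ⊤ ≤ sig b (Set.Iio i) := by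
      unfold sig
      exact le_iSup₂_of_le j hj le_rfl
    exact h1 _ ⟨{true}, trivial, rfl⟩

theorem dense_aux_7818 {Ω : Type} [B : MeasurableSpace Ω] (ν : Measure Ω)
    [IsFiniteMeasure ν] (hgen : MeasurableSpace.CountablyGenerated Ω) :
    ∃ 𝒜 : Set (Set Ω), 𝒜.Countable ∧ (∀ s ∈ 𝒜, MeasurableSet s) ∧ 𝒜.Nonempty ∧
      ∀ s, MeasurableSet s → ∀ ε : ℝ, 0 < ε → ∃ t ∈ 𝒜, ν (symmDiff s t) < ENNReal.ofReal ε := by
  have h1 : IsSeparable ν := isSeparable_of_sigmaFinite ν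
  obtain ⟨𝒜, h2, h3⟩ := exists_countable_measureDense ν
  exact ⟨𝒜, h2, fun s hs => h3.measurable s hs, h3.nonempty,
    fun s hs ε hε => h3.approx s hs (measure_ne_top ν s) ε hε⟩

theorem dense_7818 {Ω : Type} (B : MeasurableSpace Ω) [m : MeasurableSpace Ω] (μ : Measure Ω)
    [IsFiniteMeasure μ] (E2 : Set Ω) (hB : B ≤ m)
    (hgen : @MeasurableSpace.CountablyGenerated Ω B) :
    ∃ 𝒜 : Set (Set Ω), 𝒜.Countable ∧ (∀ s ∈ 𝒜, MeasurableSet[B] s) ∧ 𝒜.Nonempty ∧
      ∀ s, MeasurableSet[B] s → ∀ ε : ℝ, 0 < ε → ∃ t ∈ 𝒜,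
        μ (symmDiff s t ∩ E2) < ENNReal.ofReal ε := by
  have hfin : @IsFiniteMeasure Ω B ((μ.restrict E2).trim hB) := isFiniteMeasure_trim hB
  obtain ⟨𝒜, h1, h2, h3, h4⟩ := @dense_aux_7818 Ω B ((μ.restrict E2).trim hB) hfin hgen
  refine ⟨𝒜, h1, h2, h3, ?_⟩
  intro s hs ε hε
  obtain ⟨t, ht, hlt⟩ := h4 s hs ε hε
  refine ⟨t, ht, ?_⟩
  have hm : MeasurableSet[B] (symmDiff s t) :=
    @MeasurableSet.symmDiff Ω B _ _ hs (h2 t ht)
  rw [trim_measurableSet_eq hB hm, Measure.restrict_apply (hB _ hm)] at hlt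
  exact hlt

theorem ra_countable {Ω : Type} [m : MeasurableSpace Ω] (μ : Measure Ω) [IsFiniteMeasure μ]
    (E : Set Ω) (hE : MeasurableSet E)
    (hns : ∀ F, MeasurableSet F → F ⊆ E → 0 < μ F → ¬ Sep μ F)
    {I : Type} [LinearOrder I] (b : I → Ω → Bool) (hb : ∀ i, Measurable (b i)) (i : I)
    (hi : (Set.Iio i).Countable) : RA μ (sig b (Set.Iio i)) E := by
  classical
  have hB : sig b (Set.Iio i) ≤ m := by
    unfold sig
    refine iSup₂_le fun j _ => ?_
    exact (hb j).comap_le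
  have hgen : @MeasurableSpace.CountablyGenerated Ω (sig b (Set.Iio i)) := cgen_7818 b i hi
  intro E2 hE2 hE2E hpos
  by_contra hcon
  push Not at hcon
  apply hns E2 hE2 hE2E hpos
  obtain ⟨𝒜, h𝒜c, h𝒜m, h𝒜ne, h𝒜⟩ := dense_7818 (sig b (Set.Iio i)) μ E2 hB hgen
  obtain ⟨D, hD⟩ := h𝒜c.exists_eq_range h𝒜ne
  have hDB : ∀ n, MeasurableSet[sig b (Set.Iio i)] (D n) := by
    intro n
    exact h𝒜m (D n) (by rw [hD]; exact Set.mem_range_self n)
  refine ⟨D, fun n => hB _ (hDB n), ?_⟩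
  intro F hF hFE ε hε
  obtain ⟨B', hB'm, hB'⟩ := hcon F hF hFE
  obtain ⟨ε', hε', hε'2⟩ : ∃ ε' : ℝ, 0 < ε' ∧ ENNReal.ofReal ε' ≤ ε := by
    by_cases htop : ε = ⊤
    · exact ⟨1, one_pos, by rw [htop]; exact le_top⟩
    · exact ⟨ε.toReal, ENNReal.toReal_pos hε.ne' htop, by rw [ENNReal.ofReal_toReal htop]⟩
  obtain ⟨t, ht, hνt⟩ := h𝒜 B' hB'm ε' hε'
  rw [hD] at ht
  obtain ⟨n, rfl⟩ := ht
  refine ⟨n, ?_⟩
  have hsub : symmDiff F (E2 ∩ D n) ⊆ symmDiff F (E2 ∩ B') ∪ (symmDiff B' (D n) ∩ E2) := by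
    intro w hw
    simp only [Set.mem_symmDiff, Set.mem_inter_iff, Set.mem_union] at hw ⊢
    by_cases h2 : w ∈ E2 <;> by_cases h3 : w ∈ B' <;> by_cases h4 : w ∈ D n <;>
      by_cases h5 : w ∈ F <;> simp_all
  calc μ (symmDiff F (E2 ∩ D n))
      ≤ μ (symmDiff F (E2 ∩ B') ∪ (symmDiff B' (D n) ∩ E2)) := measure_mono hsub
    _ ≤ μ (symmDiff F (E2 ∩ B')) + μ (symmDiff B' (D n) ∩ E2) := measure_union_le _ _
    _ = μ (symmDiff B' (D n) ∩ E2) := by rw [hB', zero_add]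
    _ ≤ ENNReal.ofReal ε' := hνt.le
    _ ≤ ε := hε'2
end

section
theorem good_nws {Ω : Type} [m : MeasurableSpace Ω] (μ : Measure Ω) [IsFiniteMeasure μ]
    (E : Set Ω) (hE : MeasurableSet E)
    (𝒟 : Set (Set Ω)) (h𝒟m : ∀ D ∈ 𝒟, MeasurableSet D) (h𝒟c : Cardinal.mk 𝒟 ≤ Cardinal.aleph 1)
    (h𝒟 : ∀ A, MeasurableSet A → ∀ ε : ENNReal, 0 < ε → ∃ D ∈ 𝒟, μ (symmDiff A D) ≤ ε)
    (hRAc : ∀ {I : Type} [LinearOrder I] (b : I → Ω → Bool), (∀ i, Measurable (b i)) → ∀ i,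
      (Set.Iio i).Countable → RA μ (sig b (Set.Iio i)) E)
    (hrec : ∀ {I : Type} [LinearOrder I] [WellFoundedLT I] (A : I → Set Ω),
      (∀ i, MeasurableSet (A i)) →
      (∀ b : I → Ω → Bool, (∀ i, Measurable (b i)) → ∀ i, RA μ (sig b (Set.Iio i)) E) →
      ∃ b : I → Ω → Bool, Fair μ E b ∧ ∀ A0 : Set Ω, {i | A i = A0}.Infinite →
        ∀ ε : ENNReal, 0 < ε → ∃ A', MeasurableSet[sig b Set.univ] A' ∧
          μ (symmDiff (E ∩ A0) (E ∩ A')) ≤ ε)
    : Good μ E := by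
  classical
  let W : Type := (Cardinal.aleph 1).ord.ToType
  have hWcard : Cardinal.mk W = Cardinal.aleph 1 := by
    exact Cardinal.mk_ord_toType _
  have hWio : ∀ ξ : W, (Set.Iio ξ).Countable := by
    intro ξ
    rw [← Cardinal.le_aleph0_iff_set_countable]
    have h : Cardinal.mk (Set.Iio ξ) < Cardinal.aleph 1 := by
      have h0 := Cardinal.mk_Iio_lt ξ (by rw [hWcard]; exact (Ordinal.type_toType _).symm)
      rwa [hWcard] at h0
    rw [← Order.lt_succ_iff, Cardinal.succ_aleph0]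
    exact h
  have hWic : ∀ ξ : W, (Set.Iic ξ).Countable := by
    intro ξ
    rw [← Set.Iio_insert]
    exact (hWio ξ).insert ξ
  have hio : ∀ i : W ×ₗ ℕ, (Set.Iio i).Countable := by
    intro i
    have hsub : Set.Iio i ⊆ (fun p : W × ℕ => toLex p) '' ((Set.Iic (ofLex i).1) ×ˢ Set.univ) := by
      intro j hj
      refine ⟨ofLex j, ⟨?_, trivial⟩, rfl⟩
      have hj' : j < i := hj
      rw [Prod.Lex.lt_iff] at hj'
      rcases hj' with h | h
      · exact h.le
      · exact h.1.le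
    exact (((hWic _).prod Set.countable_univ).image _).mono hsub
  -- surjection
  obtain ⟨D0, hD0, -⟩ := h𝒟 ∅ MeasurableSet.empty 1 one_pos
  have : Nonempty 𝒟 := ⟨⟨D0, hD0⟩⟩
  have hle : Cardinal.mk 𝒟 ≤ Cardinal.mk W := by rw [hWcard]; exact h𝒟c
  obtain ⟨emb⟩ := Cardinal.le_def _ _ |>.1 hle
  let f : W → 𝒟 := Function.invFun emb
  have hf : Function.Surjective f := Function.invFun_surjective emb.injective
  obtain ⟨b, hb1, hb2⟩ := hrec (I := W ×ₗ ℕ) (fun x => (f (ofLex x).1 : Set Ω))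
    (fun i => h𝒟m _ (f (ofLex i).1).2) (fun b hb i => hRAc b hb i (hio i))
  refine ⟨hE, W ×ₗ ℕ, inferInstance, inferInstance, b, hio, hb1, ?_⟩
  intro A hA hAE ε hε
  have hε2 : 0 < ε / 2 := ENNReal.half_pos hε.ne'
  obtain ⟨D, hD, hDA⟩ := h𝒟 A hA (ε / 2) hε2
  obtain ⟨ξ, hξ⟩ := hf ⟨D, hD⟩
  have hinf : {i : W ×ₗ ℕ | (f (ofLex i).1 : Set Ω) = D}.Infinite := by
    apply Set.infinite_of_injective_forall_mem (f := fun n : ℕ => (toLex (ξ, n) : W ×ₗ ℕ))
    · intro n m hnm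
      have := congrArg (fun x : W ×ₗ ℕ => (ofLex x).2) hnm
      exact this
    · intro n
      show (f ξ : Set Ω) = D
      rw [hξ]
  obtain ⟨A', hA', hAA⟩ := hb2 D hinf (ε / 2) hε2
  refine ⟨A', hA', ?_⟩
  have hsub : symmDiff A (E ∩ A') ⊆ symmDiff A D ∪ symmDiff (E ∩ D) (E ∩ A') := by
    intro w hw
    rw [Set.mem_symmDiff] at hw
    by_cases hwD : w ∈ D
    · rcases hw with ⟨h1, h2⟩ | ⟨h1, h2⟩
      · right
        rw [Set.mem_symmDiff]
        exact Or.inl ⟨⟨hAE h1, hwD⟩, h2⟩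
      · left
        rw [Set.mem_symmDiff]
        exact Or.inr ⟨hwD, h2⟩
    · rcases hw with ⟨h1, h2⟩ | ⟨h1, h2⟩
      · left
        rw [Set.mem_symmDiff]
        exact Or.inl ⟨h1, hwD⟩
      · right
        rw [Set.mem_symmDiff]
        exact Or.inr ⟨h1, fun h => hwD h.2⟩
  calc μ (symmDiff A (E ∩ A')) ≤ μ (symmDiff A D ∪ symmDiff (E ∩ D) (E ∩ A')) :=
        measure_mono hsub
    _ ≤ μ (symmDiff A D) + μ (symmDiff (E ∩ D) (E ∩ A')) := measure_union_le _ _
    _ ≤ ε / 2 + ε / 2 := add_le_add hDA hAA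
    _ = ε := ENNReal.add_halves ε
end

section
theorem exhaustion {Ω : Type} [m : MeasurableSpace Ω] (μ : Measure Ω) [IsFiniteMeasure μ]
    (G : Set Ω → Prop) (hG : ∀ E, G E → MeasurableSet E)
    (h : ∀ E, MeasurableSet E → 0 < μ E → ∃ E' ⊆ E, G E' ∧ 0 < μ E') :
    ∃ P : ℕ → Set Ω, (∀ n, G (P n) ∨ P n = ∅) ∧ Pairwise (Function.onFun Disjoint P) ∧
      μ (⋃ n, P n)ᶜ = 0 := by
  have hex : ∀ S : Set Ω, ∃ Q : Set Ω, Q ⊆ S ∧ (G Q ∨ Q = ∅) ∧
      ∀ E' : Set Ω, E' ⊆ S → G E' → μ E' ≤ 2 * μ Q := by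
    intro S
    obtain ⟨t, ht⟩ : ∃ t : ENNReal, t = ⨆ E' : {E' : Set Ω // E' ⊆ S ∧ G E'}, μ E'.1 :=
      ⟨_, rfl⟩
    have hle : ∀ E' : Set Ω, E' ⊆ S → G E' → μ E' ≤ t := by
      intro E' h1 h2
      rw [ht]
      exact le_iSup (fun E' : {E' : Set Ω // E' ⊆ S ∧ G E'} => μ E'.1) ⟨E', h1, h2⟩
    by_cases h0 : t = 0
    · refine ⟨∅, Set.empty_subset _, Or.inr rfl, fun E' h1 h2 => ?_⟩
      refine (hle E' h1 h2).trans ?_
      rw [h0]
      exact zero_le'
    · have htop : t ≠ ⊤ := by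
        have h1 : t ≤ μ Set.univ := by
          rw [ht]
          exact iSup_le fun E' => measure_mono (Set.subset_univ _)
        exact ne_top_of_le_ne_top (measure_ne_top μ _) h1
      have h1 : t / 2 < ⨆ E' : {E' : Set Ω // E' ⊆ S ∧ G E'}, μ E'.1 := by
        rw [← ht]
        exact ENNReal.half_lt_self h0 htop
      obtain ⟨E1, hE1⟩ := lt_iSup_iff.1 h1
      refine ⟨E1.1, E1.2.1, Or.inl E1.2.2, fun E' h2 h3 => ?_⟩
      refine (hle E' h2 h3).trans ?_
      have h4 : 2 * (t / 2) = t := ENNReal.mul_div_cancel (by norm_num) (by norm_num)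
      rw [← h4]
      exact mul_le_mul_right hE1.le 2
  choose Q hQ1 hQ2 hQ3 using hex
  obtain ⟨R, hR0, hRs⟩ : ∃ R : ℕ → Set Ω, R 0 = Set.univ ∧
      ∀ n, R (n + 1) = R n \ Q (R n) :=
    ⟨fun n => Nat.rec Set.univ (fun _ S => S \ Q S) n, rfl, fun _ => rfl⟩
  have hQm : ∀ S, MeasurableSet (Q S) := by
    intro S
    rcases hQ2 S with h1 | h1
    · exact hG _ h1
    · rw [h1]
      exact MeasurableSet.empty
  have hanti : Antitone R := by
    apply antitone_nat_of_succ_le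
    intro n
    rw [hRs]
    exact Set.diff_subset
  have hdisj : ∀ i j, i < j → Disjoint (Q (R i)) (Q (R j)) := by
    intro i j hij
    have h1 : Q (R j) ⊆ R (i + 1) := (hQ1 (R j)).trans (hanti hij)
    rw [hRs] at h1
    exact Set.disjoint_left.2 fun x hx hx' => (h1 hx').2 hx
  have hpair : Pairwise (Function.onFun Disjoint (fun n => Q (R n))) := by
    intro i j hij
    rcases lt_or_gt_of_ne hij with h1 | h1
    · exact hdisj i j h1
    · exact (hdisj j i h1).symm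
  refine ⟨fun n => Q (R n), fun n => hQ2 _, hpair, ?_⟩
  by_contra hcon
  have hpos : 0 < μ (⋃ n, Q (R n))ᶜ := pos_iff_ne_zero.2 hcon
  have hmeas : MeasurableSet (⋃ n, Q (R n)) := MeasurableSet.iUnion fun n => hQm _
  obtain ⟨E', hE1, hE2, hE3⟩ := h _ hmeas.compl hpos
  have hsub : ∀ n, (⋃ n, Q (R n))ᶜ ⊆ R n := by
    intro n
    induction n with
    | zero => rw [hR0]; exact Set.subset_univ _
    | succ k ih =>
      rw [hRs]
      intro x hx
      refine ⟨ih hx, fun hx' => hx (Set.mem_iUnion.2 ⟨k, hx'⟩)⟩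
  have hge : ∀ n, μ E' ≤ 2 * μ (Q (R n)) := fun n => hQ3 (R n) E' (hE1.trans (hsub n)) hE2
  have hsum : ∑' n, μ (Q (R n)) ≤ μ Set.univ := by
    rw [← measure_iUnion hpair (fun n => hQm _)]
    exact measure_mono (Set.subset_univ _)
  have htop : ∑' _ : ℕ, μ E' = ⊤ := ENNReal.tsum_const_eq_top_of_ne_zero hE3.ne'
  have h2 : ∑' _ : ℕ, μ E' ≤ 2 * ∑' n, μ (Q (R n)) := by
    rw [← ENNReal.tsum_mul_left]
    exact ENNReal.tsum_le_tsum hge
  rw [htop] at h2
  have h3 : 2 * ∑' n, μ (Q (R n)) < ⊤ := by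
    refine ENNReal.mul_lt_top (by norm_num) (lt_of_le_of_lt hsum (measure_lt_top μ _))
  exact absurd (lt_of_le_of_lt h2 h3) (lt_irrefl _)
end

section
theorem dense_family (p : ENNReal) [Fact (1 ≤ p)] (hp : p ≠ ⊤) {Ω : Type}
    [MeasurableSpace Ω] (μ : Measure Ω) [IsFiniteMeasure μ] (D : Set (Lp ℝ p μ)) (hD : Dense D)
    (hc : Cardinal.mk D ≤ Cardinal.aleph 1) :
    ∃ 𝒟 : Set (Set Ω), (∀ A ∈ 𝒟, MeasurableSet A) ∧ Cardinal.mk 𝒟 ≤ Cardinal.aleph 1 ∧
      ∀ A, MeasurableSet A → ∀ ε : ENNReal, 0 < ε → ∃ A' ∈ 𝒟, μ (symmDiff A A') ≤ ε := by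
  refine ⟨Set.range (fun g : D => {w : Ω | (1 / 2 : ℝ) < (g : Lp ℝ p μ) w}), ?_,
    Cardinal.mk_range_le.trans hc, ?_⟩
  · rintro A ⟨g, rfl⟩
    exact measurableSet_lt measurable_const (Lp.stronglyMeasurable (g : Lp ℝ p μ)).measurable
  · intro A hA ε hε
    have hp1 : (1 : ENNReal) ≤ p := Fact.out
    have hp0 : p ≠ 0 := fun h => by rw [h] at hp1; simp at hp1
    have hq : 0 < p.toReal := ENNReal.toReal_pos hp0 hp
    have he0 : 0 < (min ε 1).toReal := by
      apply ENNReal.toReal_pos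
      · exact (lt_min hε one_pos).ne'
      · exact (min_le_right _ _).trans_lt ENNReal.one_lt_top |>.ne
    set e := (min ε 1).toReal with he
    set δ : ℝ := e ^ (1 / p.toReal) / 2 with hδ
    have hδ0 : 0 < δ := by
      have := Real.rpow_pos_of_pos he0 (1 / p.toReal)
      positivity
    obtain ⟨g, hgD, hg⟩ := hD.exists_dist_lt (indicatorConstLp p hA (measure_ne_top μ A) (1 : ℝ)) hδ0
    refine ⟨_, ⟨⟨g, hgD⟩, rfl⟩, ?_⟩
    set f := indicatorConstLp p hA (measure_ne_top μ A) (1 : ℝ) with hf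
    have h1 : eLpNorm (⇑f - ⇑g) p μ ≤ ENNReal.ofReal δ := by
      rw [← Lp.edist_def, edist_dist]
      exact ENNReal.ofReal_le_ofReal hg.le
    have h2 := meas_ge_le_mul_pow_eLpNorm_enorm μ hp0 hp
      ((Lp.aestronglyMeasurable f).sub (Lp.aestronglyMeasurable g))
      (ε := (2⁻¹ : ENNReal)) (by simp) (by simp)
    have h3 : μ (symmDiff A {w : Ω | (1 / 2 : ℝ) < g w}) ≤
        μ {x | (2⁻¹ : ENNReal) ≤ ‖(⇑f - ⇑g) x‖ₑ} := by
      apply measure_mono_ae
      have h4 : ⇑f =ᵐ[μ] A.indicator fun _ => (1 : ℝ) := indicatorConstLp_coeFn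
      filter_upwards [h4] with w hw
      intro hmem
      have h5 : (2⁻¹ : ENNReal) = ENNReal.ofReal (1 / 2) := by
        rw [one_div, ENNReal.ofReal_inv_of_pos two_pos, ENNReal.ofReal_ofNat]
      show (2⁻¹ : ENNReal) ≤ ‖(⇑f - ⇑g) w‖ₑ
      rw [Pi.sub_apply, Real.enorm_eq_ofReal_abs, h5]
      apply ENNReal.ofReal_le_ofReal
      rw [hw]
      rcases hmem with ⟨ha, hb⟩ | ⟨ha, hb⟩
      · have hb' : g w ≤ 1 / 2 := not_lt.1 hb
        rw [Set.indicator_of_mem ha, abs_of_nonneg (by linarith)]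
        linarith
      · have ha' : (1 / 2 : ℝ) < g w := ha
        rw [Set.indicator_of_notMem hb, zero_sub, abs_neg, abs_of_nonneg (by linarith)]
        exact ha'.le
    refine h3.trans (h2.trans ?_)
    rw [inv_inv]
    calc (2 : ENNReal) ^ p.toReal * eLpNorm (⇑f - ⇑g) p μ ^ p.toReal
        ≤ (2 : ENNReal) ^ p.toReal * (ENNReal.ofReal δ) ^ p.toReal := by gcongr
      _ = (2 * ENNReal.ofReal δ) ^ p.toReal := by rw [ENNReal.mul_rpow_of_nonneg _ _ hq.le]
      _ = (ENNReal.ofReal (e ^ (1 / p.toReal))) ^ p.toReal := by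
          congr 1
          rw [show (2 : ENNReal) = ENNReal.ofReal 2 by simp, ← ENNReal.ofReal_mul two_pos.le]
          congr 1
          rw [hδ]; ring
      _ = ENNReal.ofReal e := by
          rw [ENNReal.ofReal_rpow_of_nonneg (Real.rpow_nonneg he0.le _) hq.le,
            ← Real.rpow_mul he0.le, one_div, inv_mul_cancel₀ hq.ne', Real.rpow_one]
      _ = min ε 1 := by
          rw [he, ENNReal.ofReal_toReal]
          exact ((min_le_right _ _).trans_lt ENNReal.one_lt_top).ne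
      _ ≤ ε := min_le_left _ _
end

/-- M2 -/
theorem recursion {Ω : Type} [m : MeasurableSpace Ω] (μ : Measure Ω) [IsFiniteMeasure μ]
    (E : Set Ω) (hE : MeasurableSet E) {I : Type} [LinearOrder I] [WellFoundedLT I]
    (A : I → Set Ω) (hA : ∀ i, MeasurableSet (A i))
    (hRA : ∀ b : I → Ω → Bool, (∀ i, Measurable (b i)) → ∀ i, RA μ (sig b (Set.Iio i)) E) :
    ∃ b : I → Ω → Bool, Fair μ E b ∧ ∀ A0 : Set Ω, {i | A i = A0}.Infinite →
      ∀ ε : ENNReal, 0 < ε → ∃ A', MeasurableSet[sig b Set.univ] A' ∧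
        μ (symmDiff (E ∩ A0) (E ∩ A')) ≤ ε := by
  have hsig : ∀ (b b' : I → Ω → Bool) (i : I), (∀ j, j < i → b j = b' j) →
      sig b (Set.Iio i) = sig b' (Set.Iio i) := by
    intro b b' i h
    unfold sig
    refine iSup_congr fun j => iSup_congr fun hj => ?_
    rw [h j hj]
  obtain ⟨b, hb, hs⟩ := rec_exists (I := I) (fun β => Measurable β)
    (fun b i β => StepP μ (sig b (Set.Iio i)) E (A i) β)
    (by
      intro b b' i β h h1
      show StepP μ (sig b' (Set.Iio i)) E (A i) β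
      rw [← hsig b b' i h]; exact h1)
    (by
      intro b i hb
      classical
      set b' : I → Ω → Bool := fun j => if j < i then b j else fun _ => true with hb'
      have hb'm : ∀ j, Measurable (b' j) := by
        intro j
        by_cases hj : j < i
        · simp only [hb', hj, if_true]; exact hb j hj
        · simp only [hb', hj, if_false]; exact measurable_const
      have heq : sig b (Set.Iio i) = sig b' (Set.Iio i) :=
        hsig b b' i (fun j hj => by simp only [hb', hj, if_true])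
      have hle : sig b' (Set.Iio i) ≤ m := by
        unfold sig
        refine iSup_le fun j => iSup_le fun _ => ?_
        exact (hb'm j).comap_le
      have hra := hRA b' hb'm i
      have hHV := halve (sig b' (Set.Iio i)) μ hle E hra
      have hSP := small (sig b' (Set.Iio i)) μ E hHV
      have hRS := realize (sig b' (Set.Iio i)) μ hle E hSP
      obtain ⟨β, h1, h2⟩ := one_step (sig b' (Set.Iio i)) μ hle E hE hRS (A i) (hA i)
      refine ⟨β, h1, ?_⟩
      show StepP μ (sig b (Set.Iio i)) E (A i) β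
      rw [heq]; exact h2)
  refine ⟨b, ?_, ?_⟩
  · refine fair_of_step μ E hE b hb ?_
    intro i B' hB'
    obtain ⟨H, _, h1, _⟩ := hs i
    exact h1 B' hB'
  · intro A0 hinf ε hε
    exact determined μ E hE b hb A hA hs A0 hinf ε hε

/-- the decomposition of a finite measure with dense set of cardinality at most aleph one -/
theorem decomposition (p : ENNReal) [Fact (1 ≤ p)] (hp : p ≠ ⊤) {Ω : Type}
    [m : MeasurableSpace Ω] (μ : Measure Ω) [IsFiniteMeasure μ] (D : Set (Lp ℝ p μ)) (hD : Dense D)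
    (hc : Cardinal.mk D ≤ Cardinal.aleph 1) :
    ∃ P : ℕ → Set Ω, (∀ n, Good μ (P n) ∨ P n = ∅) ∧ Pairwise (Function.onFun Disjoint P) ∧
      μ (⋃ n, P n)ᶜ = 0 := by
  obtain ⟨𝒟, h𝒟m, h𝒟c, h𝒟⟩ := dense_family p hp μ D hD hc
  refine exhaustion μ (Good μ) (fun E h => h.1) ?_
  intro E hE hpos
  by_cases h1 : ∃ F, F ⊆ E ∧ Atom μ F
  · obtain ⟨F, hF, hat⟩ := h1
    exact ⟨F, hF, good_atom μ F hat, hat.2.1⟩
  · push_neg at h1
    by_cases h2 : ∃ F, MeasurableSet F ∧ F ⊆ E ∧ 0 < μ F ∧ Sep μ F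
    · obtain ⟨F, hF, hFE, hFpos, hsep⟩ := h2
      refine ⟨F, hFE, ?_, hFpos⟩
      refine good_sep μ F hF hsep ?_ ?_
      · intro b hb i
        exact ra_finite μ F hF (fun F' hF' => h1 F' (hF'.trans hFE)) b hb i (Set.finite_Iio i)
      · intro I _ _ A hA hRA
        exact recursion μ F hF A hA hRA
    · push_neg at h2
      refine ⟨E, subset_rfl, ?_, hpos⟩
      refine good_nws μ E hE 𝒟 h𝒟m h𝒟c h𝒟 ?_ ?_
      · intro I _ b hb i hi
        exact ra_countable μ E hE h2 b hb i hi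
      · intro I _ _ A hA hRA
        exact recursion μ E hE A hA hRA

end H60Mah
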