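import Mathlib

/-!
Hoelder theorem for bi-ordered groups, and hulls of cyclic subgroups in right ordered groups.
-/

namespace RO

/-- TARGET (Hoelder): a bi-ordered Archimedean group is commutative. `P` is the positive cone. -/
theorem holder_comm {Γ : Type*} [Group Γ] (P : Set Γ)
    (mul : ∀ a ∈ P, ∀ b ∈ P, a * b ∈ P) (one : (1 : Γ) ∉ P)
    (tri : ∀ g : Γ, g ∈ P ∨ g = 1 ∨ g⁻¹ ∈ P)
    (conj : ∀ g : Γ, ∀ a ∈ P, g * a * g⁻¹ ∈ P)
    (arch : ∀ a ∈ P, ∀ b ∈ P, ∃ n : ℕ, b⁻¹ * a ^ n ∈ P ∨ b⁻¹ * a ^ n = 1) :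
    ∀ a b : Γ, a * b = b * a := by
  classical
  have trans : ∀ x y z : Γ, x⁻¹ * y ∈ P → y⁻¹ * z ∈ P → x⁻¹ * z ∈ P := by
    intro x y z h1 h2
    have := mul _ h1 _ h2
    rwa [show x⁻¹ * y * (y⁻¹ * z) = x⁻¹ * z by group] at this
  have lmul : ∀ g x y : Γ, x⁻¹ * y ∈ P → (g * x)⁻¹ * (g * y) ∈ P := by
    intro g x y h
    rwa [show (g * x)⁻¹ * (g * y) = x⁻¹ * y by group]
  have rmul : ∀ g x y : Γ, x⁻¹ * y ∈ P → (x * g)⁻¹ * (y * g) ∈ P := by
    intro g x y h
    have := conj g⁻¹ _ h
    rwa [show g⁻¹ * (x⁻¹ * y) * g⁻¹⁻¹ = (x * g)⁻¹ * (y * g) by group] at this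
  -- weak order
  let le : Γ → Γ → Prop := fun x y => x⁻¹ * y ∈ P ∨ x = y
  have le_lt : ∀ x y z, le x y → y⁻¹ * z ∈ P → x⁻¹ * z ∈ P := by
    rintro x y z (h | rfl) h2
    · exact trans _ _ _ h h2
    · exact h2
  have lt_le : ∀ x y z, x⁻¹ * y ∈ P → le y z → x⁻¹ * z ∈ P := by
    rintro x y z h2 (h | rfl)
    · exact trans _ _ _ h2 h
    · exact h2
  have le_trans : ∀ x y z, le x y → le y z → le x z := by
    rintro x y z h (h2 | rfl)
    · exact Or.inl (le_lt _ _ _ h h2)
    · exact h
  have le_l : ∀ g x y, le x y → le (g * x) (g * y) := by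
    rintro g x y (h | rfl)
    · exact Or.inl (lmul _ _ _ h)
    · exact Or.inr rfl
  have le_r : ∀ g x y, le x y → le (x * g) (y * g) := by
    rintro g x y (h | rfl)
    · exact Or.inl (rmul _ _ _ h)
    · exact Or.inr rfl
  have total : ∀ x y : Γ, ¬ (x⁻¹ * y ∈ P) → le y x := by
    intro x y h
    rcases tri (x⁻¹ * y) with h1 | h1 | h1
    · exact absurd h1 h
    · right
      exact (inv_mul_eq_one.mp h1).symm
    · left
      rwa [show (x⁻¹ * y)⁻¹ = y⁻¹ * x by group] at h1
  have irr : ∀ x : Γ, ¬ (x⁻¹ * x ∈ P) := by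
    intro x h
    rw [inv_mul_cancel] at h
    exact one h
  -- bracket
  have bracket : ∀ d ∈ P, ∀ a ∈ P, ∃ m : ℕ, le (d ^ m) a ∧ a⁻¹ * d ^ (m + 1) ∈ P := by
    intro d hd a ha
    have hex : ∃ n : ℕ, a⁻¹ * d ^ n ∈ P := by
      obtain ⟨n, hn⟩ := arch d hd a ha
      refine ⟨n + 1, ?_⟩
      have h1 : (d ^ n)⁻¹ * d ^ (n + 1) ∈ P := by
        rw [show (d ^ n)⁻¹ * d ^ (n + 1) = d by rw [pow_succ]; group]
        exact hd
      rcases hn with hn | hn
      · exact trans _ _ _ hn h1
      · have : a = d ^ n := inv_mul_eq_one.mp hn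
        rw [this]
        exact h1
    have hN := Nat.find_spec hex
    have hmin := @Nat.find_min _ _ hex
    have hN0 : Nat.find hex ≠ 0 := by
      intro h0
      rw [h0, pow_zero, mul_one] at hN
      have := mul _ ha _ hN
      rw [mul_inv_cancel] at this
      exact one this
    obtain ⟨m, hm⟩ := Nat.exists_eq_succ_of_ne_zero hN0
    refine ⟨m, ?_, ?_⟩
    · have := hmin (m := m) (by omega)
      exact total _ _ this
    · rwa [hm] at hN
  have core : ∀ a ∈ P, ∀ b ∈ P, (b * a)⁻¹ * (a * b) ∉ P := by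
    intro a ha b hb hc
    by_cases hleast : ∃ e ∈ P, ∀ x ∈ P, ¬ (x⁻¹ * e ∈ P)
    · obtain ⟨e, he, hmin⟩ := hleast
      have hpow : ∀ g ∈ P, ∃ m : ℕ, g = e ^ m := by
        intro g hg
        obtain ⟨m, h1, h2⟩ := bracket e he g hg
        rcases h1 with h1 | h1
        · exfalso
          refine hmin _ h1 ?_
          rwa [show ((e ^ m)⁻¹ * g)⁻¹ * e = g⁻¹ * e ^ (m + 1) by rw [pow_succ]; group]
        · exact ⟨m, h1.symm⟩
      obtain ⟨m, rfl⟩ := hpow a ha
      obtain ⟨n, rfl⟩ := hpow b hb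
      rw [← pow_add, ← pow_add, add_comm m n, inv_mul_cancel] at hc
      exact one hc
    · push Not at hleast
      set c := (b * a)⁻¹ * (a * b) with hcdef
      obtain ⟨x, hx, hxc⟩ := hleast c hc
      have hy : c * x⁻¹ ∈ P := by
        have := conj x _ hxc
        rwa [show x * (x⁻¹ * c) * x⁻¹ = c * x⁻¹ by group] at this
      obtain ⟨d, hd, hdd⟩ : ∃ d ∈ P, le (d * d) c := by
        by_cases h : x⁻¹ * (c * x⁻¹) ∈ P
        · refine ⟨x, hx, ?_⟩
          have := le_r x _ _ (Or.inl h : le x (c * x⁻¹))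
          rwa [inv_mul_cancel_right] at this
        · refine ⟨c * x⁻¹, hy, ?_⟩
          have := le_l (c * x⁻¹) _ _ (total _ _ h)
          rwa [inv_mul_cancel_right] at this
      obtain ⟨m, m1, m2⟩ := bracket d hd a ha
      obtain ⟨n, n1, n2⟩ := bracket d hd b hb
      -- a b < d^(m+1) d^(n+1)
      have h1 : (a * b)⁻¹ * (d ^ (m + 1) * d ^ (n + 1)) ∈ P :=
        trans _ _ _ (rmul b _ _ m2) (lmul (d ^ (m + 1)) _ _ n2)
      -- d^(n) d^(m) ≤ b a
      have h2 : le (d ^ n * d ^ m) (b * a) :=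
        le_trans _ _ _ (le_r (d ^ m) _ _ n1) (le_l b _ _ m1)
      -- b a d d ≤ a b
      have h3 : le (b * a * (d * d)) (a * b) := by
        have := le_l (b * a) _ _ hdd
        rwa [show b * a * c = a * b by rw [hcdef]; group] at this
      have h4 := le_r (d * d) _ _ h2
      have h5 : d ^ n * d ^ m * (d * d) = d ^ (m + 1) * d ^ (n + 1) := by
        rw [← pow_add, ← pow_two, ← pow_add, ← pow_add]
        congr 1
        omega
      rw [h5] at h4
      exact irr _ (lt_le _ _ _ h1 (le_trans _ _ _ h4 h3))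
  have pp : ∀ a ∈ P, ∀ b ∈ P, a * b = b * a := by
    intro a ha b hb
    rcases tri ((b * a)⁻¹ * (a * b)) with h | h | h
    · exact absurd h (core a ha b hb)
    · exact (inv_mul_eq_one.mp h).symm
    · refine absurd ?_ (core b hb a ha)
      rwa [show ((b * a)⁻¹ * (a * b))⁻¹ = (a * b)⁻¹ * (b * a) by group] at h
  intro a b
  have hcm : ∀ x y : Γ, Commute x y ↔ x * y = y * x := fun _ _ => Iff.rfl
  rw [← hcm]
  rcases tri a with ha | rfl | ha
  · rcases tri b with hb | rfl | hb
    · exact pp a ha b hb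
    · exact Commute.one_right a
    · have : Commute a b⁻¹ := pp a ha _ hb
      exact (Commute.inv_right_iff).mp this
  · exact Commute.one_left b
  · rcases tri b with hb | rfl | hb
    · have : Commute a⁻¹ b := pp _ ha b hb
      exact (Commute.inv_left_iff).mp this
    · exact Commute.one_right a
    · have : Commute a⁻¹ b⁻¹ := pp _ ha _ hb
      exact (Commute.inv_left_iff).mp ((Commute.inv_right_iff).mp this)

namespace HullJob

variable {G : Type*} [Group G] [LinearOrder G]

/-- hull of the cyclic subgroup -/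
def Hl (g x : G) : Set G := {y | ∃ m n : ℤ, x * g ^ m ≤ y ∧ y ≤ x * g ^ n}

theorem mem_Hl (g x y : G) : y ∈ Hl g x ↔ ∃ m n : ℤ, x * g ^ m ≤ y ∧ y ≤ x * g ^ n := Iff.rfl

theorem mle (hr : ∀ a b c : G, a < b → a * c < b * c) {a b : G} (h : a ≤ b) (c : G) : a * c ≤ b * c := by
  rcases h.lt_or_eq with h | h
  · exact (hr a b c h).le
  · rw [h]

theorem mlt (hr : ∀ a b c : G, a < b → a * c < b * c) {a b : G} (h : a < b) (c : G) : a * c < b * c := hr a b c h

theorem self_mem (g x : G) : x ∈ Hl g x := ⟨0, 0, by simp, by simp⟩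

theorem Hl_inv_sub (g x : G) : Hl g⁻¹ x ⊆ Hl g x := by
  rintro y ⟨m, n, h1, h2⟩
  exact ⟨-m, -n, by rw [zpow_neg, ← inv_zpow]; exact h1, by rw [zpow_neg, ← inv_zpow]; exact h2⟩

theorem Hl_inv (g x : G) : Hl g⁻¹ x = Hl g x := by
  apply Set.Subset.antisymm (Hl_inv_sub g x)
  have := Hl_inv_sub g⁻¹ x
  rwa [inv_inv] at this

theorem Hl_symm (hr : ∀ a b c : G, a < b → a * c < b * c) {g x y : G} (h : y ∈ Hl g x) : x ∈ Hl g y := by
  obtain ⟨m, n, h1, h2⟩ := h
  refine ⟨-n, -m, ?_, ?_⟩
  · have := mle hr h2 (g ^ (-n))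
    rwa [mul_assoc x, ← zpow_add, add_neg_cancel, zpow_zero, mul_one] at this
  · have := mle hr h1 (g ^ (-m))
    rwa [mul_assoc x, ← zpow_add, add_neg_cancel, zpow_zero, mul_one] at this

theorem Hl_trans (hr : ∀ a b c : G, a < b → a * c < b * c) {g x y z : G} (h : y ∈ Hl g x) (h' : z ∈ Hl g y) :
    z ∈ Hl g x := by
  obtain ⟨m, n, h1, h2⟩ := h
  obtain ⟨m', n', h3, h4⟩ := h'
  refine ⟨m + m', n + n', ?_, ?_⟩
  · rw [zpow_add, ← mul_assoc]
    exact (mle hr h1 _).trans h3
  · rw [zpow_add, ← mul_assoc]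
    exact h4.trans (mle hr h2 _)

theorem Hl_eq (hr : ∀ a b c : G, a < b → a * c < b * c) {g x y : G} (h : y ∈ Hl g x) : Hl g y = Hl g x := by
  apply Set.Subset.antisymm
  · intro z hz; exact Hl_trans hr h hz
  · intro z hz; exact Hl_trans hr (Hl_symm hr h) hz

theorem Hl_mul (hr : ∀ a b c : G, a < b → a * c < b * c) {g x y : G} (h : y ∈ Hl g x) (j : ℤ) : y * g ^ j ∈ Hl g x :=
  Hl_trans hr h ⟨j, j, le_rfl, le_rfl⟩

theorem Hl_convex {g x y z w : G} (h : y ∈ Hl g x) (h' : z ∈ Hl g x) (h1 : y ≤ w) (h2 : w ≤ z) : w ∈ Hl g x := by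
  obtain ⟨m, -, h3, -⟩ := h
  obtain ⟨-, n, -, h4⟩ := h'
  exact ⟨m, n, h3.trans h1, h2.trans h4⟩

theorem NC (hr : ∀ a b c : G, a < b → a * c < b * c)
    (hC : ∀ x a b : G, x < x * a → x < x * b → x * b < x * b * b * a) (x w a b : G)
    (h1 : x < w) (h2 : x < x * b) (h3 : w * b ≤ w) (h4 : x < x * a) (h5 : w * a ≤ x * b) : False := by
  have e1 := hC x a b h4 h2
  have e2 : x * b * b * a < w * b * b * a := by
    have := mlt hr h1 (b * b * a)
    simpa [mul_assoc] using this
  have e3 : w * b * b * a ≤ w * b * a := by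
    have := mle hr h3 (b * a)
    simpa [mul_assoc] using this
  have e4 : w * b * a ≤ w * a := mle hr h3 a
  exact absurd (e1.trans (e2.trans_le (e3.trans (e4.trans h5)))) (lt_irrefl _)

theorem pow_lt (hr : ∀ a b c : G, a < b → a * c < b * c) {g x : G} (h : x < x * g) :
    StrictMono (fun j : ℤ => x * g ^ j) := by
  apply strictMono_int_of_lt_succ
  intro j
  have := mlt hr h (g ^ j)
  show x * g ^ j < x * g ^ (j + 1)
  rw [add_comm, zpow_add, zpow_one, ← mul_assoc]
  exact this

theorem pow_gt (hr : ∀ a b c : G, a < b → a * c < b * c) {g x : G} (h : x * g < x) :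
    StrictAnti (fun j : ℤ => x * g ^ j) := by
  apply strictAnti_int_of_succ_lt
  intro j
  have := mlt hr h (g ^ j)
  show x * g ^ (j + 1) < x * g ^ j
  rw [add_comm j, zpow_add, zpow_one, ← mul_assoc]
  exact this

theorem core1 (hr : ∀ a b c : G, a < b → a * c < b * c)
    (hC : ∀ x a b : G, x < x * a → x < x * b → x * b < x * b * b * a) (g h x y z : G)
    (hg : x < x * g) (hh : x < x * h)
    (hy : y ∈ Hl g x) (hyh : ∀ j : ℤ, x * h ^ j < y) (hz : z ∈ Hl h x) (hzg : ∀ j : ℤ, z < x * g ^ j) : False := by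
  obtain ⟨-, n0, -, hn0⟩ := hy
  obtain ⟨m0, -, hm0, -⟩ := hz
  set n : ℤ := |n0| + 1 with hn
  set k : ℤ := |m0| + 1 with hk
  have hyn : y ≤ x * g ^ n := hn0.trans ((pow_lt hr hg).monotone (by rw [hn]; have := le_abs_self n0; omega))
  have hzk : x * h ^ (-k) ≤ z := ((pow_lt hr hh).monotone (by rw [hk]; have := neg_abs_le m0; omega)).trans hm0
  have hxz : x ≤ z * h ^ k := by
    have := mle hr hzk (h ^ k)
    rwa [mul_assoc, ← zpow_add, neg_add_cancel, zpow_zero, mul_one] at this
  have hyx : y * g ^ (-n) ≤ x := by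
    have := mle hr hyn (g ^ (-n))
    rwa [mul_assoc x, ← zpow_add, add_neg_cancel, zpow_zero, mul_one] at this
  refine NC hr hC x y (g ^ (-(2 * n)) * h ^ k) (g ^ (-n) * h ^ k) ?_ ?_ ?_ ?_ ?_
  · have := hyh 0; simpa using this
  · rw [← mul_assoc]
    exact hxz.trans_lt (mlt hr (hzg (-n)) _)
  · rw [← mul_assoc]
    exact (mle hr hyx _).trans (hyh k).le
  · rw [← mul_assoc]
    exact hxz.trans_lt (mlt hr (hzg (-(2 * n))) _)
  · have e : g ^ (-n) = g ^ n * g ^ (-(2 * n)) := by rw [← zpow_add]; congr 1; ring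
    have := mle hr hyn (g ^ (-(2 * n)) * h ^ k)
    rw [e]
    simpa [mul_assoc] using this

theorem core (hr : ∀ a b c : G, a < b → a * c < b * c)
    (hC : ∀ x a b : G, x < x * a → x < x * b → x * b < x * b * b * a) (g h x y z : G)
    (hy : y ∈ Hl g x) (hyh : ∀ j : ℤ, x * h ^ j < y) (hz : z ∈ Hl h x) (hzg : ∀ j : ℤ, z < x * g ^ j) : False := by
  have hxy : x < y := by have := hyh 0; simpa using this
  have hzx : z < x := by have := hzg 0; simpa using this
  have hg1 : x * g ≠ x := by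
    intro hg
    have hg : g = 1 := by simpa using hg
    subst hg
    obtain ⟨-, n, -, h2⟩ := hy
    simp only [one_zpow, mul_one] at h2
    exact absurd hxy (not_lt.2 h2)
  have hh1 : x * h ≠ x := by
    intro hh
    have hh : h = 1 := by simpa using hh
    subst hh
    obtain ⟨m, -, h2, -⟩ := hz
    simp only [one_zpow, mul_one] at h2
    exact absurd hzx (not_lt.2 h2)
  have hinv : ∀ k : G, x * k < x → x < x * k⁻¹ := by
    intro k hk
    have := mlt hr hk k⁻¹
    rwa [mul_inv_cancel_right] at this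
  rcases lt_or_gt_of_ne hg1 with hg | hg <;> rcases lt_or_gt_of_ne hh1 with hh | hh
  · refine core1 hr hC g⁻¹ h⁻¹ x y z (hinv g hg) (hinv h hh) (by rwa [Hl_inv]) ?_ (by rwa [Hl_inv]) ?_
    · intro j; have := hyh (-j); rwa [zpow_neg, ← inv_zpow] at this
    · intro j; have := hzg (-j); rwa [zpow_neg, ← inv_zpow] at this
  · refine core1 hr hC g⁻¹ h x y z (hinv g hg) hh (by rwa [Hl_inv]) hyh hz ?_
    intro j; have := hzg (-j); rwa [zpow_neg, ← inv_zpow] at this
  · refine core1 hr hC g h⁻¹ x y z hg (hinv h hh) hy ?_ (by rwa [Hl_inv]) hzg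
    intro j; have := hyh (-j); rwa [zpow_neg, ← inv_zpow] at this
  · exact core1 hr hC g h x y z hg hh hy hyh hz hzg

theorem not_mem_cases {g x y : G} (h : y ∉ Hl g x) : (∀ j : ℤ, y < x * g ^ j) ∨ (∀ j : ℤ, x * g ^ j < y) := by
  by_contra hcon
  rw [not_or] at hcon
  obtain ⟨h1, h2⟩ := hcon
  push Not at h1 h2
  obtain ⟨m, hm⟩ := h1
  obtain ⟨n, hn⟩ := h2
  exact h ⟨m, n, hm, hn⟩

theorem nested (hr : ∀ a b c : G, a < b → a * c < b * c)
    (hC : ∀ x a b : G, x < x * a → x < x * b → x * b < x * b * b * a) (g h x : G) :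
    Hl g x ⊆ Hl h x ∨ Hl h x ⊆ Hl g x := by
  by_contra hcon
  rw [not_or, Set.not_subset, Set.not_subset] at hcon
  obtain ⟨⟨y, hy, hyh⟩, ⟨z, hz, hzg⟩⟩ := hcon
  rcases not_mem_cases hyh with hyh | hyh <;> rcases not_mem_cases hzg with hzg | hzg
  · obtain ⟨m, -, hm, -⟩ := hy
    obtain ⟨m', -, hm', -⟩ := hz
    exact absurd ((hm'.trans_lt (hzg m)).trans_le hm) (not_lt.2 (hyh m').le)
  · exact core hr hC h g x z y hz hzg hy hyh
  · exact core hr hC g h x y z hy hyh hz hzg
  · obtain ⟨-, m, -, hm⟩ := hy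
    obtain ⟨-, m', -, hm'⟩ := hz
    exact absurd ((hm.trans_lt (hzg m)).trans_le hm') (not_lt.2 (hyh m').le)

/-- stabiliser of a set under right multiplication -/
def St (I : Set G) : Subgroup G where
  carrier := {k | ∀ y, y ∈ I ↔ y * k ∈ I}
  mul_mem' := by
    intro a b ha hb y
    rw [ha y, hb (y * a), mul_assoc]
  one_mem' := by intro y; rw [mul_one]
  inv_mem' := by
    intro a ha y
    have := ha (y * a⁻¹)
    rw [inv_mul_cancel_right] at this
    exact this.symm

theorem stab_self (hr : ∀ a b c : G, a < b → a * c < b * c) (g x : G) : g ∈ St (Hl g x) := by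
  intro y
  constructor
  · intro h; have := Hl_mul hr h 1; rwa [zpow_one] at this
  · intro h; have := Hl_mul hr h (-1); rwa [zpow_neg, zpow_one, mul_inv_cancel_right] at this

theorem stab_of_sub (hr : ∀ a b c : G, a < b → a * c < b * c)
    (hC : ∀ x a b : G, x < x * a → x < x * b → x * b < x * b * b * a) (g h x : G) (hs : Hl h x ⊆ Hl g x) :
    h ∈ St (Hl g x) := by
  have key : ∀ k : G, Hl k x ⊆ Hl g x → ∀ y ∈ Hl g x, y * k ∈ Hl g x := by
    intro k hk y hy
    by_contra hcon
    have hgy : Hl g y = Hl g x := Hl_eq hr hy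
    rcases nested hr hC g k y with h1 | h1
    · rw [hgy] at h1
      have hx : x ∈ Hl k y := h1 (self_mem g x)
      have hkx : Hl k x = Hl k y := Hl_eq hr hx
      apply hcon
      apply hk
      rw [hkx]
      have := Hl_mul hr (self_mem k y) 1
      rwa [zpow_one] at this
    · rw [hgy] at h1
      apply hcon
      apply h1
      have := Hl_mul hr (self_mem k y) 1
      rwa [zpow_one] at this
  intro y
  constructor
  · exact key h hs y
  · intro hy
    have := key h⁻¹ (by rw [Hl_inv]; exact hs) (y * h) hy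
    rwa [mul_inv_cancel_right] at this

theorem sub_of_stab {I : Set G} (hI : ∀ y z w : G, y ∈ I → z ∈ I → y ≤ w → w ≤ z → w ∈ I) (x : G) (hx : x ∈ I)
    {k : G} (hk : k ∈ St I) : Hl k x ⊆ I := by
  rintro y ⟨m, n, h1, h2⟩
  have h3 : ∀ j : ℤ, x * k ^ j ∈ I := fun j => ((St I).zpow_mem hk j x).1 hx
  exact hI _ _ _ (h3 m) (h3 n) h1 h2

theorem univ_base (hr : ∀ a b c : G, a < b → a * c < b * c) {g x : G} (h : Hl g x = Set.univ) (y : G) :
    Hl g y = Set.univ := by
  rw [← h]; exact Hl_eq hr (by rw [h]; trivial)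

theorem conj_base (hr : ∀ a b c : G, a < b → a * c < b * c) {g x : G} (k : G) (h : Hl (k * g * k⁻¹) x = Set.univ) :
    Hl g (x * k) = Set.univ := by
  rw [Set.eq_univ_iff_forall]
  intro y
  have h1 : y * k⁻¹ ∈ Hl (k * g * k⁻¹) x := by rw [h]; trivial
  obtain ⟨m, n, h2, h3⟩ := h1
  rw [conj_zpow] at h2 h3
  refine ⟨m, n, ?_, ?_⟩
  · have := mle hr h2 k
    simpa [mul_assoc] using this
  · have := mle hr h3 k
    simpa [mul_assoc] using this

/-- The subgroup of elements with bounded orbits -/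
def NN [Nontrivial G] (hr : ∀ a b c : G, a < b → a * c < b * c)
    (hC : ∀ x a b : G, x < x * a → x < x * b → x * b < x * b * b * a) : Subgroup G where
  carrier := {g | Hl g 1 ≠ Set.univ}
  one_mem' := by
    intro h
    obtain ⟨g, hg⟩ := exists_ne (1 : G)
    have : g ∈ Hl (1 : G) 1 := by rw [h]; trivial
    obtain ⟨m, n, h1, h2⟩ := this
    rw [one_zpow, mul_one] at h1 h2
    exact hg (le_antisymm h2 h1)
  inv_mem' := by
    intro g hg
    show Hl g⁻¹ 1 ≠ Set.univ
    rw [Hl_inv]; exact hg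
  mul_mem' := by
    intro g h hg hh
    show Hl (g * h) 1 ≠ Set.univ
    rcases nested hr hC g h 1 with h1 | h1
    · have h2 := stab_of_sub hr hC h g 1 h1
      have h3 := stab_self hr h (1 : G)
      have h4 := sub_of_stab (fun y z w a b c d => Hl_convex a b c d) 1 (self_mem h 1) ((St (Hl h 1)).mul_mem h2 h3)
      intro h5
      rw [h5] at h4
      exact hh (Set.univ_subset_iff.1 h4)
    · have h2 := stab_of_sub hr hC g h 1 h1
      have h3 := stab_self hr g (1 : G)
      have h4 := sub_of_stab (fun y z w a b c d => Hl_convex a b c d) 1 (self_mem g 1) ((St (Hl g 1)).mul_mem h3 h2)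
      intro h5
      rw [h5] at h4
      exact hg (Set.univ_subset_iff.1 h4)

end HullJob

open HullJob in
/-- TARGET: hulls of cyclic subgroups in a right ordered group with the condition `hC`. -/
theorem hull_main {G : Type*} [Group G] [LinearOrder G]
    (hr : ∀ a b c : G, a < b → a * c < b * c)
    (hC : ∀ x a b : G, x < x * a → x < x * b → x * b < x * b * b * a) :
    ∃ N : Subgroup G, N.Normal ∧
      (∀ (g : G) (m : ℕ), 0 < m → g ^ m ∈ N → g ∈ N) ∧
      (∀ T : Finset G, Subgroup.closure (T : Set G) = ⊤ → (∃ g : G, g ≠ 1) → ∃ t ∈ T, t ∉ N) ∧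
      ∃ P : Set G, (∀ a ∈ P, ∀ b ∈ P, a * b ∈ P) ∧ (∀ g : G, ∀ a ∈ P, g * a * g⁻¹ ∈ P) ∧
        (∀ g : G, g ∈ N ∨ g ∈ P ∨ g⁻¹ ∈ P) ∧ (∀ g ∈ P, g ∉ N) ∧
        (∀ n ∈ N, ∀ g ∈ P, n * g ∈ P) ∧
        (∀ a ∈ P, ∀ b ∈ P, ∃ n : ℕ, b⁻¹ * a ^ n ∈ P ∨ b⁻¹ * a ^ n ∈ N) := by
  classical
  rcases subsingleton_or_nontrivial G with hs | hn
  · refine ⟨⊤, inferInstance, fun _ _ _ _ => Subgroup.mem_top _, ?_, ∅, ?_, ?_, ?_, ?_, ?_, ?_⟩
    · rintro T - ⟨g, hg⟩
      exact absurd (Subsingleton.elim g 1) hg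
    · intro a ha; exact absurd ha (Set.notMem_empty _)
    · intro g a ha; exact absurd ha (Set.notMem_empty _)
    · intro g; left; exact Subgroup.mem_top _
    · intro g hg; exact absurd hg (Set.notMem_empty _)
    · intro n _ g hg; exact absurd hg (Set.notMem_empty _)
    · intro a ha; exact absurd ha (Set.notMem_empty _)
  · have hmem : ∀ g, g ∈ NN hr hC ↔ Hl g 1 ≠ Set.univ := fun g => Iff.rfl
    have hnot : ∀ g, g ∉ NN hr hC → ∀ x, Hl g x = Set.univ := by
      intro g hg x
      rw [hmem, not_not] at hg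
      exact univ_base hr hg x
    have hnot' : ∀ g x, Hl g x = Set.univ → g ∉ NN hr hC := by
      intro g x h
      rw [hmem, not_not]
      exact univ_base hr h 1
    have hne1 : ∀ g, g ∉ NN hr hC → g ≠ 1 := by
      rintro g hg rfl
      exact hg (NN hr hC).one_mem
    have hinv : ∀ (x k : G), x * k < x → x < x * k⁻¹ := by
      intro x k hk
      have := mlt hr hk k⁻¹
      rwa [mul_inv_cancel_right] at this
    have hnormal : (NN hr hC).Normal := by
      constructor
      intro g hg k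
      by_contra hcon
      exact hg (conj_base hr k (hnot _ hcon 1) ▸ univ_base hr (conj_base hr k (hnot _ hcon 1)) 1)
    -- directions
    have hdir : ∀ g, g ∉ NN hr hC → (∀ x, x < x * g) ∨ (∀ x, x * g < x) := by
      intro g hg
      have hg1 := hne1 g hg
      by_contra hcon
      rw [not_or] at hcon
      obtain ⟨h1, h2⟩ := hcon
      push Not at h1 h2
      obtain ⟨y, hy⟩ := h1
      obtain ⟨x, hx⟩ := h2
      have hy' : y * g < y := lt_of_le_of_ne hy (by simpa using hg1)
      have hx' : x < x * g := lt_of_le_of_ne hx (by simpa using hg1)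
      have hyx : y ∈ Hl g x := by rw [hnot g hg]; trivial
      obtain ⟨m, -, hm, -⟩ := hyx
      have hall : ∀ l : ℤ, x * g ^ l ≤ y := by
        intro l
        have e1 : x * g ^ l ≤ x * g ^ (m + |l - m|) :=
          (pow_lt hr hx').monotone (by have := le_abs_self (l - m); omega)
        have e2 : x * g ^ (m + |l - m|) ≤ y * g ^ |l - m| := by
          rw [zpow_add, ← mul_assoc]; exact mle hr hm _
        have e3 : y * g ^ |l - m| ≤ y * g ^ (0 : ℤ) := (pow_gt hr hy').antitone (abs_nonneg _)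
        rw [zpow_zero, mul_one] at e3
        exact e1.trans (e2.trans e3)
      have hz : y * g⁻¹ ∈ Hl g x := by rw [hnot g hg]; trivial
      obtain ⟨-, n, -, hn⟩ := hz
      exact absurd (hinv y g hy') (not_lt.2 (hn.trans (hall n)))
    set P : Set G := {g | g ∉ NN hr hC ∧ ∀ x, x < x * g} with hP
    have hcof : ∀ a ∈ P, ∀ x y : G, ∃ n : ℕ, y ≤ x * a ^ n := by
      intro a ha x y
      have hy : y ∈ Hl a x := by rw [hnot a ha.1]; trivial
      obtain ⟨-, n, -, hn⟩ := hy
      refine ⟨n.natAbs, ?_⟩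
      rw [← zpow_natCast]
      refine hn.trans ((pow_lt hr (ha.2 x)).monotone ?_)
      exact Int.le_natAbs
    have hmulP : ∀ a ∈ P, ∀ b ∈ P, a * b ∈ P := by
      intro a ha b hb
      have hup : ∀ x y : G, ∃ n : ℕ, y ≤ x * (a * b) ^ n := by
        intro x y
        obtain ⟨n, hn⟩ := hcof a ha x y
        refine ⟨n, hn.trans ?_⟩
        clear hn
        induction n with
        | zero => simp
        | succ n ih =>
          rw [pow_succ, pow_succ, ← mul_assoc, ← mul_assoc, ← mul_assoc]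
          exact (mle hr ih a).trans (hb.2 _).le
      refine ⟨?_, ?_⟩
      · apply hnot' (a * b) 1
        rw [Set.eq_univ_iff_forall]
        intro y
        obtain ⟨n, hn⟩ := hup 1 y
        obtain ⟨m, hm⟩ := hup y 1
        refine ⟨-(m : ℤ), n, ?_, by rw [zpow_natCast]; exact hn⟩
        have := mle hr hm ((a * b) ^ (-(m : ℤ)))
        rwa [mul_assoc y, ← zpow_natCast (a * b) m, ← zpow_add, add_neg_cancel, zpow_zero, mul_one] at this
      · intro x
        rw [← mul_assoc]
        exact (ha.2 x).trans (hb.2 _)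
    have hconjP : ∀ g : G, ∀ a ∈ P, g * a * g⁻¹ ∈ P := by
      intro g a ha
      refine ⟨?_, ?_⟩
      · intro h
        apply ha.1
        have := hnormal.conj_mem _ h g⁻¹
        simpa [mul_assoc] using this
      · intro x
        have := mlt hr (ha.2 (x * g)) g⁻¹
        simpa [mul_assoc] using this
    have htri : ∀ g : G, g ∈ NN hr hC ∨ g ∈ P ∨ g⁻¹ ∈ P := by
      intro g
      by_cases hg : g ∈ NN hr hC
      · exact Or.inl hg
      · right
        rcases hdir g hg with h | h
        · left; exact ⟨hg, h⟩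
        · right
          exact ⟨fun h' => hg (by simpa using (NN hr hC).inv_mem h'), fun x => hinv x g (h x)⟩
    refine ⟨NN hr hC, hnormal, ?_, ?_, P, hmulP, hconjP, htri, fun g hg => hg.1, ?_, ?_⟩
    · -- roots
      intro g m hm hgm
      by_contra hg
      have h1 := hnot g hg 1
      apply (hmem _).1 hgm
      rw [Set.eq_univ_iff_forall]
      intro y
      have hy : y ∈ Hl g 1 := by rw [h1]; trivial
      obtain ⟨i, n, h2, h3⟩ := hy
      have hmi : ∀ i : ℤ, |i| ≤ (m : ℤ) * |i| := by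
        intro i
        have h4 : (1 : ℤ) ≤ m := by exact_mod_cast hm
        have h5 := abs_nonneg i
        nlinarith
      have hz : ∀ j : ℤ, (g ^ m) ^ j = g ^ ((m : ℤ) * j) := by
        intro j; rw [zpow_mul, zpow_natCast]
      rcases hdir g hg with h | h
      · refine ⟨-|i|, |n|, ?_, ?_⟩
        · rw [hz]
          refine ((pow_lt hr (h 1)).monotone ?_).trans h2
          have := hmi i
          have := neg_abs_le i
          have e : (m : ℤ) * -|i| = -((m : ℤ) * |i|) := by ring
          rw [e]; omega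
        · rw [hz]
          refine h3.trans ((pow_lt hr (h 1)).monotone ?_)
          have := hmi n
          have := le_abs_self n
          omega
      · refine ⟨|i|, -|n|, ?_, ?_⟩
        · rw [hz]
          refine ((pow_gt hr (h 1)).antitone ?_).trans h2
          have := hmi i
          have := le_abs_self i
          omega
        · rw [hz]
          refine h3.trans ((pow_gt hr (h 1)).antitone ?_)
          have := hmi n
          have := neg_abs_le n
          have e : (m : ℤ) * -|n| = -((m : ℤ) * |n|) := by ring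
          rw [e]; omega
    · -- finite generation
      intro T hT _
      by_contra hcon
      push Not at hcon
      have hTne : T.Nonempty := by
        rw [Finset.nonempty_iff_ne_empty]
        rintro rfl
        rw [Finset.coe_empty, Subgroup.closure_empty] at hT
        obtain ⟨g, hg⟩ := exists_ne (1 : G)
        have : g ∈ (⊥ : Subgroup G) := by rw [hT]; trivial
        exact hg (Subgroup.mem_bot.1 this)
      have hmax : ∀ S : Finset G, S.Nonempty → ∃ t0 ∈ S, ∀ t ∈ S, Hl t 1 ⊆ Hl t0 1 := by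
        intro S hS
        induction hS using Finset.Nonempty.cons_induction with
        | singleton a => exact ⟨a, by simp, fun t ht => by rw [Finset.mem_singleton] at ht; rw [ht]⟩
        | cons a s ha hs ih =>
          obtain ⟨t0, ht0, h0⟩ := ih
          rcases nested hr hC a t0 1 with h1 | h1
          · refine ⟨t0, Finset.mem_cons_of_mem ht0, fun t ht => ?_⟩
            rcases Finset.mem_cons.1 ht with rfl | ht
            · exact h1
            · exact h0 t ht
          · refine ⟨a, Finset.mem_cons_self a s, fun t ht => ?_⟩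
            rcases Finset.mem_cons.1 ht with rfl | ht
            · exact le_rfl
            · exact (h0 t ht).trans h1
      obtain ⟨t0, ht0, h0⟩ := hmax T hTne
      have hle : Subgroup.closure (T : Set G) ≤ St (Hl t0 1) := by
        rw [Subgroup.closure_le]
        intro t ht
        exact stab_of_sub hr hC t0 t 1 (h0 t ht)
      rw [hT] at hle
      apply (hmem _).1 (hcon t0 ht0)
      rw [Set.eq_univ_iff_forall]
      intro y
      have h1 := (hle (Subgroup.mem_top y)) 1
      rw [one_mul] at h1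
      exact h1.1 (self_mem t0 1)
    · -- absorption
      intro n hn' g hg
      rcases htri (n * g) with h | h | h
      · exfalso
        apply hg.1
        have := (NN hr hC).mul_mem ((NN hr hC).inv_mem hn') h
        rwa [inv_mul_cancel_left] at this
      · exact h
      · exfalso
        have h1 := hmulP g hg _ h
        rw [mul_inv_rev, mul_inv_cancel_left] at h1
        exact h1.1 ((NN hr hC).inv_mem hn')
    · -- archimedean
      intro a ha b hb
      obtain ⟨n, hn'⟩ := hcof a ha 1 b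
      rw [one_mul] at hn'
      refine ⟨n, ?_⟩
      have hc1 : 1 ≤ a ^ n * b⁻¹ := by
        have := mle hr hn' b⁻¹
        rwa [mul_inv_cancel] at this
      have e : b⁻¹ * a ^ n = b⁻¹ * (a ^ n * b⁻¹) * (b⁻¹)⁻¹ := by group
      rcases htri (a ^ n * b⁻¹) with h | h | h
      · right
        rw [e]
        exact hnormal.conj_mem _ h b⁻¹
      · left
        rw [e]
        exact hconjP _ _ h
      · exfalso
        have h1 := h.2 (a ^ n * b⁻¹)
        rw [mul_inv_cancel] at h1
        exact absurd h1 (not_lt.2 hc1)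

end RO
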