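import Mathlib

/-!
Invariant means on soluble groups and limits of positive cones.
-/

namespace RO

structure IsCone {G : Type*} [Group G] (P : Set G) : Prop where
  mul : ∀ a ∈ P, ∀ b ∈ P, a * b ∈ P
  one : (1 : G) ∉ P
  tri : ∀ g : G, g ∈ P ∨ g = 1 ∨ g⁻¹ ∈ P

/-- right invariant finitely additive probability on all subsets -/
def HasMean (G : Type*) [Group G] : Prop :=
  ∃ μ : Set G → ℝ, (∀ A, 0 ≤ μ A) ∧ μ Set.univ = 1 ∧
    (∀ A B, Disjoint A B → μ (A ∪ B) = μ A + μ B) ∧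
    ∀ (A : Set G) (g : G), μ ((fun x => x * g) '' A) = μ A

set_option linter.unusedSectionVars false

section mean
variable {G : Type*} [Group G] (μ : Set G → ℝ) (h0 : ∀ A, 0 ≤ μ A) (h1 : μ Set.univ = 1)
  (hadd : ∀ A B, Disjoint A B → μ (A ∪ B) = μ A + μ B)
  (hinv : ∀ (A : Set G) (g : G), μ ((fun x => x * g) '' A) = μ A)

include h0 hadd in
theorem mean_mono {A B : Set G} (h : A ⊆ B) : μ A ≤ μ B := by
  have : μ B = μ A + μ (B \ A) := by
    rw [← hadd _ _ Set.disjoint_sdiff_right, Set.union_sdiff_cancel h]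
  rw [this]
  linarith [h0 (B \ A)]

include h0 hadd in
theorem mean_union_le (A B : Set G) : μ (A ∪ B) ≤ μ A + μ B := by
  have : A ∪ B = A ∪ (B \ A) := Set.union_sdiff_self.symm
  rw [this, hadd _ _ Set.disjoint_sdiff_right]
  have := mean_mono μ h0 hadd (Set.sdiff_subset : B \ A ⊆ B)
  linarith

include hadd in
theorem mean_empty : μ ∅ = 0 := by
  have := hadd ∅ ∅ (by simp)
  simp at this
  exact this

include h0 hadd in
theorem mean_biUnion_zero {ι : Type*} (F : Finset ι) (Z : ι → Set G) (hZ : ∀ i ∈ F, μ (Z i) = 0) :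
    μ (⋃ i ∈ F, Z i) = 0 := by
  classical
  induction F using Finset.induction_on with
  | empty => simpa using mean_empty μ hadd
  | insert a F ha ih =>
    rw [Finset.set_biUnion_insert]
    have h2 := ih (fun i hi => hZ i (Finset.mem_insert_of_mem hi))
    have h3 := hZ a (Finset.mem_insert_self _ _)
    have := mean_union_le μ h0 hadd (Z a) (⋃ i ∈ F, Z i)
    apply le_antisymm _ (h0 _)
    linarith

include hadd in
theorem mean_disj {W : ℕ → Set G} (hd : ∀ m n, m < n → Disjoint (W m) (W n)) (n : ℕ) :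
    μ (⋃ i ∈ Finset.range n, W i) = ∑ i ∈ Finset.range n, μ (W i) := by
  induction n with
  | zero => simpa using mean_empty μ hadd
  | succ n ih =>
    rw [Finset.range_add_one, Finset.set_biUnion_insert, Finset.sum_insert (by simp), hadd, ih]
    rw [Set.disjoint_iff_forall_ne]
    rintro a ha b hb rfl
    simp only [Set.mem_iUnion, Finset.mem_range] at hb
    obtain ⟨i, hi, hb⟩ := hb
    exact (Set.disjoint_iff_forall_ne.1 (hd i n hi)) hb ha rfl

include h0 h1 hadd hinv in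
/-- wandering sets are null -/
theorem mean_wandering (W : Set G) (c : G)
    (hd : ∀ m n : ℕ, m < n → Disjoint {h : G | h * c ^ m ∈ W} {h : G | h * c ^ n ∈ W}) :
    μ W = 0 := by
  have hW : ∀ n : ℕ, μ {h : G | h * c ^ n ∈ W} = μ W := by
    intro n
    rw [← hinv W (c ^ n)⁻¹]
    congr 1
    ext h
    constructor
    · intro hh
      exact ⟨h * c ^ n, hh, by simp⟩
    · rintro ⟨w, hw, rfl⟩
      simpa using hw
  have key : ∀ n : ℕ, (n : ℝ) * μ W ≤ 1 := by
    intro n
    have h2 := mean_disj μ hadd (W := fun n => {h : G | h * c ^ n ∈ W}) hd n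
    simp only [hW, Finset.sum_const, Finset.card_range, nsmul_eq_mul] at h2
    rw [← h2, ← h1]
    exact mean_mono μ h0 hadd (Set.subset_univ _)
  by_contra hne
  have hpos : 0 < μ W := lt_of_le_of_ne (h0 W) (Ne.symm hne)
  obtain ⟨n, hn⟩ := exists_nat_gt (1 / μ W)
  have := key n
  rw [div_lt_iff₀ hpos] at hn
  linarith

end mean

section cone
variable {G : Type*} [Group G]

theorem IsCone.conj {P : Set G} (hP : IsCone P) (h : G) : IsCone {g | h * g * h⁻¹ ∈ P} where
  mul := by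
    intro a ha b hb
    have := hP.mul _ ha _ hb
    simp only [Set.mem_ofPred_eq] at *
    convert this using 1
    group
  one := by
    simp only [Set.mem_ofPred_eq, mul_one, mul_inv_cancel]
    exact hP.one
  tri := by
    intro g
    rcases hP.tri (h * g * h⁻¹) with h1 | h1 | h1
    · exact Or.inl h1
    · right; left
      have : g = h⁻¹ * (h * g * h⁻¹) * h := by group
      rw [this, h1]
      group
    · right; right
      simp only [Set.mem_ofPred_eq]
      convert h1 using 1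
      group

theorem IsCone.pow {P : Set G} (hP : IsCone P) {g : G} (hg : g ∈ P) (n : ℕ) (hn : 0 < n) :
    g ^ n ∈ P := by
  induction n, hn using Nat.le_induction with
  | base => simpa using hg
  | succ n hn ih =>
    rw [pow_succ]
    exact hP.mul _ ih _ hg

/-- if `a, b ∈ R` and `b²ab⁻¹ ∉ R`, then with `c = ba` no `cⁿ a c⁻ⁿ`, `n ≥ 1`, is in `R`. -/
theorem cone_key {R : Set G} (hR : IsCone R) {a b : G} (ha : a ∈ R) (hb : b ∈ R)
    (hn : b * b * a * b⁻¹ ∉ R) (n : ℕ) (hn1 : 1 ≤ n) :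
    (b * a) ^ n * a * ((b * a) ^ n)⁻¹ ∉ R := by
  have hcR : b * a ∈ R := hR.mul _ hb _ ha
  have h1 : b * b * a * b⁻¹ = 1 ∨ (b * b * a * b⁻¹)⁻¹ ∈ R := by
    rcases hR.tri (b * b * a * b⁻¹) with h | h | h
    · exact absurd h hn
    · exact Or.inl h
    · exact Or.inr h
  have h2 : ∀ n : ℕ, 1 ≤ n → b * ((b * a) ^ n)⁻¹ ∈ R := by
    intro n hn
    induction n, hn using Nat.le_induction with
    | base =>
      have e : b * ((b * a) ^ 1)⁻¹ = (b * b * a * b⁻¹)⁻¹ * b := by
        rw [pow_one]; group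
      rw [e]
      rcases h1 with h | h
      · rw [h]; simpa using hb
      · exact hR.mul _ h _ hb
    | succ n hn ih =>
      have e : b * ((b * a) ^ (n+1))⁻¹ = (b * b * a * b⁻¹)⁻¹ * (b * ((b * a) ^ n)⁻¹) := by
        rw [pow_succ, mul_inv_rev ((b * a) ^ n)]
        group
      rw [e]
      rcases h1 with h | h
      · rw [h]; simpa using ih
      · exact hR.mul _ h _ ih
  intro hu
  apply hR.one
  have h3 := hR.mul _ (h2 n hn1) _ hu
  have e3 : b * ((b * a) ^ n)⁻¹ * ((b * a) ^ n * a * ((b * a) ^ n)⁻¹) = b * a * ((b * a) ^ n)⁻¹ := by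
    group
  rw [e3] at h3
  obtain ⟨k, rfl⟩ : ∃ k, n = k + 1 := ⟨n - 1, by omega⟩
  have e4 : b * a * ((b * a) ^ (k + 1))⁻¹ = ((b * a) ^ k)⁻¹ := by
    rw [pow_succ, mul_inv_rev, mul_inv_cancel_left]
  rw [e4] at h3
  rcases Nat.eq_zero_or_pos k with hk | hk
  · subst hk
    simpa using h3
  · have := hR.mul _ (hR.pow hcR k hk) _ h3
    simpa using this

/-- From an invariant mean and a cone, a cone with `a, b ∈ Q → b²ab⁻¹ ∈ Q`. -/
theorem exists_cone_limit (hm : HasMean G) (P : Set G) (hP : IsCone P) :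
    ∃ Q : Set G, IsCone Q ∧ ∀ a ∈ Q, ∀ b ∈ Q, b * b * a * b⁻¹ ∈ Q := by
  classical
  obtain ⟨μ, h0, h1, hadd, hinv⟩ := hm
  let Z : G × G → Set G := fun p =>
    {h | h * p.1 * h⁻¹ ∈ P ∧ h * p.2 * h⁻¹ ∈ P ∧ h * (p.2 * p.2 * p.1 * p.2⁻¹) * h⁻¹ ∉ P}
  have hZ : ∀ p, μ (Z p) = 0 := by
    rintro ⟨a, b⟩
    let W : Set G := {h | h * a * h⁻¹ ∈ P ∧
      ∀ n : ℕ, 1 ≤ n → h * ((b * a) ^ n * a * ((b * a) ^ n)⁻¹) * h⁻¹ ∉ P}
    have hW : μ W = 0 := by
      apply mean_wandering μ h0 h1 hadd hinv W (b * a)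
      intro m n hmn
      rw [Set.disjoint_iff_forall_ne]
      rintro h hh1 _ hh2 rfl
      have q1 : h * (b * a) ^ n * a * (h * (b * a) ^ n)⁻¹ ∈ P := hh2.1
      have q2 := hh1.2 (n - m) (by omega)
      apply q2
      have e : n = m + (n - m) := by omega
      have e2 : h * (b * a) ^ m * ((b * a) ^ (n - m) * a * ((b * a) ^ (n - m))⁻¹) *
          (h * (b * a) ^ m)⁻¹ = h * (b * a) ^ n * a * (h * (b * a) ^ n)⁻¹ := by
        conv_rhs => rw [e, pow_add]
        simp only [mul_inv_rev, mul_assoc]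
      rw [e2]
      exact q1
    apply le_antisymm _ (h0 _)
    rw [← hW]
    apply mean_mono μ h0 hadd
    rintro h ⟨z1, z2, z3⟩
    refine ⟨z1, fun n hn => ?_⟩
    exact cone_key (hP.conj h) (a := a) (b := b) z1 z2 z3 n hn
  have hex : ∀ F : Finset (G × G), ∃ h : G, ∀ p ∈ F, h ∉ Z p := by
    intro F
    by_contra hcon
    push Not at hcon
    have h3 := mean_biUnion_zero μ h0 hadd F Z (fun p _ => hZ p)
    have h4 : (⋃ p ∈ F, Z p) = Set.univ := by
      ext h
      simp only [Set.mem_iUnion, Set.mem_univ, iff_true]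
      obtain ⟨p, hp, hh⟩ := hcon h
      exact ⟨p, hp, hh⟩
    rw [h4, h1] at h3
    norm_num at h3
  choose hh hhh using hex
  obtain ⟨U, hU⟩ := Ultrafilter.exists_le (Filter.atTop : Filter (Finset (G × G)))
  refine ⟨{g | ∀ᶠ F in (U : Filter (Finset (G × G))), hh F * g * (hh F)⁻¹ ∈ P}, ⟨?_, ?_, ?_⟩, ?_⟩
  · intro a ha b hb
    filter_upwards [ha, hb] with F h5 h6
    exact (hP.conj (hh F)).mul _ h5 _ h6
  · intro h5
    obtain ⟨F, hF⟩ := Filter.Eventually.exists h5
    exact (hP.conj (hh F)).one hF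
  · intro g
    have : ∀ᶠ F in (U : Filter (Finset (G × G))), (hh F * g * (hh F)⁻¹ ∈ P ∨
        (g = 1 ∨ hh F * g⁻¹ * (hh F)⁻¹ ∈ P)) :=
      Filter.Eventually.of_forall fun F => (hP.conj (hh F)).tri g
    rw [Ultrafilter.eventually_or, Ultrafilter.eventually_or] at this
    rcases this with h5 | h5 | h5
    · exact Or.inl h5
    · right; left
      exact (Filter.eventually_const.1 h5)
    · right; right; exact h5
  · intro a ha b hb
    have hF : ∀ᶠ F in (U : Filter (Finset (G × G))), {((a, b) : G × G)} ≤ F :=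
      hU (Filter.eventually_ge_atTop _)
    filter_upwards [ha, hb, hF] with F h5 h6 h7
    by_contra h8
    exact hhh F (a, b) (by simpa using h7) ⟨h5, h6, h8⟩

end cone


namespace RO_J3

open scoped commutatorElement

variable {G : Type*} [Group G]

/-- right shift by preimage -/
def sh (k : G) (A : Set G) : Set G := (fun x => x * k) ⁻¹' A

theorem sh_sh (k l : G) (A : Set G) : sh k (sh l A) = sh (k * l) A := by
  ext x; simp [sh, mul_assoc]

theorem sh_one (A : Set G) : sh (1 : G) A = A := by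
  ext x; simp [sh]

theorem sh_univ (k : G) : sh k (Set.univ : Set G) = Set.univ := by
  ext x; simp [sh]

theorem sh_union (k : G) (A B : Set G) : sh k (A ∪ B) = sh k A ∪ sh k B := by
  ext x; simp [sh]

theorem sh_disjoint (k : G) {A B : Set G} (h : Disjoint A B) : Disjoint (sh k A) (sh k B) :=
  Disjoint.preimage _ h

/-- finitely additive probabilities invariant under a subgroup -/
structure IsM (H : Subgroup G) (μ : Set G → ℝ) : Prop where
  nn : ∀ A, 0 ≤ μ A
  un : μ Set.univ = 1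
  ad : ∀ A B, Disjoint A B → μ (A ∪ B) = μ A + μ B
  iv : ∀ (A : Set G) (g : G), g ∈ H → μ (sh g A) = μ A

theorem IsM.le_one {H : Subgroup G} {μ : Set G → ℝ} (h : IsM H μ) (A : Set G) : μ A ≤ 1 := by
  have h1 := h.ad A Aᶜ disjoint_compl_right
  rw [Set.union_compl_self, h.un] at h1
  have h2 := h.nn Aᶜ
  linarith

theorem avg {H K : Subgroup G} (hc : ⁅K, K⁆ ≤ H) (hn : ∀ k ∈ K, ∀ h ∈ H, k * h * k⁻¹ ∈ H)
    {μ : Set G → ℝ} (hμ : IsM H μ) (f0 : G) (hf0 : f0 ∈ K) (n : ℕ) (hn0 : 0 < n) :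
    IsM H (fun A => (∑ i ∈ Finset.range n, μ (sh (f0 ^ i) A)) / n) ∧
    (∀ A, |(∑ i ∈ Finset.range n, μ (sh (f0 ^ i) (sh f0 A))) / n -
      (∑ i ∈ Finset.range n, μ (sh (f0 ^ i) A)) / n| ≤ 1 / n) ∧
    (∀ (f : G) (ε : ℝ), f ∈ K → (∀ A, |μ (sh f A) - μ A| ≤ ε) →
      ∀ A, |(∑ i ∈ Finset.range n, μ (sh (f0 ^ i) (sh f A))) / n -
      (∑ i ∈ Finset.range n, μ (sh (f0 ^ i) A)) / n| ≤ ε) := by
  have hnR : (0 : ℝ) < n := by exact_mod_cast hn0
  refine ⟨⟨?_, ?_, ?_, ?_⟩, ?_, ?_⟩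
  · intro A
    apply div_nonneg _ hnR.le
    exact Finset.sum_nonneg (fun i _ => hμ.nn _)
  · simp only [sh_univ, hμ.un]
    simp [hnR.ne']
  · intro A B hAB
    rw [← add_div, ← Finset.sum_add_distrib]
    congr 1
    apply Finset.sum_congr rfl
    intro i _
    rw [sh_union, hμ.ad _ _ (sh_disjoint _ hAB)]
  · intro A g hg
    show (∑ i ∈ Finset.range n, μ (sh (f0 ^ i) (sh g A))) / n = _
    congr 1
    apply Finset.sum_congr rfl
    intro i _
    rw [sh_sh]
    have h1 : f0 ^ i * g = (f0 ^ i * g * (f0 ^ i)⁻¹) * f0 ^ i := by group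
    rw [h1, ← sh_sh]
    exact hμ.iv _ _ (hn _ (K.pow_mem hf0 i) _ hg)
  · intro A
    rw [← sub_div, ← Finset.sum_sub_distrib]
    have h1 : ∑ i ∈ Finset.range n, (μ (sh (f0 ^ i) (sh f0 A)) - μ (sh (f0 ^ i) A)) =
        μ (sh (f0 ^ n) A) - μ (sh (f0 ^ 0) A) := by
      rw [← Finset.sum_range_sub (fun i => μ (sh (f0 ^ i) A))]
      apply Finset.sum_congr rfl
      intro i _
      rw [sh_sh, ← pow_succ]
    rw [h1, abs_div, abs_of_pos hnR]
    apply div_le_div_of_nonneg_right _ hnR.le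
    rw [abs_le]
    have a1 := hμ.nn (sh (f0 ^ n) A)
    have a2 := hμ.le_one (sh (f0 ^ n) A)
    have a3 := hμ.nn (sh (f0 ^ 0) A)
    have a4 := hμ.le_one (sh (f0 ^ 0) A)
    constructor <;> linarith
  · intro f ε hf hε A
    rw [← sub_div, ← Finset.sum_sub_distrib, abs_div, abs_of_pos hnR, div_le_iff₀ hnR]
    have h2 : ∀ i ∈ Finset.range n,
        |μ (sh (f0 ^ i) (sh f A)) - μ (sh (f0 ^ i) A)| ≤ ε := by
      intro i _
      have h3 : f0 ^ i * f = ⁅f0 ^ i, f⁆ * (f * f0 ^ i) := by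
        rw [commutatorElement_def]; group
      have h4 : μ (sh (f0 ^ i) (sh f A)) = μ (sh f (sh (f0 ^ i) A)) := by
        rw [sh_sh, h3, ← sh_sh, hμ.iv _ _ (hc (Subgroup.commutator_mem_commutator
          (K.pow_mem hf0 i) hf)), sh_sh]
      rw [h4]
      exact hε _
    calc |∑ i ∈ Finset.range n, (μ (sh (f0 ^ i) (sh f A)) - μ (sh (f0 ^ i) A))|
        ≤ ∑ i ∈ Finset.range n, |μ (sh (f0 ^ i) (sh f A)) - μ (sh (f0 ^ i) A)| :=
          Finset.abs_sum_le_sum_abs _ _
      _ ≤ ∑ i ∈ Finset.range n, ε := Finset.sum_le_sum h2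
      _ = ε * n := by simp [mul_comm]

theorem fin_step {H K : Subgroup G} (hc : ⁅K, K⁆ ≤ H) (hn : ∀ k ∈ K, ∀ h ∈ H, k * h * k⁻¹ ∈ H)
    (hH : ∃ μ : Set G → ℝ, IsM H μ) (F : Finset K) (n : ℕ) :
    ∃ μ : Set G → ℝ, IsM H μ ∧ ∀ f ∈ F, ∀ A, |μ (sh (f : G) A) - μ A| ≤ 1 / ((n : ℝ) + 1) := by
  classical
  induction F using Finset.induction_on with
  | empty =>
    obtain ⟨μ, hμ⟩ := hH
    exact ⟨μ, hμ, by simp⟩
  | insert a s has ih =>
    obtain ⟨μ, hμ, hs⟩ := ih
    obtain ⟨h1, h2, h3⟩ := avg hc hn hμ (a : G) a.2 (n + 1) (Nat.succ_pos n)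
    refine ⟨_, h1, ?_⟩
    intro f hf A
    rcases Finset.mem_insert.mp hf with rfl | hf
    · have := h2 A
      push_cast at this ⊢
      exact this
    · exact h3 f _ f.2 (hs f hf) A

theorem step {H K : Subgroup G} (hc : ⁅K, K⁆ ≤ H) (hn : ∀ k ∈ K, ∀ h ∈ H, k * h * k⁻¹ ∈ H)
    (hH : ∃ μ : Set G → ℝ, IsM H μ) : ∃ μ : Set G → ℝ, IsM K μ := by
  classical
  choose u hu1 hu2 using fun (p : Finset K × ℕ) => fin_step hc hn hH p.1 p.2
  let S : Set (Set G → ℝ) := Set.pi Set.univ (fun _ => Set.Icc (0 : ℝ) 1)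
  have hS : IsCompact S := isCompact_univ_pi (fun _ => isCompact_Icc)
  let U : Ultrafilter (Finset K × ℕ) := Ultrafilter.of Filter.atTop
  have hU : (U : Filter (Finset K × ℕ)) ≤ Filter.atTop := Ultrafilter.of_le _
  have hmem : ((U.map u : Ultrafilter (Set G → ℝ)) : Filter (Set G → ℝ)) ≤ Filter.principal S := by
    rw [Filter.le_principal_iff]
    show S ∈ Filter.map u U
    rw [Filter.mem_map]
    apply Filter.univ_mem'
    intro p
    intro A _
    exact ⟨(hu1 p).nn A, (hu1 p).le_one A⟩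
  obtain ⟨μ, _, hμ⟩ := hS.ultrafilter_le_nhds _ hmem
  have ht : Filter.Tendsto u U (nhds μ) := hμ
  have htA : ∀ A, Filter.Tendsto (fun p => u p A) U (nhds (μ A)) := fun A =>
    ((continuous_apply A).tendsto μ).comp ht
  refine ⟨μ, ?_, ?_, ?_, ?_⟩
  · intro A
    exact ge_of_tendsto' (htA A) (fun p => (hu1 p).nn A)
  · refine tendsto_nhds_unique (htA Set.univ) ?_
    have : (fun p => u p Set.univ) = fun _ => (1 : ℝ) := by
      funext p; exact (hu1 p).un
    rw [this]
    exact tendsto_const_nhds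
  · intro A B hAB
    refine tendsto_nhds_unique (htA (A ∪ B)) ?_
    have : (fun p => u p (A ∪ B)) = fun p => u p A + u p B := by
      funext p; exact (hu1 p).ad A B hAB
    rw [this]
    exact (htA A).add (htA B)
  · intro A g hg
    have h1 : Filter.Tendsto (fun p : Finset K × ℕ => 1 / ((p.2 : ℝ) + 1)) U (nhds 0) := by
      have h2 : Filter.Tendsto (fun p : Finset K × ℕ => p.2) Filter.atTop Filter.atTop := by
        rw [← Filter.prod_atTop_atTop_eq]
        exact Filter.tendsto_snd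
      have h3 : Filter.Tendsto (fun p : Finset K × ℕ => 1 / ((p.2 : ℝ) + 1)) Filter.atTop (nhds 0) :=
        tendsto_one_div_add_atTop_nhds_zero_nat.comp h2
      exact h3.mono_left hU
    have h4 : ∀ᶠ p in (U : Filter (Finset K × ℕ)), |u p (sh g A) - u p A| ≤ 1 / ((p.2 : ℝ) + 1) := by
      have h5 : ∀ᶠ p in (Filter.atTop : Filter (Finset K × ℕ)), ({⟨g, hg⟩} : Finset K) ≤ p.1 := by
        have : ∀ᶠ p in (Filter.atTop : Filter (Finset K × ℕ)), (({⟨g, hg⟩} : Finset K), 0) ≤ p :=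
          Filter.eventually_ge_atTop _
        exact this.mono (fun p hp => hp.1)
      refine (hU h5 : _) |> fun h6 => ?_
      filter_upwards [h6] with p hp
      exact hu2 p ⟨g, hg⟩ (hp (Finset.mem_singleton_self _)) A
    have h7 : Filter.Tendsto (fun p => |u p (sh g A) - u p A|) U (nhds 0) :=
      squeeze_zero' (Filter.Eventually.of_forall (fun p => abs_nonneg _)) h4 h1
    have h8 : Filter.Tendsto (fun p => |u p (sh g A) - u p A|) U (nhds |μ (sh g A) - μ A|) :=
      ((htA (sh g A)).sub (htA A)).abs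
    have h9 := tendsto_nhds_unique h8 h7
    have h10 := abs_eq_zero.mp h9
    linarith

end RO_J3

open RO_J3 in
/-- TARGET: soluble groups have a right invariant mean -/
theorem hasMean_of_solvable {G : Type*} [Group G] (hs : Group.IsSolvable G) : HasMean G := by
  obtain ⟨n, hn⟩ := hs.solvable
  have key : ∀ k, k ≤ n → ∃ μ : Set G → ℝ, IsM (derivedSeries G (n - k)) μ := by
    intro k
    induction k with
    | zero =>
      intro _
      rw [Nat.sub_zero, hn]
      classical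
      refine ⟨fun A => if (1 : G) ∈ A then 1 else 0, ?_, ?_, ?_, ?_⟩
      · intro A; split_ifs <;> norm_num
      · simp
      · intro A B hAB
        by_cases hA : (1 : G) ∈ A
        · have hB : (1 : G) ∉ B := Set.disjoint_left.mp hAB hA
          simp [hA, hB]
        · simp [hA]
      · intro A g hg
        rw [Subgroup.mem_bot] at hg
        subst hg
        rw [sh_one]
    | succ k ih =>
      intro hk
      have h1 := ih (by omega)
      have h2 : n - k = (n - (k + 1)) + 1 := by omega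
      rw [h2] at h1
      refine step (H := derivedSeries G ((n - (k + 1)) + 1)) (K := derivedSeries G (n - (k + 1)))
        ?_ ?_ h1
      · rw [derivedSeries_succ]
      · intro a _ h hh
        exact (derivedSeries_normal G _).conj_mem h hh a
  obtain ⟨μ, hμ⟩ := key n le_rfl
  refine ⟨μ, hμ.nn, hμ.un, hμ.ad, ?_⟩
  intro A g
  have h1 : (fun x => x * g) '' A = sh g⁻¹ A := by
    rw [sh, Set.image_mul_right]
  rw [h1]
  apply hμ.iv
  rw [Nat.sub_self, derivedSeries_zero]
  trivial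

end RO
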