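import Mathlib

/-!
Conjugation lemma for soluble groups and reduction to finitely generated subgroups.
-/

open scoped commutatorElement

namespace RO

def cl {G : Type*} [Group G] (S X : Set G) : Subgroup G :=
  Subgroup.closure {g : G | ∃ y ∈ X, ∃ s ∈ S, g = y⁻¹ * s * y}

theorem cl_mono {G : Type*} [Group G] (S : Set G) {X Y : Set G} (h : X ⊆ Y) :
    cl S X ≤ cl S Y := by
  apply Subgroup.closure_mono
  rintro g ⟨y, hy, s, hs, rfl⟩
  exact ⟨y, h hy, s, hs, rfl⟩

theorem mem_cl {G : Type*} [Group G] (S X : Set G) {y s : G} (hy : y ∈ X) (hs : s ∈ S) :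
    y⁻¹ * s * y ∈ cl S X := Subgroup.subset_closure ⟨y, hy, s, hs, rfl⟩

/-- finitely many elements of a normal closure lie in the subgroup generated by finitely many
conjugates. -/
theorem exists_finset_conj_one {G : Type*} [Group G] (S : Finset G) (e : G)
    (he : e ∈ Subgroup.normalClosure (S : Set G)) :
    ∃ Y : Finset G, e ∈ cl (S : Set G) (Y : Set G) := by
  classical
  unfold Subgroup.normalClosure at he
  induction he using Subgroup.closure_induction with
  | mem x hx =>
    rw [Group.mem_conjugatesOfSet_iff] at hx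
    obtain ⟨s, hs, hc⟩ := hx
    rw [isConj_iff] at hc
    obtain ⟨c, rfl⟩ := hc
    refine ⟨{c⁻¹}, ?_⟩
    have := mem_cl (S : Set G) ((({c⁻¹} : Finset G)) : Set G) (y := c⁻¹) (s := s) (by simp) hs
    simpa using this
  | one => exact ⟨∅, Subgroup.one_mem _⟩
  | mul x y _ _ hx hy =>
    obtain ⟨X, hX⟩ := hx
    obtain ⟨Y, hY⟩ := hy
    refine ⟨X ∪ Y, ?_⟩
    exact Subgroup.mul_mem _ (cl_mono _ (by simp) hX) (cl_mono _ (by simp) hY)
  | inv x _ hx =>
    obtain ⟨X, hX⟩ := hx
    exact ⟨X, Subgroup.inv_mem _ hX⟩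

theorem exists_finset_conj {G : Type*} [Group G] (S : Finset G)
    (hS : Subgroup.normalClosure (S : Set G) = ⊤) (E : Finset G) :
    ∃ Y : Finset G, ∀ e ∈ E, e ∈ cl (S : Set G) (Y : Set G) := by
  classical
  have h : ∀ e : G, ∃ Y : Finset G, e ∈ cl (S : Set G) (Y : Set G) := fun e =>
    exists_finset_conj_one S e (hS ▸ Subgroup.mem_top e)
  choose Y hY using h
  refine ⟨E.biUnion Y, fun e he => ?_⟩
  apply cl_mono _ _ (hY e)
  intro x hx
  simp only [Finset.coe_biUnion, Set.mem_iUnion, Finset.mem_coe]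
  exact ⟨e, he, hx⟩

/-- conjugation moves `cl S X` to `cl S (X*b)` -/
theorem conj_cl {G : Type*} [Group G] (S X Z : Set G) (b : G) (h : ∀ x ∈ X, x * b ∈ Z)
    {g : G} (hg : g ∈ cl S X) : b⁻¹ * g * b ∈ cl S Z := by
  unfold cl at hg
  induction hg using Subgroup.closure_induction with
  | mem x hx =>
    obtain ⟨y, hy, s, hs, rfl⟩ := hx
    have := mem_cl S Z (h y hy) hs
    convert this using 1
    group
  | one => simp
  | mul x y _ _ hx hy =>
    have := Subgroup.mul_mem _ hx hy
    convert this using 1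
    group
  | inv x _ hx =>
    have := Subgroup.inv_mem _ hx
    convert this using 1
    group

theorem map_cl {G H : Type*} [Group G] [Group H] (f : G →* H) (S X : Set G) :
    (cl S X).map f = cl (f '' S) (f '' X) := by
  unfold cl
  rw [MonoidHom.map_closure]
  congr 1
  ext g
  constructor
  · rintro ⟨_, ⟨y, hy, s, hs, rfl⟩, rfl⟩
    exact ⟨f y, ⟨y, hy, rfl⟩, f s, ⟨s, hs, rfl⟩, by simp⟩
  · rintro ⟨_, ⟨y, hy, rfl⟩, _, ⟨s, hs, rfl⟩, rfl⟩
    exact ⟨y⁻¹ * s * y, ⟨y, hy, s, hs, rfl⟩, by simp⟩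

/-- key lemma WP, by induction on the derived length -/
theorem wp_aux (n : ℕ) : ∀ {G : Type*} [Group G], derivedSeries G n = ⊥ → ∀ (S : Finset G),
    Subgroup.normalClosure (S : Set G) = ⊤ → ∀ (E : Finset G),
    ∃ X : Finset G, (1 : G) ∈ X ∧ ∀ x ∈ X, ∀ e ∈ E,
      x⁻¹ * e * x ∈ cl (S : Set G) (X : Set G) := by
  classical
  induction n with
  | zero =>
    intro G _ hG S hS E
    rw [derivedSeries_zero] at hG
    have hall : ∀ g : G, g = 1 := fun g => by
      have : g ∈ (⊤ : Subgroup G) := Subgroup.mem_top g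
      rw [hG] at this
      exact Subgroup.mem_bot.1 this
    refine ⟨{1}, by simp, fun x _ e _ => ?_⟩
    rw [hall (x⁻¹ * e * x)]
    exact Subgroup.one_mem _
  | succ n ih =>
    intro G _ hG S hS E
    let M := derivedSeries G n
    have hMn : M.Normal := inferInstance
    have hMc : ∀ a ∈ M, ∀ b ∈ M, a * b = b * a := by
      intro a ha b hb
      have : ⁅a, b⁆ ∈ derivedSeries G (n+1) := by
        rw [derivedSeries_succ]
        exact Subgroup.commutator_mem_commutator ha hb
      rw [hG, Subgroup.mem_bot] at this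
      exact commutatorElement_eq_one_iff_mul_comm.1 this
    obtain ⟨Y, hY⟩ := exists_finset_conj S hS E
    -- quotient
    let π := QuotientGroup.mk' M
    have hπ : Function.Surjective π := QuotientGroup.mk'_surjective M
    have hq : derivedSeries (G ⧸ M) n = ⊥ := by
      rw [← map_derivedSeries_eq hπ, eq_bot_iff]
      rintro _ ⟨g, hg, rfl⟩
      rw [Subgroup.mem_bot]
      exact (QuotientGroup.eq_one_iff g).2 hg
    have hSq : Subgroup.normalClosure ((S.image π : Finset (G ⧸ M)) : Set (G ⧸ M)) = ⊤ := by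
      rw [Finset.coe_image, ← Subgroup.map_normalClosure _ _ hπ, hS]
      exact Subgroup.map_top_of_surjective π hπ
    obtain ⟨Xq, h1q, hXq⟩ := ih hq (S.image π) hSq (Y.image π)
    -- lift
    let σ : G ⧸ M → G := fun q => if q = 1 then 1 else Function.surjInv hπ q
    have hσ : ∀ q, π (σ q) = q := by
      intro q
      by_cases h : q = 1
      · simp [σ, h]
      · simp only [σ, h, if_false]
        exact Function.surjInv_eq hπ q
    let X := Xq.image σ
    have h1X : (1 : G) ∈ X := Finset.mem_image.2 ⟨1, h1q, by simp [σ]⟩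
    have hπX : (π '' (X : Set G)) = (Xq : Set (G ⧸ M)) := by
      simp only [X, Finset.coe_image, Set.image_image, hσ]
      simp
    have hdec : ∀ y ∈ Y, ∀ x ∈ X, ∃ m ∈ M, ∃ d ∈ cl (S : Set G) (X : Set G),
        x⁻¹ * y * x = d * m := by
      intro y hy x hx
      obtain ⟨q, hq', rfl⟩ := Finset.mem_image.1 hx
      have h := hXq q hq' (π y) (Finset.mem_image_of_mem π hy)
      rw [Finset.coe_image, ← hπX, ← map_cl] at h
      obtain ⟨d, hd, hdq⟩ := h
      refine ⟨d⁻¹ * ((σ q)⁻¹ * y * σ q), ?_, d, hd, by group⟩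
      rw [← QuotientGroup.eq_one_iff]
      have : π (d⁻¹ * ((σ q)⁻¹ * y * σ q)) = 1 := by
        rw [map_mul, map_inv, hdq, map_mul, map_mul, map_inv, hσ]
        group
      exact this
    let mm : G → G → G := fun y x => if h : y ∈ Y ∧ x ∈ X then
      (hdec y h.1 x h.2).choose else 1
    have hmm : ∀ y ∈ Y, ∀ x ∈ X, mm y x ∈ M ∧ ∃ d ∈ cl (S : Set G) (X : Set G),
        x⁻¹ * y * x = d * mm y x := by
      intro y hy x hx
      have := (hdec y hy x hx).choose_spec
      simp only [mm, hy, hx, and_self, dif_pos]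
      exact this
    let B : Finset G := Finset.image (fun p : G × G => mm p.1 p.2) (Y ×ˢ X)
    have hBM : ∀ b ∈ B, b ∈ M := by
      intro b hb
      obtain ⟨p, hp, rfl⟩ := Finset.mem_image.1 hb
      rw [Finset.mem_product] at hp
      exact (hmm p.1 hp.1 p.2 hp.2).1
    let X' : Finset G := X ∪ Finset.image (fun p : G × G => p.1 * p.2) (X ×ˢ B)
    have hXX' : (X : Set G) ⊆ (X' : Set G) := by
      intro x hx
      simp only [X', Finset.coe_union]
      exact Or.inl hx
    have hXB : ∀ b ∈ B, ∀ x ∈ (X : Set G), x * b ∈ (X' : Set G) := by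
      intro b hb x hx
      simp only [X', Finset.coe_union]
      right
      rw [Finset.mem_coe, Finset.mem_image]
      exact ⟨(x, b), Finset.mem_product.2 ⟨hx, hb⟩, rfl⟩
    have hD0 : cl (S : Set G) (X : Set G) ≤ cl (S : Set G) (X' : Set G) := cl_mono _ hXX'
    -- generators
    have hgen : ∀ y ∈ Y, ∀ x ∈ X, ∀ s ∈ S, ∃ h ∈ cl (S : Set G) (X : Set G), ∃ m ∈ B,
        x⁻¹ * (y⁻¹ * s * y) * x = m⁻¹ * h * m := by
      intro y hy x hx s hs
      obtain ⟨hm, d, hd, hyx⟩ := hmm y hy x hx
      refine ⟨d⁻¹ * (x⁻¹ * s * x) * d, ?_, mm y x, ?_, ?_⟩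
      · exact Subgroup.mul_mem _ (Subgroup.mul_mem _ (Subgroup.inv_mem _ hd)
          (mem_cl _ _ hx hs)) hd
      · exact Finset.mem_image.2 ⟨(y, x), Finset.mem_product.2 ⟨hy, hx⟩, rfl⟩
      · have h2 : x⁻¹ * (y⁻¹ * s * y) * x = (x⁻¹ * y * x)⁻¹ * (x⁻¹ * s * x) * (x⁻¹ * y * x) := by
          group
        rw [h2, hyx]
        group
    have hE1 : ∀ x ∈ X, ∀ g ∈ cl (S : Set G) (Y : Set G),
        x⁻¹ * g * x ∈ cl (S : Set G) (X' : Set G) := by
      intro x hx g hg
      unfold cl at hg
      induction hg using Subgroup.closure_induction with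
      | mem g hg =>
        obtain ⟨y, hy, s, hs, rfl⟩ := hg
        obtain ⟨h, hh, m, hm, he⟩ := hgen y hy x hx s hs
        rw [he]
        exact conj_cl _ _ _ m (hXB m hm) hh
      | one => simp
      | mul a b _ _ ha hb =>
        have := Subgroup.mul_mem _ ha hb
        convert this using 1
        group
      | inv a _ ha =>
        have := Subgroup.inv_mem _ ha
        convert this using 1
        group
    have hE2 : ∀ x ∈ X, ∀ b ∈ B, ∀ g ∈ cl (S : Set G) (Y : Set G),
        (x * b)⁻¹ * g * (x * b) ∈ cl (S : Set G) (X' : Set G) := by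
      intro x hx b hb g hg
      unfold cl at hg
      induction hg using Subgroup.closure_induction with
      | mem g hg =>
        obtain ⟨y, hy, s, hs, rfl⟩ := hg
        obtain ⟨h, hh, m, hm, he⟩ := hgen y hy x hx s hs
        have h1 : (x * b)⁻¹ * (y⁻¹ * s * y) * (x * b) = b⁻¹ * (m⁻¹ * h * m) * b := by
          rw [← he]
          group
        have hbM := hBM b hb
        have hmM := hBM m hm
        -- (h^m)^b = h^b h^-1 h^m
        have hk : h⁻¹ * m⁻¹ * h * m ∈ M := by
          have : h⁻¹ * m⁻¹ * h ∈ M := by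
            have := hMn.conj_mem m⁻¹ (M.inv_mem hmM) h⁻¹
            simpa using this
          exact M.mul_mem this hmM
        have hcomm := hMc _ hk _ hbM
        have h3 : b⁻¹ * (m⁻¹ * h * m) * b = (b⁻¹ * h * b) * h⁻¹ * (m⁻¹ * h * m) := by
          have e1 : b⁻¹ * (m⁻¹ * h * m) * b = b⁻¹ * h * ((h⁻¹ * m⁻¹ * h * m) * b) := by group
          rw [e1, hcomm]
          group
        rw [h1, h3]
        refine Subgroup.mul_mem _ (Subgroup.mul_mem _ ?_ (Subgroup.inv_mem _ (hD0 hh))) ?_
        · exact conj_cl _ _ _ b (hXB b hb) hh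
        · exact conj_cl _ _ _ m (hXB m hm) hh
      | one => simp
      | mul a c _ _ ha hc =>
        have := Subgroup.mul_mem _ ha hc
        convert this using 1
        group
      | inv a _ ha =>
        have := Subgroup.inv_mem _ ha
        convert this using 1
        group
    refine ⟨X', hXX' h1X, fun x hx e he => ?_⟩
    rcases Finset.mem_union.1 hx with hx | hx
    · exact hE1 x hx e (hY e he)
    · obtain ⟨p, hp, rfl⟩ := Finset.mem_image.1 hx
      rw [Finset.mem_product] at hp
      exact hE2 p.1 hp.1 p.2 hp.2 e (hY e he)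

theorem wp_lemma {G : Type*} [Group G] (hs : Group.IsSolvable G) (S : Finset G)
    (hS : Subgroup.normalClosure (S : Set G) = ⊤) (E : Finset G) :
    ∃ X : Finset G, (1 : G) ∈ X ∧ ∀ x ∈ X, ∀ e ∈ E,
      x⁻¹ * e * x ∈ Subgroup.closure {g : G | ∃ y ∈ X, ∃ s ∈ S, g = y⁻¹ * s * y} := by
  obtain ⟨n, hn⟩ := hs.solvable
  exact wp_aux n hn S hS E


theorem mem_commutator_finset {G : Type*} [Group G] (g : G) (hg : g ∈ commutator G) :
    ∃ E : Finset G, g ∈ ⁅Subgroup.closure (E : Set G), Subgroup.closure (E : Set G)⁆ := by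
  classical
  have hmono : ∀ {E F : Finset G}, E ⊆ F → ⁅Subgroup.closure (E : Set G), Subgroup.closure (E : Set G)⁆ ≤
      ⁅Subgroup.closure (F : Set G), Subgroup.closure (F : Set G)⁆ := by
    intro E F h
    have := Subgroup.closure_mono (k := (F : Set G)) (h := (E : Set G)) (by exact_mod_cast h)
    exact Subgroup.commutator_mono this this
  rw [commutator_eq_closure] at hg
  induction hg using Subgroup.closure_induction with
  | mem x hx =>
    obtain ⟨a, b, rfl⟩ := hx
    refine ⟨{a, b}, Subgroup.commutator_mem_commutator ?_ ?_⟩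
    · exact Subgroup.subset_closure (by simp)
    · exact Subgroup.subset_closure (by simp)
  | one => exact ⟨∅, Subgroup.one_mem _⟩
  | mul x y _ _ hx hy =>
    obtain ⟨E, hE⟩ := hx
    obtain ⟨F, hF⟩ := hy
    refine ⟨E ∪ F, Subgroup.mul_mem _ ?_ ?_⟩
    · exact hmono Finset.subset_union_left hE
    · exact hmono Finset.subset_union_right hF
  | inv x _ hx =>
    obtain ⟨E, hE⟩ := hx
    exact ⟨E, Subgroup.inv_mem _ hE⟩

/-- TARGET: reduction to a finitely generated subgroup -/
theorem red_fg {G : Type*} [Group G] [Nontrivial G] (hs : Group.IsSolvable G)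
    (hfin : Finite (Abelianization G)) :
    ∃ T : Finset G, (∃ t ∈ T, t ≠ 1) ∧ ∃ m : ℕ, 0 < m ∧ ∀ t ∈ T,
      t ^ m ∈ ⁅Subgroup.closure (T : Set G), Subgroup.closure (T : Set G)⁆ := by
  classical
  haveI := Fintype.ofFinite (Abelianization G)
  have hsurj : Function.Surjective (Abelianization.of : G →* Abelianization G) :=
    fun a => QuotientGroup.mk_surjective a
  choose r hr using hsurj
  let S : Finset G := Finset.univ.image r
  have hS0 : ∀ g : G, ∃ s ∈ S, s⁻¹ * g ∈ commutator G := by
    intro g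
    refine ⟨r (Abelianization.of g), Finset.mem_image_of_mem _ (Finset.mem_univ _), ?_⟩
    rw [← Abelianization.ker_of, MonoidHom.mem_ker, map_mul, map_inv, hr, inv_mul_cancel]
  have hS : Subgroup.normalClosure (S : Set G) = ⊤ := by
    by_contra hne
    set K := Subgroup.normalClosure (S : Set G) with hK
    have hnt : Nontrivial (G ⧸ K) := by
      rw [QuotientGroup.nontrivial_iff]
      exact hne
    haveI : Group.IsSolvable (G ⧸ K) := inferInstance
    have hlt := Group.IsSolvable.commutator_lt_top_of_nontrivial (G ⧸ K)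
    apply hlt.ne
    rw [eq_top_iff]
    rintro q -
    obtain ⟨g, rfl⟩ := QuotientGroup.mk_surjective q
    obtain ⟨s, hs, hc⟩ := hS0 g
    have h1 : (QuotientGroup.mk' K g) = QuotientGroup.mk' K (s⁻¹ * g) := by
      have : QuotientGroup.mk' K s = 1 := by
        rw [← MonoidHom.mem_ker, QuotientGroup.ker_mk']
        exact Subgroup.subset_normalClosure (by exact_mod_cast hs)
      rw [map_mul, map_inv, this]; simp
    change QuotientGroup.mk' K g ∈ _
    rw [h1]
    have h2 : Subgroup.map (QuotientGroup.mk' K) (commutator G) ≤ commutator (G ⧸ K) := by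
      rw [_root_.commutator_def, _root_.commutator_def, Subgroup.map_commutator]
      exact Subgroup.commutator_mono le_top le_top
    exact h2 (Subgroup.mem_map_of_mem _ hc)
  set m := Nat.card (Abelianization G) with hm
  have hm0 : 0 < m := Nat.card_pos
  have hpow : ∀ s : G, s ^ m ∈ commutator G := by
    intro s
    rw [← Abelianization.ker_of, MonoidHom.mem_ker, map_pow, hm, pow_card_eq_one']
  choose! Ef hEf using fun g (hg : g ∈ commutator G) => mem_commutator_finset g hg
  let E : Finset G := S.biUnion (fun s => Ef (s ^ m))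
  have hE : ∀ s ∈ S, s ^ m ∈ ⁅Subgroup.closure (E : Set G), Subgroup.closure (E : Set G)⁆ := by
    intro s hs
    have h1 : Ef (s ^ m) ⊆ E := Finset.subset_biUnion_of_mem (fun s => Ef (s ^ m)) hs
    have h2 := Subgroup.closure_mono (k := (E : Set G)) (h := (Ef (s ^ m) : Set G)) (by exact_mod_cast h1)
    exact Subgroup.commutator_mono h2 h2 (hEf _ (hpow s))
  obtain ⟨X, hX1, hX⟩ := wp_lemma hs S hS E
  let T : Finset G := (X ×ˢ S).image (fun q => q.1⁻¹ * q.2 * q.1)
  have hT : (T : Set G) = {g : G | ∃ y ∈ X, ∃ s ∈ S, g = y⁻¹ * s * y} := by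
    ext g
    simp only [T, Finset.coe_image, Set.mem_image, Finset.mem_coe, Finset.mem_product,
      Set.mem_ofPred_eq, Prod.exists]
    constructor
    · rintro ⟨a, b, ⟨ha, hb⟩, rfl⟩; exact ⟨a, ha, b, hb, rfl⟩
    · rintro ⟨a, ha, b, hb, rfl⟩; exact ⟨a, b, ⟨ha, hb⟩, rfl⟩
  refine ⟨T, ?_, m, hm0, ?_⟩
  · by_contra hcon
    push Not at hcon
    have h1 : ∀ s ∈ S, s = 1 := by
      intro s hs
      apply hcon
      rw [← Finset.mem_coe, hT]
      exact ⟨1, hX1, s, hs, by simp⟩
    have h2 : Subgroup.normalClosure (S : Set G) ≤ ⊥ := by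
      apply Subgroup.normalClosure_le_normal
      intro s hs
      rw [h1 s (by exact_mod_cast hs)]
      exact Subgroup.one_mem _
    rw [hS] at h2
    exact top_ne_bot (α := Subgroup G) (le_bot_iff.mp h2)
  · intro t ht
    rw [← Finset.mem_coe, hT] at ht
    obtain ⟨x, hx, s, hs, rfl⟩ := ht
    rw [hT]
    set D := Subgroup.closure {g : G | ∃ y ∈ X, ∃ s ∈ S, g = y⁻¹ * s * y} with hD
    let φ : G →* G := (MulAut.conj x⁻¹).toMonoidHom
    have hφ : ∀ g, φ g = x⁻¹ * g * x := by intro g; simp [φ]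
    have h1 : (Subgroup.closure (E : Set G)).map φ ≤ D := by
      rw [MonoidHom.map_closure, Subgroup.closure_le]
      rintro _ ⟨e, he, rfl⟩
      change φ e ∈ D
      rw [hφ]
      exact hX x hx e (by exact_mod_cast he)
    have h2 : φ (s ^ m) ∈ ⁅D, D⁆ := by
      have h3 := Subgroup.mem_map_of_mem φ (hE s hs)
      rw [Subgroup.map_commutator] at h3
      exact Subgroup.commutator_mono h1 h1 h3
    have h4 : (x⁻¹ * s * x) ^ m = φ (s ^ m) := by
      rw [map_pow, hφ]
    rw [h4]
    exact h2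

end RO
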