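import Mathlib

set_option autoImplicit false

namespace Pool.Agent.H763
open scoped MultiplierAlgebra

namespace StenoE2

theorem isClosed_T {C : Type} [CStarAlgebra C] (T : NonUnitalStarSubalgebra ℂ C)
    (hfd : FiniteDimensional ℂ T) : IsClosed (T : Set C) :=
  Submodule.closed_of_finiteDimensional T.toSubmodule

/-- `‖h‖` is an eigenvalue of left multiplication by `h = c* c` on `T`. -/
theorem eigen {C : Type} [CStarAlgebra C] [Nontrivial C]
    (T : NonUnitalStarSubalgebra ℂ C) (hfd : FiniteDimensional ℂ T) (h1 : (1 : C) ∈ T)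
    (c : C) (hc : c ∈ T) :
    ∃ y ∈ T, y ≠ 0 ∧ (star c * c) * y = ((‖star c * c‖ : ℝ) : ℂ) • y := by
  set h := star c * c with hh
  have hsa : IsSelfAdjoint h := IsSelfAdjoint.star_mul_self c
  have hT : h ∈ T := mul_mem (star_mem hc) hc
  have hspec : ‖h‖ ∈ spectrum ℝ h := by
    rcases CStarAlgebra.norm_or_neg_norm_mem_spectrum hsa with h2 | h2
    · exact h2
    · have h3 := spectrum_star_mul_self_nonneg _ h2
      have h4 : ‖h‖ = 0 := le_antisymm (by linarith) (norm_nonneg _)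
      rw [h4] at h2 ⊢
      simpa using h2
  rw [spectrum.mem_iff] at hspec
  set c0 : C := algebraMap ℝ C ‖h‖ - h with hc0
  have hal : (algebraMap ℝ C ‖h‖ : C) = ((‖h‖ : ℝ) : ℂ) • (1 : C) := by
    rw [Algebra.algebraMap_eq_smul_one]
    exact (Complex.coe_smul ‖h‖ (1 : C)).symm
  have hc0T : c0 ∈ T := by
    rw [hc0, hal]
    exact sub_mem (SMulMemClass.smul_mem _ h1) hT
  have hc0s : star c0 = c0 := by
    rw [hc0, hal, star_sub, star_smul, star_one, hsa.star_eq]
    simp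
  by_contra hcon
  push Not at hcon
  -- left multiplication by `c0` is injective on `T`
  let L : T →ₗ[ℂ] T :=
    { toFun := fun y => ⟨c0 * y, mul_mem hc0T y.2⟩
      map_add' := fun a b => Subtype.ext (by simp [mul_add])
      map_smul' := fun r a => Subtype.ext (by simp) }
  have hinj : Function.Injective L := by
    rw [← LinearMap.ker_eq_bot, LinearMap.ker_eq_bot']
    intro y hy
    by_contra hy0
    have hy0' : (y : C) ≠ 0 := fun h => hy0 (Subtype.ext h)
    apply hcon y y.2 hy0'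
    have h5 : c0 * (y : C) = 0 := congrArg Subtype.val hy
    rw [hc0, hal, sub_mul, smul_mul_assoc, one_mul, sub_eq_zero] at h5
    exact h5.symm
  have hsurj : Function.Surjective L := LinearMap.injective_iff_surjective.1 hinj
  obtain ⟨y, hy⟩ := hsurj ⟨1, h1⟩
  have h6 : c0 * (y : C) = 1 := congrArg Subtype.val hy
  have h7 : star (y : C) * c0 = 1 := by
    have := congrArg star h6
    rwa [star_mul, hc0s, star_one] at this
  apply hspec
  exact isUnit_iff_exists_and_exists.2 ⟨⟨y, h6⟩, ⟨star (y : C), h7⟩⟩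

theorem claimA {C : Type} [CStarAlgebra C] [Nontrivial C]
    (T : NonUnitalStarSubalgebra ℂ C) (hfd : FiniteDimensional ℂ T) (h1 : (1 : C) ∈ T)
    (hunit : ∀ (R : NonUnitalStarSubalgebra ℂ C), FiniteDimensional ℂ R →
      ∃ u ∈ R, star u = u ∧ u * u = u ∧ ∀ x ∈ R, u * x = x ∧ x * u = x)
    (c : C) (hc : c ∈ T) :
    ∃ e ∈ T, e ≠ 0 ∧ star e = e ∧ e * e = e ∧
      (star c * c) * e = ((‖star c * c‖ : ℝ) : ℂ) • e := by
  obtain ⟨y, hyT, hy0, hy⟩ := eigen T hfd h1 c hc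
  let R : NonUnitalStarSubalgebra ℂ C :=
    { carrier := {z | ∃ t ∈ T, z = y * t * star y}
      add_mem' := by
        rintro _ _ ⟨t, ht, rfl⟩ ⟨s, hs, rfl⟩
        exact ⟨t + s, add_mem ht hs, by rw [mul_add, add_mul]⟩
      zero_mem' := ⟨0, zero_mem T, by simp⟩
      mul_mem' := by
        rintro _ _ ⟨t, ht, rfl⟩ ⟨s, hs, rfl⟩
        refine ⟨t * (star y * y) * s, mul_mem (mul_mem ht (mul_mem (star_mem hyT) hyT)) hs, ?_⟩
        simp only [mul_assoc]
      smul_mem' := by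
        rintro r _ ⟨t, ht, rfl⟩
        exact ⟨r • t, SMulMemClass.smul_mem r ht, by simp⟩
      star_mem' := by
        rintro _ ⟨t, ht, rfl⟩
        exact ⟨star t, star_mem ht, by simp [mul_assoc]⟩ }
  have hRT : ∀ z ∈ R, z ∈ T := by
    rintro _ ⟨t, ht, rfl⟩
    exact mul_mem (mul_mem hyT ht) (star_mem hyT)
  have hRfd : FiniteDimensional ℂ R := by
    have hle : R.toSubmodule ≤ T.toSubmodule := hRT
    have : FiniteDimensional ℂ T.toSubmodule := hfd
    exact Submodule.finiteDimensional_of_le hle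
  obtain ⟨u, huR, hus, huu, hu⟩ := hunit R hRfd
  refine ⟨u, hRT u huR, ?_, hus, huu, ?_⟩
  · rintro rfl
    have h2 : y * star y ∈ R := ⟨1, h1, by rw [mul_one]⟩
    have h3 := (hu _ h2).1
    rw [zero_mul] at h3
    have h4 : ‖y‖ * ‖y‖ = 0 := by
      rw [← CStarRing.norm_self_mul_star, ← h3, norm_zero]
    apply hy0
    rw [← norm_eq_zero]
    exact mul_self_eq_zero.1 h4
  · obtain ⟨t, ht, rfl⟩ := huR
    calc star c * c * (y * t * star y) = (star c * c * y) * t * star y := by simp only [mul_assoc]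
      _ = _ := by rw [hy]; simp only [smul_mul_assoc]

structure Dat (A : Type) [NonUnitalCStarAlgebra A] (D : Type) [CStarAlgebra D]
    (C : Type) [CStarAlgebra C] where
  j : A →⋆ₙₐ[ℂ] D
  jinj : Function.Injective j
  idl : ∀ (m : D) (a : A), ∃ b, m * j a = j b
  idr : ∀ (m : D) (a : A), ∃ b, j a * m = j b
  q : ℕ → A
  qs : ∀ k, star (q k) = q k
  qq : ∀ k, q k * q k = q k
  mono : ∀ k, q k * q (k + 1) = q k
  app : ∀ a : A, Filter.Tendsto (fun k => q k * a) Filter.atTop (nhds a)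
  T : ℕ → NonUnitalStarSubalgebra ℂ C
  hT : Monotone T
  hfd : ∀ k, FiniteDimensional ℂ (T k)
  h1 : ∀ k, (1 : C) ∈ T k
  hdense : Dense (⋃ k, (T k : Set C))
  ψ : ∀ k, T k →⋆ₙₐ[ℂ] A
  hψ1 : ∀ k, ψ k ⟨1, h1 k⟩ = q (k + 1) - q k
  hfull : ∀ k, ∀ c : T k, c ≠ 0 → q k ∈ Submodule.span ℂ {y : A | ∃ a b : A, y = a * ψ k c * b}
  Ψ : ∀ k, T k →⋆ₙₐ[ℂ] D
  hΨ : ∀ k (c : T k), Ψ k c = j (ψ k c) + Ψ (k + 1) ⟨c, hT (Nat.le_succ k) c.2⟩
  hΨ1 : ∀ k, Ψ k ⟨1, h1 k⟩ = 1 - j (q k)

namespace Dat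

variable {A : Type} [NonUnitalCStarAlgebra A] {D : Type} [CStarAlgebra D]
  {C : Type} [CStarAlgebra C] (X : Dat A D C)

/-- inclusion `T k ⊆ T l` -/
def inc {k l : ℕ} (h : k ≤ l) (c : X.T k) : X.T l := ⟨c, X.hT h c.2⟩

theorem lift {k l : ℕ} (hkl : k ≤ l) (c : X.T k) :
    ∃ y : A, X.Ψ k c = X.j y + X.Ψ l (X.inc hkl c) := by
  induction l, hkl using Nat.le_induction with
  | base => exact ⟨0, by rw [map_zero, zero_add]; rfl⟩
  | succ l hkl ih =>
    obtain ⟨y, hy⟩ := ih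
    refine ⟨y + X.ψ l (X.inc hkl c), ?_⟩
    rw [hy, X.hΨ l, map_add, add_assoc]
    rfl

theorem q_le {a b : ℕ} (h : a ≤ b) : X.q a * X.q b = X.q a := by
  induction b, h using Nat.le_induction with
  | base => exact X.qq a
  | succ b hab ih =>
    calc X.q a * X.q (b + 1) = (X.q a * X.q b) * X.q (b + 1) := by rw [ih]
      _ = X.q a * (X.q b * X.q (b + 1)) := mul_assoc _ _ _
      _ = X.q a := by rw [X.mono, ih]

theorem q_le' {a b : ℕ} (h : a ≤ b) : X.q b * X.q a = X.q a := by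
  have := congrArg star (X.q_le h)
  rwa [star_mul, X.qs, X.qs] at this

theorem psi_d (l : ℕ) (c : X.T l) : X.ψ l c * (X.q (l + 1) - X.q l) = X.ψ l c := by
  rw [← X.hψ1, ← map_mul]
  congr 1
  exact Subtype.ext (mul_one _)

theorem d_psi (l : ℕ) (c : X.T l) : (X.q (l + 1) - X.q l) * X.ψ l c = X.ψ l c := by
  rw [← X.hψ1, ← map_mul]
  congr 1
  exact Subtype.ext (one_mul _)

theorem psi_Psi_succ (l : ℕ) (c : X.T l) (h : X.T (l + 1)) :
    X.j (X.ψ l c) * X.Ψ (l + 1) h = 0 := by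
  have e1 : X.Ψ (l + 1) h = (1 - X.j (X.q (l + 1))) * X.Ψ (l + 1) h := by
    rw [← X.hΨ1, ← map_mul]
    congr 1
    exact Subtype.ext (one_mul _).symm
  have e2 : X.j (X.ψ l c) * (1 - X.j (X.q (l + 1))) = 0 := by
    rw [mul_sub, mul_one, ← map_mul]
    have : X.ψ l c * X.q (l + 1) = X.ψ l c := by
      rw [← X.psi_d l c, mul_assoc, sub_mul, X.qq, X.q_le (Nat.le_succ l)]
    rw [this, sub_self]
  rw [e1, ← mul_assoc, e2, zero_mul]

theorem psi_psi {k l : ℕ} (h : k < l) (c : X.T l) (e : X.T k) : X.ψ l c * X.ψ k e = 0 := by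
  rw [← X.psi_d l c, ← X.d_psi k e, mul_assoc, ← mul_assoc (X.q (l + 1) - X.q l)]
  have : (X.q (l + 1) - X.q l) * (X.q (k + 1) - X.q k) = 0 := by
    rw [sub_mul, mul_sub, mul_sub, X.q_le' (by omega), X.q_le' (by omega), X.q_le' (by omega),
      X.q_le' (by omega)]
    abel
  rw [this, zero_mul, mul_zero]

theorem psi_mul_aux {l : ℕ} (n : ℕ) : ∀ (k : ℕ) (hkl : k ≤ l) (_ : l = k + n) (c : X.T l)
    (h : X.T k), X.j (X.ψ l c) * X.Ψ k h = X.j (X.ψ l (c * X.inc hkl h)) := by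
  induction n with
  | zero =>
    intro k hkl hn c h
    obtain rfl : l = k := by omega
    rw [X.hΨ, mul_add, X.psi_Psi_succ, add_zero, ← map_mul, ← map_mul]
    rfl
  | succ n ih =>
    intro k hkl hn c h
    rw [X.hΨ, mul_add, ← map_mul, X.psi_psi (by omega), map_zero, zero_add]
    exact ih (k + 1) (by omega) (by omega) c ⟨h, X.hT (Nat.le_succ k) h.2⟩

theorem psi_mul {k l : ℕ} (hkl : k ≤ l) (c : X.T l) (h : X.T k) :
    X.j (X.ψ l c) * X.Ψ k h = X.j (X.ψ l (c * X.inc hkl h)) := by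
  obtain ⟨n, hn⟩ := Nat.exists_eq_add_of_le hkl
  exact X.psi_mul_aux n k hkl hn c h

theorem cont_j : Continuous X.j := (NonUnitalStarAlgHom.isometry X.j X.jinj).continuous

theorem mul_jl (x : A) (m : D) : ∃ b, X.j x * m = X.j b := X.idr m x

/-- the algebraic extension -/
def Balg : StarSubalgebra ℂ (D × C) where
  carrier := {p | ∃ (k : ℕ) (x : A) (c : X.T k), p = (X.j x + X.Ψ k c, (c : C))}
  add_mem' := by
    rintro _ _ ⟨k, x, c, rfl⟩ ⟨k', x', c', rfl⟩
    obtain ⟨y, hy⟩ := X.lift (le_max_left k k') c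
    obtain ⟨y', hy'⟩ := X.lift (le_max_right k k') c'
    refine ⟨max k k', x + y + (x' + y'), X.inc (le_max_left k k') c + X.inc (le_max_right k k') c', ?_⟩
    rw [hy, hy', Prod.mk_add_mk]
    refine Prod.ext ?_ rfl
    simp only [map_add]
    abel
  mul_mem' := by
    rintro _ _ ⟨k, x, c, rfl⟩ ⟨k', x', c', rfl⟩
    obtain ⟨y, hy⟩ := X.lift (le_max_left k k') c
    obtain ⟨y', hy'⟩ := X.lift (le_max_right k k') c'
    obtain ⟨u, hu⟩ := X.idl (X.Ψ _ (X.inc (le_max_left k k') c)) (x' + y')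
    obtain ⟨v, hv⟩ := X.idr (X.Ψ _ (X.inc (le_max_right k k') c')) (x + y)
    refine ⟨max k k', (x + y) * (x' + y') + u + v,
      X.inc (le_max_left k k') c * X.inc (le_max_right k k') c', ?_⟩
    rw [hy, hy', Prod.mk_mul_mk]
    refine Prod.ext ?_ rfl
    show _ = X.j ((x + y) * (x' + y') + u + v) + _
    rw [map_add, map_add, ← hu, ← hv, map_mul, map_mul, ← add_assoc, ← map_add, ← add_assoc, ← map_add]
    noncomm_ring
  algebraMap_mem' := by
    intro r
    refine ⟨0, r • X.q 0, r • ⟨1, X.h1 0⟩, ?_⟩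
    refine Prod.ext ?_ ?_
    · show algebraMap ℂ D r = _
      rw [map_smul, map_smul, X.hΨ1, ← smul_add, add_sub_cancel, Algebra.algebraMap_eq_smul_one]
    · show algebraMap ℂ C r = _
      rw [Algebra.algebraMap_eq_smul_one]; rfl
  star_mem' := by
    rintro _ ⟨k, x, c, rfl⟩
    refine ⟨k, star x, star c, ?_⟩
    refine Prod.ext ?_ rfl
    show star (X.j x + X.Ψ k c) = _
    rw [star_add, map_star, map_star]

theorem norm_Psi (k : ℕ) (c : X.T k) : ‖X.Ψ k c‖ ≤ ‖(c : C)‖ := by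
  have hcl : IsClosed (X.T k : Set C) := isClosed_T _ (X.hfd k)
  exact NonUnitalStarAlgHom.norm_apply_le (X.Ψ k) c

/-- the extension -/
abbrev B : StarSubalgebra ℂ (D × C) := X.Balg.topologicalClosure

noncomputable instance instB : CStarAlgebra X.B :=
  have : IsClosed (X.B : Set (D × C)) := X.Balg.isClosed_topologicalClosure
  StarSubalgebra.cstarAlgebra (S := StarSubalgebra ℂ (D × C)) (A := D × C) X.B

theorem j_mem (x : A) : ((X.j x, 0) : D × C) ∈ X.B := by
  apply X.Balg.le_topologicalClosure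
  exact ⟨0, x, 0, by simp⟩

/-- the embedding of `A` -/
noncomputable def ι : A →⋆ₙₐ[ℂ] X.B where
  toFun x := ⟨(X.j x, 0), X.j_mem x⟩
  map_smul' r x := Subtype.ext (Prod.ext (map_smul X.j r x) (smul_zero r).symm)
  map_zero' := Subtype.ext (Prod.ext (map_zero X.j) rfl)
  map_add' x y := Subtype.ext (Prod.ext (map_add X.j x y) (add_zero (0 : C)).symm)
  map_mul' x y := Subtype.ext (Prod.ext (map_mul X.j x y) (mul_zero (0 : C)).symm)
  map_star' x := Subtype.ext (Prod.ext (map_star X.j x) (star_zero C).symm)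

theorem ι_val (x : A) : ((X.ι x : X.B) : D × C) = (X.j x, 0) := rfl

/-- the quotient map -/
noncomputable def π : X.B →⋆ₐ[ℂ] C := (StarAlgHom.snd ℂ D C).comp X.B.subtype

theorem π_val (b : X.B) : X.π b = (b : D × C).2 := rfl

theorem ι_inj : Function.Injective X.ι := by
  intro x y h
  apply X.jinj
  have := congrArg (fun b : X.B => (b : D × C).1) h
  exact this

theorem mem_B (b : X.B) (ε : ℝ) (hε : 0 < ε) :
    ∃ (k : ℕ) (x : A) (c : X.T k), ‖(b : D × C) - (X.j x + X.Ψ k c, (c : C))‖ < ε := by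
  have hb : (b : D × C) ∈ closure (X.Balg : Set (D × C)) := b.2
  rw [Metric.mem_closure_iff] at hb
  obtain ⟨p, ⟨k, x, c, rfl⟩, hd⟩ := hb ε hε
  exact ⟨k, x, c, by rwa [dist_eq_norm] at hd⟩

theorem ker : Set.range X.ι = {b : X.B | X.π b = 0} := by
  ext b
  constructor
  · rintro ⟨x, rfl⟩
    rfl
  · intro hb
    have hb' : (b : D × C).2 = 0 := hb
    have hcl : IsClosed (Set.range X.j) :=
      (NonUnitalStarAlgHom.isometry X.j X.jinj).isClosedEmbedding.isClosed_range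
    have hmem : (b : D × C).1 ∈ closure (Set.range X.j) := by
      rw [Metric.mem_closure_iff]
      intro ε hε
      obtain ⟨k, x, c, hd⟩ := X.mem_B b (ε / 2) (by positivity)
      refine ⟨X.j x, ⟨x, rfl⟩, ?_⟩
      have h1 : ‖(b : D × C).1 - (X.j x + X.Ψ k c)‖ ≤ _ := norm_fst_le ((b : D × C) - (X.j x + X.Ψ k c, (c : C)))
      have h2 : ‖(b : D × C).2 - (c : C)‖ ≤ _ := norm_snd_le ((b : D × C) - (X.j x + X.Ψ k c, (c : C)))
      rw [hb', zero_sub, norm_neg] at h2
      have h3 := X.norm_Psi k c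
      rw [dist_eq_norm]
      calc ‖(b : D × C).1 - X.j x‖ = ‖((b : D × C).1 - (X.j x + X.Ψ k c)) + X.Ψ k c‖ := by
            congr 1; abel
        _ ≤ ‖(b : D × C).1 - (X.j x + X.Ψ k c)‖ + ‖X.Ψ k c‖ := norm_add_le _ _
        _ < ε := by linarith
    rw [hcl.closure_eq] at hmem
    obtain ⟨x, hx⟩ := hmem
    exact ⟨x, Subtype.ext (Prod.ext hx hb'.symm)⟩

theorem surj : Function.Surjective X.π := by
  let f : NormedAddGroupHom X.B C :=
    { toFun := fun b => (b : D × C).2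
      map_add' := fun _ _ => rfl
      bound' := ⟨1, fun b => by rw [one_mul]; exact norm_snd_le (b : D × C)⟩ }
  let K : AddSubgroup C :=
    { carrier := ⋃ k, (X.T k : Set C)
      zero_mem' := Set.mem_iUnion.2 ⟨0, zero_mem _⟩
      add_mem' := by
        intro a b ha hb
        obtain ⟨k, hk⟩ := Set.mem_iUnion.1 ha
        obtain ⟨l, hl⟩ := Set.mem_iUnion.1 hb
        exact Set.mem_iUnion.2 ⟨max k l, add_mem (X.hT (le_max_left k l) hk)
          (X.hT (le_max_right k l) hl)⟩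
      neg_mem' := by
        intro a ha
        obtain ⟨k, hk⟩ := Set.mem_iUnion.1 ha
        exact Set.mem_iUnion.2 ⟨k, neg_mem hk⟩ }
  have hK : f.SurjectiveOnWith K 1 := by
    intro c hc
    obtain ⟨k, hk⟩ := Set.mem_iUnion.1 hc
    refine ⟨⟨(X.Ψ k ⟨c, hk⟩, c), X.Balg.le_topologicalClosure ⟨k, 0, ⟨c, hk⟩, by simp⟩⟩, rfl, ?_⟩
    rw [one_mul]
    exact max_le (X.norm_Psi k ⟨c, hk⟩) le_rfl
  have h2 := controlled_closure_of_complete one_pos one_pos hK
  intro c
  have hc : c ∈ K.topologicalClosure := by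
    have : (c : C) ∈ closure (⋃ k, (X.T k : Set C)) := X.hdense c
    exact this
  obtain ⟨b, hb, -⟩ := h2 c hc
  exact ⟨b, hb⟩

theorem ι_isometry : Isometry X.ι := NonUnitalStarAlgHom.isometry X.ι X.ι_inj

theorem smulJ (J : TwoSidedIdeal X.B) (r : ℂ) (b : X.B) (hb : b ∈ J) : r • b ∈ J := by
  have : r • b = (r • (1 : X.B)) * b := by rw [smul_mul_assoc, one_mul]
  rw [this]
  exact J.mul_mem_left _ _ hb

theorem norm_proj_le (E : A) (h1 : star E = E) (h2 : E * E = E) : ‖E‖ ≤ 1 := by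
  have h3 : ‖E‖ * ‖E‖ = ‖E‖ := by
    rw [← CStarRing.norm_star_mul_self, h1, h2]
  by_contra h4
  push Not at h4
  nlinarith

/-- the main computation: an ideal not contained in `ι A` contains `ι (ψ l e)` for large `l`. -/
theorem ideal_proj [Nontrivial C]
    (hunit : ∀ (R : NonUnitalStarSubalgebra ℂ C), FiniteDimensional ℂ R →
      ∃ u ∈ R, star u = u ∧ u * u = u ∧ ∀ x ∈ R, u * x = x ∧ x * u = x)
    (J : TwoSidedIdeal X.B) (hJ : IsClosed (J : Set X.B)) (b : X.B) (hb : b ∈ J)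
    (hbn : X.π b ≠ 0) :
    ∃ (k : ℕ) (e : X.T k), (e : C) ≠ 0 ∧ ∃ l0, ∀ l (hl : k ≤ l), l0 ≤ l →
      X.ι (X.ψ l (X.inc hl e)) ∈ J := by
  set N : ℝ := ‖X.π b‖ * ‖X.π b‖ with hN
  have hN0 : 0 < N := by
    have := norm_pos_iff.2 hbn
    positivity
  have hNb : ‖X.π (star b * b)‖ = N := by
    rw [map_mul, map_star, CStarRing.norm_star_mul_self]
  -- approximate `b`
  have hcl : ((star b * b : X.B) : D × C) ∈ closure {p : D × C | ∃ z ∈ X.Balg, p = star z * z} := by
    have hc : Continuous (fun w : D × C => star w * w) := by fun_prop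
    exact map_mem_closure (f := fun w : D × C => star w * w) (s := (X.Balg : Set (D × C)))
      (t := {p : D × C | ∃ z ∈ X.Balg, p = star z * z}) (x := (b : D × C)) hc
      (b.2 : (b : D × C) ∈ closure (X.Balg : Set (D × C))) (fun z hz => ⟨z, hz, rfl⟩)
  rw [Metric.mem_closure_iff] at hcl
  obtain ⟨_, ⟨z, hz, rfl⟩, hd⟩ := hcl (N / 16) (by positivity)
  rw [dist_eq_norm] at hd
  have hzB : z ∈ X.B := X.Balg.le_topologicalClosure hz
  obtain ⟨k, x, c, rfl⟩ := hz
  set zB : X.B := ⟨_, hzB⟩ with hzBdef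
  -- `z* z`
  obtain ⟨u, hu⟩ := X.idr (X.Ψ k c) (star x)
  obtain ⟨v, hv⟩ := X.idl (star (X.Ψ k c)) x
  set x' : A := star x * x + u + v with hx'
  set h : X.T k := star c * c with hh
  have hzz : (star zB * zB : X.B).1 = (X.j x' + X.Ψ k h, (h : C)) := by
    refine Prod.ext ?_ rfl
    show star (X.j x + X.Ψ k c) * (X.j x + X.Ψ k c) = X.j x' + X.Ψ k h
    rw [hx', map_add, map_add, ← hu, ← hv, hh, map_mul, map_mul, map_star, map_star, star_add]
    noncomm_ring
  clear_value x'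
  set H : ℝ := ‖(h : C)‖ with hH
  have hdist : ‖star b * b - star zB * zB‖ < N / 16 := hd
  have hHN : N - N / 16 ≤ H := by
    have h1 : ‖X.π (star b * b) - (h : C)‖ ≤ ‖star b * b - star zB * zB‖ := by
      have h3 := norm_snd_le ((star b * b - star zB * zB : X.B) : D × C)
      exact h3
    have h2 : ‖X.π (star b * b)‖ ≤ ‖X.π (star b * b) - (h : C)‖ + ‖(h : C)‖ := by
      have := norm_add_le (X.π (star b * b) - (h : C)) (h : C)
      rwa [sub_add_cancel] at this
    rw [hNb] at h2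
    linarith
  have hH0 : 0 < H := by linarith
  obtain ⟨e, heT, he0, hes, hee, hhe⟩ := claimA (X.T k) (X.hfd k) (X.h1 k) hunit (c : C) c.2
  have hheh : (star (c : C) * (c : C)) = (h : C) := rfl
  rw [hheh] at hhe
  have heh : e * (h : C) = ((H : ℝ) : ℂ) • e := by
    have h1 := congrArg star hhe
    rw [star_mul, star_smul, hes] at h1
    have h2 : star (h : C) = (h : C) := by
      rw [← hheh, star_mul, star_star]
    rw [h2] at h1
    simpa using h1
  set eT : X.T k := ⟨e, heT⟩ with heTd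
  have hq0 : Filter.Tendsto (fun l => (X.q (l + 1) - X.q l) * x') Filter.atTop (nhds 0) := by
    have h1 := ((X.app x').comp (Filter.tendsto_add_atTop_nat 1)).sub (X.app x')
    rw [sub_self] at h1
    refine h1.congr ?_
    intro l
    simp only [Function.comp, sub_mul]
  have hev : ∀ᶠ l in Filter.atTop, ‖(X.q (l + 1) - X.q l) * x'‖ < H / 8 := by
    have h1 := hq0.norm
    rw [norm_zero] at h1
    exact h1.eventually (gt_mem_nhds (by positivity))
  obtain ⟨l0, hl0⟩ := Filter.eventually_atTop.1 hev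
  refine ⟨k, eT, he0, l0, ?_⟩
  intro l hl hll0
  have hdx := hl0 l hll0
  obtain ⟨E, hE⟩ : ∃ E : A, E = X.ψ l (X.inc hl eT) := ⟨_, rfl⟩
  rw [← hE]
  have hEs : star E = E := by
    rw [hE, ← map_star]; congr 1; exact Subtype.ext hes
  have hEE : E * E = E := by
    rw [hE, ← map_mul]; congr 1; exact Subtype.ext hee
  have hE1 : ‖E‖ ≤ 1 := norm_proj_le E hEs hEE
  have hEΨ : X.j E * X.Ψ k h = ((H : ℝ) : ℂ) • X.j E := by
    rw [hE, X.psi_mul hl, ← map_smul, ← map_smul]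
    congr 2
    exact Subtype.ext heh
  -- compression
  have hker : X.ι E * (star b * b) * X.ι E ∈ Set.range X.ι := by
    rw [X.ker]
    show X.π (X.ι E * (star b * b) * X.ι E) = 0
    have h1 : X.π (X.ι E) = 0 := rfl
    rw [map_mul, h1, mul_zero]
  obtain ⟨y, hy⟩ := hker
  have hcomp : X.ι E * (star zB * zB) * X.ι E = X.ι (E * x' * E + ((H : ℝ) : ℂ) • E) := by
    refine Subtype.ext ?_
    show ((X.ι E : X.B) : D × C) * (star zB * zB : X.B).1 * ((X.ι E : X.B) : D × C) = _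
    rw [hzz]
    refine Prod.ext ?_ ?_
    · show X.j E * (X.j x' + X.Ψ k h) * X.j E = X.j (E * x' * E + ((H : ℝ) : ℂ) • E)
      rw [mul_add, hEΨ, add_mul, map_add, map_smul, smul_mul_assoc, ← map_mul, ← map_mul,
        ← map_mul, hEE]
    · show (0 : C) * (h : C) * 0 = 0
      rw [mul_zero]
  have hιE : ‖X.ι E‖ ≤ 1 := by
    rw [NonUnitalStarAlgHom.norm_map X.ι X.ι_inj]; exact hE1
  have hnorm : ‖y - (E * x' * E + ((H : ℝ) : ℂ) • E)‖ ≤ N / 16 := by
    rw [← NonUnitalStarAlgHom.norm_map X.ι X.ι_inj, map_sub, hy, ← hcomp, ← sub_mul, ← mul_sub]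
    calc ‖X.ι E * (star b * b - star zB * zB) * X.ι E‖
        ≤ ‖X.ι E‖ * ‖star b * b - star zB * zB‖ * ‖X.ι E‖ := norm_mul₃_le
      _ ≤ 1 * (N / 16) * 1 := by gcongr
      _ = N / 16 := by ring
  have hExE : ‖E * x' * E‖ ≤ H / 8 := by
    have h1 : E * x' = E * ((X.q (l + 1) - X.q l) * x') := by
      rw [← mul_assoc, hE, X.psi_d]
    calc ‖E * x' * E‖ ≤ ‖E * x'‖ * ‖E‖ := norm_mul_le _ _
      _ ≤ ‖E * x'‖ * 1 := by gcongr
      _ = ‖E * ((X.q (l + 1) - X.q l) * x')‖ := by rw [mul_one, h1]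
      _ ≤ ‖E‖ * ‖(X.q (l + 1) - X.q l) * x'‖ := norm_mul_le _ _
      _ ≤ 1 * (H / 8) := by gcongr
      _ = H / 8 := one_mul _
  have hyE : ‖y - ((H : ℝ) : ℂ) • E‖ ≤ N / 16 + H / 8 := by
    have h1 : y - ((H : ℝ) : ℂ) • E = (y - (E * x' * E + ((H : ℝ) : ℂ) • E)) + E * x' * E := by abel
    rw [h1]
    exact (norm_add_le _ _).trans (add_le_add hnorm hExE)
  have hHc : ((H : ℝ) : ℂ) ≠ 0 := by exact_mod_cast hH0.ne'
  set y' : A := (((H : ℝ) : ℂ))⁻¹ • y with hy'
  have hy'E : ‖y' - E‖ ≤ 1 / 2 := by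
    have h1 : y' - E = (((H : ℝ) : ℂ))⁻¹ • (y - ((H : ℝ) : ℂ) • E) := by
      rw [smul_sub, smul_smul, inv_mul_cancel₀ hHc, one_smul]
    rw [h1, norm_smul, norm_inv, Complex.norm_real, Real.norm_of_nonneg hH0.le]
    rw [inv_mul_le_iff₀ hH0]
    linarith
  have hιyJ : X.ι y ∈ J := by
    rw [hy]
    exact J.mul_mem_right _ _ (J.mul_mem_left _ _ (J.mul_mem_left _ _ hb))
  have hιy'J : X.ι y' ∈ J := by
    rw [hy', map_smul]
    exact X.smulJ J _ _ hιyJ
  have hyEr : y * E = y := by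
    apply X.ι_inj
    rw [map_mul, hy, mul_assoc, ← map_mul, hEE]
  set w : X.B := X.ι E - X.ι y' with hw
  have hwE : w * X.ι E = w := by
    rw [hw, sub_mul, ← map_mul, ← map_mul, hEE, hy', smul_mul_assoc, hyEr]
  have hwn : ‖w‖ ≤ 1 / 2 := by
    rw [hw, ← map_sub, NonUnitalStarAlgHom.norm_map X.ι X.ι_inj, norm_sub_rev]
    exact hy'E
  have hpow : ∀ n : ℕ, X.ι E - w ^ (n + 1) ∈ J := by
    intro n
    induction n with
    | zero =>
      have : X.ι E - w ^ (0 + 1) = X.ι y' := by rw [zero_add, pow_one, hw]; abel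
      rw [this]; exact hιy'J
    | succ n ih =>
      have h1 : X.ι E - w ^ (n + 1 + 1) = (X.ι E - w ^ (n + 1)) + w ^ (n + 1) * X.ι y' := by
        have h2 : X.ι y' = X.ι E - w := by rw [hw]; abel
        have h3 : w ^ (n + 1) * X.ι E = w ^ (n + 1) := by rw [pow_succ, mul_assoc, hwE]
        rw [h2, mul_sub, h3, ← pow_succ]; abel
      rw [h1]
      exact J.add_mem ih (J.mul_mem_left _ _ hιy'J)
  have hlim : Filter.Tendsto (fun n : ℕ => X.ι E - w ^ (n + 1)) Filter.atTop (nhds (X.ι E)) := by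
    have h1 : Filter.Tendsto (fun n : ℕ => w ^ n) Filter.atTop (nhds 0) :=
      tendsto_pow_atTop_nhds_zero_of_norm_lt_one (by linarith)
    have h2 := (h1.comp (Filter.tendsto_add_atTop_nat 1)).const_sub (X.ι E)
    rw [sub_zero] at h2
    exact h2
  exact hJ.mem_of_tendsto hlim (Filter.Eventually.of_forall hpow)

theorem ideal_all [Nontrivial C]
    (hunit : ∀ (R : NonUnitalStarSubalgebra ℂ C), FiniteDimensional ℂ R →
      ∃ u ∈ R, star u = u ∧ u * u = u ∧ ∀ x ∈ R, u * x = x ∧ x * u = x)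
    (J : TwoSidedIdeal X.B) (hJ : IsClosed (J : Set X.B)) (b : X.B) (hb : b ∈ J)
    (hbn : X.π b ≠ 0) (x : A) : X.ι x ∈ J := by
  obtain ⟨k, e, he0, l0, hl0⟩ := X.ideal_proj hunit J hJ b hb hbn
  have hq : ∀ l, max k l0 ≤ l → X.ι (X.q l) ∈ J := by
    intro l hl
    have hkl : k ≤ l := (le_max_left k l0).trans hl
    have hE := hl0 l hkl ((le_max_right k l0).trans hl)
    let JA : Submodule ℂ A :=
      { carrier := {y | X.ι y ∈ J}
        add_mem' := fun {a b} ha hb => by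
          show X.ι (a + b) ∈ J
          rw [map_add]; exact J.add_mem ha hb
        zero_mem' := by
          show X.ι 0 ∈ J
          rw [map_zero]; exact J.zero_mem
        smul_mem' := fun r a ha => by
          show X.ι (r • a) ∈ J
          rw [map_smul]; exact X.smulJ J r _ ha }
    have hne : X.inc hkl e ≠ 0 := fun h => he0 (congrArg Subtype.val h)
    have h1 := X.hfull l (X.inc hkl e) hne
    have h2 : Submodule.span ℂ {y : A | ∃ a b : A, y = a * X.ψ l (X.inc hkl e) * b} ≤ JA := by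
      rw [Submodule.span_le]
      rintro _ ⟨a, b, rfl⟩
      show X.ι (a * X.ψ l (X.inc hkl e) * b) ∈ J
      rw [map_mul, map_mul]
      exact J.mul_mem_right _ _ (J.mul_mem_left _ _ hE)
    exact h2 h1
  have hlim : Filter.Tendsto (fun l : ℕ => X.ι (X.q l * x)) Filter.atTop (nhds (X.ι x)) :=
    (X.ι_isometry.continuous.tendsto x).comp (X.app x)
  refine hJ.mem_of_tendsto hlim ?_
  filter_upwards [Filter.eventually_ge_atTop (max k l0)] with l hl
  show X.ι (X.q l * x) ∈ J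
  rw [map_mul]
  exact J.mul_mem_right _ _ (hq l hl)

end Dat

end StenoE2

/-- From the strict sums to the extension. -/
theorem steno_assemble {A : Type} [NonUnitalCStarAlgebra A] {C : Type} [CStarAlgebra C] [Nontrivial C]
    (q : ℕ → A) (hqs : ∀ k, star (q k) = q k) (hqq : ∀ k, q k * q k = q k)
    (hmono : ∀ k, q k * q (k + 1) = q k)
    (happ : ∀ a : A, Filter.Tendsto (fun k => q k * a) Filter.atTop (nhds a))
    (T : ℕ → NonUnitalStarSubalgebra ℂ C) (hT : Monotone T)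
    (hfd : ∀ k, FiniteDimensional ℂ (T k)) (h1 : ∀ k, (1 : C) ∈ T k)
    (hdense : Dense (⋃ k, (T k : Set C)))
    (ψ : ∀ k, T k →⋆ₙₐ[ℂ] A)
    (hψ1 : ∀ k, ψ k ⟨1, h1 k⟩ = q (k + 1) - q k)
    (hfull : ∀ k, ∀ c : T k, c ≠ 0 →
      q k ∈ Submodule.span ℂ {y : A | ∃ a b : A, y = a * ψ k c * b})
    (Ψ : ∀ k, T k →⋆ₙₐ[ℂ] 𝓜(ℂ, A))
    (hΨ : ∀ k (c : T k), Ψ k c = (DoubleCentralizer.coeHom (𝕜 := ℂ) (ψ k c) : 𝓜(ℂ, A))
          + Ψ (k + 1) ⟨c, hT (Nat.le_succ k) c.2⟩)
    (hΨ1 : ∀ k, Ψ k ⟨1, h1 k⟩ = 1 - (DoubleCentralizer.coeHom (𝕜 := ℂ) (q k) : 𝓜(ℂ, A)))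
    (hunit : ∀ (R : NonUnitalStarSubalgebra ℂ C), FiniteDimensional ℂ R →
      ∃ u ∈ R, star u = u ∧ u * u = u ∧ ∀ x ∈ R, u * x = x ∧ x * u = x) :
    ∃ (B : Type) (_ : CStarAlgebra B) (ι : A →⋆ₙₐ[ℂ] B) (π : B →⋆ₐ[ℂ] C),
        Function.Injective ι ∧ Function.Surjective π ∧
        Set.range ι = {b : B | π b = 0} ∧
        ∀ I : TwoSidedIdeal B, IsClosed (I : Set B) →
          Set.range ι ⊆ (I : Set B) ∨ (I : Set B) ⊆ Set.range ι := by
  classical
  let X : StenoE2.Dat A 𝓜(ℂ, A) C :=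
    { j := DoubleCentralizer.coeHom (𝕜 := ℂ)
      jinj := by
        rw [injective_iff_map_eq_zero]
        intro a ha
        have h2 : (DoubleCentralizer.coeHom (𝕜 := ℂ) a : 𝓜(ℂ, A)).fst (star a) = 0 := by
          rw [ha]; rfl
        have h3 : a * star a = 0 := h2
        have h4 : ‖a‖ * ‖a‖ = 0 := by
          rw [← CStarRing.norm_self_mul_star, h3, norm_zero]
        exact norm_eq_zero.1 (mul_self_eq_zero.1 h4)
      idl := by
        intro m a
        refine ⟨m.fst a, ?_⟩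
        refine DoubleCentralizer.ext _ _ _ _ (Prod.ext ?_ ?_)
        · refine ContinuousLinearMap.ext fun y => ?_
          show m.fst (a * y) = m.fst a * y
          have key : ∀ x : A, x * m.fst (a * y) = x * (m.fst a * y) := by
            intro x
            rw [← m.central, ← mul_assoc, m.central, mul_assoc]
          have h2 := key (star (m.fst (a * y) - m.fst a * y))
          rw [← sub_eq_zero, ← mul_sub] at h2
          have h4 : ‖m.fst (a * y) - m.fst a * y‖ * ‖m.fst (a * y) - m.fst a * y‖ = 0 := by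
            rw [← CStarRing.norm_star_mul_self, h2, norm_zero]
          exact sub_eq_zero.1 (norm_eq_zero.1 (mul_self_eq_zero.1 h4))
        · refine ContinuousLinearMap.ext fun y => ?_
          show m.snd y * a = y * m.fst a
          exact m.central y a
      idr := by
        intro m a
        refine ⟨m.snd a, ?_⟩
        refine DoubleCentralizer.ext _ _ _ _ (Prod.ext ?_ ?_)
        · refine ContinuousLinearMap.ext fun y => ?_
          show a * m.fst y = m.snd a * y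
          exact (m.central a y).symm
        · refine ContinuousLinearMap.ext fun y => ?_
          show m.snd (y * a) = y * m.snd a
          have key : ∀ x : A, m.snd (y * a) * x = (y * m.snd a) * x := by
            intro x
            rw [m.central, mul_assoc, mul_assoc, m.central]
          have h2 := key (star (m.snd (y * a) - y * m.snd a))
          rw [← sub_eq_zero, ← sub_mul] at h2
          have h4 : ‖m.snd (y * a) - y * m.snd a‖ * ‖m.snd (y * a) - y * m.snd a‖ = 0 := by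
            rw [← CStarRing.norm_self_mul_star, h2, norm_zero]
          exact sub_eq_zero.1 (norm_eq_zero.1 (mul_self_eq_zero.1 h4))
      q := q, qs := hqs, qq := hqq, mono := hmono, app := happ, T := T, hT := hT, hfd := hfd
      h1 := h1, hdense := hdense, ψ := ψ, hψ1 := hψ1, hfull := hfull, Ψ := Ψ, hΨ := hΨ
      hΨ1 := hΨ1 }
  refine ⟨X.B, X.instB, X.ι, X.π, X.ι_inj, X.surj, X.ker, ?_⟩
  intro J hJ
  by_cases h : (J : Set X.B) ⊆ Set.range X.ι
  · exact Or.inr h
  · left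
    rw [Set.not_subset] at h
    obtain ⟨b, hb, hbn⟩ := h
    rintro _ ⟨x, rfl⟩
    refine X.ideal_all hunit J hJ b hb ?_ x
    intro h0
    apply hbn
    rw [X.ker]
    exact h0

end Pool.Agent.H763
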