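import Mathlib

set_option autoImplicit false

namespace Pool.Agent.H763

namespace StenoQ

theorem proj_norm_le {B : Type} [CStarAlgebra B] (q : B) (h1 : star q = q) (h2 : q * q = q) : ‖q‖ ≤ 1 := by
  have h := CStarRing.norm_star_mul_self (x := q)
  rw [h1, h2] at h
  by_contra hc
  push Not at hc
  nlinarith

theorem norm_sub_mul_le {A : Type} [NonUnitalCStarAlgebra A] (z : A) (h1 : star z = z)
    (h2 : z * z = z) (y : A) : ‖y - y * z‖ ≤ ‖y‖ := by
  have e : ((y - y * z : A) : Unitization ℂ A) = (y : Unitization ℂ A) * (1 - (z : Unitization ℂ A)) := by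
    simp [mul_sub]
  have hq : ‖(1 - (z : Unitization ℂ A))‖ ≤ 1 := by
    apply proj_norm_le
    · simp [← Unitization.inr_star, h1]
    · have : (z : Unitization ℂ A) * (z : Unitization ℂ A) = (z : Unitization ℂ A) := by
        rw [← Unitization.inr_mul, h2]
      simp [mul_sub, sub_mul, this]
  have h3 := norm_mul_le (y : Unitization ℂ A) (1 - (z : Unitization ℂ A))
  rw [← e, Unitization.norm_inr, Unitization.norm_inr] at h3
  calc ‖y - y * z‖ ≤ ‖y‖ * ‖(1 - (z : Unitization ℂ A))‖ := h3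
    _ ≤ ‖y‖ * 1 := by gcongr
    _ = ‖y‖ := mul_one _

theorem norm_sub_mul_le' {A : Type} [NonUnitalCStarAlgebra A] (z : A) (h1 : star z = z)
    (h2 : z * z = z) (y : A) : ‖y - z * y‖ ≤ ‖y‖ := by
  have h := norm_sub_mul_le z h1 h2 (star y)
  rw [← norm_star] at h
  simpa [h1] using h

structure Good {A : Type} [NonUnitalCStarAlgebra A] (I : Submodule ℂ A) (p : A) : Prop where
  closed : IsClosed (I : Set A)
  hl : ∀ a : A, ∀ x ∈ I, a * x ∈ I
  hr : ∀ a : A, ∀ x ∈ I, x * a ∈ I
  hs : ∀ x ∈ I, star x ∈ I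
  hap : ∀ x ∈ I, ∀ ε : ℝ, 0 < ε → ∃ z ∈ I, star z = z ∧ z * z = z ∧ ‖x - x * z‖ < ε
  hp : ∀ a : A, a - a * p ∈ I
  hp' : ∀ a : A, a - p * a ∈ I

variable {A : Type} [NonUnitalCStarAlgebra A] {I : Submodule ℂ A} {p : A}

def mulQ (H : Good I p) : (A ⧸ I) → (A ⧸ I) → (A ⧸ I) :=
  Quotient.map₂ (fun a b => a * b) (by
    intro a₁ a₂ ha b₁ b₂ hb
    have ha' : a₁ - a₂ ∈ I := (Submodule.quotientRel_def I).1 ha
    have hb' : b₁ - b₂ ∈ I := (Submodule.quotientRel_def I).1 hb
    refine (Submodule.quotientRel_def I).2 ?_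
    have : a₁ * b₁ - a₂ * b₂ = (a₁ - a₂) * b₁ + a₂ * (b₁ - b₂) := by
      simp [mul_sub, sub_mul]
    show a₁ * b₁ - a₂ * b₂ ∈ I
    rw [this]
    exact I.add_mem (H.hr _ _ ha') (H.hl _ _ hb'))

def starQ (H : Good I p) : (A ⧸ I) → (A ⧸ I) :=
  Quotient.map (fun a => star a) (by
    intro a₁ a₂ ha
    have ha' : a₁ - a₂ ∈ I := (Submodule.quotientRel_def I).1 ha
    refine (Submodule.quotientRel_def I).2 ?_
    show star a₁ - star a₂ ∈ I
    rw [← star_sub]
    exact H.hs _ ha')

theorem mulQ_mk (H : Good I p) (a b : A) :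
    mulQ H (Submodule.Quotient.mk a) (Submodule.Quotient.mk b) = Submodule.Quotient.mk (a * b) := rfl

theorem starQ_mk (H : Good I p) (a : A) :
    starQ H (Submodule.Quotient.mk a) = Submodule.Quotient.mk (star a) := rfl

/-- the quotient, as a fresh type -/
def Q (_H : Good I p) : Type := A ⧸ I

noncomputable instance (H : Good I p) : NormedAddCommGroup (Q H) :=
  haveI : IsClosed (I : Set A) := H.closed
  (Submodule.Quotient.normedAddCommGroup I : NormedAddCommGroup (A ⧸ I))

noncomputable instance instSMul (H : Good I p) : SMul ℂ (Q H) :=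
  ⟨fun c x => ((c • (show A ⧸ I from x) : A ⧸ I) : Q H)⟩

theorem norm_smul_Q (H : Good I p) (c : ℂ) (x : Q H) : ‖c • x‖ ≤ ‖c‖ * ‖x‖ := by
  haveI : IsClosed (I : Set A) := H.closed
  exact norm_smul_le c (show A ⧸ I from x)

instance (H : Good I p) : CompleteSpace (Q H) :=
  haveI : IsClosed (I : Set A) := H.closed
  (Submodule.Quotient.completeSpace I : CompleteSpace (A ⧸ I))

def mk (H : Good I p) (a : A) : Q H := (Submodule.Quotient.mk a : A ⧸ I)

theorem mk_surj (H : Good I p) : Function.Surjective (mk H) := Submodule.Quotient.mk_surjective I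

theorem mk_add (H : Good I p) (a b : A) : mk H (a + b) = mk H a + mk H b := rfl
theorem mk_sub (H : Good I p) (a b : A) : mk H (a - b) = mk H a - mk H b := rfl
theorem mk_smul (H : Good I p) (c : ℂ) (b : A) : mk H (c • b) = c • mk H b := rfl
theorem mk_zero (H : Good I p) : mk H 0 = 0 := rfl

theorem mk_eq (H : Good I p) (a b : A) : mk H a = mk H b ↔ a - b ∈ I := Submodule.Quotient.eq I

theorem norm_mk_le (H : Good I p) (a : A) : ‖mk H a‖ ≤ ‖a‖ := Submodule.Quotient.norm_mk_le I a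

theorem exists_rep (H : Good I p) (x : Q H) {ε : ℝ} (hε : 0 < ε) :
    ∃ m : A, mk H m = x ∧ ‖m‖ < ‖x‖ + ε := Submodule.Quotient.norm_mk_lt (S := I) x hε

instance (H : Good I p) : Mul (Q H) := ⟨mulQ H⟩
instance (H : Good I p) : One (Q H) := ⟨mk H p⟩
instance (H : Good I p) : Star (Q H) := ⟨starQ H⟩

theorem mk_mul (H : Good I p) (a b : A) : mk H (a * b) = mk H a * mk H b := rfl
theorem mk_star (H : Good I p) (a : A) : mk H (star a) = star (mk H a) := rfl
theorem mk_p (H : Good I p) : mk H p = 1 := rfl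

theorem one_mul' (H : Good I p) (x : Q H) : 1 * x = x := by
  obtain ⟨a, rfl⟩ := mk_surj H x
  rw [← mk_p, ← mk_mul, mk_eq]
  have := I.neg_mem (H.hp' a)
  simpa using this

theorem mul_one' (H : Good I p) (x : Q H) : x * 1 = x := by
  obtain ⟨a, rfl⟩ := mk_surj H x
  rw [← mk_p, ← mk_mul, mk_eq]
  have := I.neg_mem (H.hp a)
  simpa using this

noncomputable instance instRing (H : Good I p) : Ring (Q H) :=
  { (inferInstance : NormedAddCommGroup (Q H)), (inferInstance : Mul (Q H)),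
    (inferInstance : One (Q H)) with
    left_distrib := by
      intro x y z
      obtain ⟨a, rfl⟩ := mk_surj H x
      obtain ⟨b, rfl⟩ := mk_surj H y
      obtain ⟨c, rfl⟩ := mk_surj H z
      rw [← mk_add, ← mk_mul, ← mk_mul, ← mk_mul, ← mk_add, mul_add]
    right_distrib := by
      intro x y z
      obtain ⟨a, rfl⟩ := mk_surj H x
      obtain ⟨b, rfl⟩ := mk_surj H y
      obtain ⟨c, rfl⟩ := mk_surj H z
      rw [← mk_add, ← mk_mul, ← mk_mul, ← mk_mul, ← mk_add, add_mul]
    zero_mul := by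
      intro x
      obtain ⟨a, rfl⟩ := mk_surj H x
      show mk H 0 * mk H a = mk H 0
      rw [← mk_mul, zero_mul]
    mul_zero := by
      intro x
      obtain ⟨a, rfl⟩ := mk_surj H x
      show mk H a * mk H 0 = mk H 0
      rw [← mk_mul, mul_zero]
    mul_assoc := by
      intro x y z
      obtain ⟨a, rfl⟩ := mk_surj H x
      obtain ⟨b, rfl⟩ := mk_surj H y
      obtain ⟨c, rfl⟩ := mk_surj H z
      rw [← mk_mul, ← mk_mul, ← mk_mul, ← mk_mul, mul_assoc]
    one_mul := one_mul' H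
    mul_one := mul_one' H
 }


noncomputable instance instNormedRing (H : Good I p) : NormedRing (Q H) :=
  { (inferInstance : NormedAddCommGroup (Q H)), instRing H with
    norm_mul_le := by
      intro x y
      apply le_of_forall_pos_le_add
      intro ε hε
      have hc : Filter.Tendsto (fun δ : ℝ => (‖x‖ + δ) * (‖y‖ + δ)) (nhds 0)
          (nhds ((‖x‖ + 0) * (‖y‖ + 0))) := by
        apply Continuous.tendsto
        fun_prop
      have hev : ∀ᶠ δ in nhdsWithin (0 : ℝ) (Set.Ioi 0), (‖x‖ + δ) * (‖y‖ + δ) < ‖x‖ * ‖y‖ + ε := by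
        have h2 := (hc.mono_left (nhdsWithin_le_nhds (s := Set.Ioi (0 : ℝ))))
        apply h2.eventually_lt_const
        simp only [add_zero]
        linarith
      obtain ⟨δ, hδ, hδ0⟩ := (hev.and self_mem_nhdsWithin).exists
      have hδ0' : (0 : ℝ) < δ := hδ0
      obtain ⟨a, ha, ha'⟩ := exists_rep H x hδ0'
      obtain ⟨b, hb, hb'⟩ := exists_rep H y hδ0'
      calc ‖x * y‖ = ‖mk H (a * b)‖ := by rw [mk_mul, ha, hb]
        _ ≤ ‖a * b‖ := norm_mk_le H _
        _ ≤ ‖a‖ * ‖b‖ := norm_mul_le _ _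
        _ ≤ (‖x‖ + δ) * (‖y‖ + δ) := by
          apply mul_le_mul ha'.le hb'.le (norm_nonneg _)
          positivity
        _ ≤ ‖x‖ * ‖y‖ + ε := hδ.le }

noncomputable instance instStarRing (H : Good I p) : StarRing (Q H) where
  star_involutive := by
    intro x
    obtain ⟨a, rfl⟩ := mk_surj H x
    rw [← mk_star, ← mk_star, star_star]
  star_mul := by
    intro x y
    obtain ⟨a, rfl⟩ := mk_surj H x
    obtain ⟨b, rfl⟩ := mk_surj H y
    rw [← mk_mul, ← mk_star, ← mk_star, ← mk_star, ← mk_mul, star_mul]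
  star_add := by
    intro x y
    obtain ⟨a, rfl⟩ := mk_surj H x
    obtain ⟨b, rfl⟩ := mk_surj H y
    rw [← mk_add, ← mk_star, ← mk_star, ← mk_star, ← mk_add, star_add]

noncomputable instance instModule (H : Good I p) : Module ℂ (Q H) where
  smul := fun c x => c • x
  one_smul := by
    intro x
    obtain ⟨a, rfl⟩ := mk_surj H x
    rw [← mk_smul, one_smul]
  mul_smul := by
    intro r t x
    obtain ⟨a, rfl⟩ := mk_surj H x
    rw [← mk_smul, ← mk_smul, ← mk_smul, mul_smul]
  smul_zero := by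
    intro r
    rw [← mk_zero, ← mk_smul, smul_zero]
  smul_add := by
    intro r x y
    obtain ⟨a, rfl⟩ := mk_surj H x
    obtain ⟨b, rfl⟩ := mk_surj H y
    rw [← mk_add, ← mk_smul, ← mk_smul, ← mk_smul, ← mk_add, smul_add]
  add_smul := by
    intro r t x
    obtain ⟨a, rfl⟩ := mk_surj H x
    rw [← mk_smul, ← mk_smul, ← mk_smul, ← mk_add, add_smul]
  zero_smul := by
    intro x
    obtain ⟨a, rfl⟩ := mk_surj H x
    rw [← mk_smul, zero_smul, mk_zero]

theorem mk_smul' (H : Good I p) (c : ℂ) (b : A) : mk H (c • b) = c • mk H b := rfl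

noncomputable instance instAlgebra (H : Good I p) : Algebra ℂ (Q H) :=
  Algebra.ofModule
    (by
      intro r x y
      obtain ⟨a, rfl⟩ := mk_surj H x
      obtain ⟨b, rfl⟩ := mk_surj H y
      rw [← mk_smul', ← mk_mul, ← mk_mul, ← mk_smul', smul_mul_assoc])
    (by
      intro r x y
      obtain ⟨a, rfl⟩ := mk_surj H x
      obtain ⟨b, rfl⟩ := mk_surj H y
      rw [← mk_smul', ← mk_mul, ← mk_mul, ← mk_smul', mul_smul_comm])

noncomputable instance instNormedAlgebra (H : Good I p) : NormedAlgebra ℂ (Q H) where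
  norm_smul_le := by
    intro r x
    exact norm_smul_Q H r x

instance instStarModule (H : Good I p) : StarModule ℂ (Q H) where
  star_smul := by
    intro r x
    obtain ⟨a, rfl⟩ := mk_surj H x
    rw [← mk_smul', ← mk_star, ← mk_star, star_smul, mk_smul']

theorem cstar_key (z y i : A) (h1 : star z = z) (h2 : z * z = z) :
    ‖y - z * y - y * z + z * y * z‖ ≤ ‖y + i‖ + ‖i - i * z‖ := by
  have e1 : y - z * y - y * z + z * y * z = ((y + i) - (y + i) * z) - z * ((y + i) - (y + i) * z)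
      - ((i - i * z) - z * (i - i * z)) := by
    simp only [mul_sub, sub_mul, mul_add, add_mul, mul_assoc]
    abel
  rw [e1]
  calc _ ≤ ‖((y + i) - (y + i) * z) - z * ((y + i) - (y + i) * z)‖ + ‖(i - i * z) - z * (i - i * z)‖ :=
        norm_sub_le _ _
    _ ≤ ‖(y + i) - (y + i) * z‖ + ‖i - i * z‖ :=
        add_le_add (norm_sub_mul_le' z h1 h2 _) (norm_sub_mul_le' z h1 h2 _)
    _ ≤ ‖y + i‖ + ‖i - i * z‖ := by
        gcongr
        exact norm_sub_mul_le z h1 h2 _

instance instCStarRing (H : Good I p) : CStarRing (Q H) where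
  norm_mul_self_le := by
    intro x
    obtain ⟨a, rfl⟩ := mk_surj H x
    apply le_of_forall_pos_le_add
    intro ε hε
    rw [← mk_star, ← mk_mul]
    obtain ⟨m, hm, hm'⟩ := exists_rep H (mk H (star a * a)) (half_pos hε)
    have hi : m - star a * a ∈ I := (mk_eq H _ _).1 hm
    obtain ⟨z, hz, h1, h2, h3⟩ := H.hap _ hi _ (half_pos hε)
    have e0 : mk H a = mk H (a - a * z) := by
      rw [mk_eq]
      have := H.hl a z hz
      simpa using this
    have e1 : ‖mk H a‖ ≤ ‖a - a * z‖ := by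
      rw [e0]; exact norm_mk_le H _
    have e2 : ‖a - a * z‖ * ‖a - a * z‖ = ‖star (a - a * z) * (a - a * z)‖ :=
      (CStarRing.norm_star_mul_self (x := a - a * z)).symm
    have e3 : star (a - a * z) * (a - a * z) = (star a * a) - z * (star a * a) - (star a * a) * z
        + z * (star a * a) * z := by
      rw [star_sub, star_mul, h1]
      simp only [mul_sub, sub_mul, mul_assoc]
      abel
    have e4 := cstar_key z (star a * a) (m - star a * a) h1 h2
    have e5 : star a * a + (m - star a * a) = m := by abel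
    rw [e5] at e4
    calc ‖mk H a‖ * ‖mk H a‖ ≤ ‖a - a * z‖ * ‖a - a * z‖ :=
          mul_le_mul e1 e1 (norm_nonneg _) (norm_nonneg _)
      _ = ‖(star a * a) - z * (star a * a) - (star a * a) * z + z * (star a * a) * z‖ := by
          rw [e2, e3]
      _ ≤ ‖mk H (star a * a)‖ + ε := by linarith

noncomputable instance instCStarAlgebra (H : Good I p) : CStarAlgebra (Q H) where

noncomputable def mkHom (H : Good I p) : A →⋆ₙₐ[ℂ] Q H where
  toFun := mk H
  map_smul' := fun c b => mk_smul' H c b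
  map_zero' := mk_zero H
  map_add' := mk_add H
  map_mul' := mk_mul H
  map_star' := mk_star H

end StenoQ

/-- Quotients of C*-algebras, used through the hypothesis that A has no unital quotient. -/
theorem steno_quot {A : Type} [NonUnitalCStarAlgebra A]
    (hA : ∀ (D : Type) [CStarAlgebra D], Nontrivial D →
      ∀ φ : A →⋆ₙₐ[ℂ] D, ¬ Function.Surjective φ)
    (I : Submodule ℂ A) (hI : IsClosed (I : Set A))
    (hl : ∀ a : A, ∀ x ∈ I, a * x ∈ I) (hr : ∀ a : A, ∀ x ∈ I, x * a ∈ I)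
    (hs : ∀ x ∈ I, star x ∈ I)
    (hap : ∀ x ∈ I, ∀ ε : ℝ, 0 < ε → ∃ z ∈ I, star z = z ∧ z * z = z ∧ ‖x - x * z‖ < ε)
    (p : A) (hp : ∀ a : A, a - a * p ∈ I) (hp' : ∀ a : A, a - p * a ∈ I) : p ∈ I := by
  by_contra hpI
  have H : StenoQ.Good I p := ⟨hI, hl, hr, hs, hap, hp, hp'⟩
  refine hA (StenoQ.Q H) ?_ (StenoQ.mkHom H) (StenoQ.mk_surj H)
  refine ⟨⟨StenoQ.mk H p, StenoQ.mk H 0, ?_⟩⟩
  intro h
  rw [StenoQ.mk_eq] at h
  apply hpI
  simpa using h


end Pool.Agent.H763
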