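import Mathlib

set_option autoImplicit false

namespace Pool.Agent.H763

/-- minimal projections of a finite-dimensional *-subalgebra -/
def IsMinProj {A : Type} [NonUnitalCStarAlgebra A] (T : NonUnitalStarSubalgebra ℂ A) (e : A) : Prop :=
  e ∈ T ∧ star e = e ∧ e * e = e ∧ e ≠ 0 ∧ ∀ x ∈ T, ∃ z : ℂ, e * x * e = z • e

section
open scoped ComplexOrder MatrixOrder Matrix Matrix.Norms.L2Operator

theorem steno_factor {n : ℕ} {H : Matrix (Fin n) (Fin n) ℂ} (hH : H.PosDef) :
    ∃ B : Matrix (Fin n) (Fin n) ℂ, H = B.conjTranspose * B := by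
  obtain ⟨B, hB⟩ := CStarAlgebra.nonneg_iff_eq_star_mul_self.mp hH.posSemidef.nonneg
  exact ⟨B, hB⟩
end

/-- The functional attached to a minimal projection. -/
theorem steno_lam {C : Type} [CStarAlgebra C] (T : NonUnitalStarSubalgebra ℂ C) (e : C)
    (he : IsMinProj T e) :
    ∃ f : T →ₗ[ℂ] ℂ, (∀ x : T, e * (x : C) * e = f x • e) ∧
      (∀ x : T, f (star x) = star (f x)) ∧
      ∀ x : T, ∃ t : ℝ, 0 ≤ t ∧ f (star x * x) = (t : ℂ) ∧ (t = 0 → (x : C) * e = 0) := by
  obtain ⟨heT, hse, hee, hne, hmin⟩ := he
  have hinj : ∀ a b : ℂ, a • e = b • e → a = b := fun a b h => smul_left_injective ℂ hne h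
  choose z hz using fun x : T => hmin x x.2
  let f : T →ₗ[ℂ] ℂ :=
    { toFun := z
      map_add' := by
        intro x y
        apply hinj
        rw [← hz (x + y), add_smul, ← hz x, ← hz y]
        push_cast
        rw [mul_add, add_mul]
      map_smul' := by
        intro c x
        apply hinj
        rw [← hz (c • x)]
        simp only [RingHom.id_apply, smul_eq_mul]
        rw [mul_smul, ← hz x]
        push_cast
        rw [mul_smul_comm, smul_mul_assoc] }
  have hf : ∀ x : T, e * (x : C) * e = f x • e := hz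
  have hstar : ∀ x : T, f (star x) = star (f x) := by
    intro x
    apply hinj
    rw [← hf (star x)]
    have h1 := congrArg star (hf x)
    rw [star_mul, star_mul, star_smul, hse, ← mul_assoc] at h1
    exact h1
  refine ⟨f, hf, hstar, fun x => ?_⟩
  letI := CStarAlgebra.spectralOrder C
  haveI := CStarAlgebra.spectralOrderedRing C
  set y : C := (x : C) * e with hy
  have hyy : star y * y = f (star x * x) • e := by
    rw [← hf (star x * x)]
    rw [hy, star_mul, hse]
    have h0 : ((star x * x : T) : C) = star (x : C) * (x : C) := rfl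
    rw [h0]
    simp only [mul_assoc]
  have hreal : star (f (star x * x)) = f (star x * x) := by
    rw [← hstar]
    congr 1
    rw [star_mul, star_star]
  obtain ⟨t, ht⟩ : ∃ t : ℝ, f (star x * x) = (t : ℂ) := by
    refine ⟨(f (star x * x)).re, ?_⟩
    exact (Complex.conj_eq_iff_re.1 hreal).symm
  have hzero : t = 0 → y = 0 := by
    intro h0
    rw [ht, h0, Complex.ofReal_zero, zero_smul] at hyy
    exact CStarRing.star_mul_self_eq_zero_iff _ |>.1 hyy
  refine ⟨t, ?_, ht, hzero⟩
  by_contra hneg
  rw [not_le] at hneg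
  have h1 : 0 ≤ star y * y := star_mul_self_nonneg y
  have h2 : 0 ≤ star (((Real.sqrt (-t) : ℝ) : ℂ) • e) * (((Real.sqrt (-t) : ℝ) : ℂ) • e) :=
    star_mul_self_nonneg _
  have h3 : star (((Real.sqrt (-t) : ℝ) : ℂ) • e) * (((Real.sqrt (-t) : ℝ) : ℂ) • e) =
      - (star y * y) := by
    rw [star_smul, smul_mul_smul_comm, hse, hee, hyy, ht, ← neg_smul]
    congr 1
    have : star ((Real.sqrt (-t) : ℝ) : ℂ) = ((Real.sqrt (-t) : ℝ) : ℂ) := Complex.conj_ofReal _
    rw [this, ← Complex.ofReal_mul, Real.mul_self_sqrt (by linarith), Complex.ofReal_neg]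
  rw [h3] at h2
  have h4 : star y * y = 0 := le_antisymm (neg_nonneg.1 h2) h1
  rw [hyy, ht] at h4
  rcases smul_eq_zero.1 h4 with h | h
  · rw [Complex.ofReal_eq_zero] at h
    linarith
  · exact hne h

open scoped ComplexOrder in
/-- Faithful finite-dimensional representation of a finite-dimensional unital C*-algebra T; the
decomposition of 1 into minimal projections is a hypothesis (proved elsewhere). -/
theorem steno_rep {C : Type} [CStarAlgebra C] [Nontrivial C] (T : NonUnitalStarSubalgebra ℂ C)
    [FiniteDimensional ℂ T] (h1 : (1 : C) ∈ T)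
    (hdec : ∃ (r : ℕ) (e : Fin r → C), (∀ j, IsMinProj T (e j)) ∧ ∑ j, e j = 1) :
    ∃ (N : ℕ) (ρ : T →⋆ₙₐ[ℂ] Matrix (Fin (N + 1)) (Fin (N + 1)) ℂ),
      Function.Injective ρ ∧ ρ ⟨1, h1⟩ = 1 := by
  classical
  obtain ⟨r, e, he, hsum⟩ := hdec
  choose lam hlam hlams hlamp using fun j => steno_lam T (e j) (he j)
  let τ : T →ₗ[ℂ] ℂ := ∑ j, lam j
  have hτ : ∀ x, τ x = ∑ j, lam j x := fun x => by simp [τ]
  have hτs : ∀ x, τ (star x) = star (τ x) := by
    intro x
    rw [hτ, hτ, star_sum]
    exact Finset.sum_congr rfl fun j _ => hlams j x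
  have hτp : ∀ x : T, x ≠ 0 → 0 < τ (star x * x) := by
    intro x hx
    choose t ht0 ht ht' using fun j => hlamp j x
    have e1 : τ (star x * x) = ((∑ j, t j : ℝ) : ℂ) := by
      rw [hτ]; push_cast
      exact Finset.sum_congr rfl fun j _ => ht j
    rw [e1]
    have h0 : 0 ≤ ∑ j, t j := Finset.sum_nonneg fun j _ => ht0 j
    rcases h0.lt_or_eq with h | h
    · exact_mod_cast h
    · exfalso
      apply hx
      have h2 : ∀ j, t j = 0 := fun j =>
        (Finset.sum_eq_zero_iff_of_nonneg fun j _ => ht0 j).1 h.symm j (Finset.mem_univ j)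
      have h3 : (x : C) = 0 := by
        calc (x : C) = (x : C) * ∑ j, e j := by rw [hsum, mul_one]
          _ = ∑ j, (x : C) * e j := Finset.mul_sum _ _ _
          _ = 0 := Finset.sum_eq_zero fun j _ => ht' j (h2 j)
      exact Subtype.ext h3
  -- the basis
  have hone : (⟨1, h1⟩ : T) ≠ 0 := by
    intro h
    exact one_ne_zero (α := C) (congrArg Subtype.val h)
  haveI : Nontrivial T := ⟨⟨1, h1⟩, 0, hone⟩
  have hpos : 0 < Module.finrank ℂ T := Module.finrank_pos
  obtain ⟨N, hN⟩ : ∃ N, Module.finrank ℂ T = N + 1 := ⟨Module.finrank ℂ T - 1, by omega⟩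
  let b : Module.Basis (Fin (N + 1)) ℂ T := Module.finBasisOfFinrankEq ℂ T hN
  -- left multiplication
  let L : T → Matrix (Fin (N + 1)) (Fin (N + 1)) ℂ := fun c =>
    LinearMap.toMatrix b b (LinearMap.mulLeft ℂ c)
  have hLb : ∀ c j, c * b j = ∑ i, L c i j • b i := by
    intro c j
    have := (b.sum_repr (c * b j)).symm
    rw [this]
    refine Finset.sum_congr rfl fun i _ => ?_
    congr 1
    simp [L, LinearMap.toMatrix_apply]
  have hLmul : ∀ c d, L (c * d) = L c * L d := by
    intro c d
    have : LinearMap.mulLeft ℂ (c * d) = LinearMap.mulLeft ℂ c ∘ₗ LinearMap.mulLeft ℂ d := by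
      ext x; simp [mul_assoc]
    change LinearMap.toMatrix b b (LinearMap.mulLeft ℂ (c * d)) = _
    rw [this, LinearMap.toMatrix_comp b b b]
  have hLadd : ∀ c d, L (c + d) = L c + L d := by
    intro c d
    have : LinearMap.mulLeft ℂ (c + d) = LinearMap.mulLeft ℂ c + LinearMap.mulLeft ℂ d := by
      ext x; simp [add_mul]
    change LinearMap.toMatrix b b (LinearMap.mulLeft ℂ (c + d)) = _
    rw [this, map_add]
  have hLsmul : ∀ (a : ℂ) c, L (a • c) = a • L c := by
    intro a c
    have : LinearMap.mulLeft ℂ (a • c) = a • LinearMap.mulLeft ℂ c := by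
      ext x; simp [smul_mul_assoc]
    change LinearMap.toMatrix b b (LinearMap.mulLeft ℂ (a • c)) = _
    rw [this, map_smul]
  have hLone : L ⟨1, h1⟩ = 1 := by
    have : LinearMap.mulLeft ℂ (⟨1, h1⟩ : T) = LinearMap.id := by
      ext x; simp
    change LinearMap.toMatrix b b (LinearMap.mulLeft ℂ (⟨1, h1⟩ : T)) = _
    rw [this, LinearMap.toMatrix_id]
  have hLinj : ∀ c, L c = 0 → c = 0 := by
    intro c hc
    have h2 : LinearMap.mulLeft ℂ c = 0 := (LinearMap.toMatrix b b).map_eq_zero_iff.1 hc
    have h3 := LinearMap.congr_fun h2 ⟨1, h1⟩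
    have h4 : c * (⟨1, h1⟩ : T) = c := Subtype.ext (mul_one _)
    simpa [h4] using h3
  -- the Gram matrix
  let H : Matrix (Fin (N + 1)) (Fin (N + 1)) ℂ := fun i j => τ (star (b i) * b j)
  have hHpd : H.PosDef := by
    apply Matrix.PosDef.of_dotProduct_mulVec_pos
    · ext i j
      change star (τ (star (b j) * b i)) = τ (star (b i) * b j)
      rw [← hτs, star_mul, star_star]
    · intro x hx
      have hy : (∑ i, x i • b i) ≠ 0 := by
        intro h
        apply hx
        have := (Fintype.linearIndependent_iff.1 b.linearIndependent) x h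
        exact funext this
      have := hτp _ hy
      convert this using 1
      rw [star_sum, Finset.sum_mul, map_sum]
      simp only [dotProduct, Matrix.mulVec, Pi.star_apply]
      refine Finset.sum_congr rfl fun i _ => ?_
      have e1 : τ (star (x i • b i) * ∑ i, x i • b i) =
          ∑ j, star (x i) * (H i j * x j) := by
        rw [Finset.mul_sum, map_sum]
        refine Finset.sum_congr rfl fun j _ => ?_
        rw [star_smul, smul_mul_smul_comm, map_smul, smul_eq_mul]
        change star (x i) * x j * τ (star (b i) * b j) = star (x i) * (τ (star (b i) * b j) * x j)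
        ring
      rw [e1, ← Finset.mul_sum]
  obtain ⟨B, hB⟩ := steno_factor hHpd
  have hHu : IsUnit H := hHpd.isUnit
  have hBdet : IsUnit B.det := by
    have h2 : IsUnit H.det := (Matrix.isUnit_iff_isUnit_det _).1 hHu
    rw [hB, Matrix.det_mul] at h2
    exact isUnit_of_mul_isUnit_right h2
  have hBB : B * B⁻¹ = 1 := Matrix.mul_nonsing_inv B hBdet
  have hBB' : B⁻¹ * B = 1 := Matrix.nonsing_inv_mul B hBdet
  -- the adjoint relation
  have hadj : ∀ c, H * L c = (L (star c)).conjTranspose * H := by
    intro c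
    ext i j
    rw [Matrix.mul_apply, Matrix.mul_apply]
    have e1 : τ (star (b i) * (c * b j)) = ∑ k, H i k * L c k j := by
      rw [hLb c j, Finset.mul_sum, map_sum]
      refine Finset.sum_congr rfl fun k _ => ?_
      rw [mul_smul_comm, map_smul, smul_eq_mul, mul_comm]
    have e2 : τ (star (star c * b i) * b j) = ∑ k, (L (star c)).conjTranspose i k * H k j := by
      rw [hLb (star c) i, star_sum, Finset.sum_mul, map_sum]
      refine Finset.sum_congr rfl fun k _ => ?_
      rw [star_smul, smul_mul_assoc, map_smul, smul_eq_mul, Matrix.conjTranspose_apply]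
    rw [← e1, ← e2, star_mul, star_star, mul_assoc]
  let ρ : T →⋆ₙₐ[ℂ] Matrix (Fin (N + 1)) (Fin (N + 1)) ℂ :=
    { toFun := fun c => B * L c * B⁻¹
      map_smul' := by
        intro a c
        simp only [MonoidHom.id_apply]
        rw [hLsmul, Matrix.mul_smul, Matrix.smul_mul]
      map_zero' := by
        have : L 0 = 0 := by
          have := hLadd 0 0
          rw [add_zero] at this
          exact left_eq_add.1 this
        rw [this, Matrix.mul_zero, Matrix.zero_mul]
      map_add' := by
        intro c d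
        rw [hLadd, Matrix.mul_add, Matrix.add_mul]
      map_mul' := by
        intro c d
        rw [hLmul]
        calc B * (L c * L d) * B⁻¹ = B * L c * (B⁻¹ * B) * L d * B⁻¹ := by
              rw [hBB', Matrix.mul_one]; simp only [Matrix.mul_assoc]
          _ = B * L c * B⁻¹ * (B * L d * B⁻¹) := by simp only [Matrix.mul_assoc]
      map_star' := by
        intro c
        -- star (B L(c) B^{-1}) = B L(c*) B^{-1}
        rw [Matrix.star_eq_conjTranspose, Matrix.conjTranspose_mul, Matrix.conjTranspose_mul]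
        have h2 := hadj (star c)
        rw [star_star, hB] at h2
        -- B^H B L(c*) = L(c)^H B^H B
        have h3 : B.conjTranspose * (B * L (star c) * B⁻¹) = (L c).conjTranspose * B.conjTranspose := by
          calc B.conjTranspose * (B * L (star c) * B⁻¹)
              = (B.conjTranspose * B * L (star c)) * B⁻¹ := by simp only [Matrix.mul_assoc]
            _ = ((L c).conjTranspose * (B.conjTranspose * B)) * B⁻¹ := by rw [h2]
            _ = (L c).conjTranspose * B.conjTranspose * (B * B⁻¹) := by simp only [Matrix.mul_assoc]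
            _ = (L c).conjTranspose * B.conjTranspose := by rw [hBB, Matrix.mul_one]
        have h4 : (B⁻¹).conjTranspose * B.conjTranspose = 1 := by
          rw [← Matrix.conjTranspose_mul, hBB, Matrix.conjTranspose_one]
        calc B * L (star c) * B⁻¹
            = ((B⁻¹).conjTranspose * B.conjTranspose) * (B * L (star c) * B⁻¹) := by
              rw [h4, Matrix.one_mul]
          _ = (B⁻¹).conjTranspose * (B.conjTranspose * (B * L (star c) * B⁻¹)) := by
              simp only [Matrix.mul_assoc]
          _ = (B⁻¹).conjTranspose * ((L c).conjTranspose * B.conjTranspose) := by rw [h3] }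
  refine ⟨N, ρ, ?_, ?_⟩
  · rw [injective_iff_map_eq_zero]
    intro c hc
    apply hLinj
    have hc' : B * L c * B⁻¹ = 0 := hc
    calc L c = (B⁻¹ * B) * L c * (B⁻¹ * B) := by rw [hBB', Matrix.one_mul, Matrix.mul_one]
      _ = B⁻¹ * (B * L c * B⁻¹) * B := by simp only [Matrix.mul_assoc]
      _ = 0 := by rw [hc', Matrix.mul_zero, Matrix.zero_mul]
  · change B * L ⟨1, h1⟩ * B⁻¹ = 1
    rw [hLone, Matrix.mul_one, hBB]

end Pool.Agent.H763
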