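import Mathlib
import Pool.Agent.H763.StenoQuot
import Pool.Agent.H763.StenoRep

set_option autoImplicit false

namespace Pool.Agent.H763

namespace Steno

open Filter Topology

theorem exists_unit {A : Type} [NonUnitalCStarAlgebra A] (T : NonUnitalStarSubalgebra ℂ A)
    [FiniteDimensional ℂ T] :
    ∃ u ∈ T, star u = u ∧ u * u = u ∧ ∀ x ∈ T, u * x = x ∧ x * u = x := by
  have hcl : IsClosed (T : Set A) :=
    Submodule.closed_of_finiteDimensional (T.toNonUnitalSubalgebra.toSubmodule)
  let _ : NonUnitalCStarAlgebra T := NonUnitalStarSubalgebra.nonUnitalCStarAlgebra T (h_closed := hcl)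
  let _ : PartialOrder T := CStarAlgebra.spectralOrder T
  have _ : StarOrderedRing T := CStarAlgebra.spectralOrderedRing T
  have hl := CStarAlgebra.increasingApproximateUnit (A := T)
  set l := CStarAlgebra.approximateUnit T
  have _ : ProperSpace T := FiniteDimensional.proper ℂ T
  have hK : IsCompact (Metric.closedBall (0 : T) 1) := isCompact_closedBall _ _
  obtain ⟨u, -, hu⟩ := hK.exists_clusterPt (f := l) (by
    simpa using hl.closedBall_mem)
  have _ : (𝓝 u ⊓ l).NeBot := hu
  have h1 : ∀ x : T, u * x = x := by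
    intro x
    have ht1 : Tendsto (fun y : T => y * x) (𝓝 u ⊓ l) (𝓝 (u * x)) :=
      (Tendsto.mul_const x tendsto_id).mono_left inf_le_left
    have ht2 : Tendsto (fun y : T => y * x) (𝓝 u ⊓ l) (𝓝 x) :=
      (hl.tendsto_mul_right x).mono_left inf_le_right
    exact tendsto_nhds_unique ht1 ht2
  have h2 : ∀ x : T, x * u = x := by
    intro x
    have ht1 : Tendsto (fun y : T => x * y) (𝓝 u ⊓ l) (𝓝 (x * u)) :=
      (Tendsto.const_mul x tendsto_id).mono_left inf_le_left
    have ht2 : Tendsto (fun y : T => x * y) (𝓝 u ⊓ l) (𝓝 x) :=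
      (hl.tendsto_mul_left x).mono_left inf_le_right
    exact tendsto_nhds_unique ht1 ht2
  have h3 : star u = u := by
    have h4 := h2 (star u)
    have h6 : star (star u * u) = star (star u) := by rw [h4]
    rw [star_mul, star_star, h4] at h6
    exact h6
  refine ⟨u, u.2, congrArg Subtype.val h3, congrArg Subtype.val (h1 u), fun x hx => ?_⟩
  exact ⟨congrArg Subtype.val (h1 ⟨x, hx⟩), congrArg Subtype.val (h2 ⟨x, hx⟩)⟩


def conjSub {A : Type} [NonUnitalCStarAlgebra A] (T : NonUnitalStarSubalgebra ℂ A) (c : A)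
    (hc : c ∈ T) : NonUnitalStarSubalgebra ℂ A where
  carrier := {y | ∃ t ∈ T, y = c * t * star c}
  add_mem' := by
    rintro _ _ ⟨t, ht, rfl⟩ ⟨s, hs, rfl⟩
    exact ⟨t + s, add_mem ht hs, by rw [mul_add, add_mul]⟩
  zero_mem' := ⟨0, zero_mem _, by simp⟩
  mul_mem' := by
    rintro _ _ ⟨t, ht, rfl⟩ ⟨s, hs, rfl⟩
    exact ⟨t * (star c * c) * s, mul_mem (mul_mem ht (mul_mem (star_mem hc) hc)) hs,
      by simp only [mul_assoc]⟩
  smul_mem' := by
    rintro z _ ⟨t, ht, rfl⟩
    exact ⟨z • t, SMulMemClass.smul_mem z ht, by rw [mul_smul_comm, smul_mul_assoc]⟩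
  star_mem' := by
    rintro _ ⟨t, ht, rfl⟩
    exact ⟨star t, star_mem ht, by simp only [star_mul, star_star, mul_assoc]⟩

theorem mem_conjSub {A : Type} [NonUnitalCStarAlgebra A] (T : NonUnitalStarSubalgebra ℂ A) (c : A)
    (hc : c ∈ T) (y : A) : y ∈ conjSub T c hc ↔ ∃ t ∈ T, y = c * t * star c := Iff.rfl

theorem finDim_of_le {A : Type} [NonUnitalCStarAlgebra A] {T R : NonUnitalStarSubalgebra ℂ A}
    [FiniteDimensional ℂ T] (h : ∀ x ∈ R, x ∈ T) : FiniteDimensional ℂ R := by
  have h' : R.toNonUnitalSubalgebra.toSubmodule ≤ T.toNonUnitalSubalgebra.toSubmodule := h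
  have : FiniteDimensional ℂ (T.toNonUnitalSubalgebra.toSubmodule) := ‹_›
  exact Submodule.finiteDimensional_of_le h'

/-- the corner x T x -/
def cor {A : Type} [NonUnitalCStarAlgebra A] (T : NonUnitalStarSubalgebra ℂ A) (x : A) :
    Submodule ℂ A :=
  Submodule.map ((LinearMap.mulLeft ℂ x).comp (LinearMap.mulRight ℂ x))
    T.toNonUnitalSubalgebra.toSubmodule

theorem mem_cor {A : Type} [NonUnitalCStarAlgebra A] (T : NonUnitalStarSubalgebra ℂ A) (x y : A) :
    y ∈ cor T x ↔ ∃ t ∈ T, x * (t * x) = y := Iff.rfl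

theorem mem_cor_of {A : Type} [NonUnitalCStarAlgebra A] (T : NonUnitalStarSubalgebra ℂ A)
    {x : A} (hx : x ∈ T) (hxx : x * x = x) (y : A) :
    y ∈ cor T x ↔ y ∈ T ∧ x * y = y ∧ y * x = y := by
  rw [mem_cor]
  constructor
  · rintro ⟨t, ht, rfl⟩
    refine ⟨mul_mem hx (mul_mem ht hx), ?_, ?_⟩
    · rw [← mul_assoc, hxx]
    · rw [mul_assoc, mul_assoc, hxx]
  · rintro ⟨hy, h1, h2⟩
    exact ⟨y, hy, by rw [h2, h1]⟩

instance {A : Type} [NonUnitalCStarAlgebra A] (T : NonUnitalStarSubalgebra ℂ A)
    [FiniteDimensional ℂ T] (x : A) : FiniteDimensional ℂ (cor T x) := by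
  have : FiniteDimensional ℂ (T.toNonUnitalSubalgebra.toSubmodule) := ‹_›
  unfold cor
  infer_instance

theorem finrank_cor_lt {A : Type} [NonUnitalCStarAlgebra A] (T : NonUnitalStarSubalgebra ℂ A)
    [FiniteDimensional ℂ T] {x e : A} (hx : x ∈ T) (hxx : x * x = x)
    (he : e ∈ T) (hee : e * e = e) (h1 : x * e = e) (h2 : e * x = e) (hne : e ≠ x) :
    Module.finrank ℂ (cor T e) < Module.finrank ℂ (cor T x) := by
  apply Submodule.finrank_lt_finrank_of_lt
  refine lt_of_le_of_ne ?_ ?_
  · intro y hy
    rw [mem_cor_of T he hee] at hy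
    rw [mem_cor_of T hx hxx]
    obtain ⟨hy1, hy2, hy3⟩ := hy
    refine ⟨hy1, ?_, ?_⟩
    · rw [← hy2, ← mul_assoc, h1]
    · rw [← hy3, mul_assoc, h2]
  · intro h
    have hxm : x ∈ cor T x := (mem_cor_of T hx hxx x).2 ⟨hx, hxx, hxx⟩
    rw [← h, mem_cor_of T he hee] at hxm
    exact hne (h2.symm.trans hxm.2.1)

theorem exists_proper {A : Type} [NonUnitalCStarAlgebra A] (T : NonUnitalStarSubalgebra ℂ A)
    [FiniteDimensional ℂ T] {x : A} (hx : x ∈ T) (hxs : star x = x) (hxx : x * x = x)
    (hx0 : x ≠ 0) (hnm : ¬ ∀ t ∈ T, ∃ z : ℂ, x * t * x = z • x) :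
    ∃ e ∈ T, star e = e ∧ e * e = e ∧ e ≠ 0 ∧ x * e = e ∧ e * x = e ∧ e ≠ x := by
  push Not at hnm
  obtain ⟨t, ht, hz⟩ := hnm
  set a := x * t * x with ha
  have haV : a ∈ cor T x := ⟨t, ht, by simp [ha, mul_assoc]⟩
  have hV := mem_cor_of T hx hxx
  have hmul : ∀ b ∈ cor T x, ∀ v ∈ cor T x, b * v ∈ cor T x := by
    intro b hb v hv
    rw [hV] at hb hv ⊢
    refine ⟨mul_mem hb.1 hv.1, ?_, ?_⟩
    · rw [← mul_assoc, hb.2.1]
    · rw [mul_assoc, hv.2.2]
  let Lm : ∀ b ∈ cor T x, Module.End ℂ (cor T x) := fun b hb =>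
    (LinearMap.mulLeft ℂ b).restrict (p := cor T x) (q := cor T x) (fun v hv => hmul b hb v hv)
  have hxV : x ∈ cor T x := (hV x).2 ⟨hx, hxx, hxx⟩
  have hnt : Nontrivial (cor T x) := ⟨⟨⟨x, hxV⟩, 0, fun h => hx0 (congrArg Subtype.val h)⟩⟩
  obtain ⟨lam, hlam⟩ := Module.End.exists_eigenvalue (Lm a haV)
  obtain ⟨y, hy⟩ := hlam.exists_hasEigenvector
  have hy1 : a * (y : A) = lam • (y : A) := congrArg Subtype.val hy.apply_eq_smul
  have hy0 : (y : A) ≠ 0 := fun h => hy.2 (Subtype.ext h)
  set c := a - lam • x with hc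
  have hcV : c ∈ cor T x := Submodule.sub_mem _ haV (Submodule.smul_mem _ _ hxV)
  have hcT : c ∈ T := ((hV c).1 hcV).1
  have hc0 : c ≠ 0 := fun h => hz lam (sub_eq_zero.1 h)
  have hcy : c * (y : A) = 0 := by
    rw [hc, sub_mul, hy1, smul_mul_assoc, ((hV y).1 y.2).2.1, sub_self]
  have hxc : x * c = c := ((hV c).1 hcV).2.1
  have hcx : c * x = c := ((hV c).1 hcV).2.2
  have hscx : star c * x = star c := by
    have := congrArg star hxc
    rwa [star_mul, hxs] at this
  have hxsc : x * star c = star c := by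
    have := congrArg star hcx
    rwa [star_mul, hxs] at this
  have : FiniteDimensional ℂ (conjSub T c hcT) := by
    apply finDim_of_le (T := T)
    rintro _ ⟨s, hs, rfl⟩
    exact mul_mem (mul_mem hcT hs) (star_mem hcT)
  obtain ⟨e, heR, hes, hee, heu⟩ := exists_unit (conjSub T c hcT)
  obtain ⟨s, hs, hes'⟩ := heR
  have heT : e ∈ T := by rw [hes']; exact mul_mem (mul_mem hcT hs) (star_mem hcT)
  refine ⟨e, heT, hes, hee, ?_, ?_, ?_, ?_⟩
  · intro h0
    have h1 := (heu (c * x * star c) ⟨x, hx, rfl⟩).1
    rw [h0, zero_mul, hcx] at h1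
    exact hc0 ((CStarRing.mul_star_self_eq_zero_iff c).1 h1.symm)
  · rw [hes', ← mul_assoc, ← mul_assoc, hxc]
  · rw [hes', mul_assoc, hscx]
  · intro hex
    set w := x * s * star c with hw
    have hwV : w ∈ cor T x := by
      rw [hV]
      refine ⟨mul_mem (mul_mem hx hs) (star_mem hcT), ?_, ?_⟩
      · rw [hw, ← mul_assoc, ← mul_assoc, hxx]
      · rw [hw, mul_assoc, hscx]
    have hcw : c * w = x := by
      rw [hw, ← mul_assoc, ← mul_assoc, hcx, ← hes', hex]
    have hsurj : Function.Surjective (Lm c hcV) := by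
      intro v
      refine ⟨⟨w * v, hmul w hwV v v.2⟩, Subtype.ext ?_⟩
      show c * (w * (v : A)) = v
      rw [← mul_assoc, hcw, ((hV v).1 v.2).2.1]
    have hinj := (LinearMap.injective_iff_surjective (f := Lm c hcV)).2 hsurj
    have : y = 0 := hinj (Subtype.ext (by
      show c * (y : A) = c * ((0 : cor T x) : A)
      rw [hcy]; simp))
    exact hy0 (by rw [this]; rfl)

theorem exists_min {A : Type} [NonUnitalCStarAlgebra A] (T : NonUnitalStarSubalgebra ℂ A)
    [FiniteDimensional ℂ T] : ∀ (n : ℕ) {x : A}, x ∈ T → star x = x → x * x = x → x ≠ 0 →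
      Module.finrank ℂ (cor T x) = n → ∃ e, IsMinProj T e ∧ x * e = e ∧ e * x = e := by
  intro n
  induction n using Nat.strong_induction_on with
  | _ n ih =>
    intro x hx hxs hxx hx0 hn
    by_cases hm : ∀ t ∈ T, ∃ z : ℂ, x * t * x = z • x
    · exact ⟨x, ⟨hx, hxs, hxx, hx0, hm⟩, hxx, hxx⟩
    · obtain ⟨e, he, hes, hee, he0, h1, h2, h3⟩ := exists_proper T hx hxs hxx hx0 hm
      have hlt := finrank_cor_lt T hx hxx he hee h1 h2 h3
      obtain ⟨f, hf, hf1, hf2⟩ := ih _ (hn ▸ hlt) he hes hee he0 rfl
      refine ⟨f, hf, ?_, ?_⟩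
      · rw [← hf1, ← mul_assoc, h1]
      · rw [← hf2, mul_assoc, h2]

/-- sums of orthogonal minimal projections -/
inductive Dec {A : Type} [NonUnitalCStarAlgebra A] (T : NonUnitalStarSubalgebra ℂ A) : A → Prop
  | zero : Dec T 0
  | add (x e : A) : Dec T x → IsMinProj T e → x * e = 0 → Dec T (x + e)

theorem Dec.props {A : Type} [NonUnitalCStarAlgebra A] {T : NonUnitalStarSubalgebra ℂ A} {x : A}
    (h : Dec T x) : x ∈ T ∧ star x = x ∧ x * x = x := by
  induction h with
  | zero => exact ⟨zero_mem _, by simp, by simp⟩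
  | add x e _ he hxe ih =>
    obtain ⟨h1, h2, h3⟩ := ih
    have hex : e * x = 0 := by
      have := congrArg star hxe
      rwa [star_mul, h2, he.2.1, star_zero] at this
    refine ⟨add_mem h1 he.1, by rw [star_add, h2, he.2.1], ?_⟩
    rw [mul_add, add_mul, add_mul, h3, hxe, hex, he.2.2.1]
    simp

theorem dec_of_proj {A : Type} [NonUnitalCStarAlgebra A] (T : NonUnitalStarSubalgebra ℂ A)
    [FiniteDimensional ℂ T] : ∀ (n : ℕ) {x : A}, x ∈ T → star x = x → x * x = x →
      Module.finrank ℂ (cor T x) = n → Dec T x := by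
  intro n
  induction n using Nat.strong_induction_on with
  | _ n ih =>
    intro x hx hxs hxx hn
    by_cases hx0 : x = 0
    · rw [hx0]; exact Dec.zero
    · obtain ⟨e, he, h1, h2⟩ := exists_min T _ hx hxs hxx hx0 rfl
      have hy : x - e ∈ T := sub_mem hx he.1
      have hys : star (x - e) = x - e := by rw [star_sub, hxs, he.2.1]
      have hyy : (x - e) * (x - e) = x - e := by
        rw [mul_sub, sub_mul, sub_mul, hxx, h1, h2, he.2.2.1]; simp
      have h3 : x * (x - e) = x - e := by rw [mul_sub, hxx, h1]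
      have h4 : (x - e) * x = x - e := by rw [sub_mul, hxx, h2]
      have h5 : x - e ≠ x := fun h => he.2.2.2.1 (by simpa using h)
      have hlt := finrank_cor_lt T hx hxx hy hyy h3 h4 h5
      have hd := ih _ (hn ▸ hlt) hy hys hyy rfl
      have := Dec.add (x - e) e hd he (by rw [sub_mul, h1, he.2.2.1, sub_self])
      rwa [sub_add_cancel] at this

theorem Dec.fin {A : Type} [NonUnitalCStarAlgebra A] {T : NonUnitalStarSubalgebra ℂ A} {x : A}
    (h : Dec T x) : ∃ (r : ℕ) (e : Fin r → A), (∀ j, IsMinProj T (e j)) ∧ ∑ j, e j = x := by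
  induction h with
  | zero => exact ⟨0, Fin.elim0, fun j => j.elim0, by simp⟩
  | add x e _ he _ ih =>
    obtain ⟨r, f, hf, hs⟩ := ih
    refine ⟨r + 1, Fin.snoc f e, ?_, ?_⟩
    · intro j
      refine Fin.lastCases ?_ (fun i => ?_) j
      · simpa using he
      · simpa using hf i
    · rw [Fin.sum_univ_castSucc]
      simp [hs]


theorem nonneg_of_smul_eq {A : Type} [NonUnitalCStarAlgebra A] {e w : A} (he : e ≠ 0)
    (hes : star e = e) (hee : e * e = e) {z : ℂ} (h : star w * w = z • e) :
    ∃ r : ℝ, 0 ≤ r ∧ z = (r : ℂ) := by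
  have h1 : star z = z := by
    have h2 := congrArg star h
    rw [star_mul, star_star, star_smul, hes, h] at h2
    have h3 : (z - star z) • e = 0 := by rw [sub_smul, ← h2, sub_self]
    rcases smul_eq_zero.1 h3 with h4 | h4
    · exact (sub_eq_zero.1 h4).symm
    · exact absurd h4 he
  obtain ⟨r, hr⟩ := Complex.conj_eq_iff_real.1 h1
  refine ⟨r, ?_, hr⟩
  by_contra hneg
  push Not at hneg
  let _ : PartialOrder A := CStarAlgebra.spectralOrder A
  have _ : StarOrderedRing A := CStarAlgebra.spectralOrderedRing A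
  have p1 : 0 ≤ star w * w := star_mul_self_nonneg w
  have p2 : 0 ≤ star (((Real.sqrt (-r) : ℝ) : ℂ) • e) * (((Real.sqrt (-r) : ℝ) : ℂ) • e) :=
    star_mul_self_nonneg _
  have p3 : star (((Real.sqrt (-r) : ℝ) : ℂ) • e) * (((Real.sqrt (-r) : ℝ) : ℂ) • e)
      = ((-r : ℝ) : ℂ) • e := by
    rw [star_smul, smul_mul_smul_comm, hes, hee]
    congr 1
    have : star ((Real.sqrt (-r) : ℝ) : ℂ) = ((Real.sqrt (-r) : ℝ) : ℂ) := Complex.conj_ofReal _
    rw [this, ← Complex.ofReal_mul, Real.mul_self_sqrt (by linarith)]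
  rw [p3] at p2
  rw [h, hr] at p1
  have p4 : (r : ℂ) • e + ((-r : ℝ) : ℂ) • e = 0 := by
    rw [← add_smul]; simp
  have p5 := (add_eq_zero_iff_of_nonneg p1 p2).1 p4
  rcases smul_eq_zero.1 p5.1 with h4 | h4
  · have : r = 0 := by exact_mod_cast h4
    linarith
  · exact he h4

theorem exists_piso {A : Type} [NonUnitalCStarAlgebra A]
    {T : NonUnitalStarSubalgebra ℂ A} {e g t : A} (he : IsMinProj T e) (hg : g ∈ T)
    (hgs : star g = g) (hgg : g * g = g) (ht : t ∈ T) (h : g * t * e ≠ 0) :
    ∃ w ∈ T, star w * w = e ∧ g * w = w ∧ w * e = w := by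
  obtain ⟨heT, hes, hee, he0, hmin⟩ := he
  set w0 := g * t * e with hw0
  have hw0T : w0 ∈ T := mul_mem (mul_mem hg ht) heT
  have hgw0 : g * w0 = w0 := by rw [hw0, ← mul_assoc, ← mul_assoc, hgg]
  have hw0e : w0 * e = w0 := by rw [hw0, mul_assoc, hee]
  clear_value w0
  obtain ⟨z, hz⟩ := hmin (star w0 * w0) (mul_mem (star_mem hw0T) hw0T)
  have hz' : star w0 * w0 = z • e := by
    rw [← hz]
    have h1 : e * star w0 = star w0 := by
      have := congrArg star hw0e
      rwa [star_mul, hes] at this
    rw [← mul_assoc, h1, mul_assoc, hw0e]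
  obtain ⟨r, hr, hzr⟩ := nonneg_of_smul_eq he0 hes hee hz'
  have hr0 : r ≠ 0 := by
    intro h0
    rw [hzr, h0] at hz'
    simp only [Complex.ofReal_zero, zero_smul] at hz'
    exact h ((CStarRing.star_mul_self_eq_zero_iff w0).1 hz')
  have hrp : 0 < r := lt_of_le_of_ne hr (Ne.symm hr0)
  set s : ℂ := (((Real.sqrt r)⁻¹ : ℝ) : ℂ) with hs
  have hss : star s * s * z = 1 := by
    have : star s = s := Complex.conj_ofReal _
    rw [this, hzr, hs, ← Complex.ofReal_mul, ← Complex.ofReal_mul]
    rw [← mul_inv, Real.mul_self_sqrt hr, inv_mul_cancel₀ hr0]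
    simp
  refine ⟨s • w0, SMulMemClass.smul_mem s hw0T, ?_, ?_, ?_⟩
  · rw [star_smul, smul_mul_smul_comm, hz', smul_smul, hss, one_smul]
  · rw [mul_smul_comm, hgw0]
  · rw [smul_mul_assoc, hw0e]

theorem matrix_units {A : Type} [NonUnitalCStarAlgebra A] (T : NonUnitalStarSubalgebra ℂ A)
    [FiniteDimensional ℂ T] (N : ℕ) (H : Fin (N + 1) → A) (hHT : ∀ b, H b ∈ T)
    (hHs : ∀ b, star (H b) = H b) (hHH : ∀ b, H b * H b = H b)
    (hHo : ∀ b c, b ≠ c → H b * H c = 0) {x : A} (hd : Dec T x) :
    (∀ b, x * H b = 0) →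
    (∀ b, ∀ e, IsMinProj T e → x * e = e → ∃ t ∈ T, H b * t * e ≠ 0) →
    ∃ (f : Fin (N + 1) → Fin (N + 1) → A) (g : A), (∀ a b, f a b ∈ T) ∧
      (∀ a b, star (f a b) = f b a) ∧
      (∀ a b c d, f a b * f c d = if b = c then f a d else 0) ∧
      g ∈ T ∧ star g = g ∧ g * g = g ∧ g * (∑ b, H b) = g ∧ ∑ a, f a a = x + g := by
  induction hd with
  | zero =>
    intro _ _
    refine ⟨fun _ _ => 0, 0, fun _ _ => zero_mem _, fun _ _ => star_zero _, ?_, zero_mem _,
      star_zero _, by simp, by simp, by simp⟩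
    intro a b c d; simp
  | add x e hdx he hxe ih =>
    intro hxH hfull
    obtain ⟨hxT, hxs, hxx⟩ := hdx.props
    have heT := he.1
    have hes := he.2.1
    have hee := he.2.2.1
    have hex : e * x = 0 := by
      have := congrArg star hxe
      rwa [star_mul, hxs, hes, star_zero] at this
    have heH : ∀ b, e * H b = 0 := by
      intro b
      have := congrArg (fun y => e * y) (hxH b)
      simp only [add_mul, mul_add, mul_zero, ← mul_assoc, hex, hee, zero_mul, zero_add] at this
      exact this
    have hxH' : ∀ b, x * H b = 0 := by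
      intro b
      have := hxH b
      rw [add_mul, heH b, add_zero] at this
      exact this
    have hHe : ∀ b, H b * e = 0 := by
      intro b
      have := congrArg star (heH b)
      rwa [star_mul, hHs, hes, star_zero] at this
    have hHx : ∀ b, H b * x = 0 := by
      intro b
      have := congrArg star (hxH' b)
      rwa [star_mul, hHs, hxs, star_zero] at this
    obtain ⟨f, g, hfT, hfs, hff, hgT, hgs, hgg, hgH, hsum⟩ := ih hxH' (by
      intro b e' he' hxe'
      refine hfull b e' he' ?_
      rw [add_mul, hxe', ← hxe', ← mul_assoc, hex, zero_mul, add_zero])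
    have hHg : (∑ b, H b) * g = g := by
      have := congrArg star hgH
      rwa [star_mul, star_sum, hgs, Finset.sum_congr rfl (fun b _ => hHs b)] at this
    have hge : g * e = 0 := by
      rw [← hgH, mul_assoc, Finset.sum_mul, Finset.sum_congr rfl (fun b _ => hHe b)]
      simp
    have hgx : g * x = 0 := by
      rw [← hgH, mul_assoc, Finset.sum_mul, Finset.sum_congr rfl (fun b _ => hHx b)]
      simp
    have heg : e * g = 0 := by
      have := congrArg star hge
      rwa [star_mul, hgs, hes, star_zero] at this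
    have hxg : x * g = 0 := by
      have := congrArg star hgx
      rwa [star_mul, hgs, hxs, star_zero] at this
    obtain ⟨u, huT, hus, huu, hu⟩ := exists_unit T
    by_cases hcase : ∃ t ∈ T, g * t * e ≠ 0
    · obtain ⟨t, ht, hte⟩ := hcase
      obtain ⟨w, hwT, hww, hgw, hwe⟩ := exists_piso he hgT hgs hgg ht hte
      set e' := w * star w with he'
      have hswT : star w ∈ T := star_mem hwT
      have he'T : e' ∈ T := mul_mem hwT hswT
      have he's : star e' = e' := by rw [he', star_mul, star_star]
      have a1 : e * star w = star w := by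
        have := congrArg star hwe
        rwa [star_mul, hes] at this
      have a2 : star w * g = star w := by
        have := congrArg star hgw
        rwa [star_mul, hgs] at this
      have a3 : e * w = 0 := by rw [← hgw, ← mul_assoc, heg, zero_mul]
      have a4 : star w * e = 0 := by
        have := congrArg star a3
        rwa [star_mul, hes, star_zero] at this
      have a5 : w * w = 0 := by
        nth_rewrite 1 [← hwe]; rw [mul_assoc, a3, mul_zero]
      have a6 : star w * star w = 0 := by
        have := congrArg star a5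
        rwa [star_mul, star_zero] at this
      have a7 : e' * w = w := by rw [he', mul_assoc, hww, hwe]
      have a8 : star w * e' = star w := by
        have := congrArg star a7
        rwa [star_mul, he's] at this
      have a9 : e * e' = 0 := by rw [he', ← mul_assoc, a3, zero_mul]
      have a10 : e' * e = 0 := by
        have := congrArg star a9
        rwa [star_mul, hes, he's, star_zero] at this
      have a11 : w * e' = 0 := by rw [← hwe, mul_assoc, a9, mul_zero]
      have a12 : e' * star w = 0 := by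
        have := congrArg star a11
        rwa [star_mul, he's, star_zero] at this
      have a13 : e' * e' = e' := by
        nth_rewrite 2 [he']; rw [← mul_assoc, a7]
      have a14 : g * e' = e' := by rw [he', ← mul_assoc, hgw]
      have a15 : e' * g = e' := by rw [he', mul_assoc, a2]
      have a16 : e' * x = 0 := by rw [← a15, mul_assoc, hgx, mul_zero]
      have a17 : w * x = 0 := by rw [← hwe, mul_assoc, hex, mul_zero]
      have a18 : star w * x = 0 := by rw [← a8, mul_assoc, a16, mul_zero]
      have a19 : w * g = 0 := by rw [← hwe, mul_assoc, heg, mul_zero]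
      have b1 := (hu e heT).1
      have b2 := (hu e heT).2
      have b3 := (hu e' he'T).1
      have b4 := (hu e' he'T).2
      have b5 := (hu w hwT).1
      have b6 := (hu w hwT).2
      have b7 := (hu _ hswT).1
      have b8 := (hu _ hswT).2
      have b9 := (hu x hxT).1
      have b10 := (hu g hgT).1
      set U := w + star w + (u - e - e') with hU
      have hUT : U ∈ T := add_mem (add_mem hwT hswT) (sub_mem (sub_mem huT heT) he'T)
      have hUs : star U = U := by
        rw [hU]; simp only [star_add, star_sub, star_star, hus, hes, he's]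
        rw [add_comm (star w) w]
      have hUU : U * U = u := by
        rw [hU]
        simp only [add_mul, mul_add, sub_mul, mul_sub, a5, a6, hww, ← he', hwe, a3, a11, a7, a4, a1,
          a8, a12, hee, a13, a9, a10, b1, b2, b3, b4, b5, b6, b7, b8, huu]
        abel
      have hUx : U * x = x := by
        rw [hU]
        simp only [add_mul, sub_mul, a17, a18, b9, hex, a16]
        abel
      have hUge : U * (g - e') = g - e' := by
        rw [hU]
        simp only [add_mul, sub_mul, mul_sub, a19, a11, a2, a8, b10, b3, heg, a9, a15, a13]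
        abel
      have hUe' : U * e' = star w := by
        rw [hU]
        simp only [add_mul, sub_mul, a11, a8, b3, a9, a13]
        abel
      have hwU : star w * U = e := by
        rw [hU]
        simp only [mul_add, mul_sub, hww, a6, b8, a4, a8]
        abel
      have hxU : x * U = x := by
        have := congrArg star hUx
        rwa [star_mul, hxs, hUs] at this
      have hgeU : (g - e') * U = g - e' := by
        have := congrArg star hUge
        rwa [star_mul, star_sub, hgs, he's, hUs] at this
      clear_value U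
      have hUgU : U * (x + g) * U = x + e + (g - e') := by
        have : x + g = x + ((g - e') + e') := by abel
        rw [this, mul_add, mul_add, add_mul, add_mul, hUx, hUge, hUe', hxU, hgeU, hwU]
        abel
      refine ⟨fun a b => U * f a b * U, g - e', fun a b => mul_mem (mul_mem hUT (hfT a b)) hUT,
        ?_, ?_, sub_mem hgT he'T, by rw [star_sub, hgs, he's], ?_, ?_, ?_⟩
      · intro a b
        simp only [star_mul, hUs, hfs, mul_assoc]
      · intro a b c d
        have : U * f a b * U * (U * f c d * U) = U * (f a b * f c d) * U := by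
          have h1 : U * f a b * U * (U * f c d * U) = U * (f a b * ((U * U) * f c d)) * U := by
            simp only [mul_assoc]
          rw [h1, hUU, (hu _ (hfT c d)).1]
        rw [this, hff]
        split_ifs <;> simp
      · rw [mul_sub, sub_mul, sub_mul, hgg, a14, a15, a13]; abel
      · rw [sub_mul, hgH]
        congr 1
        nth_rewrite 1 [← a15]
        rw [mul_assoc, hgH, a15]
      · rw [← Finset.sum_mul, ← Finset.mul_sum, hsum, hUgU]
    · push Not at hcase
      have hv : ∀ b, ∃ w ∈ T, star w * w = e ∧ H b * w = w ∧ w * e = w := by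
        intro b
        obtain ⟨t, ht, hte⟩ := hfull b e he (by rw [add_mul, hxe, hee, zero_add])
        exact exists_piso he (hHT b) (hHs b) (hHH b) ht hte
      choose v' hv'T hv'v hHv' hv'e using hv
      set v : Fin (N + 1) → A := fun b => if b = 0 then e else v' b with hvdef
      have hv0 : v 0 = e := by simp [hvdef]
      have hvs : ∀ b, b ≠ 0 → v b = v' b := fun b hb => by simp [hvdef, hb]
      have hvT : ∀ b, v b ∈ T := by
        intro b
        by_cases hb : b = 0
        · rw [hb, hv0]; exact heT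
        · rw [hvs b hb]; exact hv'T b
      have hve : ∀ b, v b * e = v b := by
        intro b
        by_cases hb : b = 0
        · rw [hb, hv0]; exact hee
        · rw [hvs b hb]; exact hv'e b
      have hHv : ∀ b, b ≠ 0 → H b * v b = v b := by
        intro b hb
        rw [hvs b hb]; exact hHv' b
      have hgv : ∀ b, g * v b = 0 := by
        intro b
        rw [← hve b, ← mul_assoc]
        exact hcase _ (hvT b)
      have hxv : ∀ b, x * v b = 0 := by
        intro b
        by_cases hb : b = 0
        · rw [hb, hv0]; exact hxe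
        · rw [← hHv b hb, ← mul_assoc, hxH', zero_mul]
      have hvv : ∀ a b, star (v a) * v b = if a = b then e else 0 := by
        intro a b
        split_ifs with hab
        · subst hab
          by_cases hb : a = 0
          · rw [hb, hv0, hes, hee]
          · rw [hvs a hb]; exact hv'v a
        · by_cases ha : a = 0
          · have hb : b ≠ 0 := fun h => hab (ha.trans h.symm)
            rw [ha, hv0, hes, ← hHv b hb, ← mul_assoc, heH, zero_mul]
          · have h1 : star (v a) * H a = star (v a) := by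
              have := congrArg star (hHv a ha)
              rwa [star_mul, hHs] at this
            by_cases hb : b = 0
            · rw [hb, hv0, ← h1, mul_assoc, hHe, mul_zero]
            · rw [← h1, ← hHv b hb, mul_assoc, ← mul_assoc (H a), hHo a b hab, zero_mul, mul_zero]
      have hfsum : ∀ a b, f a b * (x + g) = f a b := by
        intro a b
        rw [← hsum, Finset.mul_sum]
        simp only [hff]
        simp
      have hfv : ∀ a b c, f a b * v c = 0 := by
        intro a b c
        rw [← hfsum, mul_assoc, add_mul, hxv, hgv, add_zero, mul_zero]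
      have hvf : ∀ a b c, star (v c) * f a b = 0 := by
        intro a b c
        have := congrArg star (hfv b a c)
        rwa [star_mul, hfs, star_zero] at this
      have hvg : ∀ b, star (v b) * g = 0 := by
        intro b
        have := congrArg star (hgv b)
        rwa [star_mul, hgs, star_zero] at this
      have hevs : ∀ b, e * star (v b) = star (v b) := by
        intro b
        have := congrArg star (hve b)
        rwa [star_mul, hes] at this
      have hvH : ∀ b, b ≠ 0 → star (v b) * ∑ c, H c = star (v b) := by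
        intro b hb
        have h1 : star (v b) * H b = star (v b) := by
          have := congrArg star (hHv b hb)
          rwa [star_mul, hHs] at this
        rw [← h1, mul_assoc, Finset.mul_sum, Finset.sum_eq_single b]
        · rw [hHH]
        · intro c _ hc
          exact hHo b c (Ne.symm hc)
        · intro h; exact absurd (Finset.mem_univ b) h
      refine ⟨fun a b => f a b + v a * star (v b),
        g + ∑ i : Fin N, v i.succ * star (v i.succ),
        fun a b => add_mem (hfT a b) (mul_mem (hvT a) (star_mem (hvT b))), ?_, ?_,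
        add_mem hgT (sum_mem fun i _ => mul_mem (hvT _) (star_mem (hvT _))), ?_, ?_, ?_, ?_⟩
      · intro a b
        rw [star_add, hfs, star_mul, star_star]
      · intro a b c d
        have h1 : f a b * (v c * star (v d)) = 0 := by rw [← mul_assoc, hfv, zero_mul]
        have h2 : v a * star (v b) * f c d = 0 := by rw [mul_assoc, hvf, mul_zero]
        have h3 : v a * star (v b) * (v c * star (v d)) = if b = c then v a * star (v d) else 0 := by
          have : v a * star (v b) * (v c * star (v d)) = v a * ((star (v b) * v c) * star (v d)) := by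
            simp only [mul_assoc]
          rw [this, hvv]
          split_ifs
          · rw [hevs]
          · rw [zero_mul, mul_zero]
        rw [add_mul, mul_add, mul_add, h1, h2, h3, hff]
        split_ifs <;> simp
      · rw [star_add, hgs, star_sum]
        congr 1
        exact Finset.sum_congr rfl (fun i _ => by rw [star_mul, star_star])
      · have h1 : g * ∑ i : Fin N, v i.succ * star (v i.succ) = 0 := by
          rw [Finset.mul_sum]
          exact Finset.sum_eq_zero (fun i _ => by rw [← mul_assoc, hgv, zero_mul])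
        have h2 : (∑ i : Fin N, v i.succ * star (v i.succ)) * g = 0 := by
          rw [Finset.sum_mul]
          exact Finset.sum_eq_zero (fun i _ => by rw [mul_assoc, hvg, mul_zero])
        have h3 : (∑ i : Fin N, v i.succ * star (v i.succ)) *
            (∑ i : Fin N, v i.succ * star (v i.succ)) = ∑ i : Fin N, v i.succ * star (v i.succ) := by
          rw [Finset.sum_mul]
          refine Finset.sum_congr rfl (fun i _ => ?_)
          rw [Finset.mul_sum, Finset.sum_eq_single i]
          · have : v i.succ * star (v i.succ) * (v i.succ * star (v i.succ))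
                = v i.succ * ((star (v i.succ) * v i.succ) * star (v i.succ)) := by
              simp only [mul_assoc]
            rw [this, hvv, if_pos rfl, hevs]
          · intro j _ hj
            have : v i.succ * star (v i.succ) * (v j.succ * star (v j.succ))
                = v i.succ * ((star (v i.succ) * v j.succ) * star (v j.succ)) := by
              simp only [mul_assoc]
            rw [this, hvv, if_neg, zero_mul, mul_zero]
            intro h; exact hj (Fin.succ_injective _ h).symm
          · intro h; exact absurd (Finset.mem_univ i) h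
        rw [add_mul, mul_add, mul_add, hgg, h1, h2, h3]; abel
      · rw [add_mul, hgH, Finset.sum_mul]
        congr 1
        refine Finset.sum_congr rfl (fun i _ => ?_)
        rw [mul_assoc, hvH _ (Fin.succ_ne_zero i)]
      · rw [Finset.sum_add_distrib, hsum, Fin.sum_univ_succ, hv0, hes, hee]
        abel


theorem proj_norm_le {A : Type} [NonUnitalCStarAlgebra A] {z : A} (hs : star z = z)
    (hz : z * z = z) : ‖z‖ ≤ 1 := by
  have h := CStarRing.norm_star_mul_self (x := z)
  rw [hs, hz] at h
  by_contra hlt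
  push Not at hlt
  nlinarith [norm_nonneg z]

section AF

variable {A : Type} [NonUnitalCStarAlgebra A]

/-- the ideal of `S m` generated by `h` -/
def idl (S : NonUnitalStarSubalgebra ℂ A) (h : A) : Submodule ℂ A :=
  Submodule.span ℂ {y | ∃ a ∈ S, ∃ b ∈ S, y = a * h * b}

theorem idl_le {S : NonUnitalStarSubalgebra ℂ A} {h : A} (hh : h ∈ S) :
    idl S h ≤ S.toNonUnitalSubalgebra.toSubmodule := by
  apply Submodule.span_le.2
  rintro _ ⟨a, ha, b, hb, rfl⟩
  show a * h * b ∈ S
  exact mul_mem (mul_mem ha hh) hb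

theorem idl_mul_left {S : NonUnitalStarSubalgebra ℂ A} {h : A} {a x : A} (ha : a ∈ S)
    (hx : x ∈ idl S h) : a * x ∈ idl S h := by
  unfold idl at hx
  induction hx using Submodule.span_induction with
  | mem y hy =>
    obtain ⟨b, hb, c, hc, rfl⟩ := hy
    exact Submodule.subset_span ⟨a * b, mul_mem ha hb, c, hc, by simp only [mul_assoc]⟩
  | zero => rw [mul_zero]; exact Submodule.zero_mem _
  | add y z _ _ h1 h2 => rw [mul_add]; exact Submodule.add_mem _ h1 h2
  | smul c y _ h1 => rw [mul_smul_comm]; exact Submodule.smul_mem _ _ h1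

theorem idl_mul_right {S : NonUnitalStarSubalgebra ℂ A} {h : A} {a x : A} (ha : a ∈ S)
    (hx : x ∈ idl S h) : x * a ∈ idl S h := by
  unfold idl at hx
  induction hx using Submodule.span_induction with
  | mem y hy =>
    obtain ⟨b, hb, c, hc, rfl⟩ := hy
    exact Submodule.subset_span ⟨b, hb, c * a, mul_mem hc ha, by simp only [mul_assoc]⟩
  | zero => rw [zero_mul]; exact Submodule.zero_mem _
  | add y z _ _ h1 h2 => rw [add_mul]; exact Submodule.add_mem _ h1 h2
  | smul c y _ h1 => rw [smul_mul_assoc]; exact Submodule.smul_mem _ _ h1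

theorem idl_star {S : NonUnitalStarSubalgebra ℂ A} {h : A} (hs : star h = h) {x : A}
    (hx : x ∈ idl S h) : star x ∈ idl S h := by
  unfold idl at hx
  induction hx using Submodule.span_induction with
  | mem y hy =>
    obtain ⟨b, hb, c, hc, rfl⟩ := hy
    exact Submodule.subset_span ⟨star c, star_mem hc, star b, star_mem hb, by
      simp only [star_mul, hs, mul_assoc]⟩
  | zero => rw [star_zero]; exact Submodule.zero_mem _
  | add y z _ _ h1 h2 => rw [star_add]; exact Submodule.add_mem _ h1 h2
  | smul c y _ h1 => rw [star_smul]; exact Submodule.smul_mem _ _ h1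

/-- the ideal as a star subalgebra -/
def idlSub (S : NonUnitalStarSubalgebra ℂ A) (h : A) (hh : h ∈ S) (hs : star h = h) :
    NonUnitalStarSubalgebra ℂ A where
  carrier := idl S h
  add_mem' := fun ha hb => Submodule.add_mem _ ha hb
  zero_mem' := Submodule.zero_mem _
  mul_mem' := fun {a b} ha hb => idl_mul_left (idl_le hh ha) hb
  smul_mem' := fun c _ hx => Submodule.smul_mem _ c hx
  star_mem' := fun hx => idl_star hs hx

theorem idl_unit (S : NonUnitalStarSubalgebra ℂ A) [FiniteDimensional ℂ S] (h : A) (hh : h ∈ S)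
    (hs : star h = h) :
    ∃ z ∈ idl S h, star z = z ∧ z * z = z ∧ ∀ x ∈ idl S h, z * x = x ∧ x * z = x := by
  have : FiniteDimensional ℂ (idlSub S h hh hs) := finDim_of_le (T := S) (fun x hx => idl_le hh hx)
  exact exists_unit (idlSub S h hh hs)

/-- the units of an increasing sequence of subalgebras -/
structure UnitSeq (S : ℕ → NonUnitalStarSubalgebra ℂ A) (p : ℕ → A) : Prop where
  mono : Monotone S
  fd : ∀ n, FiniteDimensional ℂ (S n)
  dense : Dense (⋃ n, (S n : Set A))
  mem : ∀ n, p n ∈ S n
  star : ∀ n, star (p n) = p n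
  idem : ∀ n, p n * p n = p n
  left : ∀ n, ∀ x ∈ S n, p n * x = x
  right : ∀ n, ∀ x ∈ S n, x * p n = x

theorem UnitSeq.le_mul {S : ℕ → NonUnitalStarSubalgebra ℂ A} {p : ℕ → A} (hp : UnitSeq S p)
    {m n : ℕ} (h : m ≤ n) : p m * p n = p m := hp.right n _ (hp.mono h (hp.mem m))

theorem UnitSeq.le_mul' {S : ℕ → NonUnitalStarSubalgebra ℂ A} {p : ℕ → A} (hp : UnitSeq S p)
    {m n : ℕ} (h : m ≤ n) : p n * p m = p m := hp.left n _ (hp.mono h (hp.mem m))

theorem full_layer (hA : ∀ (D : Type) [CStarAlgebra D], Nontrivial D →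
      ∀ φ : A →⋆ₙₐ[ℂ] D, ¬ Function.Surjective φ)
    {S : ℕ → NonUnitalStarSubalgebra ℂ A} {p : ℕ → A} (hp : UnitSeq S p) (n : ℕ) :
    ∃ m, n ≤ m ∧ p n ∈ idl (S m) (p m - p n) := by
  have hd : ∀ m, n ≤ m → p m - p n ∈ S m := fun m hm => sub_mem (hp.mem m) (hp.mono hm (hp.mem n))
  have hds : ∀ m, star (p m - p n) = p m - p n := fun m => by rw [star_sub, hp.star, hp.star]
  have hmono : ∀ m m', n ≤ m → m ≤ m' → idl (S m) (p m - p n) ≤ idl (S m') (p m' - p n) := by
    intro m m' hm hmm'
    apply Submodule.span_le.2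
    rintro _ ⟨a, ha, b, hb, rfl⟩
    refine Submodule.subset_span ⟨a * (p m - p n), hp.mono hmm' (mul_mem ha (hd m hm)), b,
      hp.mono hmm' hb, ?_⟩
    have : (p m - p n) * (p m' - p n) = p m - p n := by
      rw [mul_sub, sub_mul, sub_mul, hp.le_mul hmm', hp.le_mul (hm.trans hmm'), hp.le_mul' hm,
        hp.idem]
      simp
    rw [mul_assoc a (p m - p n) (p m' - p n), this]
  set K : ℕ → Submodule ℂ A := fun j => idl (S (n + j)) (p (n + j) - p n) with hK
  have hKmono : Monotone K := by
    intro i j hij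
    exact hmono _ _ (Nat.le_add_right n i) (by omega)
  set I : Submodule ℂ A := (⨆ j, K j).topologicalClosure with hI
  have hIcl : IsClosed (I : Set A) := Submodule.isClosed_topologicalClosure _
  have hKI : ∀ j, K j ≤ I := fun j => (le_iSup K j).trans (Submodule.le_topologicalClosure _)
  have hmemI : ∀ x, x ∈ I → ∀ ε : ℝ, 0 < ε → ∃ j, ∃ y ∈ K j, ‖x - y‖ < ε := by
    intro x hx ε hε
    have hx' : x ∈ closure ((⨆ j, K j : Submodule ℂ A) : Set A) := hx
    obtain ⟨y, hy, hxy⟩ := Metric.mem_closure_iff.1 hx' ε hε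
    have hy' : y ∈ (⨆ j, K j : Submodule ℂ A) := hy
    rw [Submodule.mem_iSup_of_directed K hKmono.directed_le] at hy'
    obtain ⟨j, hj⟩ := hy'
    exact ⟨j, y, hj, by rwa [dist_eq_norm] at hxy⟩
  -- closure induction on elements of A
  have hdA : ∀ (P : A → Prop), IsClosed {a | P a} → (∀ j, ∀ a ∈ S (n + j), P a) → ∀ a, P a := by
    intro P hP h a
    have h1 : (⋃ k, (S k : Set A)) ⊆ {a | P a} := by
      intro b hb
      obtain ⟨k, hk⟩ := Set.mem_iUnion.1 hb
      exact h k b (hp.mono (Nat.le_add_left k n) hk)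
    have h2 := hp.dense a
    exact (closure_minimal h1 hP) h2
  have hdI : ∀ (P : A → Prop), IsClosed {a | P a} → (∀ j, ∀ a ∈ K j, P a) → ∀ a ∈ I, P a := by
    intro P hP h a ha
    have h1 : ((⨆ j, K j : Submodule ℂ A) : Set A) ⊆ {a | P a} := by
      intro b hb
      have hb' : b ∈ (⨆ j, K j : Submodule ℂ A) := hb
      rw [Submodule.mem_iSup_of_directed K hKmono.directed_le] at hb'
      obtain ⟨j, hj⟩ := hb'
      exact h j b hj
    exact (closure_minimal h1 hP) ha
  have hl : ∀ a : A, ∀ x ∈ I, a * x ∈ I := by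
    refine hdA (fun a => ∀ x ∈ I, a * x ∈ I) ?_ ?_
    · simp only [Set.ofPred_forall]
      refine isClosed_iInter fun x => isClosed_iInter fun _ => ?_
      exact hIcl.preimage (continuous_mul_const x)
    · intro j a ha
      refine hdI _ (hIcl.preimage (continuous_const_mul a)) ?_
      intro i x hx
      have h1 : x ∈ K (max i j) := hKmono (le_max_left i j) hx
      have h2 : a ∈ S (n + max i j) := hp.mono (by omega) ha
      exact hKI _ (idl_mul_left h2 h1)
  have hs : ∀ x ∈ I, star x ∈ I := by
    refine hdI _ (hIcl.preimage continuous_star) ?_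
    intro j x hx
    exact hKI j (idl_star (hds _) hx)
  have hr : ∀ a : A, ∀ x ∈ I, x * a ∈ I := by
    intro a x hx
    have := hs _ (hl (star a) (star x) (hs x hx))
    rwa [star_mul, star_star, star_star] at this
  have hfdS := hp.fd
  have hap : ∀ x ∈ I, ∀ ε : ℝ, 0 < ε → ∃ z ∈ I, star z = z ∧ z * z = z ∧ ‖x - x * z‖ < ε := by
    intro x hx ε hε
    obtain ⟨j, y, hy, hxy⟩ := hmemI x hx (ε / 2) (by linarith)
    obtain ⟨z, hz, hzs, hzz, hzu⟩ := idl_unit (S (n + j)) (p (n + j) - p n)
      (hd _ (Nat.le_add_right n j)) (hds _)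
    refine ⟨z, hKI j hz, hzs, hzz, ?_⟩
    have h1 : x - x * z = (x - y) - (x - y) * z := by
      rw [sub_mul, (hzu y hy).2]; abel
    rw [h1]
    calc ‖(x - y) - (x - y) * z‖ ≤ ‖x - y‖ + ‖(x - y) * z‖ := norm_sub_le _ _
      _ ≤ ‖x - y‖ + ‖x - y‖ * ‖z‖ := by gcongr; exact norm_mul_le _ _
      _ ≤ ‖x - y‖ + ‖x - y‖ * 1 := by gcongr; exact proj_norm_le hzs hzz
      _ < ε := by linarith
  have hpr : ∀ a : A, a - a * p n ∈ I := by
    refine hdA _ (hIcl.preimage (continuous_id.sub (continuous_mul_const _))) ?_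
    intro j a ha
    refine hKI j (Submodule.subset_span ⟨a, ha, p (n + j), hp.mem _, ?_⟩)
    rw [mul_sub, sub_mul, hp.right _ a ha, mul_assoc, hp.le_mul (Nat.le_add_right n j),
      hp.right _ a ha]
  have hpl : ∀ a : A, a - p n * a ∈ I := by
    intro a
    have := hs _ (hpr (star a))
    rwa [star_sub, star_mul, star_star, hp.star] at this
  have hpn : p n ∈ I := steno_quot hA I hIcl hl hr hs hap (p n) hpr hpl
  obtain ⟨j, y, hy, hpy⟩ := hmemI _ hpn 1 one_pos
  refine ⟨n + j, Nat.le_add_right n j, ?_⟩
  obtain ⟨z, hz, hzs, hzz, hzu⟩ := idl_unit (S (n + j)) (p (n + j) - p n)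
    (hd _ (Nat.le_add_right n j)) (hds _)
  have hpS : p n ∈ S (n + j) := hp.mono (Nat.le_add_right n j) (hp.mem n)
  have hpz : p n * z ∈ idl (S (n + j)) (p (n + j) - p n) := idl_mul_left hpS hz
  have hzp : z * p n ∈ idl (S (n + j)) (p (n + j) - p n) := idl_mul_right hpS hz
  have hcomm : z * p n = p n * z := by
    rw [← (hzu _ hpz).1, ← mul_assoc, (hzu _ hzp).2]
  set r := p n - p n * z with hr'
  have hrs : star r = r := by rw [hr', star_sub, star_mul, hp.star, hzs, hcomm]
  have hrr : r * r = r := by
    have h1 : p n * z * (p n * z) = p n * z := by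
      rw [mul_assoc, ← mul_assoc z, hcomm, mul_assoc, hzz, ← mul_assoc, hp.idem]
    have h2 : p n * z * p n = p n * z := by rw [mul_assoc, hcomm, ← mul_assoc, hp.idem]
    have h3 : p n * (p n * z) = p n * z := by rw [← mul_assoc, hp.idem]
    rw [hr', sub_mul, mul_sub, mul_sub, hp.idem, h1, h2, h3]; abel
  have hry : r * y = 0 := by
    rw [hr', sub_mul, mul_assoc, (hzu y hy).1, sub_self]
  have hrp : r * p n = r := by
    rw [hr', sub_mul, hp.idem, mul_assoc, hcomm, ← mul_assoc, hp.idem]
  have hr0 : r = 0 := by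
    by_contra hne
    have h1 : r = r * (p n - y) := by rw [mul_sub, hrp, hry, sub_zero]
    have h2 : ‖r‖ ≤ ‖r‖ * ‖p n - y‖ := by
      calc ‖r‖ = ‖r * (p n - y)‖ := by rw [← h1]
        _ ≤ _ := norm_mul_le _ _
    have h3 : 0 < ‖r‖ := norm_pos_iff.2 hne
    nlinarith
  rw [hr', sub_eq_zero] at hr0
  rw [← hr0] at hpz
  exact hpz

end AF


section Step

variable {A : Type} [NonUnitalCStarAlgebra A]

theorem step_layers (hA : ∀ (D : Type) [CStarAlgebra D], Nontrivial D →
      ∀ φ : A →⋆ₙₐ[ℂ] D, ¬ Function.Surjective φ)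
    {S : ℕ → NonUnitalStarSubalgebra ℂ A} {p : ℕ → A} (hp : UnitSeq S p) (n : ℕ) {q : A}
    (hq : q ∈ S n) (hqs : star q = q) (hqq : q * q = q) (N : ℕ) :
    ∃ (m : ℕ) (q' : A) (f : Fin (N + 1) → Fin (N + 1) → A), n ≤ m ∧ q' ∈ S m ∧ star q' = q' ∧
      q' * q' = q' ∧ p n * q' = p n ∧ (∀ a b, star (f a b) = f b a) ∧
      (∀ a b c d, f a b * f c d = if b = c then f a d else 0) ∧
      ∑ a, f a a = q' - q ∧
      p n ∈ Submodule.span ℂ {y : A | ∃ a b : A, y = a * f 0 0 * b} := by
  choose Y hYle hY using full_layer hA hp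
  let m : ℕ → ℕ := fun i => Y^[i] n
  have hm0 : m 0 = n := rfl
  have hms : ∀ i, m (i + 1) = Y (m i) := fun i => Function.iterate_succ_apply' Y i n
  have hmmono : Monotone m := by
    refine monotone_nat_of_le_succ fun i => ?_
    rw [hms]; exact hYle _
  have hlay : ∀ i, p (m i) ∈ idl (S (m (i + 1))) (p (m (i + 1)) - p (m i)) := by
    intro i; rw [hms]; exact hY _
  clear_value m
  set h : ℕ → A := fun i => p (m (i + 1)) - p (m i) with hh
  have hhS : ∀ i, h i ∈ S (m (i + 1)) := fun i =>
    sub_mem (hp.mem _) (hp.mono (hmmono (Nat.le_succ i)) (hp.mem _))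
  have hhs : ∀ i, star (h i) = h i := fun i => by rw [hh]; simp only [star_sub, hp.star]
  have hpp : ∀ i j, i ≤ j → p (m i) * p (m j) = p (m i) := fun i j hij => hp.le_mul (hmmono hij)
  have hpp' : ∀ i j, i ≤ j → p (m j) * p (m i) = p (m i) := fun i j hij => hp.le_mul' (hmmono hij)
  have hhh : ∀ i, h i * h i = h i := fun i => by
    simp only [hh, mul_sub, sub_mul, hp.idem, hpp i (i + 1) (Nat.le_succ i),
      hpp' i (i + 1) (Nat.le_succ i)]
    abel
  have hph : ∀ i j, i ≤ j → p (m i) * h j = 0 := fun i j hij => by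
    simp only [hh, mul_sub, hpp i (j + 1) (by omega), hpp i j hij, sub_self]
  have hhp : ∀ i j, i ≤ j → h j * p (m i) = 0 := fun i j hij => by
    simp only [hh, sub_mul, hpp' i (j + 1) (by omega), hpp' i j hij, sub_self]
  have hhp1 : ∀ i j, i < j → h i * p (m j) = h i := fun i j hij => by
    simp only [hh, sub_mul, hpp (i + 1) j (by omega), hpp i j (by omega)]
  have hp1h : ∀ i j, i < j → p (m j) * h i = h i := fun i j hij => by
    simp only [hh, mul_sub, hpp' (i + 1) j (by omega), hpp' i j (by omega)]
  have hho : ∀ i j, i < j → h i * h j = 0 := fun i j hij => by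
    rw [← hhp1 i j hij, mul_assoc, hph j j le_rfl, mul_zero]
  have hho' : ∀ i j, i < j → h j * h i = 0 := fun i j hij => by
    have := congrArg star (hho i j hij)
    rwa [star_mul, hhs, hhs, star_zero] at this
  have hqp : q * p n = q := hp.right n q hq
  have hpq : p n * q = q := hp.left n q hq
  have hqp' : ∀ i, q * p (m i) = q := fun i => by
    rw [← hqp, mul_assoc, ← hm0, hpp 0 i (Nat.zero_le i)]
  have hpq' : ∀ i, p (m i) * q = q := fun i => by
    rw [← hpq, ← mul_assoc, ← hm0, hpp' 0 i (Nat.zero_le i)]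
  set x : A := (p n - q) + h 0 with hx
  have hx' : x = p (m 1) - q := by rw [hx, hh]; simp only [hm0]; abel
  set M := m (N + 2) with hM
  have hnM : n ≤ M := by rw [← hm0]; exact hmmono (Nat.zero_le _)
  have hxM : x ∈ S M := by
    rw [hx']
    exact sub_mem (hp.mono (hmmono (by omega)) (hp.mem _)) (hp.mono hnM hq)
  have hxs : star x = x := by rw [hx', star_sub, hp.star, hqs]
  have hxx : x * x = x := by
    rw [hx', mul_sub, sub_mul, sub_mul, hp.idem, hqq, hqp', hpq']; abel
  have hfdS := hp.fd
  have hdec : Dec (S M) x := dec_of_proj (S M) _ hxM hxs hxx rfl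
  set H : Fin (N + 1) → A := fun b => h ((b : ℕ) + 1) with hH
  have hpH : ∀ b : Fin (N + 1), p (m 1) * H b = 0 := fun b => hph 1 _ (by omega)
  have hqH : ∀ b : Fin (N + 1), q * H b = 0 := fun b => by
    rw [← hqp' 1, mul_assoc, hpH, mul_zero]
  have hxH : ∀ b, x * H b = 0 := fun b => by
    rw [hx', sub_mul, hpH, hqH, sub_zero]
  obtain ⟨f, g, hfT, hfs, hff, hgT, hgs, hgg, hgH, hsum⟩ :=
    matrix_units (S M) N H (fun b => hp.mono (hmmono (by omega)) (hhS _)) (fun b => hhs _)
      (fun b => hhh _) (by
        intro b c hbc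
        rcases lt_or_gt_of_ne (fun h : (b : ℕ) = c => hbc (Fin.ext h)) with hlt | hlt
        · exact hho _ _ (by omega)
        · exact hho' _ _ (by omega)) hdec hxH (by
        intro b e he hxe
        by_contra hcon
        push Not at hcon
        have h1 : p (m ((b : ℕ) + 1)) * e = e := by
          have : p (m ((b : ℕ) + 1)) * x = x := by
            rw [hx', mul_sub, hpp' 1 _ (by omega), hpq']
          rw [← hxe, ← mul_assoc, this]
        have h2 : ∀ y ∈ idl (S (m ((b : ℕ) + 1 + 1))) (p (m ((b : ℕ) + 1 + 1)) - p (m ((b : ℕ) + 1))),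
            y * e = 0 := by
          intro y hy
          unfold idl at hy
          induction hy using Submodule.span_induction with
          | mem y hy =>
            obtain ⟨a, ha, c, hc, rfl⟩ := hy
            have h3 := hcon c (hp.mono (hmmono (by omega)) hc)
            have h4 : a * (p (m ((b : ℕ) + 1 + 1)) - p (m ((b : ℕ) + 1))) * c * e
                = a * (H b * c * e) := by
              simp only [hH, hh, mul_assoc]
            rw [h4, h3, mul_zero]
          | zero => rw [zero_mul]
          | add y z _ _ h1 h2 => rw [add_mul, h1, h2, add_zero]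
          | smul c y _ h1 => rw [smul_mul_assoc, h1, smul_zero]
        have h5 := h2 _ (hlay ((b : ℕ) + 1))
        rw [h1] at h5
        exact he.2.2.2.1 h5)
  have hHg : (∑ b, H b) * g = g := by
    have := congrArg star hgH
    rwa [star_mul, star_sum, hgs, Finset.sum_congr rfl (fun b _ => hhs _)] at this
  have hpg : p (m 1) * g = 0 := by
    rw [← hHg, ← mul_assoc, Finset.mul_sum, Finset.sum_congr rfl (fun b _ => hpH b)]
    simp
  have hgp : g * p (m 1) = 0 := by
    have := congrArg star hpg
    rwa [star_mul, hgs, hp.star, star_zero] at this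
  have hpn1 : p n * p (m 1) = p n := by rw [← hm0]; exact hpp 0 1 (Nat.zero_le 1)
  refine ⟨M, p (m 1) + g, f, hnM, add_mem (hp.mono (hmmono (by omega)) (hp.mem _)) hgT, ?_, ?_, ?_,
    hfs, hff, ?_, ?_⟩
  · rw [star_add, hp.star, hgs]
  · rw [mul_add, add_mul, add_mul, hp.idem, hgg, hpg, hgp]; simp
  · have : p n * g = 0 := by rw [← hpn1, mul_assoc, hpg, mul_zero]
    rw [mul_add, this, hpn1, add_zero]
  · rw [hsum, hx']; abel
  · set J := Submodule.span ℂ {y : A | ∃ a b : A, y = a * f 0 0 * b} with hJ
    have hJl : ∀ a x : A, x ∈ J → a * x ∈ J := by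
      intro a x hx
      rw [hJ] at hx
      induction hx using Submodule.span_induction with
      | mem y hy =>
        obtain ⟨b, c, rfl⟩ := hy
        exact Submodule.subset_span ⟨a * b, c, by simp only [mul_assoc]⟩
      | zero => rw [mul_zero]; exact Submodule.zero_mem _
      | add y z _ _ h1 h2 => rw [mul_add]; exact Submodule.add_mem _ h1 h2
      | smul c y _ h1 => rw [mul_smul_comm]; exact Submodule.smul_mem _ _ h1
    have hJr : ∀ a x : A, x ∈ J → x * a ∈ J := by
      intro a x hx
      rw [hJ] at hx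
      induction hx using Submodule.span_induction with
      | mem y hy =>
        obtain ⟨b, c, rfl⟩ := hy
        exact Submodule.subset_span ⟨b, c * a, by simp only [mul_assoc]⟩
      | zero => rw [zero_mul]; exact Submodule.zero_mem _
      | add y z _ _ h1 h2 => rw [add_mul]; exact Submodule.add_mem _ h1 h2
      | smul c y _ h1 => rw [smul_mul_assoc]; exact Submodule.smul_mem _ _ h1
    have hfJ : ∀ a, f a a ∈ J := by
      intro a
      refine Submodule.subset_span ⟨f a 0, f 0 a, ?_⟩
      rw [hff, if_pos rfl, hff, if_pos rfl]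
    have hxgJ : x + g ∈ J := by
      rw [← hsum]; exact Submodule.sum_mem _ (fun a _ => hfJ a)
    have hh0J : h 0 ∈ J := by
      have h1 : h 0 * (x + g) = h 0 := by
        have h2 : h 0 * g = 0 := by
          rw [← hhp1 0 1 (by omega), mul_assoc, hpg, mul_zero]
        have h3 : h 0 * q = 0 := by
          rw [← hpq, ← mul_assoc, ← hm0, hhp 0 0 le_rfl, zero_mul]
        rw [mul_add, h2, hx', mul_sub, hhp1 0 1 (by omega), h3]; simp
      rw [← h1]; exact hJl _ _ hxgJ
    have h4 := hlay 0
    rw [hm0] at h4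
    have h5 : idl (S (m (0 + 1))) (p (m (0 + 1)) - p n) ≤ J := by
      apply Submodule.span_le.2
      rintro _ ⟨a, _, b, _, rfl⟩
      have : p (m (0 + 1)) - p n = h 0 := by rw [hh]; simp only [hm0]
      rw [this]
      exact hJr _ _ (hJl _ _ hh0J)
    exact h5 h4

/-- matrix units give a star homomorphism from matrices -/
noncomputable def munit {N : ℕ} (f : Fin (N + 1) → Fin (N + 1) → A)
    (hfs : ∀ a b, star (f a b) = f b a)
    (hff : ∀ a b c d, f a b * f c d = if b = c then f a d else 0) :
    Matrix (Fin (N + 1)) (Fin (N + 1)) ℂ →⋆ₙₐ[ℂ] A where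
  toFun M := ∑ a, ∑ b, M a b • f a b
  map_smul' z M := by
    simp only [Matrix.smul_apply, smul_eq_mul, mul_smul, Finset.smul_sum, MonoidHom.id_apply]
  map_zero' := by simp
  map_add' M M' := by
    simp only [Matrix.add_apply, add_smul, Finset.sum_add_distrib]
  map_mul' M M' := by
    have h1 : (∑ a, ∑ b, M a b • f a b) * (∑ c, ∑ d, M' c d • f c d)
        = ∑ a, ∑ b, ∑ c, ∑ d, (M a b * M' c d) • (f a b * f c d) := by
      rw [Finset.sum_mul]
      refine Finset.sum_congr rfl fun a _ => ?_
      rw [Finset.sum_mul]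
      refine Finset.sum_congr rfl fun b _ => ?_
      rw [Finset.mul_sum]
      refine Finset.sum_congr rfl fun c _ => ?_
      rw [Finset.mul_sum]
      exact Finset.sum_congr rfl fun d _ => smul_mul_smul_comm _ _ _ _
    rw [h1]
    refine Finset.sum_congr rfl fun a _ => ?_
    simp only [Matrix.mul_apply, Finset.sum_smul]
    rw [Finset.sum_comm]
    refine Finset.sum_congr rfl fun b _ => ?_
    rw [Finset.sum_eq_single (f := fun c => ∑ d, (M a b * M' c d) • (f a b * f c d)) b]
    · refine Finset.sum_congr rfl fun d _ => ?_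
      rw [hff, if_pos rfl]
    · intro c _ hc
      refine Finset.sum_eq_zero fun d _ => ?_
      rw [hff, if_neg (Ne.symm hc), smul_zero]
    · intro h; exact absurd (Finset.mem_univ b) h
  map_star' M := by
    simp only [star_sum, star_smul, hfs, Matrix.star_apply]
    rw [Finset.sum_comm]

theorem munit_apply {N : ℕ} (f : Fin (N + 1) → Fin (N + 1) → A)
    (hfs : ∀ a b, star (f a b) = f b a)
    (hff : ∀ a b c d, f a b * f c d = if b = c then f a d else 0)
    (M : Matrix (Fin (N + 1)) (Fin (N + 1)) ℂ) :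
    munit f hfs hff M = ∑ a, ∑ b, M a b • f a b := rfl

theorem munit_entry {N : ℕ} (f : Fin (N + 1) → Fin (N + 1) → A)
    (hfs : ∀ a b, star (f a b) = f b a)
    (hff : ∀ a b c d, f a b * f c d = if b = c then f a d else 0)
    (M : Matrix (Fin (N + 1)) (Fin (N + 1)) ℂ) (a b : Fin (N + 1)) :
    f 0 a * munit f hfs hff M * f b 0 = M a b • f 0 0 := by
  rw [munit_apply]
  simp only [Finset.mul_sum, Finset.sum_mul, mul_smul_comm, smul_mul_assoc, hff]
  rw [Finset.sum_eq_single a, Finset.sum_eq_single b]
  · simp [hff]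
  · intro c _ hc
    simp [hff, hc]
  · intro h; exact absurd (Finset.mem_univ b) h
  · intro c _ hc
    refine Finset.sum_eq_zero fun d _ => ?_
    simp [Ne.symm hc]
  · intro h; exact absurd (Finset.mem_univ a) h

end Step


end Steno

end Pool.Agent.H763
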