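import Mathlib

set_option autoImplicit false

namespace Pool.Agent.H763
open scoped MultiplierAlgebra

namespace StenoMult

open Filter Topology

variable {A : Type} [NonUnitalCStarAlgebra A]

theorem exists_mult (s : ℕ → A) (C : ℝ) (hb : ∀ m, ‖s m‖ ≤ C)
    (h1 : ∀ a, CauchySeq fun m => s m * a) (h2 : ∀ a, CauchySeq fun m => a * s m) :
    ∃ T : 𝓜(ℂ, A), (∀ a, Tendsto (fun m => s m * a) atTop (𝓝 (T.fst a))) ∧
      (∀ a, Tendsto (fun m => a * s m) atTop (𝓝 (T.snd a))) := by
  choose L hL using fun a => cauchySeq_tendsto_of_complete (h1 a)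
  choose R hR using fun a => cauchySeq_tendsto_of_complete (h2 a)
  have Ladd : ∀ a b, L (a + b) = L a + L b := fun a b =>
    tendsto_nhds_unique (hL (a + b)) (by simpa [mul_add] using (hL a).add (hL b))
  have Lsmul : ∀ (r : ℂ) a, L (r • a) = r • L a := fun r a =>
    tendsto_nhds_unique (hL (r • a)) (by simpa [mul_smul_comm] using (hL a).const_smul r)
  have Radd : ∀ a b, R (a + b) = R a + R b := fun a b =>
    tendsto_nhds_unique (hR (a + b)) (by simpa [add_mul] using (hR a).add (hR b))
  have Rsmul : ∀ (r : ℂ) a, R (r • a) = r • R a := fun r a =>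
    tendsto_nhds_unique (hR (r • a)) (by simpa [smul_mul_assoc] using (hR a).const_smul r)
  let f : A →L[ℂ] A := LinearMap.mkContinuous
    { toFun := L, map_add' := Ladd, map_smul' := Lsmul } C (fun a =>
      le_of_tendsto (hL a).norm (Eventually.of_forall fun m =>
        (norm_mul_le _ _).trans (mul_le_mul_of_nonneg_right (hb m) (norm_nonneg _))))
  let g : A →L[ℂ] A := LinearMap.mkContinuous
    { toFun := R, map_add' := Radd, map_smul' := Rsmul } C (fun a =>
      le_of_tendsto (hR a).norm (Eventually.of_forall fun m =>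
        (norm_mul_le _ _).trans (by
          rw [mul_comm]
          exact mul_le_mul_of_nonneg_right (hb m) (norm_nonneg _))))
  refine ⟨⟨(f, g), ?_⟩, hL, hR⟩
  intro x y
  show R x * y = x * L y
  refine tendsto_nhds_unique ((hR x).mul_const y) ?_
  have := (hL y).const_mul x
  simpa [mul_assoc] using this

theorem mult_ext {T T' : 𝓜(ℂ, A)} (h1 : ∀ a, T.fst a = T'.fst a) (h2 : ∀ a, T.snd a = T'.snd a) :
    T = T' := by
  apply DoubleCentralizer.ext
  apply Prod.ext
  · ext a; exact h1 a
  · ext a; exact h2 a

end StenoMult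

open StenoMult Filter Topology in
/-- Strict sums in the multiplier algebra. -/
theorem steno_mult {A : Type} [NonUnitalCStarAlgebra A] {C : Type} [CStarAlgebra C]
    (q : ℕ → A) (hqs : ∀ k, star (q k) = q k) (hqq : ∀ k, q k * q k = q k)
    (hmono : ∀ k, q k * q (k + 1) = q k)
    (happ : ∀ a : A, Filter.Tendsto (fun k => q k * a) Filter.atTop (nhds a))
    (T : ℕ → NonUnitalStarSubalgebra ℂ C) (hT : Monotone T)
    (hfd : ∀ k, FiniteDimensional ℂ (T k)) (h1 : ∀ k, (1 : C) ∈ T k)
    (ψ : ∀ k, T k →⋆ₙₐ[ℂ] A)
    (hψ1 : ∀ k, ψ k ⟨1, h1 k⟩ = q (k + 1) - q k) :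
    ∃ Ψ : ∀ k, T k →⋆ₙₐ[ℂ] 𝓜(ℂ, A),
      (∀ k (c : T k), Ψ k c = (DoubleCentralizer.coeHom (𝕜 := ℂ) (ψ k c) : 𝓜(ℂ, A))
          + Ψ (k + 1) ⟨c, hT (Nat.le_succ k) c.2⟩) ∧
      (∀ k, Ψ k ⟨1, h1 k⟩ = 1 - (DoubleCentralizer.coeHom (𝕜 := ℂ) (q k) : 𝓜(ℂ, A))) := by
  classical
  have qq : ∀ i j, i ≤ j → q i * q j = q i := by
    intro i j hij
    induction j, hij using Nat.le_induction with
    | base => exact hqq i
    | succ j hij ih =>
      calc q i * q (j + 1) = (q i * q j) * q (j + 1) := by rw [ih]
        _ = q i * (q j * q (j + 1)) := by rw [mul_assoc]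
        _ = q i := by rw [hmono, ih]
  have qq' : ∀ i j, i ≤ j → q j * q i = q i := by
    intro i j hij
    have := congrArg star (qq i j hij)
    rwa [star_mul, hqs, hqs] at this
  let d : ℕ → A := fun l => q (l + 1) - q l
  have dq : ∀ l j, j ≤ l → d l * q j = 0 := by
    intro l j h
    show (q (l + 1) - q l) * q j = 0
    rw [sub_mul, qq' j (l + 1) (by omega), qq' j l h, sub_self]
  have dd : ∀ l m, l ≠ m → d l * d m = 0 := by
    intro l m h
    rcases lt_or_gt_of_ne h with h | h
    · show (q (l + 1) - q l) * (q (m + 1) - q m) = 0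
      rw [mul_sub, sub_mul, sub_mul, qq (l + 1) (m + 1) (by omega), qq l (m + 1) (by omega),
        qq (l + 1) m (by omega), qq l m (by omega), sub_self]
    · show d l * (q (m + 1) - q m) = 0
      rw [mul_sub, dq l (m + 1) (by omega), dq l m (by omega), sub_self]
  have ψd : ∀ l (c : T l), ψ l c * d l = ψ l c := by
    intro l c
    show ψ l c * (q (l + 1) - q l) = ψ l c
    rw [← hψ1, ← map_mul]
    congr 1
    ext; simp
  have dψ : ∀ l (c : T l), d l * ψ l c = ψ l c := by
    intro l c
    show (q (l + 1) - q l) * ψ l c = ψ l c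
    rw [← hψ1, ← map_mul]
    congr 1
    ext; simp
  have orth : ∀ l m (c : T l) (c' : T m), l ≠ m → ψ l c * ψ m c' = 0 := by
    intro l m c c' h
    rw [← ψd l c, ← dψ m c', mul_assoc, ← mul_assoc (d l), dd l m h, zero_mul, mul_zero]
  -- the finite sums
  let S : ∀ (k m : ℕ), T k →⋆ₙₐ[ℂ] A := fun k m =>
    { toFun := fun c => ∑ l ∈ Finset.range m, ψ (k + l) ⟨c, hT (Nat.le_add_right k l) c.2⟩
      map_smul' := by
        intro r c
        simp only [MonoidHom.id_apply, Finset.smul_sum]
        refine Finset.sum_congr rfl fun l _ => ?_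
        rw [← map_smul]; rfl
      map_zero' := by
        refine Finset.sum_eq_zero fun l _ => ?_
        exact map_zero (ψ (k + l))
      map_add' := by
        intro c c'
        rw [← Finset.sum_add_distrib]
        refine Finset.sum_congr rfl fun l _ => ?_
        rw [← map_add]; rfl
      map_mul' := by
        intro c c'
        rw [Finset.sum_mul_sum]
        refine Finset.sum_congr rfl fun l hl => ?_
        rw [Finset.sum_eq_single l]
        · rw [← map_mul]; rfl
        · intro m _ hm
          exact orth _ _ _ _ (by omega)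
        · intro h; exact absurd hl h
      map_star' := by
        intro c
        rw [star_sum]
        refine Finset.sum_congr rfl fun l _ => ?_
        rw [← map_star]; rfl }
  have hS : ∀ k m (c : T k), S k m c =
      ∑ l ∈ Finset.range m, ψ (k + l) ⟨c, hT (Nat.le_add_right k l) c.2⟩ := fun _ _ _ => rfl
  have hnorm : ∀ k m (c : T k), ‖S k m c‖ ≤ ‖c‖ := by
    intro k m c
    have : IsClosed (T k : Set C) := by
      have h2 : FiniteDimensional ℂ (T k).toNonUnitalSubalgebra.toSubmodule := hfd k
      exact Submodule.closed_of_finiteDimensional (T k).toNonUnitalSubalgebra.toSubmodule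
    exact NonUnitalStarAlgHom.norm_apply_le (S k m) c
  -- eventually constant on `q j`
  have hev : ∀ k (c : T k) j m, j ≤ m → S k m c * q j = S k j c * q j := by
    intro k c j m hjm
    rw [hS, hS, Finset.sum_mul, Finset.sum_mul]
    symm
    apply Finset.sum_subset (Finset.range_subset_range.2 hjm)
    intro l _ hl
    rw [Finset.mem_range, not_lt] at hl
    rw [← ψd, mul_assoc, dq _ _ (by omega), mul_zero]
  have hcl : ∀ k (c : T k) (a : A), CauchySeq fun m => S k m c * a := by
    intro k c a
    rw [Metric.cauchySeq_iff']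
    intro ε hε
    have h2 : Tendsto (fun j => ‖q j * a - a‖) atTop (𝓝 0) := by
      have := (happ a).sub_const a
      rw [sub_self] at this
      simpa using this.norm
    have h3 : ∀ᶠ j in atTop, ‖q j * a - a‖ < ε / (2 * (‖c‖ + 1)) :=
      (tendsto_order.1 h2).2 _ (by positivity)
    obtain ⟨j, hj⟩ := h3.exists
    refine ⟨j, fun m hm => ?_⟩
    rw [dist_eq_norm]
    have e1 : S k m c * a - S k j c * a
        = (S k j c * (q j * a - a)) - (S k m c * (q j * a - a)) := by
      have h4 : S k m c * (q j * a) = S k j c * (q j * a) := by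
        rw [← mul_assoc, ← mul_assoc, hev k c j m hm]
      rw [mul_sub, mul_sub, h4]; abel
    rw [e1]
    have n1 : ‖S k j c * (q j * a - a)‖ ≤ ‖c‖ * ‖q j * a - a‖ :=
      (norm_mul_le _ _).trans (mul_le_mul_of_nonneg_right (hnorm k j c) (norm_nonneg _))
    have n2 : ‖S k m c * (q j * a - a)‖ ≤ ‖c‖ * ‖q j * a - a‖ :=
      (norm_mul_le _ _).trans (mul_le_mul_of_nonneg_right (hnorm k m c) (norm_nonneg _))
    calc ‖S k j c * (q j * a - a) - S k m c * (q j * a - a)‖
        ≤ ‖c‖ * ‖q j * a - a‖ + ‖c‖ * ‖q j * a - a‖ := (norm_sub_le _ _).trans (add_le_add n1 n2)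
      _ ≤ (‖c‖ + 1) * ‖q j * a - a‖ + (‖c‖ + 1) * ‖q j * a - a‖ := by
        have := norm_nonneg (q j * a - a)
        nlinarith
      _ < ε := by
        have h5 : (‖c‖ + 1) * ‖q j * a - a‖ < (‖c‖ + 1) * (ε / (2 * (‖c‖ + 1))) :=
          mul_lt_mul_of_pos_left hj (by positivity)
        have h6 : (‖c‖ + 1) * (ε / (2 * (‖c‖ + 1))) = ε / 2 := by
          have : (‖c‖ + 1) ≠ 0 := by positivity
          field_simp
        linarith
  have hcr : ∀ k (c : T k) (a : A), CauchySeq fun m => a * S k m c := by
    intro k c a
    obtain ⟨x, hx⟩ := cauchySeq_tendsto_of_complete (hcl k (star c) (star a))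
    have h2 : Tendsto (fun m => star (S k m (star c) * star a)) atTop (𝓝 (star x)) :=
      (continuous_star.tendsto x).comp hx
    have h3 : (fun m => star (S k m (star c) * star a)) = fun m => a * S k m c := by
      ext m
      rw [star_mul, star_star, map_star, star_star]
    rw [h3] at h2
    exact h2.cauchySeq
  choose P hP1 hP2 using fun k (c : T k) =>
    exists_mult (fun m => S k m c) ‖c‖ (fun m => hnorm k m c) (hcl k c) (hcr k c)
  let Ψ : ∀ k, T k →⋆ₙₐ[ℂ] 𝓜(ℂ, A) := fun k =>
    { toFun := P k
      map_smul' := by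
        intro r c
        apply mult_ext
        · intro a
          refine tendsto_nhds_unique (hP1 k (r • c) a) ?_
          have := (hP1 k c a).const_smul r
          simpa [map_smul, smul_mul_assoc] using this
        · intro a
          refine tendsto_nhds_unique (hP2 k (r • c) a) ?_
          have := (hP2 k c a).const_smul r
          simpa [map_smul, mul_smul_comm] using this
      map_zero' := by
        apply mult_ext
        · intro a
          refine tendsto_nhds_unique (hP1 k 0 a) ?_
          simp [map_zero]
        · intro a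
          refine tendsto_nhds_unique (hP2 k 0 a) ?_
          simp [map_zero]
      map_add' := by
        intro c c'
        apply mult_ext
        · intro a
          refine tendsto_nhds_unique (hP1 k (c + c') a) ?_
          have := (hP1 k c a).add (hP1 k c' a)
          simpa [map_add, add_mul] using this
        · intro a
          refine tendsto_nhds_unique (hP2 k (c + c') a) ?_
          have := (hP2 k c a).add (hP2 k c' a)
          simpa [map_add, mul_add] using this
      map_mul' := by
        intro c c'
        apply mult_ext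
        · intro a
          refine tendsto_nhds_unique (hP1 k (c * c') a) ?_
          have h2 : Tendsto (fun m => S k m c * (S k m c' * a - (P k c').fst a)) atTop (𝓝 0) := by
            have h3 : Tendsto (fun m => ‖c‖ * ‖S k m c' * a - (P k c').fst a‖) atTop (𝓝 0) := by
              have h4 := ((hP1 k c' a).sub_const ((P k c').fst a)).norm.const_mul ‖c‖
              simpa using h4
            refine squeeze_zero_norm (fun m => ?_) h3
            exact (norm_mul_le _ _).trans (mul_le_mul_of_nonneg_right (hnorm k m c) (norm_nonneg _))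
          have h5 := h2.add (hP1 k c ((P k c').fst a))
          rw [zero_add] at h5
          refine h5.congr fun m => ?_
          rw [map_mul, mul_sub, mul_assoc]; abel
        · intro a
          refine tendsto_nhds_unique (hP2 k (c * c') a) ?_
          have h2 : Tendsto (fun m => (a * S k m c - (P k c).snd a) * S k m c') atTop (𝓝 0) := by
            have h3 : Tendsto (fun m => ‖a * S k m c - (P k c).snd a‖ * ‖c'‖) atTop (𝓝 0) := by
              have h4 := ((hP2 k c a).sub_const ((P k c).snd a)).norm.mul_const ‖c'‖
              simpa using h4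
            refine squeeze_zero_norm (fun m => ?_) h3
            exact (norm_mul_le _ _).trans (mul_le_mul_of_nonneg_left (hnorm k m c') (norm_nonneg _))
          have h5 := h2.add (hP2 k c' ((P k c).snd a))
          rw [zero_add] at h5
          refine h5.congr fun m => ?_
          rw [map_mul, sub_mul, mul_assoc]; abel
      map_star' := by
        intro c
        apply mult_ext
        · intro a
          refine tendsto_nhds_unique (hP1 k (star c) a) ?_
          have h2 := (continuous_star.tendsto _).comp (hP2 k c (star a))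
          rw [DoubleCentralizer.star_fst]
          refine h2.congr fun m => ?_
          simp [Function.comp, star_mul, map_star]
        · intro a
          refine tendsto_nhds_unique (hP2 k (star c) a) ?_
          have h2 := (continuous_star.tendsto _).comp (hP1 k c (star a))
          rw [DoubleCentralizer.star_snd]
          refine h2.congr fun m => ?_
          simp [Function.comp, star_mul, map_star] }
  have hΨ : ∀ k c, Ψ k c = P k c := fun _ _ => rfl
  refine ⟨Ψ, ?_, ?_⟩
  · intro k c
    have hidx : ∀ (i j : ℕ) (h : i = j) (hi : (c : C) ∈ T i) (hj : (c : C) ∈ T j),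
        ψ i ⟨c, hi⟩ = ψ j ⟨c, hj⟩ := by
      intro i j h hi hj
      subst h
      rfl
    have hshift : ∀ m, S k (m + 1) c = ψ k c + S (k + 1) m ⟨c, hT (Nat.le_succ k) c.2⟩ := by
      intro m
      rw [hS, hS, Finset.sum_range_succ', add_comm]
      congr 1
      refine Finset.sum_congr rfl fun l _ => ?_
      exact hidx _ _ (by omega) _ _
    rw [hΨ, hΨ]
    apply mult_ext
    · intro a
      refine tendsto_nhds_unique ((tendsto_add_atTop_iff_nat 1).2 (hP1 k c a)) ?_
      have h2 := (hP1 (k + 1) ⟨c, hT (Nat.le_succ k) c.2⟩ a).const_add (ψ k c * a)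
      refine h2.congr fun m => ?_
      rw [hshift, add_mul]
    · intro a
      refine tendsto_nhds_unique ((tendsto_add_atTop_iff_nat 1).2 (hP2 k c a)) ?_
      have h2 := (hP2 (k + 1) ⟨c, hT (Nat.le_succ k) c.2⟩ a).const_add (a * ψ k c)
      refine h2.congr fun m => ?_
      rw [hshift, mul_add]
  · intro k
    have htel : ∀ m, S k m ⟨1, h1 k⟩ = q (k + m) - q k := by
      intro m
      rw [hS]
      have : ∀ l, ψ (k + l) ⟨1, hT (Nat.le_add_right k l) (h1 k)⟩ = q (k + (l + 1)) - q (k + l) :=
        fun l => hψ1 (k + l)
      simp only [this]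
      rw [Finset.sum_range_sub (fun l => q (k + l))]
      rfl
    rw [hΨ]
    have hqa : ∀ a, Tendsto (fun m => q (k + m) * a) atTop (𝓝 a) := by
      intro a
      have := (tendsto_add_atTop_iff_nat k).2 (happ a)
      refine this.congr fun m => ?_
      rw [add_comm]
    have hqa' : ∀ a, Tendsto (fun m => a * q (k + m)) atTop (𝓝 a) := by
      intro a
      have := (continuous_star.tendsto _).comp (hqa (star a))
      rw [star_star] at this
      refine this.congr fun m => ?_
      simp [Function.comp, star_mul, hqs]
    apply mult_ext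
    · intro a
      refine tendsto_nhds_unique (hP1 k ⟨1, h1 k⟩ a) ?_
      have h2 := (hqa a).sub_const (q k * a)
      refine h2.congr fun m => ?_
      rw [htel, sub_mul]
    · intro a
      refine tendsto_nhds_unique (hP2 k ⟨1, h1 k⟩ a) ?_
      have h2 := (hqa' a).sub_const (a * q k)
      refine h2.congr fun m => ?_
      rw [htel, mul_sub]

end Pool.Agent.H763
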